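import Pool.Agent.CA247.Jay

set_option autoImplicit false

namespace CA247

def D6 (f : List H → ℚ) (s : List (H ⊕ Fin 3)) (i j : ℕ) : ℚ :=
  f (fill s ![[(i, false), (j, false)], [(i, true)], [(j, true)]])
  - f (fill s ![[(j, false), (i, false)], [(i, true)], [(j, true)]])
  + f (fill s ![[(i, false)], [(i, true), (j, false)], [(j, true)]])
  - f (fill s ![[(i, false)], [(j, false), (i, true)], [(j, true)]])
  + f (fill s ![[(i, false)], [(j, false)], [(i, true), (j, true)]])
  - f (fill s ![[(i, false)], [(j, false)], [(j, true), (i, true)]])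

/-- The rules of a function on arrow words that factors through the arrow diagram space. -/
structure ArrB (f : List H → ℚ) : Prop where
  rel : ∀ s : ℕ → ℕ, Function.Injective s → ∀ w : List H, f (w.map (fun h => (s h.1, h.2))) = f w
  cl : ∀ w : List H, ¬ (w.Nodup ∧ ∀ h ∈ w, pt h ∈ w) → f w = 0
  six : ∀ (s : List (H ⊕ Fin 3)) (i j : ℕ), (marks s).Perm [0, 1, 2] → D6 f s i j = 0

/-- Moreover isolated arrows are killed. -/
structure ArrF (f : List H → ℚ) : Prop extends ArrB f where
  iso : ∀ (u v : List H) (h : H), f (u ++ h :: pt h :: v) = 0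

/-- Injective maps of half-edges that commute with `pt`. -/
structure AutP (τ : H → H) : Prop where
  inj : Function.Injective τ
  pt : ∀ h, τ (pt h) = pt (τ h)

theorem AutJ.P {τ : H → H} (h : AutJ τ) : AutP τ := ⟨h.inj, h.pt⟩

def wt (e : ℚ) (S : Finset ℕ) : ℚ := (if 0 ∈ S then e else 1) * (if 1 ∈ S then e else 1)
def gs (e : ℚ) (f : List H → ℚ) (T : Finset ℕ) (w : List H) : ℚ :=
  ∑ S ∈ T.powerset, wt e S * f (w.map (flS S))
def Fe (e : ℚ) (f : List H → ℚ) (w : List H) : ℚ := gs e f (labs w ∪ {0, 1}) w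

variable {f : List H → ℚ} {e : ℚ}

theorem flS_pt (S : Finset ℕ) (h : H) : flS S (pt h) = pt (flS S h) := by
  unfold flS; rw [pt_fst]; split_ifs <;> rfl

theorem flS_fst (S : Finset ℕ) (h : H) : (flS S h).1 = h.1 := by
  unfold flS; split_ifs <;> simp

theorem flS_flS (S : Finset ℕ) (h : H) : flS S (flS S h) = h := by
  unfold flS
  by_cases h1 : h.1 ∈ S
  · rw [if_pos h1, if_pos (by rw [pt_fst]; exact h1), pt_pt]
  · rw [if_neg h1, if_neg h1]

theorem flS_inj (S : Finset ℕ) : Function.Injective (flS S) :=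
  fun a b h => by rw [← flS_flS S a, h, flS_flS S b]

theorem mem_labs {w : List H} {l : ℕ} : l ∈ labs w ↔ ∃ h ∈ w, h.1 = l := by
  unfold labs; simp only [List.mem_toFinset, List.mem_map]

theorem wt_symm (he : e * e = 1) (S D : Finset ℕ) : wt e (symmDiff S D) = wt e S * wt e D := by
  have h3 : e * e * e = e := by rw [he, one_mul]
  have h3' : e * (e * e) = e := by rw [he, mul_one]
  have h4 : e * e * (e * e) = 1 := by rw [he, mul_one]
  unfold wt
  simp only [Finset.mem_symmDiff]
  by_cases a : 0 ∈ S <;> by_cases b : 0 ∈ D <;> by_cases c : 1 ∈ S <;> by_cases d : 1 ∈ D <;>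
    simp [a, b, c, d] <;> linarith

def sl (τ : H → H) (l : ℕ) : ℕ := (τ (l, false)).1

theorem tau_form {τ : H → H} (hτ : AutP τ) (h : H) :
    τ h = (sl τ h.1, xor h.2 (τ (h.1, false)).2) := by
  obtain ⟨l, b⟩ := h
  cases b
  · unfold sl; simp
  · have : τ (l, true) = pt (τ (l, false)) := by rw [← hτ.pt]; rfl
    rw [this]; unfold sl pt; simp

theorem sl_inj {τ : H → H} (hτ : AutP τ) : Function.Injective (sl τ) := by
  intro l l' h
  have h1 := tau_form hτ (l, false)
  have h2 := tau_form hτ (l', false)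
  have h3 := tau_form hτ (l', true)
  simp only [Bool.false_xor, Bool.true_xor] at h1 h2 h3
  by_cases hb : (τ (l, false)).2 = (τ (l', false)).2
  · have : τ (l, false) = τ (l', false) := by rw [h1, h2, hb, h]
    exact congrArg Prod.fst (hτ.inj this)
  · have hb' : (τ (l, false)).2 = !(τ (l', false)).2 := by
      cases h5 : (τ (l, false)).2 <;> cases h6 : (τ (l', false)).2 <;> simp_all
    have : τ (l, false) = τ (l', true) := by rw [h1, h3, hb', h]
    exact congrArg Prod.fst (hτ.inj this)

theorem sl_J {τ : H → H} (hτ : AutJ τ) : (sl τ 0 = 0 ∧ sl τ 1 = 1) ∨ (sl τ 0 = 1 ∧ sl τ 1 = 0) := by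
  have h0 : sl τ 0 < 2 := by
    by_contra hc
    have := (hτ.pl (0, false)).2 (by unfold sl at hc; omega)
    simp at this
  have h1 : sl τ 1 < 2 := by
    by_contra hc
    have := (hτ.pl (1, false)).2 (by unfold sl at hc; omega)
    simp at this
  have h2 : sl τ 0 ≠ sl τ 1 := fun h => by
    have := sl_inj hτ.P h
    simp at this
  omega

theorem Fe_tau (hf : ArrB f) (he : e * e = 1) {τ : H → H} (hτ : AutJ τ) (w : List H) :
    Fe e f (w.map τ) = ((if (τ (0, false)).2 then e else 1) * (if (τ (1, false)).2 then e else 1))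
      * Fe e f w := by
  set T := labs w ∪ {0, 1} with hT
  set D := T.filter (fun l => (τ (l, false)).2 = true) with hD
  have hi := sl_inj hτ.P
  have hT2 : labs (w.map τ) ∪ {0, 1} = T.image (sl τ) := by
    rw [hT, Finset.image_union]
    congr 1
    · ext l
      rw [mem_labs, Finset.mem_image]
      constructor
      · rintro ⟨h, hh, rfl⟩
        obtain ⟨h', hh', rfl⟩ := List.mem_map.1 hh
        exact ⟨h'.1, mem_labs.2 ⟨h', hh', rfl⟩, by rw [tau_form hτ.P h']⟩
      · rintro ⟨l', hl', rfl⟩
        obtain ⟨h', hh', rfl⟩ := mem_labs.1 hl'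
        exact ⟨τ h', List.mem_map_of_mem hh', by rw [tau_form hτ.P h']⟩
    · rcases sl_J hτ with ⟨h0, h1⟩ | ⟨h0, h1⟩
      · rw [Finset.image_insert, Finset.image_singleton, h0, h1]
      · rw [Finset.image_insert, Finset.image_singleton, h0, h1]
        exact Finset.pair_comm 0 1
  have hDT : D ⊆ T := Finset.filter_subset _ _
  have hwD : ((if (τ (0, false)).2 then e else 1) * (if (τ (1, false)).2 then e else 1)) = wt e D := by
    unfold wt
    have m0 : (0 : ℕ) ∈ T := by rw [hT]; simp
    have m1 : (1 : ℕ) ∈ T := by rw [hT]; simp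
    have e0 : 0 ∈ D ↔ (τ (0, false)).2 = true := by rw [hD, Finset.mem_filter]; simp [m0]
    have e1 : 1 ∈ D ↔ (τ (1, false)).2 = true := by rw [hD, Finset.mem_filter]; simp [m1]
    simp only [e0, e1]
  rw [hwD]
  unfold Fe gs
  rw [hT2, ← hT, Finset.mul_sum]
  symm
  refine Finset.sum_bij' (fun S _ => (symmDiff S D).image (sl τ))
    (fun S _ => symmDiff (T.filter (fun l => sl τ l ∈ S)) D) ?_ ?_ ?_ ?_ ?_
  · intro S hS
    rw [Finset.mem_powerset] at hS ⊢
    apply Finset.image_subset_image
    intro l hl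
    rw [Finset.mem_symmDiff] at hl
    rcases hl with ⟨h, -⟩ | ⟨h, -⟩
    · exact hS h
    · exact hDT h
  · intro S hS
    rw [Finset.mem_powerset] at hS ⊢
    intro l hl
    rw [Finset.mem_symmDiff] at hl
    rcases hl with ⟨h, -⟩ | ⟨h, -⟩
    · exact Finset.mem_of_mem_filter _ h
    · exact hDT h
  · intro S hS
    rw [Finset.mem_powerset] at hS
    have : T.filter (fun l => sl τ l ∈ (symmDiff S D).image (sl τ)) = symmDiff S D := by
      ext l
      rw [Finset.mem_filter, Finset.mem_image]
      constructor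
      · rintro ⟨-, l', hl', h⟩
        rwa [← hi h]
      · intro hl
        refine ⟨?_, l, hl, rfl⟩
        rw [Finset.mem_symmDiff] at hl
        rcases hl with ⟨h, -⟩ | ⟨h, -⟩
        · exact hS h
        · exact hDT h
    rw [this, symmDiff_symmDiff_cancel_right]
  · intro S hS
    rw [Finset.mem_powerset] at hS
    rw [symmDiff_symmDiff_cancel_right]
    ext l
    rw [Finset.mem_image]
    constructor
    · rintro ⟨l', hl', rfl⟩
      exact (Finset.mem_filter.1 hl').2
    · intro hl
      obtain ⟨l', hl', rfl⟩ := Finset.mem_image.1 (hS hl)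
      exact ⟨l', Finset.mem_filter.2 ⟨hl', hl⟩, rfl⟩
  · intro S hS
    rw [Finset.mem_powerset] at hS
    have hw1 : wt e ((symmDiff S D).image (sl τ)) = wt e (symmDiff S D) := by
      have inj_mem : ∀ (X : Finset ℕ) (l : ℕ), sl τ l ∈ X.image (sl τ) ↔ l ∈ X := by
        intro X l
        rw [Finset.mem_image]
        constructor
        · rintro ⟨l', hl', h⟩; rwa [← hi h]
        · intro h; exact ⟨l, h, rfl⟩
      unfold wt
      rcases sl_J hτ with ⟨h0, h1⟩ | ⟨h0, h1⟩
      · have k0 := inj_mem (symmDiff S D) 0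
        have k1 := inj_mem (symmDiff S D) 1
        rw [h0] at k0; rw [h1] at k1
        simp only [k0, k1]
      · have k0 := inj_mem (symmDiff S D) 0
        have k1 := inj_mem (symmDiff S D) 1
        rw [h0] at k0; rw [h1] at k1
        simp only [k0, k1]; ring
    rw [hw1, wt_symm he]
    have hmap : (w.map τ).map (flS ((symmDiff S D).image (sl τ)))
        = (w.map (flS S)).map (fun h => (sl τ h.1, h.2)) := by
      rw [List.map_map, List.map_map]
      apply List.map_congr_left
      intro h hh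
      simp only [Function.comp]
      have hT' : h.1 ∈ T := by rw [hT]; exact Finset.mem_union_left _ (mem_labs.2 ⟨h, hh, rfl⟩)
      have e1 : (τ h).1 = sl τ h.1 := by rw [tau_form hτ.P h]
      have e2 : (τ h).2 = xor h.2 (τ (h.1, false)).2 := by
        have := congrArg Prod.snd (tau_form hτ.P h); simpa using this
      have hin : (τ h).1 ∈ (symmDiff S D).image (sl τ) ↔ h.1 ∈ symmDiff S D := by
        rw [e1, Finset.mem_image]
        constructor
        · rintro ⟨l', hl', h'⟩; rwa [← hi h']
        · intro h'; exact ⟨_, h', rfl⟩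
      have hDm : h.1 ∈ D ↔ (τ (h.1, false)).2 = true := by rw [hD, Finset.mem_filter]; simp [hT']
      unfold flS
      simp only [hin, Finset.mem_symmDiff, hDm]
      by_cases c1 : h.1 ∈ S <;> cases c2 : (τ (h.1, false)).2 <;>
        (refine Prod.ext ?_ ?_ <;> simp [c1, c2, pt, e1, e2])
    rw [hmap, hf.rel _ hi]
    ring

theorem Fe_adj (hf : ArrF f) (u v : List H) (h : H) : Fe e f (u ++ h :: pt h :: v) = 0 := by
  unfold Fe gs
  apply Finset.sum_eq_zero
  intro S _
  rw [List.map_append, List.map_cons, List.map_cons, flS_pt, hf.iso, mul_zero]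

theorem Fe_open (hf : ArrB f) {u : List H} {x : H} (hx : x ∈ u) (hx' : pt x ∉ u) : Fe e f u = 0 := by
  unfold Fe gs
  apply Finset.sum_eq_zero
  intro S _
  rw [hf.cl, mul_zero]
  rintro ⟨-, h⟩
  have := h (flS S x) (List.mem_map_of_mem hx)
  rw [← flS_pt] at this
  obtain ⟨y, hy, e⟩ := List.mem_map.1 this
  exact hx' (flS_inj S e ▸ hy)

theorem gs_insert {T : Finset ℕ} {l : ℕ} (hl : l ∉ T) (w : List H) :
    gs e f (insert l T) w
      = ∑ S ∈ T.powerset, (wt e S * f (w.map (flS S)) + wt e (insert l S) * f (w.map (flS (insert l S)))) := by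
  unfold gs
  rw [Finset.sum_powerset_insert hl, Finset.sum_add_distrib]

theorem marks_map {w : List H} {φ : H → H ⊕ Fin 3} {a : Fin 3 → H} (hw : w.Nodup)
    (ha : ∀ m, a m ∈ w) (h : ∀ k ∈ w, ∀ m, φ k = Sum.inr m ↔ k = a m) :
    (marks (w.map φ)).Perm [0, 1, 2] := by
  unfold marks
  rw [List.filterMap_map]
  rw [List.perm_ext_iff_of_nodup]
  · intro m
    constructor
    · intro _; fin_cases m <;> simp
    · intro _
      rw [List.mem_filterMap]
      refine ⟨a m, ha m, ?_⟩
      simp only [Function.comp]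
      rw [(h (a m) (ha m) m).2 rfl]; rfl
  · rw [List.nodup_iff_pairwise_ne] at hw ⊢
    rw [List.pairwise_filterMap]
    refine List.Pairwise.imp_of_mem ?_ hw
    intro x y hx hy hne m hm m' hm' e
    subst e
    apply hne
    simp only [Function.comp] at hm hm'
    rw [Sum.getRight?_eq_some_iff] at hm hm'
    rw [(h x hx m).1 hm, (h y hy m).1 hm']
  · decide

theorem marks_perm {s : List (H ⊕ Fin 3)} (hs : (marks s).Perm [0, 1, 2]) (π : Fin 3 → Fin 3)
    (hπ : ([0, 1, 2] : List (Fin 3)).map π |>.Perm [0, 1, 2]) :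
    (marks (s.map (Sum.map id π))).Perm [0, 1, 2] := by
  have : marks (s.map (Sum.map id π)) = (marks s).map π := by
    unfold marks
    rw [List.filterMap_map, List.map_filterMap]
    congr 1
    funext x
    rcases x with x | x <;> rfl
  rw [this]
  exact (hs.map π).trans hπ

theorem fill_perm (s : List (H ⊕ Fin 3)) (π : Fin 3 → Fin 3) (X : Fin 3 → List H) :
    fill (s.map (Sum.map id π)) X = fill s (X ∘ π) := by
  unfold fill
  rw [List.flatMap_map]
  congr 1
  funext x
  rcases x with x | x <;> rfl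

end CA247
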