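import Pool.Agent.CA247.Core6

set_option autoImplicit false

namespace CA247

variable {f : List H → ℚ} {e : ℚ}

def mrk (a b c : H) (τ : H → H) (k : H) : H ⊕ Fin 3 :=
  if k = a then Sum.inr 0 else if k = b then Sum.inr 1 else if k = c then Sum.inr 2
  else Sum.inl (τ k)

theorem fill_phi (a b c : H) (τ : H → H) (w : List H) (A B C : List H) :
    fill (w.map (mrk a b c τ)) ![A, B, C]
      = w.flatMap (fun k => if k = a then A else if k = b then B else if k = c then C else [τ k]) := by
  unfold fill
  rw [List.flatMap_map]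
  congr 1
  funext k
  unfold mrk
  split_ifs <;> rfl

theorem sub_map_eq (a : H) (l w : List H) (τ : H → H) :
    (sub a l w).map τ = w.flatMap (fun k => if k = a then l.map τ else [τ k]) := by
  unfold sub
  rw [List.map_flatMap]
  congr 1
  funext k
  split_ifs <;> rfl

theorem sub_fill_a {a b c : H} {τ : H → H} (w l : List H) :
    (sub a l w).map τ = fill (w.map (mrk a b c τ)) ![l.map τ, [τ b], [τ c]] := by
  rw [fill_phi, sub_map_eq]
  congr 1; funext k
  split_ifs with h1 h2 h3
  · rfl
  · rw [h2]
  · rw [h3]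
  · rfl

theorem sub_fill_b {a b c : H} (hab : a ≠ b) {τ : H → H} (w l : List H) :
    (sub b l w).map τ = fill (w.map (mrk a b c τ)) ![[τ a], l.map τ, [τ c]] := by
  rw [fill_phi, sub_map_eq]
  congr 1; funext k
  by_cases h1 : k = a
  · rw [if_pos h1, if_neg (by rw [h1]; exact hab), h1]
  · rw [if_neg h1]
    by_cases h2 : k = b
    · rw [if_pos h2, if_pos h2]
    · rw [if_neg h2, if_neg h2]
      by_cases h3 : k = c
      · rw [if_pos h3, h3]
      · rw [if_neg h3]

theorem fill_map (τ : H → H) (s : List (H ⊕ Fin 3)) (X : Fin 3 → List H) :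
    (fill s X).map τ = fill (s.map (Sum.map τ id)) (fun m => (X m).map τ) := by
  unfold fill
  rw [List.map_flatMap, List.flatMap_map]
  congr 1; funext x
  rcases x with x | x <;> rfl

theorem vec_map (τ : H → H) (A B C : List H) :
    (fun m => ((![A, B, C] : Fin 3 → List H) m).map τ) = ![A.map τ, B.map τ, C.map τ] := by
  funext m; fin_cases m <;> rfl

theorem fill_sw (hf : ArrB f) {k l : ℕ} {s : List (H ⊕ Fin 3)}
    (hs : ∀ h : H, Sum.inl h ∈ s → h.1 ≠ k ∧ h.1 ≠ l) (A B C : List H) :
    f (fill s ![A, B, C]) = f (fill s ![A.map (sw2 k l), B.map (sw2 k l), C.map (sw2 k l)]) := by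
  have e1 := hf.rel (Equiv.swap k l) (Equiv.injective _) (fill s ![A, B, C])
  have e2 : (fun h : H => (Equiv.swap k l h.1, h.2)) = sw2 k l := by
    funext h; unfold sw2; rw [Equiv.swap_apply_def]; split_ifs <;> rfl
  rw [e2, fill_map, vec_map] at e1
  have e3 : s.map (Sum.map (sw2 k l) id) = s := by
    have : ∀ x ∈ s, Sum.map (sw2 k l) id x = id x := by
      intro x hx
      rcases x with x | x
      · have := hs x hx
        simp only [Sum.map_inl, id_eq]
        unfold sw2; rw [if_neg this.1, if_neg this.2]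
      · rfl
    rw [List.map_congr_left this, List.map_id]
  rw [e3] at e1
  exact e1.symm

theorem six_id (hf : ArrB f) {s : List (H ⊕ Fin 3)} (hs : (marks s).Perm [0, 1, 2]) (k l : ℕ) :
    DG (fun X Y Z => f (fill s ![X, Y, Z])) k l = 0 := hf.six s k l hs

theorem six_p (hf : ArrB f) {s : List (H ⊕ Fin 3)} (hs : (marks s).Perm [0, 1, 2]) (k l : ℕ)
    (π : Fin 3 → Fin 3) (hπ : ([0, 1, 2] : List (Fin 3)).map π |>.Perm [0, 1, 2])
    (G : List H → List H → List H → ℚ)
    (hG : ∀ A B C : List H, f (fill s (![A, B, C] ∘ π)) = G A B C) : DG G k l = 0 := by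
  have := hf.six (s.map (Sum.map id π)) k l (marks_perm hs π hπ)
  unfold D6 at this
  simp only [fill_perm, hG] at this
  exact this

theorem six_102 (hf : ArrB f) {s : List (H ⊕ Fin 3)} (hs : (marks s).Perm [0, 1, 2]) (k l : ℕ) :
    DG (fun X Y Z => f (fill s ![Y, X, Z])) k l = 0 :=
  six_p hf hs k l ![1, 0, 2] (by decide) _ (fun A B C => by
    congr 2; funext m; fin_cases m <;> rfl)
theorem six_120 (hf : ArrB f) {s : List (H ⊕ Fin 3)} (hs : (marks s).Perm [0, 1, 2]) (k l : ℕ) :
    DG (fun X Y Z => f (fill s ![Y, Z, X])) k l = 0 :=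
  six_p hf hs k l ![1, 2, 0] (by decide) _ (fun A B C => by
    congr 2; funext m; fin_cases m <;> rfl)
theorem six_210 (hf : ArrB f) {s : List (H ⊕ Fin 3)} (hs : (marks s).Perm [0, 1, 2]) (k l : ℕ) :
    DG (fun X Y Z => f (fill s ![Z, Y, X])) k l = 0 :=
  six_p hf hs k l ![2, 1, 0] (by decide) _ (fun A B C => by
    congr 2; funext m; fin_cases m <;> rfl)
theorem six_021 (hf : ArrB f) {s : List (H ⊕ Fin 3)} (hs : (marks s).Perm [0, 1, 2]) (k l : ℕ) :
    DG (fun X Y Z => f (fill s ![X, Z, Y])) k l = 0 :=
  six_p hf hs k l ![0, 2, 1] (by decide) _ (fun A B C => by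
    congr 2; funext m; fin_cases m <;> rfl)
theorem six_201 (hf : ArrB f) {s : List (H ⊕ Fin 3)} (hs : (marks s).Perm [0, 1, 2]) (k l : ℕ) :
    DG (fun X Y Z => f (fill s ![Z, X, Y])) k l = 0 :=
  six_p hf hs k l ![2, 0, 1] (by decide) _ (fun A B C => by
    congr 2; funext m; fin_cases m <;> rfl)

theorem phi_marks {w : List H} (hw : w.Nodup) {a b c : H} (ha : a ∈ w) (hb : b ∈ w) (hc : c ∈ w)
    (hab : a ≠ b) (hac : a ≠ c) (hbc : b ≠ c) (τ : H → H) :
    (marks (w.map (mrk a b c τ))).Perm [0, 1, 2] := by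
  refine marks_map (a := ![a, b, c]) hw ?_ ?_
  · intro m; fin_cases m <;> assumption
  · intro k hk m
    unfold mrk
    fin_cases m
    · show _ ↔ k = a
      by_cases h1 : k = a
      · simp [h1]
      · by_cases h2 : k = b
        · simp [h2, hab.symm]
        · by_cases h3 : k = c
          · simp [h3, hac.symm, hbc.symm]
          · simp [h1, h2, h3]
    · show _ ↔ k = b
      by_cases h1 : k = a
      · simp [h1, hab]
      · by_cases h2 : k = b
        · simp [h2, hab.symm]
        · by_cases h3 : k = c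
          · simp [h3, hac.symm, hbc.symm]
          · simp [h1, h2, h3]
    · show _ ↔ k = c
      by_cases h1 : k = a
      · simp [h1, hac]
      · by_cases h2 : k = b
        · simp [h2, hab.symm, hbc]
        · by_cases h3 : k = c
          · simp [h3, hac.symm, hbc.symm]
          · simp [h1, h2, h3]

theorem labs_congr {u v : List H} (h : (u : Multiset H) = (v : Multiset H)) : labs u = labs v := by
  ext l
  rw [mem_labs, mem_labs]
  constructor
  · rintro ⟨k, hk, e⟩
    exact ⟨k, by rw [← Multiset.mem_coe, ← h]; exact hk, e⟩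
  · rintro ⟨k, hk, e⟩
    exact ⟨k, by rw [← Multiset.mem_coe, h]; exact hk, e⟩

theorem letter_cases {k a : H} (h : k.1 = a.1) : k = a ∨ k = pt a := by
  obtain ⟨k1, k2⟩ := k
  obtain ⟨a1, a2⟩ := a
  simp only at h
  subst h
  cases k2 <;> cases a2 <;> simp [pt]

theorem Fe_inv (hf : ArrB f) {w : List H} {a x : H} (hw : w.Nodup) (ha : a ∈ w) (hpa : pt a ∈ w)
    (hx : x ∉ w) (hp : 2 ≤ a.1) :
    Fe e f (sub a [x, a] w) - Fe e f (sub a [a, x] w) + Fe e f (sub (pt a) [x, pt a] w)
      - Fe e f (sub (pt a) [pt a, x] w) = 0 := by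
  have c1 : (([x, a] : List H) : Multiset H) = {x} + {a} := rfl
  have c2 : (([a, x] : List H) : Multiset H) = {x} + {a} := by rw [add_comm]; rfl
  have c3 : (([x, pt a] : List H) : Multiset H) = {x} + {pt a} := rfl
  have c4 : (([pt a, x] : List H) : Multiset H) = {x} + {pt a} := by rw [add_comm]; rfl
  have u1 := coe_ins hw ha c1
  have u2 := coe_ins hw ha c2
  have u3 := coe_ins hw hpa c3
  have u4 := coe_ins hw hpa c4
  have hxa : x.1 ≠ a.1 := by
    intro h
    rcases letter_cases h with h | h
    · exact hx (h ▸ ha)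
    · exact hx (h ▸ hpa)
  by_cases hpx : pt x ∈ w
  · set T0 := (labs (x :: w) ∪ {0, 1}).erase a.1 with hT0
    have hTa : insert a.1 T0 = labs (x :: w) ∪ {0, 1} := by
      rw [hT0, Finset.insert_erase]
      exact Finset.mem_union_left _ (mem_labs.2 ⟨a, by simp [ha], rfl⟩)
    have hnot : a.1 ∉ T0 := by rw [hT0]; simp
    have ex : ∀ u : List H, (u : Multiset H) = ((x :: w : List H) : Multiset H) →
        Fe e f u = ∑ S ∈ T0.powerset, wt e S * (f (u.map (flS S)) + f (u.map (flS (insert a.1 S)))) := by
      intro u hu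
      unfold Fe
      rw [labs_congr hu, ← hTa, gs_insert hnot]
      apply Finset.sum_congr rfl
      intro S _
      have : wt e (insert a.1 S) = wt e S := by
        unfold wt
        have h0 : (0 : ℕ) ≠ a.1 := by omega
        have h1 : (1 : ℕ) ≠ a.1 := by omega
        simp only [Finset.mem_insert, h0, h1, false_or]
      rw [this]; ring
    rw [ex _ u1, ex _ u2, ex _ u3, ex _ u4, ← Finset.sum_sub_distrib, ← Finset.sum_add_distrib,
      ← Finset.sum_sub_distrib]
    apply Finset.sum_eq_zero
    intro S hS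
    have hSa : a.1 ∉ S := fun h => hnot (Finset.mem_powerset.1 hS h)
    have hax : a ≠ pt x := fun h => hxa (by rw [h, pt_fst])
    have hpax : pt a ≠ pt x := fun h => hxa (by rw [pt_inj] at h; rw [h])
    set τ := flS S with hτ
    set τ' := flS (insert a.1 S) with hτ'
    set s := w.map (mrk a (pt a) (pt x) τ) with hs
    have hs' : w.map (mrk a (pt a) (pt x) τ') = s := by
      rw [hs]
      apply List.map_congr_left
      intro k hk
      unfold mrk
      by_cases h1 : k = a
      · rw [if_pos h1, if_pos h1]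
      · by_cases h2 : k = pt a
        · rw [if_neg h1, if_pos h2, if_neg h1, if_pos h2]
        · have hka : k.1 ≠ a.1 := fun h => by
            rcases letter_cases h with h | h
            · exact h1 h
            · exact h2 h
          have : τ' k = τ k := by
            rw [hτ, hτ']; unfold flS
            simp only [Finset.mem_insert, hka, false_or]
          rw [this]
    have ta : τ a = a := by rw [hτ]; unfold flS; rw [if_neg hSa]
    have tpa : τ (pt a) = pt a := by rw [hτ, flS_pt, ← hτ, ta]
    have ta' : τ' a = pt a := by rw [hτ']; unfold flS; rw [if_pos (Finset.mem_insert_self _ _)]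
    have tpa' : τ' (pt a) = a := by rw [hτ', flS_pt, ← hτ', ta', pt_pt]
    have tx' : τ' x = τ x := by
      rw [hτ, hτ']; unfold flS
      simp only [Finset.mem_insert, hxa, false_or]
    have tpx : τ (pt x) = pt (τ x) := flS_pt _ _
    have tpx' : τ' (pt x) = pt (τ x) := by rw [hτ', flS_pt, ← hτ', tx']
    have hmarks : (marks s).Perm [0, 1, 2] :=
      phi_marks hw ha hpa hpx (ne_pt a) hax hpax τ
    have hx1 : (τ x).1 = x.1 := flS_fst _ _
    have hsl : ∀ h : H, Sum.inl h ∈ s → h.1 ≠ a.1 ∧ h.1 ≠ (τ x).1 := by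
      intro h hh
      rw [hs] at hh
      obtain ⟨k, hk, e1⟩ := List.mem_map.1 hh
      unfold mrk at e1
      split_ifs at e1 with g1 g2 g3
      have e2 : τ k = h := Sum.inl.inj e1
      have e3 : h.1 = k.1 := by rw [← e2]; exact flS_fst _ _
      rw [e3, hx1]
      constructor
      · intro h'
        rcases letter_cases h' with h' | h'
        · exact g1 h'
        · exact g2 h'
      · intro h'
        rcases letter_cases h' with h' | h'
        · exact hx (h' ▸ hk)
        · exact g3 h'
    have v1 : (sub a [x, a] w).map τ = fill s ![[τ x, a], [pt a], [pt (τ x)]] := by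
      rw [sub_fill_a (b := pt a) (c := pt x)]; simp only [List.map_cons, List.map_nil, ta, tpa, tpx]
      rfl
    have v2 : (sub a [a, x] w).map τ = fill s ![[a, τ x], [pt a], [pt (τ x)]] := by
      rw [sub_fill_a (b := pt a) (c := pt x)]; simp only [List.map_cons, List.map_nil, ta, tpa, tpx]
      rfl
    have v3 : (sub (pt a) [x, pt a] w).map τ = fill s ![[a], [τ x, pt a], [pt (τ x)]] := by
      rw [sub_fill_b (a := a) (c := pt x) (ne_pt a)]
      simp only [List.map_cons, List.map_nil, ta, tpa, tpx]
      rfl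
    have v4 : (sub (pt a) [pt a, x] w).map τ = fill s ![[a], [pt a, τ x], [pt (τ x)]] := by
      rw [sub_fill_b (a := a) (c := pt x) (ne_pt a)]
      simp only [List.map_cons, List.map_nil, ta, tpa, tpx]
      rfl
    have v1' : (sub a [x, a] w).map τ' = fill s ![[τ x, pt a], [a], [pt (τ x)]] := by
      rw [sub_fill_a (b := pt a) (c := pt x), hs']
      simp only [List.map_cons, List.map_nil, ta', tpa', tpx', tx']
    have v2' : (sub a [a, x] w).map τ' = fill s ![[pt a, τ x], [a], [pt (τ x)]] := by
      rw [sub_fill_a (b := pt a) (c := pt x), hs']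
      simp only [List.map_cons, List.map_nil, ta', tpa', tpx', tx']
    have v3' : (sub (pt a) [x, pt a] w).map τ' = fill s ![[pt a], [τ x, a], [pt (τ x)]] := by
      rw [sub_fill_b (a := a) (c := pt x) (ne_pt a), hs']
      simp only [List.map_cons, List.map_nil, ta', tpa', tpx', tx']
    have v4' : (sub (pt a) [pt a, x] w).map τ' = fill s ![[pt a], [a, τ x], [pt (τ x)]] := by
      rw [sub_fill_b (a := a) (c := pt x) (ne_pt a), hs']
      simp only [List.map_cons, List.map_nil, ta', tpa', tpx', tx']
    rw [v1, v2, v3, v4, v1', v2', v3', v4']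
    have hsw := fill_sw hf (k := a.1) (l := (τ x).1) hsl
    obtain ⟨k, ca⟩ := a
    generalize hy : τ x = y at *
    obtain ⟨l, cx⟩ := y
    simp only at hsw
    have i0 := core_inv0 (fun X Y Z => f (fill s ![X, Y, Z])) k l (six_id hf hmarks k l)
      (six_102 hf hmarks k l) hsw
    have i1 := core_inv1 (fun X Y Z => f (fill s ![X, Y, Z])) k l (six_120 hf hmarks k l)
      (six_210 hf hmarks k l) hsw

    cases ca <;> cases cx <;> simp only [pt, Bool.not_false, Bool.not_true]
    · linear_combination (wt e S) * i0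
    · linear_combination (wt e S) * i1
    · linear_combination (wt e S) * i0
    · linear_combination (wt e S) * i1
  · have z : ∀ u : List H, (u : Multiset H) = ((x :: w : List H) : Multiset H) → Fe e f u = 0 := by
      intro u hu
      refine Fe_open hf (x := x) ?_ ?_
      · rw [← Multiset.mem_coe, hu]; simp
      · rw [← Multiset.mem_coe, hu]
        simp only [Multiset.mem_coe, List.mem_cons, not_or]
        exact ⟨pt_ne x, hpx⟩
    rw [z _ u1, z _ u2, z _ u3, z _ u4]; ring

theorem Fe_goodC (hf : ArrB f) (he : e * e = 1) (c : ℚ) : GoodC (fun w => c * Fe e f w) := by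
  refine ⟨?_, ?_⟩
  · intro τ hτ w _
    have hJ : AutJ τ := ⟨hτ.inj, hτ.pt, fun h => ⟨hτ.plain h, fun h' => by
      by_contra hc
      have := (hτ.jj h (by omega)).1
      omega⟩⟩
    have e0 := (hτ.jj (0, false) (by norm_num)).2
    have e1 := (hτ.jj (1, false) (by norm_num)).2

    rw [Fe_tau hf he hJ w, e0, e1]
    simp
  · intro w a x hw ha hpa hx hp
    have := Fe_inv (e := e) hf hw ha hpa hx hp
    linear_combination c * this

theorem Fe_goodJ (hf : ArrF f) : GoodJ (Fe (-1) f) := by
  refine ⟨?_, ?_, ?_⟩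
  · have := Fe_goodC (e := -1) hf.toArrB (by norm_num) 1
    simpa using this
  · intro τ hτ w _
    rw [Fe_tau hf.toArrB (by norm_num) hτ w]
    rfl
  · intro u v h _ _
    exact Fe_adj hf u v h

end CA247
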