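import Pool.Agent.CA247.Base2

set_option autoImplicit false

namespace CA247

variable {f : List H → ℚ} {e : ℚ}

theorem sub_fill_c {a b c : H} (hac : a ≠ c) (hbc : b ≠ c) {τ : H → H} (w l : List H) :
    (sub c l w).map τ = fill (w.map (mrk a b c τ)) ![[τ a], [τ b], l.map τ] := by
  rw [fill_phi, sub_map_eq]
  congr 1; funext k
  by_cases h1 : k = a
  · rw [if_pos h1, if_neg (by rw [h1]; exact hac), h1]
  · rw [if_neg h1]
    by_cases h2 : k = b
    · rw [if_pos h2, if_neg (by rw [h2]; exact hbc), h2]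
    · rw [if_neg h2]

/-- substitution after renaming -/
theorem sub_rn (a : H) (l w : List H) (ρ : H → H) (hρ : ∀ k ∈ w, ρ k = a → k = a) (ha : ρ a = a)
    (τ : H → H) :
    (sub a l (w.map ρ)).map τ = w.flatMap (fun k => if k = a then l.map τ else [τ (ρ k)]) := by
  rw [sub_map_eq, List.flatMap_map]
  apply flatMap_congr'
  intro k hk
  by_cases h : k = a
  · rw [if_pos h, if_pos (by rw [h, ha])]
  · rw [if_neg h, if_neg (fun h' => h (hρ k hk h'))]

theorem phi_congr {w : List H} {a b c : H} {τ τ' : H → H}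
    (h : ∀ k ∈ w, k ≠ a → k ≠ b → k ≠ c → τ k = τ' k) :
    w.map (mrk a b c τ) = w.map (mrk a b c τ') := by
  apply List.map_congr_left
  intro k hk
  unfold mrk
  by_cases h1 : k = a
  · rw [if_pos h1, if_pos h1]
  · by_cases h2 : k = b
    · rw [if_neg h1, if_pos h2, if_neg h1, if_pos h2]
    · by_cases h3 : k = c
      · rw [if_neg h1, if_neg h2, if_pos h3, if_neg h1, if_neg h2, if_pos h3]
      · rw [if_neg h1, if_neg h2, if_neg h3, if_neg h1, if_neg h2, if_neg h3, h k hk h1 h2 h3]

theorem gs_two {T : Finset ℕ} {p q : ℕ} (hp : p ∉ T) (hq : q ∉ T) (hpq : p ≠ q) (w : List H) :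
    gs e f (insert p (insert q T)) w = ∑ S ∈ T.powerset,
      (wt e S * f (w.map (flS S)) + wt e (insert q S) * f (w.map (flS (insert q S)))
        + wt e (insert p S) * f (w.map (flS (insert p S)))
        + wt e (insert p (insert q S)) * f (w.map (flS (insert p (insert q S))))) := by
  have hp' : p ∉ insert q T := by simp [hp, hpq]
  rw [gs_insert hp', Finset.sum_powerset_insert hq, ← Finset.sum_add_distrib]
  apply Finset.sum_congr rfl
  intro S _
  ring

theorem gs_irrel {T : Finset ℕ} {p : ℕ} (hp : p ∉ T) {w : List H} (hw : ∀ h ∈ w, h.1 ≠ p) :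
    gs 1 f (insert p T) w = 2 * gs 1 f T w := by
  rw [gs_insert hp]
  unfold gs
  rw [Finset.mul_sum]
  apply Finset.sum_congr rfl
  intro S _
  have h1 : ∀ S, wt 1 S = 1 := fun S => by unfold wt; simp
  have h2 : w.map (flS (insert p S)) = w.map (flS S) := by
    apply List.map_congr_left
    intro h hh
    unfold flS
    simp only [Finset.mem_insert, hw h hh, false_or]
  rw [h1, h1, h2]; ring

theorem flS_ins_self {p : ℕ} {S : Finset ℕ} (c : Bool) : flS (insert p S) (p, c) = (p, !c) := by
  unfold flS; rw [if_pos (by simp)]; rfl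
theorem flS_not {p : ℕ} {S : Finset ℕ} (h : p ∉ S) (c : Bool) : flS S (p, c) = (p, c) := by
  unfold flS; rw [if_neg (by simpa using h)]

theorem sw2_l (p q : ℕ) (c : Bool) : sw2 p q (p, c) = (q, c) := by simp [sw2]
theorem sw2_o {p q n : ℕ} (h1 : n ≠ p) (h2 : n ≠ q) (c : Bool) : sw2 p q (n, c) = (n, c) := by
  simp [sw2, h1, h2]

theorem Fe_nax (hf : ArrB f) : Nax (fun w => (1 / 4) * Fe 1 f w) (Fe (-1) f) := by
  intro w a b c hw ha hb hc hab hbc hca pa pb pc hl
  have hla : 2 ≤ a.1 := hl (pt a) pa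
  have hlb : 2 ≤ b.1 := hl (pt b) pb
  have hlc : 2 ≤ c.1 := hl (pt c) pc
  have nab : pt a ≠ pt b := fun h => hab (pt_inj.1 h)
  have nbc : pt b ≠ pt c := fun h => hbc (pt_inj.1 h)
  have nca : pt c ≠ pt a := fun h => hca (pt_inj.1 h)
  have lab : a.1 ≠ b.1 := by
    intro h
    rcases letter_cases h with h | h
    · exact hab h
    · exact ha (h ▸ pb)
  have lbc : b.1 ≠ c.1 := by
    intro h
    rcases letter_cases h with h | h
    · exact hbc h
    · exact hb (h ▸ pc)
  have lca : c.1 ≠ a.1 := by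
    intro h
    rcases letter_cases h with h | h
    · exact hca h
    · exact hc (h ▸ pa)
  -- other letters
  have oth : ∀ k ∈ w, k ≠ pt a → k ≠ pt b → k ≠ pt c → k.1 ≠ a.1 ∧ k.1 ≠ b.1 ∧ k.1 ≠ c.1 ∧ 2 ≤ k.1 := by
    intro k hk h1 h2 h3
    refine ⟨?_, ?_, ?_, hl k hk⟩
    · intro h
      rcases letter_cases h with h | h
      · exact ha (h ▸ hk)
      · exact h1 h
    · intro h
      rcases letter_cases h with h | h
      · exact hb (h ▸ hk)
      · exact h2 h
    · intro h
      rcases letter_cases h with h | h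
      · exact hc (h ▸ hk)
      · exact h3 h
  set T : Finset ℕ := (labs w).filter (fun n => n ≠ a.1 ∧ n ≠ b.1 ∧ n ≠ c.1) with hT
  have Ta : a.1 ∉ T := by rw [hT]; simp
  have Tb : b.1 ∉ T := by rw [hT]; simp
  have Tc : c.1 ∉ T := by rw [hT]; simp
  have T2 : ∀ n ∈ T, 2 ≤ n := by
    intro n hn
    rw [hT, Finset.mem_filter, mem_labs] at hn
    obtain ⟨⟨k, hk, rfl⟩, -⟩ := hn
    exact hl k hk
  have T0 : (0 : ℕ) ∉ T := fun h => by have := T2 0 h; omega
  have T1 : (1 : ℕ) ∉ T := fun h => by have := T2 1 h; omega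
  have memT : ∀ n, n ∈ T ↔ ∃ k ∈ w, k.1 = n ∧ k ≠ pt a ∧ k ≠ pt b ∧ k ≠ pt c := by
    intro n
    rw [hT, Finset.mem_filter, mem_labs]
    constructor
    · rintro ⟨⟨k, hk, rfl⟩, h1, h2, h3⟩
      exact ⟨k, hk, rfl, fun h => h1 (by rw [h]; rfl), fun h => h2 (by rw [h]; rfl),
        fun h => h3 (by rw [h]; rfl)⟩
    · rintro ⟨k, hk, rfl, h1, h2, h3⟩
      have := oth k hk h1 h2 h3
      exact ⟨⟨k, hk, rfl⟩, this.1, this.2.1, this.2.2.1⟩
  -- rn facts
  have rbc_a : rn b c (pt a) = pt a := by
    unfold rn; rw [if_neg nab, if_neg nca.symm]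
  have rca_b : rn c a (pt b) = pt b := by
    unfold rn; rw [if_neg nbc, if_neg nab.symm]
  have rab_c : rn a b (pt c) = pt c := by
    unfold rn; rw [if_neg nca, if_neg nbc.symm]
  have inj_bc : ∀ k ∈ w, rn b c k = pt a → k = pt a := fun k hk h =>
    rn_inj hbc (hl k hk) hla (by rw [h, rbc_a])
  have inj_ca : ∀ k ∈ w, rn c a k = pt b → k = pt b := fun k hk h =>
    rn_inj hca (hl k hk) hlb (by rw [h, rca_b])
  have inj_ab : ∀ k ∈ w, rn a b k = pt c → k = pt c := fun k hk h =>
    rn_inj hab (hl k hk) hlc (by rw [h, rab_c])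
  -- the words as fillings
  have U1 : ∀ (l : List H) (τ : H → H), (sub (pt a) l w).map τ
      = fill (w.map (mrk (pt a) (pt b) (pt c) τ)) ![l.map τ, [τ (pt b)], [τ (pt c)]] :=
    fun l τ => sub_fill_a w l
  have V1 : ∀ (l : List H) (τ : H → H), (sub (pt a) l (w.map (rn b c))).map τ
      = fill (w.map (mrk (pt a) (pt b) (pt c) τ)) ![l.map τ, [τ (0, true)], [τ (1, true)]] := by
    intro l τ
    rw [sub_rn _ _ _ _ inj_bc rbc_a, fill_phi]
    apply flatMap_congr'
    intro k hk
    by_cases h1 : k = pt a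
    · rw [if_pos h1, if_pos h1]
    · by_cases h2 : k = pt b
      · rw [if_neg h1, if_neg h1, if_pos h2]
        unfold rn; rw [if_pos h2]
      · by_cases h3 : k = pt c
        · rw [if_neg h1, if_neg h1, if_neg h2, if_pos h3]
          unfold rn; rw [if_neg h2, if_pos h3]
        · rw [if_neg h1, if_neg h1, if_neg h2, if_neg h3]
          unfold rn; rw [if_neg h2, if_neg h3]
  have V2 : ∀ (l : List H) (τ : H → H), (sub (pt b) l (w.map (rn c a))).map τ
      = fill (w.map (mrk (pt a) (pt b) (pt c) τ)) ![[τ (1, true)], l.map τ, [τ (0, true)]] := by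
    intro l τ
    rw [sub_rn _ _ _ _ inj_ca rca_b, fill_phi]
    apply flatMap_congr'
    intro k hk
    by_cases h1 : k = pt a
    · rw [if_pos h1, if_neg (by rw [h1]; exact nab)]
      unfold rn; rw [if_neg (by rw [h1]; exact nca.symm), if_pos h1]
    · by_cases h2 : k = pt b
      · rw [if_pos h2, if_neg h1, if_pos h2]
      · by_cases h3 : k = pt c
        · rw [if_neg h2, if_neg h1, if_neg h2, if_pos h3]
          unfold rn; rw [if_pos h3]
        · rw [if_neg h2, if_neg h1, if_neg h2, if_neg h3]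
          unfold rn; rw [if_neg h3, if_neg h1]
  have V3 : ∀ (l : List H) (τ : H → H), (sub (pt c) l (w.map (rn a b))).map τ
      = fill (w.map (mrk (pt a) (pt b) (pt c) τ)) ![[τ (0, true)], [τ (1, true)], l.map τ] := by
    intro l τ
    rw [sub_rn _ _ _ _ inj_ab rab_c, fill_phi]
    apply flatMap_congr'
    intro k hk
    by_cases h1 : k = pt a
    · rw [if_pos h1, if_neg (by rw [h1]; exact nca.symm)]
      unfold rn; rw [if_pos h1]
    · by_cases h2 : k = pt b
      · rw [if_neg h1, if_pos h2, if_neg (by rw [h2]; exact nbc)]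
        unfold rn; rw [if_neg h1, if_pos h2]
      · by_cases h3 : k = pt c
        · rw [if_pos h3, if_neg h1, if_neg h2, if_pos h3]
        · rw [if_neg h3, if_neg h1, if_neg h2, if_neg h3]
          unfold rn; rw [if_neg h1, if_neg h2]
  -- membership in fillings (identity map)
  have memfill : ∀ (A B C : List H) (h : H),
      h ∈ w.flatMap (fun k => if k = pt a then A else if k = pt b then B else if k = pt c then C else [k])
      ↔ (h ∈ w ∧ h ≠ pt a ∧ h ≠ pt b ∧ h ≠ pt c) ∨ h ∈ A ∨ h ∈ B ∨ h ∈ C := by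
    intro A B C h
    rw [List.mem_flatMap]
    constructor
    · rintro ⟨k, hk, hh⟩
      split_ifs at hh with h1 h2 h3
      · exact Or.inr (Or.inl hh)
      · exact Or.inr (Or.inr (Or.inl hh))
      · exact Or.inr (Or.inr (Or.inr hh))
      · rw [List.mem_singleton] at hh
        rw [hh]; exact Or.inl ⟨hk, h1, h2, h3⟩
    · rintro (⟨h0, h1, h2, h3⟩ | h0 | h0 | h0)
      · exact ⟨h, h0, by rw [if_neg h1, if_neg h2, if_neg h3]; simp⟩
      · exact ⟨pt a, pa, by rw [if_pos rfl]; exact h0⟩
      · exact ⟨pt b, pb, by rw [if_neg nab.symm, if_pos rfl]; exact h0⟩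
      · exact ⟨pt c, pc, by rw [if_neg nca, if_neg nbc.symm, if_pos rfl]; exact h0⟩
  have labsT : ∀ (A B C : List H) (R : Finset ℕ), (∀ n, n ∈ R ↔ ∃ h, (h ∈ A ∨ h ∈ B ∨ h ∈ C) ∧ h.1 = n) →
      ∀ u : List H, u = w.flatMap (fun k => if k = pt a then A else if k = pt b then B
        else if k = pt c then C else [k]) → labs u = T ∪ R := by
    intro A B C R hR u hu
    ext n
    rw [mem_labs, Finset.mem_union, memT, hR, hu]
    constructor
    · rintro ⟨h, hh, rfl⟩
      rcases (memfill A B C h).1 hh with ⟨h0, h1, h2, h3⟩ | h0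
      · exact Or.inl ⟨h, h0, rfl, h1, h2, h3⟩
      · exact Or.inr ⟨h, h0, rfl⟩
    · rintro (⟨k, h0, rfl, h1, h2, h3⟩ | ⟨h, h0, rfl⟩)
      · exact ⟨k, (memfill A B C k).2 (Or.inl ⟨h0, h1, h2, h3⟩), rfl⟩
      · exact ⟨h, (memfill A B C h).2 (Or.inr h0), rfl⟩
  have idm : ∀ u : List H, u.map id = u := fun u => List.map_id u
  -- the arrow part
  have FJex : ∀ u : List H, labs u = T ∪ {0, 1} → Fe (-1) f u = ∑ S ∈ T.powerset,
      (f (u.map (flS S)) - f (u.map (flS (insert 1 S)))
        - f (u.map (flS (insert 0 S))) + f (u.map (flS (insert 0 (insert 1 S))))) := by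
    intro u hu
    have e1 : labs u ∪ {0, 1} = insert 0 (insert 1 T) := by
      rw [hu]; ext n; simp only [Finset.mem_union, Finset.mem_insert, Finset.mem_singleton]; tauto
    unfold Fe
    rw [e1, gs_two T0 T1 (by norm_num)]
    apply Finset.sum_congr rfl
    intro S hS
    have s0 : (0 : ℕ) ∉ S := fun h => T0 (Finset.mem_powerset.1 hS h)
    have s1 : (1 : ℕ) ∉ S := fun h => T1 (Finset.mem_powerset.1 hS h)
    have w0 : wt (-1) S = 1 := by unfold wt; simp [s0, s1]
    have w1 : wt (-1) (insert 1 S) = -1 := by unfold wt; simp [s0]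
    have w2 : wt (-1) (insert 0 S) = -1 := by unfold wt; simp [s1]
    have w3 : wt (-1) (insert 0 (insert 1 S)) = 1 := by unfold wt; simp
    rw [w0, w1, w2, w3]; ring
  have FCex : ∀ u : List H, labs u = T ∪ {b.1, c.1} → (1 / 4) * Fe 1 f u = ∑ S ∈ T.powerset,
      (f (u.map (flS S)) + f (u.map (flS (insert c.1 S)))
        + f (u.map (flS (insert b.1 S))) + f (u.map (flS (insert b.1 (insert c.1 S))))) := by
    intro u hu
    have e1 : labs u ∪ {0, 1} = insert 0 (insert 1 (insert b.1 (insert c.1 T))) := by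
      rw [hu]; ext n; simp only [Finset.mem_union, Finset.mem_insert, Finset.mem_singleton]; tauto
    have lu : ∀ h ∈ u, 2 ≤ h.1 := by
      intro h hh
      have : h.1 ∈ labs u := mem_labs.2 ⟨h, hh, rfl⟩
      rw [hu] at this
      simp only [Finset.mem_union, Finset.mem_insert, Finset.mem_singleton] at this
      rcases this with h1 | h1 | h1
      · exact T2 _ h1
      · omega
      · omega
    have n1 : (1 : ℕ) ∉ insert b.1 (insert c.1 T) := by
      simp only [Finset.mem_insert, not_or]
      exact ⟨by omega, by omega, T1⟩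
    have n0 : (0 : ℕ) ∉ insert 1 (insert b.1 (insert c.1 T)) := by
      simp only [Finset.mem_insert, not_or]
      exact ⟨by omega, by omega, by omega, T0⟩
    unfold Fe
    rw [e1, gs_irrel n0 (fun h hh => by have := lu h hh; omega),
      gs_irrel n1 (fun h hh => by have := lu h hh; omega), gs_two Tb Tc lbc]
    have w1 : ∀ S, wt 1 S = 1 := fun S => by unfold wt; simp
    simp only [w1, one_mul]
    ring
  -- label sets
  have L1 : labs (sub (pt a) [b, c] w) = T ∪ {b.1, c.1} := by
    refine labsT [b, c] [pt b] [pt c] _ ?_ _ (by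
      have := U1 [b, c] id
      rw [idm, fill_phi] at this
      simpa using this)
    intro n
    constructor
    · intro h
      simp only [Finset.mem_insert, Finset.mem_singleton] at h
      rcases h with rfl | rfl
      · exact ⟨b, by simp, rfl⟩
      · exact ⟨c, by simp, rfl⟩
    · rintro ⟨h, h1, rfl⟩
      simp only [List.mem_cons, List.not_mem_nil, or_false] at h1
      rcases h1 with (rfl | rfl) | rfl | rfl <;> simp
  have L1' : labs (sub (pt a) [c, b] w) = T ∪ {b.1, c.1} := by
    refine labsT [c, b] [pt b] [pt c] _ ?_ _ (by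
      have := U1 [c, b] id
      rw [idm, fill_phi] at this
      simpa using this)
    intro n
    constructor
    · intro h
      simp only [Finset.mem_insert, Finset.mem_singleton] at h
      rcases h with rfl | rfl
      · exact ⟨b, by simp, rfl⟩
      · exact ⟨c, by simp, rfl⟩
    · rintro ⟨h, h1, rfl⟩
      simp only [List.mem_cons, List.not_mem_nil, or_false] at h1
      rcases h1 with (rfl | rfl) | rfl | rfl <;> simp
  have LJ : ∀ (A B C : List H), (∀ h, (h ∈ A ∨ h ∈ B ∨ h ∈ C) → h.1 = 0 ∨ h.1 = 1) →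
      (∃ h, (h ∈ A ∨ h ∈ B ∨ h ∈ C) ∧ h.1 = 0) → (∃ h, (h ∈ A ∨ h ∈ B ∨ h ∈ C) ∧ h.1 = 1) →
      ∀ n : ℕ, n ∈ ({0, 1} : Finset ℕ) ↔ ∃ h, (h ∈ A ∨ h ∈ B ∨ h ∈ C) ∧ h.1 = n := by
    intro A B C h1 h2 h3 n
    constructor
    · intro h
      simp only [Finset.mem_insert, Finset.mem_singleton] at h
      rcases h with rfl | rfl
      · exact h2
      · exact h3
    · rintro ⟨h, h4, rfl⟩
      simpa using h1 h h4
  have M1 : ∀ l : List H, (l = [(0, false), (1, false)] ∨ l = [(1, false), (0, false)]) →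
      labs (sub (pt a) l (w.map (rn b c))) = T ∪ {0, 1} := by
    intro l hll
    refine labsT l [(0, true)] [(1, true)] _ (LJ _ _ _ ?_ ?_ ?_) _ (by
      have := V1 l id
      rw [idm, fill_phi] at this
      simpa using this)
    · intro h hh
      rcases hll with rfl | rfl <;>
      · simp only [List.mem_cons, List.not_mem_nil, or_false] at hh
        rcases hh with (rfl | rfl) | rfl | rfl <;> simp
    · exact ⟨(0, true), by simp, rfl⟩
    · exact ⟨(1, true), by simp, rfl⟩
  have M2 : ∀ l : List H, (l = [(0, false), (1, false)] ∨ l = [(1, false), (0, false)]) →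
      labs (sub (pt b) l (w.map (rn c a))) = T ∪ {0, 1} := by
    intro l hll
    refine labsT [(1, true)] l [(0, true)] _ (LJ _ _ _ ?_ ?_ ?_) _ (by
      have := V2 l id
      rw [idm, fill_phi] at this
      simpa using this)
    · intro h hh
      rcases hll with rfl | rfl <;>
      · simp only [List.mem_cons, List.not_mem_nil, or_false] at hh
        rcases hh with rfl | (rfl | rfl) | rfl <;> simp
    · exact ⟨(0, true), by simp, rfl⟩
    · exact ⟨(1, true), by simp, rfl⟩
  have M3 : ∀ l : List H, (l = [(0, false), (1, false)] ∨ l = [(1, false), (0, false)]) →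
      labs (sub (pt c) l (w.map (rn a b))) = T ∪ {0, 1} := by
    intro l hll
    refine labsT [(0, true)] [(1, true)] l _ (LJ _ _ _ ?_ ?_ ?_) _ (by
      have := V3 l id
      rw [idm, fill_phi] at this
      simpa using this)
    · intro h hh
      rcases hll with rfl | rfl <;>
      · simp only [List.mem_cons, List.not_mem_nil, or_false] at hh
        rcases hh with rfl | rfl | (rfl | rfl) <;> simp
    · exact ⟨(0, true), by simp, rfl⟩
    · exact ⟨(1, true), by simp, rfl⟩
  simp only []
  rw [FCex _ L1, FCex _ L1', FJex _ (M1 _ (Or.inl rfl)), FJex _ (M1 _ (Or.inr rfl)),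
    FJex _ (M2 _ (Or.inl rfl)), FJex _ (M2 _ (Or.inr rfl)), FJex _ (M3 _ (Or.inl rfl)),
    FJex _ (M3 _ (Or.inr rfl))]
  simp only [← Finset.sum_sub_distrib, ← Finset.sum_add_distrib]
  apply Finset.sum_eq_zero
  intro S hS
  have Sa : ∀ n, n ∉ T → n ∉ S := fun n hn h => hn (Finset.mem_powerset.1 hS h)
  have s0 := Sa _ T0
  have s1 := Sa _ T1
  have sb := Sa _ Tb
  have sc := Sa _ Tc
  set s := w.map (mrk (pt a) (pt b) (pt c) (flS S)) with hs
  have pc1 : ∀ p : ℕ, (p = 0 ∨ p = 1 ∨ p = b.1 ∨ p = c.1) → ∀ S' : Finset ℕ,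
      w.map (mrk (pt a) (pt b) (pt c) (flS (insert p S')))
        = w.map (mrk (pt a) (pt b) (pt c) (flS S')) := by
    intro p hpp S'
    apply phi_congr
    intro k hk h1 h2 h3
    have := oth k hk h1 h2 h3
    have hne : k.1 ≠ p := by
      rcases hpp with rfl | rfl | rfl | rfl
      · omega
      · omega
      · exact this.2.1
      · exact this.2.2.1
    unfold flS
    simp only [Finset.mem_insert, hne, false_or]
  have hmarks : (marks s).Perm [0, 1, 2] := phi_marks hw pa pb pc nab nca.symm nbc _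
  have hsl : ∀ h : H, Sum.inl h ∈ s → h.1 ≠ b.1 ∧ h.1 ≠ c.1 ∧ 2 ≤ h.1 := by
    intro h hh
    rw [hs] at hh
    obtain ⟨k, hk, e1⟩ := List.mem_map.1 hh
    unfold mrk at e1
    split_ifs at e1 with g1 g2 g3
    have e2 : flS S k = h := Sum.inl.inj e1
    have e3 : h.1 = k.1 := by rw [← e2]; exact flS_fst _ _
    rw [e3]
    have := oth k hk g1 g2 g3
    exact ⟨this.2.1, this.2.2.1, this.2.2.2⟩
  have swb := fill_sw hf (k := b.1) (l := 0) (s := s) (fun h hh => ⟨(hsl h hh).1, by
    have := (hsl h hh).2.2; omega⟩)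
  have swc := fill_sw hf (k := c.1) (l := 1) (s := s) (fun h hh => ⟨(hsl h hh).2.1, by
    have := (hsl h hh).2.2; omega⟩)
  have sw01 := fill_sw hf (k := 0) (l := 1) (s := s) (fun h hh => ⟨by
    have := (hsl h hh).2.2; omega, by have := (hsl h hh).2.2; omega⟩)
  have nb0 : b.1 ≠ 0 := by omega
  have nb1 : b.1 ≠ 1 := by omega
  have nc0 : c.1 ≠ 0 := by omega
  have nc1 : c.1 ≠ 1 := by omega
  obtain ⟨β, bb⟩ := b
  obtain ⟨γ, cb⟩ := c
  simp only at Tb Tc lab lbc lca sb sc nb0 nb1 nc0 nc1 swb swc pc1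
  have sb1 : β ∉ insert γ S := by simp [lbc, sb]
  have s01 : (0 : ℕ) ∉ insert 1 S := by simp [s0]
  have s10 : (1 : ℕ) ∉ insert 0 S := by simp [s1]
  have scb : γ ∉ insert β S := by simp [Ne.symm lbc, sc]
  -- evaluation of the flips
  have f1 : ∀ d : Bool, flS S (β, d) = (β, d) := flS_not sb
  have f2 : ∀ d : Bool, flS S (γ, d) = (γ, d) := flS_not sc
  have f3 : ∀ d : Bool, flS (insert γ S) (β, d) = (β, d) := flS_not sb1
  have f4 : ∀ d : Bool, flS (insert γ S) (γ, d) = (γ, !d) := flS_ins_self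
  have f5 : ∀ d : Bool, flS (insert β S) (β, d) = (β, !d) := flS_ins_self
  have f6 : ∀ d : Bool, flS (insert β S) (γ, d) = (γ, d) := flS_not scb
  have f7 : ∀ d : Bool, flS (insert β (insert γ S)) (β, d) = (β, !d) := flS_ins_self
  have f8 : ∀ d : Bool, flS (insert β (insert γ S)) (γ, d) = (γ, !d) := fun d => by
    rw [Finset.insert_comm]; exact flS_ins_self d
  have g1 : ∀ d : Bool, flS S (0, d) = (0, d) := flS_not s0
  have g2 : ∀ d : Bool, flS S (1, d) = (1, d) := flS_not s1
  have g3 : ∀ d : Bool, flS (insert 1 S) (0, d) = (0, d) := flS_not s01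
  have g4 : ∀ d : Bool, flS (insert 1 S) (1, d) = (1, !d) := flS_ins_self
  have g5 : ∀ d : Bool, flS (insert 0 S) (0, d) = (0, !d) := flS_ins_self
  have g6 : ∀ d : Bool, flS (insert 0 S) (1, d) = (1, d) := flS_not s10
  have g7 : ∀ d : Bool, flS (insert 0 (insert 1 S)) (0, d) = (0, !d) := flS_ins_self
  have g8 : ∀ d : Bool, flS (insert 0 (insert 1 S)) (1, d) = (1, !d) := fun d => by
    rw [Finset.insert_comm]; exact flS_ins_self d
  have p1 : w.map (mrk (pt a) (pt (β, bb)) (pt (γ, cb)) (flS (insert γ S))) = s := pc1 γ (by simp) S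
  have p2 : w.map (mrk (pt a) (pt (β, bb)) (pt (γ, cb)) (flS (insert β S))) = s := pc1 β (by simp) S
  have p3 : w.map (mrk (pt a) (pt (β, bb)) (pt (γ, cb)) (flS (insert β (insert γ S)))) = s := by
    rw [pc1 β (by simp), p1]
  have p4 : w.map (mrk (pt a) (pt (β, bb)) (pt (γ, cb)) (flS (insert 1 S))) = s := pc1 1 (by simp) S
  have p5 : w.map (mrk (pt a) (pt (β, bb)) (pt (γ, cb)) (flS (insert 0 S))) = s := pc1 0 (by simp) S
  have p6 : w.map (mrk (pt a) (pt (β, bb)) (pt (γ, cb)) (flS (insert 0 (insert 1 S)))) = s := by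
    rw [pc1 0 (by simp), p4]
  have ptp : ∀ (n : ℕ) (d : Bool), pt (n, d) = (n, !d) := fun _ _ => rfl
  have RR : ∀ c1 c2 : Bool, f (fill s ![[(β, c1), (γ, c2)], [(β, !c1)], [(γ, !c2)]])
      = f (fill s ![[(0, c1), (1, c2)], [(0, !c1)], [(1, !c2)]]) := by
    intro c1 c2
    rw [swb, swc]
    simp only [List.map_cons, List.map_nil, sw2_l, sw2_o (Ne.symm lbc) nc0,
      sw2_o (Ne.symm nc0) (by norm_num : (0 : ℕ) ≠ 1)]
  have RR' : ∀ c1 c2 : Bool, f (fill s ![[(γ, c2), (β, c1)], [(β, !c1)], [(γ, !c2)]])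
      = f (fill s ![[(1, c2), (0, c1)], [(0, !c1)], [(1, !c2)]]) := by
    intro c1 c2
    rw [swb, swc]
    simp only [List.map_cons, List.map_nil, sw2_l, sw2_o (Ne.symm lbc) nc0,
      sw2_o (Ne.symm nc0) (by norm_num : (0 : ℕ) ≠ 1)]
  have N := core_N (fun X Y Z => f (fill s ![X, Y, Z])) 0 1 (six_id hf hmarks 0 1)
    (six_021 hf hmarks 0 1) (six_201 hf hmarks 0 1) (six_210 hf hmarks 0 1) sw01
  simp only [U1, V1, V2, V3, p1, p2, p3, p4, p5, p6, ← hs]
  simp only [List.map_cons, List.map_nil, ptp, f1, f2,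
    f3, f4, f5, f6, f7, f8, g1, g2, g3, g4, g5, g6, g7, g8, Bool.not_true, Bool.not_false]
  cases bb <;> cases cb <;> simp only [Bool.not_true, Bool.not_false]
  · have r1 := RR false false
    have r2 := RR false true
    have r3 := RR true false
    have r4 := RR true true
    have r1' := RR' false false
    have r2' := RR' false true
    have r3' := RR' true false
    have r4' := RR' true true
    simp only [Bool.not_true, Bool.not_false] at r1 r2 r3 r4 r1' r2' r3' r4'
    linear_combination N + r1 + r2 + r3 + r4 - r1' - r2' - r3' - r4'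
  · have r1 := RR false false
    have r2 := RR false true
    have r3 := RR true false
    have r4 := RR true true
    have r1' := RR' false false
    have r2' := RR' false true
    have r3' := RR' true false
    have r4' := RR' true true
    simp only [Bool.not_true, Bool.not_false] at r1 r2 r3 r4 r1' r2' r3' r4'
    linear_combination N + r1 + r2 + r3 + r4 - r1' - r2' - r3' - r4'
  · have r1 := RR false false
    have r2 := RR false true
    have r3 := RR true false
    have r4 := RR true true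
    have r1' := RR' false false
    have r2' := RR' false true
    have r3' := RR' true false
    have r4' := RR' true true
    simp only [Bool.not_true, Bool.not_false] at r1 r2 r3 r4 r1' r2' r3' r4'
    linear_combination N + r1 + r2 + r3 + r4 - r1' - r2' - r3' - r4'
  · have r1 := RR false false
    have r2 := RR false true
    have r3 := RR true false
    have r4 := RR true true
    have r1' := RR' false false
    have r2' := RR' false true
    have r3' := RR' true false
    have r4' := RR' true true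
    simp only [Bool.not_true, Bool.not_false] at r1 r2 r3 r4 r1' r2' r3' r4'
    linear_combination N + r1 + r2 + r3 + r4 - r1' - r2' - r3' - r4'

end CA247
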