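import Pool.Agent.CA247.Mat
import Pool.Agent.CA247.Base2

set_option autoImplicit false

namespace CA247

noncomputable def TW (w : List H) (m : H → R) : ℚ := tr ((w.map m).prod)
def labsL (w : List H) : List ℕ := (w.map Prod.fst).dedup

def Clo (w : List H) : Prop := w.Nodup ∧ ∀ h ∈ w, pt h ∈ w

open Classical in
/-- the deframed `gl_3` weight system -/
noncomputable def gg (w : List H) : ℚ :=
  if Clo w then ev MM (labsL w) (fun _ => 1) (TW w) else 0

theorem mem_labsL {w : List H} {l : ℕ} : l ∈ labsL w ↔ ∃ h ∈ w, h.1 = l := by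
  unfold labsL; rw [List.mem_dedup, List.mem_map]

def iv : (Fin 3 × Fin 3) ⊕ Bool ≃ (Fin 3 × Fin 3) ⊕ Bool where
  toFun s := match s with
    | Sum.inl (i, j) => Sum.inl (j, i)
    | Sum.inr c => Sum.inr (!c)
  invFun s := match s with
    | Sum.inl (i, j) => Sum.inl (j, i)
    | Sum.inr c => Sum.inr (!c)
  left_inv := by rintro (⟨i, j⟩ | c) <;> simp
  right_inv := by rintro (⟨i, j⟩ | c) <;> simp

theorem MM_iv (s : (Fin 3 × Fin 3) ⊕ Bool) (b : Bool) : MM (iv s) b = MM s (!b) := by
  rcases s with ⟨i, j⟩ | c
  · cases b <;> simp [iv, MM]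
  · cases b <;> cases c <;> simp [iv, MM]

theorem upd_tau {τ : H → H} (hτ : AutP τ) (m : H → R) (l : ℕ) (A B : R) :
    (upd m (sl τ l) A B) ∘ τ = if (τ (l, false)).2 then upd (m ∘ τ) l B A else upd (m ∘ τ) l A B := by
  funext h
  have hf := tau_form hτ h
  simp only [Function.comp]
  have e1 : (τ h).1 = sl τ h.1 := by rw [hf]
  have e2 : (τ h).2 = xor h.2 (τ (h.1, false)).2 := by
    have := congrArg Prod.snd hf; simpa using this
  by_cases hl : h.1 = l
  · have : upd m (sl τ l) A B (τ h) = if (τ h).2 then B else A := by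
      unfold upd; rw [if_pos (by rw [e1, hl])]
    rw [this, e2, hl]
    cases hd : (τ (l, false)).2 <;> cases hh : h.2 <;> simp [upd, hl, hh]
  · have h2 : (τ h).1 ≠ sl τ l := by
      rw [e1]; intro h'; exact hl (sl_inj hτ h')
    have : upd m (sl τ l) A B (τ h) = m (τ h) := by unfold upd; rw [if_neg h2]
    rw [this]
    cases hd : (τ (l, false)).2 <;> simp [upd, hl]

theorem ev_relabel {τ : H → H} (hτ : AutP τ) (T : (H → R) → ℚ) : ∀ (L : List ℕ) (m : H → R),
    ev MM (L.map (sl τ)) m (fun m => T (m ∘ τ)) = ev MM L (m ∘ τ) T := by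
  intro L
  induction L with
  | nil => intro m; rfl
  | cons l L ih =>
    intro m
    simp only [List.map_cons, ev, ih, upd_tau hτ]
    cases hd : (τ (l, false)).2
    · simp
    · simp only [if_true]
      rw [← Equiv.sum_comp iv]
      apply Finset.sum_congr rfl
      intro s _
      rw [MM_iv, MM_iv]; rfl

theorem Clo_map {τ : H → H} (hi : Function.Injective τ) (hp : ∀ h, τ (pt h) = pt (τ h)) (w : List H) :
    Clo (w.map τ) ↔ Clo w := by
  unfold Clo
  rw [List.nodup_map_iff hi]
  constructor
  · rintro ⟨h1, h2⟩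
    refine ⟨h1, fun h hh => ?_⟩
    have := h2 (τ h) (List.mem_map_of_mem hh)
    rw [← hp] at this
    obtain ⟨k, hk, e⟩ := List.mem_map.1 this
    rwa [← hi e]
  · rintro ⟨h1, h2⟩
    refine ⟨h1, fun h hh => ?_⟩
    obtain ⟨k, hk, rfl⟩ := List.mem_map.1 hh
    rw [← hp]; exact List.mem_map_of_mem (h2 k hk)

theorem gg_rel {τ : H → H} (hτ : AutP τ) (w : List H) : gg (w.map τ) = gg w := by
  unfold gg
  by_cases hc : Clo w
  · rw [if_pos hc, if_pos ((Clo_map hτ.inj hτ.pt w).2 hc)]
    have e1 : labsL (w.map τ) = (labsL w).map (sl τ) := by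
      unfold labsL
      have e0 : (w.map τ).map Prod.fst = (w.map Prod.fst).map (sl τ) := by
        rw [List.map_map, List.map_map]
        apply List.map_congr_left
        intro h _
        simp only [Function.comp]
        rw [tau_form hτ h]
      rw [e0, List.dedup_map_of_injective (sl_inj hτ)]
    have e2 : TW (w.map τ) = fun m => TW w (m ∘ τ) := by
      funext m; unfold TW; rw [List.map_map]
    rw [e1, e2, ev_relabel hτ]
    rfl
  · rw [if_neg hc, if_neg (fun h => hc ((Clo_map hτ.inj hτ.pt w).1 h))]

theorem inv_mat (P Q Z X : R) (b : Bool) :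
    ∑ s, (tr (P * (X * MM s b) * Q * MM s (!b) * Z) - tr (P * (MM s b * X) * Q * MM s (!b) * Z)
      + tr (P * MM s b * Q * (X * MM s (!b)) * Z) - tr (P * MM s b * Q * (MM s (!b) * X) * Z)) = 0 := by
  have h1 : ∀ s, P * (X * MM s b) * Q * MM s (!b) * Z = P * X * (MM s b * Q * MM s (!b)) * Z :=
    fun s => by simp only [Matrix.mul_assoc]
  have h2 : ∀ s, P * (MM s b * X) * Q * MM s (!b) * Z = P * (MM s b * (X * Q) * MM s (!b)) * Z :=
    fun s => by simp only [Matrix.mul_assoc]
  have h3 : ∀ s, P * MM s b * Q * (X * MM s (!b)) * Z = P * (MM s b * (Q * X) * MM s (!b)) * Z :=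
    fun s => by simp only [Matrix.mul_assoc]
  have h4 : ∀ s, P * MM s b * Q * (MM s (!b) * X) * Z = P * (MM s b * Q * MM s (!b)) * X * Z :=
    fun s => by simp only [Matrix.mul_assoc]
  simp only [h1, h2, h3, h4]
  rw [Finset.sum_sub_distrib, Finset.sum_add_distrib, Finset.sum_sub_distrib]
  rw [← tr_sum, ← tr_sum, ← tr_sum, ← tr_sum]
  rw [← Finset.sum_mul, ← Finset.sum_mul, ← Finset.sum_mul, ← Finset.sum_mul, ← Finset.sum_mul,
    ← Finset.mul_sum, ← Finset.mul_sum, ← Finset.mul_sum, ← Finset.mul_sum, MM_mid, MM_mid, MM_mid]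
  rw [tr_comm Q X]
  simp only [Matrix.mul_sub, Matrix.sub_mul, Matrix.mul_smul, Matrix.smul_mul, Matrix.mul_one,
    tr_sub, tr_smul, Matrix.mul_assoc]
  ring

theorem map_upd {p : List H} {m : H → R} {l : ℕ} {A B : R} (h : ∀ k ∈ p, k.1 ≠ l) :
    p.map (upd m l A B) = p.map m := by
  apply List.map_congr_left
  intro k hk
  unfold upd; rw [if_neg (h k hk)]

theorem upd_ev (m : H → R) (a : H) (s : (Fin 3 × Fin 3) ⊕ Bool) :
    upd m a.1 (MM s false) (MM s true) a = MM s a.2 := by
  unfold upd; rw [if_pos rfl]; cases a.2 <;> rfl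

theorem upd_ev' (m : H → R) (a : H) (s : (Fin 3 × Fin 3) ⊕ Bool) :
    upd m a.1 (MM s false) (MM s true) (pt a) = MM s (!a.2) := by
  unfold upd; rw [if_pos (pt_fst a)]
  show (if (!a.2) = true then MM s true else MM s false) = _
  cases a.2 <;> rfl

theorem gg_inv (w : List H) (a x : H) (hw : w.Nodup) (ha : a ∈ w) (hpa : pt a ∈ w) (hx : x ∉ w) :
    gg (sub a [x, a] w) - gg (sub a [a, x] w) + gg (sub (pt a) [x, pt a] w)
      - gg (sub (pt a) [pt a, x] w) = 0 := by
  have c1 : (([x, a] : List H) : Multiset H) = {x} + {a} := rfl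
  have c2 : (([a, x] : List H) : Multiset H) = {x} + {a} := by rw [add_comm]; rfl
  have c3 : (([x, pt a] : List H) : Multiset H) = {x} + {pt a} := rfl
  have c4 : (([pt a, x] : List H) : Multiset H) = {x} + {pt a} := by rw [add_comm]; rfl
  have u1 := coe_ins hw ha c1
  have u2 := coe_ins hw ha c2
  have u3 := coe_ins hw hpa c3
  have u4 := coe_ins hw hpa c4
  have hxa : x.1 ≠ a.1 := by
    intro h
    rcases letter_cases h with h | h
    · exact hx (h ▸ ha)
    · exact hx (h ▸ hpa)
  have cl : ∀ u : List H, (u : Multiset H) = ((x :: w : List H) : Multiset H) → (Clo u ↔ Clo (x :: w)) := by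
    intro u hu
    unfold Clo
    have : u.Perm (x :: w) := Multiset.coe_eq_coe.1 hu
    rw [this.nodup_iff]
    constructor
    · rintro ⟨h1, h2⟩
      exact ⟨h1, fun h hh => this.mem_iff.1 (h2 h (this.mem_iff.2 hh))⟩
    · rintro ⟨h1, h2⟩
      exact ⟨h1, fun h hh => this.mem_iff.2 (h2 h (this.mem_iff.1 hh))⟩
  by_cases hc : Clo (x :: w)
  · set L' := (labsL (x :: w)).erase a.1 with hL'
    have hperm : ∀ u : List H, (u : Multiset H) = ((x :: w : List H) : Multiset H) →
        (labsL u).Perm (L' ++ [a.1]) := by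
      intro u hu
      have hpu : u.Perm (x :: w) := Multiset.coe_eq_coe.1 hu
      have h1 : (labsL u).Perm (labsL (x :: w)) := (hpu.map _).dedup
      refine h1.trans ?_
      have h2 : a.1 ∈ labsL (x :: w) := mem_labsL.2 ⟨a, by simp [ha], rfl⟩
      exact (List.perm_cons_erase h2).trans (List.perm_append_comm (l₁ := [a.1]) (l₂ := L'))
    have gu : ∀ u : List H, (u : Multiset H) = ((x :: w : List H) : Multiset H) →
        gg u = ev MM L' (fun _ => 1) (fun m => ∑ s, TW u (upd m a.1 (MM s false) (MM s true))) := by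
      intro u hu
      unfold gg
      rw [if_pos ((cl u hu).2 hc), ev_perm MM (hperm u hu), ev_append]
      rfl
    rw [gu _ u1, gu _ u2, gu _ u3, gu _ u4, ← ev_sub, ← ev_add, ← ev_sub]
    have : ∀ m : H → R, (∑ s, TW (sub a [x, a] w) (upd m a.1 (MM s false) (MM s true))
        - ∑ s, TW (sub a [a, x] w) (upd m a.1 (MM s false) (MM s true))
        + ∑ s, TW (sub (pt a) [x, pt a] w) (upd m a.1 (MM s false) (MM s true))
        - ∑ s, TW (sub (pt a) [pt a, x] w) (upd m a.1 (MM s false) (MM s true))) = 0 := by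
      intro m
      rw [← Finset.sum_sub_distrib, ← Finset.sum_add_distrib, ← Finset.sum_sub_distrib]
      obtain ⟨p, v, hw1, hp1, hv1⟩ := exists_split hw ha
      have hx' : ∀ A B : R, upd m a.1 A B x = m x := fun A B => by unfold upd; rw [if_neg hxa]
      by_cases hpv : pt a ∈ v
      · have hvn : v.Nodup := by
          rw [hw1, List.nodup_append] at hw
          exact (List.nodup_cons.1 hw.2.1).2
        obtain ⟨q, r, hv2, hq, hr⟩ := exists_split hvn hpv
        have hpp : pt a ∉ p := by
          intro h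
          rw [hw1, List.nodup_append] at hw
          exact hw.2.2 (pt a) h (pt a) (by simp [hpv]) rfl
        have haq : a ∉ q := fun h => hv1 (by rw [hv2]; simp [h])
        have har : a ∉ r := fun h => hv1 (by rw [hv2]; simp [h])
        have lp : ∀ k ∈ p, k.1 ≠ a.1 := fun k hk h => by
          rcases letter_cases h with h | h
          · exact hp1 (h ▸ hk)
          · exact hpp (h ▸ hk)
        have lq : ∀ k ∈ q, k.1 ≠ a.1 := fun k hk h => by
          rcases letter_cases h with h | h
          · exact haq (h ▸ hk)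
          · exact hq (h ▸ hk)
        have lr : ∀ k ∈ r, k.1 ≠ a.1 := fun k hk h => by
          rcases letter_cases h with h | h
          · exact har (h ▸ hk)
          · exact hr (h ▸ hk)
        have e1 : ∀ l, sub a l w = p ++ l ++ (q ++ pt a :: r) := by
          intro l; rw [hw1, sub_split hp1 hv1, hv2]
        have e2 : ∀ l, sub (pt a) l w = (p ++ a :: q) ++ l ++ r := by
          intro l
          rw [hw1, hv2]
          have : p ++ a :: (q ++ pt a :: r) = (p ++ a :: q) ++ pt a :: r := by simp
          rw [this, sub_split _ hr]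
          simp [hpp, hq, pt_ne]
        have := inv_mat ((p.map m).prod) ((q.map m).prod) ((r.map m).prod) (m x) a.2
        rw [← this]
        apply Finset.sum_congr rfl
        intro s _
        unfold TW
        rw [e1, e1, e2, e2]
        simp only [List.map_append, List.map_cons, List.map_nil, List.prod_append, List.prod_cons,
          List.prod_nil, mul_one, map_upd lp, map_upd lq, map_upd lr, upd_ev, upd_ev', hx',
          Matrix.mul_assoc]
      · have hpp : pt a ∈ p := by
          rw [hw1] at hpa
          simp only [List.mem_append, List.mem_cons] at hpa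
          rcases hpa with h | h | h
          · exact h
          · exact absurd h (pt_ne a)
          · exact absurd h hpv
        have hpn : p.Nodup := by
          rw [hw1, List.nodup_append] at hw
          exact hw.1
        obtain ⟨q, r, hv2, hq, hr⟩ := exists_split hpn hpp
        have haq : a ∉ q := fun h => hp1 (by rw [hv2]; simp [h])
        have har : a ∉ r := fun h => hp1 (by rw [hv2]; simp [h])
        have lq : ∀ k ∈ q, k.1 ≠ a.1 := fun k hk h => by
          rcases letter_cases h with h | h
          · exact haq (h ▸ hk)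
          · exact hq (h ▸ hk)
        have lr : ∀ k ∈ r, k.1 ≠ a.1 := fun k hk h => by
          rcases letter_cases h with h | h
          · exact har (h ▸ hk)
          · exact hr (h ▸ hk)
        have lv : ∀ k ∈ v, k.1 ≠ a.1 := fun k hk h => by
          rcases letter_cases h with h | h
          · exact hv1 (h ▸ hk)
          · exact hpv (h ▸ hk)
        have e1 : ∀ l, sub a l w = (q ++ pt a :: r) ++ l ++ v := by
          intro l; rw [hw1, sub_split hp1 hv1, hv2]
        have e2 : ∀ l, sub (pt a) l w = q ++ l ++ (r ++ a :: v) := by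
          intro l
          rw [hw1, hv2]
          have : q ++ pt a :: r ++ a :: v = q ++ pt a :: (r ++ a :: v) := by simp
          rw [this, sub_split hq _]
          simp only [List.mem_append, List.mem_cons, not_or]
          exact ⟨hr, pt_ne a, hpv⟩
        have := inv_mat ((q.map m).prod) ((r.map m).prod) ((v.map m).prod) (m x) (!a.2)
        rw [← this]
        apply Finset.sum_congr rfl
        intro s _
        unfold TW
        rw [e1, e1, e2, e2]
        simp only [List.map_append, List.map_cons, List.map_nil, List.prod_append, List.prod_cons,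
          List.prod_nil, mul_one, map_upd lv, map_upd lq, map_upd lr, upd_ev, upd_ev', hx',
          Matrix.mul_assoc, Bool.not_not]
        ring
    have h0 : (fun m : H → R => (∑ s, TW (sub a [x, a] w) (upd m a.1 (MM s false) (MM s true))
        - ∑ s, TW (sub a [a, x] w) (upd m a.1 (MM s false) (MM s true))
        + ∑ s, TW (sub (pt a) [x, pt a] w) (upd m a.1 (MM s false) (MM s true))
        - ∑ s, TW (sub (pt a) [pt a, x] w) (upd m a.1 (MM s false) (MM s true)))) = fun _ => 0 * 0 := by
      funext m; rw [this m]; ring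
    rw [h0, ev_smul]; ring
  · have z : ∀ u : List H, (u : Multiset H) = ((x :: w : List H) : Multiset H) → gg u = 0 := by
      intro u hu
      unfold gg; rw [if_neg (fun h => hc ((cl u hu).1 h))]
    rw [z _ u1, z _ u2, z _ u3, z _ u4]; ring

theorem gg_goodC : GoodC gg :=
  ⟨fun _ hτ w _ => gg_rel ⟨hτ.inj, hτ.pt⟩ w, fun w a x hw ha hpa hx _ => gg_inv w a x hw ha hpa hx⟩

/-- isolated chords are killed -/
theorem gg_iso (u v : List H) (h : H) : gg (u ++ h :: pt h :: v) = 0 := by
  unfold gg
  by_cases hc : Clo (u ++ h :: pt h :: v)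
  · rw [if_pos hc]
    have h2 : h.1 ∈ labsL (u ++ h :: pt h :: v) := mem_labsL.2 ⟨h, by simp, rfl⟩
    rw [ev_perm MM ((List.perm_cons_erase h2).trans
      (List.perm_append_comm (l₁ := [h.1]) (l₂ := (labsL (u ++ h :: pt h :: v)).erase h.1))), ev_append]
    have hn := hc.1
    rw [List.nodup_append] at hn
    obtain ⟨hn1, hn2, hn3⟩ := hn
    rw [List.nodup_cons, List.nodup_cons] at hn2
    have lu : ∀ k ∈ u, k.1 ≠ h.1 := fun k hk e => by
      rcases letter_cases e with e | e
      · exact hn3 k hk h (by simp) e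
      · exact hn3 k hk (pt h) (by simp) e
    have lv : ∀ k ∈ v, k.1 ≠ h.1 := fun k hk e => by
      rcases letter_cases e with e | e
      · exact hn2.1 (by simp [← e, hk])
      · exact hn2.2.1 (e ▸ hk)
    have key : ∀ m : H → R, ev MM [h.1] m (TW (u ++ h :: pt h :: v)) = 0 * 0 := by
      intro m
      show ∑ s, TW (u ++ h :: pt h :: v) (upd m h.1 (MM s false) (MM s true)) = _
      have : ∀ s, TW (u ++ h :: pt h :: v) (upd m h.1 (MM s false) (MM s true))
          = tr ((u.map m).prod * (MM s h.2 * 1 * MM s (!h.2)) * (v.map m).prod) := by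
        intro s
        unfold TW
        simp only [List.map_append, List.map_cons, List.prod_append, List.prod_cons, map_upd lu,
          map_upd lv, upd_ev, upd_ev', mul_one, Matrix.mul_assoc]
      simp only [this]
      rw [← tr_sum, ← Finset.sum_mul, ← Finset.mul_sum, MM_mid, tr_one]
      have : (3 : ℚ) • (1 : R) - (3 : ℚ) • (1 : R) = 0 := _root_.sub_self _
      rw [this]; simp [tr]
    rw [ev_congr MM _ _ key, ev_smul]; ring
  · rw [if_neg hc]

end CA247
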