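import Pool.Agent.CA247.Base3
import Pool.Agent.CA247.Gl

set_option autoImplicit false

namespace CA247

variable {f : List H → ℚ}

theorem ren_pt (s : ℕ → ℕ) (h : H) : ren s (pt h) = pt (ren s h) := rfl

theorem ren_inj {s : ℕ → ℕ} (hs : Function.Injective s) : Function.Injective (ren s) := by
  intro a b h
  have h1 := congrArg Prod.fst h
  have h2 := congrArg Prod.snd h
  exact Prod.ext (hs h1) h2

/-- The dual of the map from chord diagrams to arrow diagrams. -/
def Ft (f : List H → ℚ) (w : List H) : ℚ := ∑ S ∈ (labs w).powerset, f (w.map (flS S))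

theorem labs_flS (D : Finset ℕ) (w : List H) : labs (w.map (flS D)) = labs w := by
  ext l; rw [mem_labs, mem_labs]; constructor
  · rintro ⟨h, hh, rfl⟩
    obtain ⟨k, hk, rfl⟩ := List.mem_map.1 hh
    exact ⟨k, hk, (flS_fst _ _).symm⟩
  · rintro ⟨k, hk, rfl⟩
    exact ⟨flS D k, List.mem_map_of_mem hk, flS_fst _ _⟩

theorem labs_ren (s : ℕ → ℕ) (w : List H) : labs (w.map (ren s)) = (labs w).image s := by
  ext l; rw [mem_labs, Finset.mem_image]; constructor
  · rintro ⟨h, hh, rfl⟩
    obtain ⟨k, hk, rfl⟩ := List.mem_map.1 hh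
    exact ⟨k.1, mem_labs.2 ⟨k, hk, rfl⟩, rfl⟩
  · rintro ⟨n, hn, rfl⟩
    obtain ⟨k, hk, rfl⟩ := mem_labs.1 hn
    exact ⟨ren s k, List.mem_map_of_mem hk, rfl⟩

theorem Ft_flip (f : List H → ℚ) (D : Finset ℕ) (w : List H) : Ft f (w.map (flS D)) = Ft f w := by
  unfold Ft
  rw [labs_flS]
  have key : ∀ S ⊆ labs w, (w.map (flS D)).map (flS S) = w.map (flS (symmDiff S (D ∩ labs w))) := by
    intro S hS
    rw [List.map_map]
    apply List.map_congr_left
    intro h hh
    have hm : h.1 ∈ labs w := mem_labs.2 ⟨h, hh, rfl⟩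
    simp only [Function.comp]
    have e1 : (flS D h).1 = h.1 := flS_fst _ _
    unfold flS
    unfold flS at e1
    rw [e1]
    simp only [Finset.mem_symmDiff, Finset.mem_inter, hm, and_true]
    by_cases c1 : h.1 ∈ S <;> by_cases c2 : h.1 ∈ D <;> simp [c1, c2]
  have hsub : ∀ S ⊆ labs w, symmDiff S (D ∩ labs w) ⊆ labs w := by
    intro S hS l hl
    rw [Finset.mem_symmDiff] at hl
    rcases hl with ⟨h, -⟩ | ⟨h, -⟩
    · exact hS h
    · exact (Finset.mem_inter.1 h).2
  refine Finset.sum_bij' (fun S _ => symmDiff S (D ∩ labs w)) (fun S _ => symmDiff S (D ∩ labs w))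
    ?_ ?_ ?_ ?_ ?_
  · intro S hS; exact Finset.mem_powerset.2 (hsub S (Finset.mem_powerset.1 hS))
  · intro S hS; exact Finset.mem_powerset.2 (hsub S (Finset.mem_powerset.1 hS))
  · intro S _; exact symmDiff_symmDiff_cancel_right _ _
  · intro S _; exact symmDiff_symmDiff_cancel_right _ _
  · intro S hS
    rw [key S (Finset.mem_powerset.1 hS)]

theorem Ft_ren (hf : ArrB f) {s : ℕ → ℕ} (hs : Function.Injective s) (w : List H) :
    Ft f (w.map (ren s)) = Ft f w := by
  unfold Ft
  rw [labs_ren]
  symm
  refine Finset.sum_bij' (fun S _ => S.image s) (fun S _ => (labs w).filter (fun l => s l ∈ S))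
    ?_ ?_ ?_ ?_ ?_
  · intro S hS
    rw [Finset.mem_powerset] at hS ⊢
    exact Finset.image_subset_image hS
  · intro S _
    rw [Finset.mem_powerset]
    exact Finset.filter_subset _ _
  · intro S hS
    rw [Finset.mem_powerset] at hS
    ext l
    rw [Finset.mem_filter, Finset.mem_image]
    constructor
    · rintro ⟨-, l', hl', h⟩
      rwa [← hs h]
    · intro hl
      exact ⟨hS hl, l, hl, rfl⟩
  · intro S hS
    rw [Finset.mem_powerset] at hS
    ext l
    rw [Finset.mem_image]
    constructor
    · rintro ⟨l', hl', rfl⟩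
      exact (Finset.mem_filter.1 hl').2
    · intro hl
      obtain ⟨l', hl', rfl⟩ := Finset.mem_image.1 (hS hl)
      exact ⟨l', Finset.mem_filter.2 ⟨hl', hl⟩, rfl⟩
  · intro S _
    rw [← hf.rel s hs (w.map (flS S)), List.map_map, List.map_map]
    congr 1
    apply List.map_congr_left
    intro h _
    have hin : s h.1 ∈ S.image s ↔ h.1 ∈ S := by
      rw [Finset.mem_image]
      constructor
      · rintro ⟨l', hl', h'⟩; rwa [← hs h']
      · intro h'; exact ⟨_, h', rfl⟩
    simp only [Function.comp, flS, ren, hin]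
    split_ifs <;> rfl

theorem Ft_tau (hf : ArrB f) {τ : H → H} (hτ : AutP τ) (w : List H) :
    Ft f (w.map τ) = Ft f w := by
  have : w.map τ = (w.map (flS ((labs w).filter (fun l => (τ (l, false)).2 = true)))).map
      (ren (sl τ)) := by
    rw [List.map_map]
    apply List.map_congr_left
    intro h hh
    have hm : h.1 ∈ labs w := mem_labs.2 ⟨h, hh, rfl⟩
    simp only [Function.comp]
    rw [tau_form hτ h]
    unfold flS ren
    simp only [Finset.mem_filter, hm, true_and]
    cases hd : (τ (h.1, false)).2 <;> simp [pt]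
  rw [this, Ft_ren hf (sl_inj hτ), Ft_flip]

theorem Ft_eq {u : List H} (h : ∀ k ∈ u, 2 ≤ k.1) : Ft f u = (1 / 4) * Fe 1 f u := by
  have T2 : ∀ n ∈ labs u, 2 ≤ n := by
    intro n hn
    obtain ⟨k, hk, rfl⟩ := mem_labs.1 hn
    exact h k hk
  have e1 : labs u ∪ {0, 1} = insert 0 (insert 1 (labs u)) := by
    ext n; simp only [Finset.mem_union, Finset.mem_insert, Finset.mem_singleton]; tauto
  have n1 : (1 : ℕ) ∉ labs u := fun h => by have := T2 1 h; omega
  have n0 : (0 : ℕ) ∉ insert 1 (labs u) := by
    simp only [Finset.mem_insert, not_or]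
    exact ⟨by omega, fun h => by have := T2 0 h; omega⟩
  unfold Fe
  rw [e1, gs_irrel n0 (fun k hk => by have := h k hk; omega),
    gs_irrel n1 (fun k hk => by have := h k hk; omega)]
  have w1 : ∀ S, wt 1 S = 1 := fun S => by unfold wt; simp
  unfold Ft gs
  simp only [w1, one_mul]
  ring

theorem Ft_inv (hf : ArrB f) (w : List H) (a x : H) (hw : w.Nodup) (ha : a ∈ w) (hpa : pt a ∈ w)
    (hx : x ∉ w) :
    Ft f (sub a [x, a] w) - Ft f (sub a [a, x] w) + Ft f (sub (pt a) [x, pt a] w)
      - Ft f (sub (pt a) [pt a, x] w) = 0 := by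
  have hs : Function.Injective (fun n : ℕ => n + 2) := fun m n h => by simpa using h
  have hi := ren_inj hs
  have key : ∀ (h : H) (l : List H), Ft f (sub h l w)
      = (1 / 4) * Fe 1 f (sub (ren (· + 2) h) (l.map (ren (· + 2))) (w.map (ren (· + 2)))) := by
    intro h l
    rw [← Ft_ren hf hs, ← sub_map hi, Ft_eq]
    intro k hk
    obtain ⟨k', -, rfl⟩ := List.mem_map.1 hk
    show 2 ≤ k'.1 + 2
    omega
  rw [key, key, key, key]
  have := Fe_inv (e := 1) hf (w := w.map (ren (· + 2))) (a := ren (· + 2) a) (x := ren (· + 2) x)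
    ((List.nodup_map_iff hi).2 hw) (List.mem_map_of_mem ha)
    (by rw [← ren_pt]; exact List.mem_map_of_mem hpa)
    (fun h => by
      obtain ⟨k, hk, e⟩ := List.mem_map.1 h
      exact hx (hi e ▸ hk))
    (by show 2 ≤ a.1 + 2; omega)
  simp only [List.map_cons, List.map_nil, ren_pt]
  linear_combination (1 / 4) * this

theorem Ft_goodC (hf : ArrB f) : GoodC (Ft f) :=
  ⟨fun _ hτ w _ => Ft_tau hf ⟨hτ.inj, hτ.pt⟩ w, fun w a x hw ha hpa hx _ => Ft_inv hf w a x hw ha hpa hx⟩

theorem Ft_nax (hf : ArrB f) : Nax (Ft f) (Fe (-1) f) := by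
  intro w a b c hw ha hb hc hab hbc hca pa pb pc hl
  have := Fe_nax hf w a b c hw ha hb hc hab hbc hca pa pb pc hl
  have lb : 2 ≤ b.1 := hl (pt b) pb
  have lc : 2 ≤ c.1 := hl (pt c) pc
  rw [Ft_eq (u := sub (pt a) [b, c] w), Ft_eq (u := sub (pt a) [c, b] w)]
  · exact this
  · intro k hk
    rcases mem_sub.1 hk with ⟨h1, -⟩ | ⟨-, h1⟩
    · exact hl k h1
    · simp only [List.mem_cons, List.not_mem_nil, or_false] at h1
      rcases h1 with rfl | rfl <;> assumption
  · intro k hk
    rcases mem_sub.1 hk with ⟨h1, -⟩ | ⟨-, h1⟩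
    · exact hl k h1
    · simp only [List.mem_cons, List.not_mem_nil, or_false] at h1
      rcases h1 with rfl | rfl <;> assumption

theorem Ft_open (hf : ArrB f) {u : List H} (hu : ¬ Clo u) : Ft f u = 0 := by
  unfold Ft
  apply Finset.sum_eq_zero
  intro S _
  apply hf.cl
  intro h
  exact hu ((Clo_map (flS_inj S) (fun h => flS_pt S h) u).1 h)

/-! ### 4T at the level of skeletons -/

def D4 (F : List H → ℚ) (s : List (H ⊕ Fin 3)) (i j : ℕ) : ℚ :=
  F (fill s ![[(i, false), (j, false)], [(i, true)], [(j, true)]])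
  - F (fill s ![[(j, false), (i, false)], [(i, true)], [(j, true)]])
  + F (fill s ![[(i, false)], [(i, true), (j, false)], [(j, true)]])
  - F (fill s ![[(i, false)], [(j, false), (i, true)], [(j, true)]])

theorem fill_coe (s : List (H ⊕ Fin 3)) (X : Fin 3 → List H) :
    ((fill s X : List H) : Multiset H)
      = ((s.filterMap Sum.getLeft? : List H) : Multiset H) + (((marks s).flatMap X : List H) : Multiset H) := by
  induction s with
  | nil => rfl
  | cons x s ih =>
    rcases x with h | m
    · have e1 : fill (Sum.inl h :: s) X = h :: fill s X := rfl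
      have e2 : (Sum.inl h :: s).filterMap Sum.getLeft? = h :: s.filterMap Sum.getLeft? := rfl
      have e3 : marks (Sum.inl h :: s) = marks s := rfl
      rw [e1, e2, e3, ← Multiset.cons_coe, ih, ← Multiset.cons_coe, Multiset.cons_add]
    · have e1 : fill (Sum.inr m :: s) X = X m ++ fill s X := rfl
      have e2 : (Sum.inr m :: s).filterMap Sum.getLeft? = s.filterMap Sum.getLeft? := rfl
      have e3 : (marks (Sum.inr m :: s)).flatMap X = X m ++ (marks s).flatMap X := rfl
      rw [e1, e2, e3, ← Multiset.coe_add, ih, ← Multiset.coe_add]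
      abel

theorem fill_coe3 {s : List (H ⊕ Fin 3)} (hs : (marks s).Perm [0, 1, 2]) (A B C : List H) :
    ((fill s ![A, B, C] : List H) : Multiset H)
      = ((s.filterMap Sum.getLeft? : List H) : Multiset H) + (A + B + C) := by
  rw [fill_coe]
  congr 1
  have := hs.flatMap_right ![A, B, C]
  rw [Multiset.coe_eq_coe.2 this]
  show ((A ++ (B ++ (C ++ []))  : List H) : Multiset H) = _
  simp only [List.append_nil, ← Multiset.coe_add]
  rw [_root_.add_assoc]

theorem sub_fill {s : List (H ⊕ Fin 3)} {a : H} (ha : Sum.inl a ∉ s) (l : List H)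
    (X : Fin 3 → List H) : sub a l (fill s X) = fill s (fun m => sub a l (X m)) := by
  induction s with
  | nil => rfl
  | cons x s ih =>
    have ih' := ih (fun h => ha (List.mem_cons_of_mem _ h))
    rcases x with h | m
    · have e1 : fill (Sum.inl h :: s) X = h :: fill s X := rfl
      have e2 : fill (Sum.inl h :: s) (fun m => sub a l (X m)) = h :: fill s (fun m => sub a l (X m)) := rfl
      rw [e1, e2, sub_cons, if_neg (fun e => ha (by rw [e]; simp)), ih']
      rfl
    · have e1 : fill (Sum.inr m :: s) X = X m ++ fill s X := rfl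
      have e2 : fill (Sum.inr m :: s) (fun m => sub a l (X m))
        = sub a l (X m) ++ fill s (fun m => sub a l (X m)) := rfl
      rw [e1, e2, sub_append, ih']

theorem four_of_inv {F : List H → ℚ} (hcl : ∀ u, ¬ Clo u → F u = 0)
    (hinv : ∀ (w : List H) (a x : H), w.Nodup → a ∈ w → pt a ∈ w → x ∉ w →
      F (sub a [x, a] w) - F (sub a [a, x] w) + F (sub (pt a) [x, pt a] w)
      - F (sub (pt a) [pt a, x] w) = 0)
    {s : List (H ⊕ Fin 3)} (hs : (marks s).Perm [0, 1, 2]) (i j : ℕ) : D4 F s i j = 0 := by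
  set a : H := (i, false) with ha
  set b : H := (i, true) with hb
  set x : H := (j, false) with hx
  set y : H := (j, true) with hy
  set W : Multiset H := ((s.filterMap Sum.getLeft? : List H) : Multiset H) + ({a} + {b} + {x} + {y}) with hW
  have c1 : ((fill s ![[a, x], [b], [y]] : List H) : Multiset H) = W := by
    rw [fill_coe3 hs, hW]
    show _ + ((({a} : Multiset H) + {x}) + {b} + {y}) = _
    abel
  have c2 : ((fill s ![[x, a], [b], [y]] : List H) : Multiset H) = W := by
    rw [fill_coe3 hs, hW]
    show _ + ((({x} : Multiset H) + {a}) + {b} + {y}) = _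
    abel
  have c3 : ((fill s ![[a], [b, x], [y]] : List H) : Multiset H) = W := by
    rw [fill_coe3 hs, hW]
    show _ + (({a} : Multiset H) + ({b} + {x}) + {y}) = _
    abel
  have c4 : ((fill s ![[a], [x, b], [y]] : List H) : Multiset H) = W := by
    rw [fill_coe3 hs, hW]
    show _ + (({a} : Multiset H) + ({x} + {b}) + {y}) = _
    abel
  by_cases hn : W.Nodup
  · have c0 : ((fill s ![[a], [b], [y]] : List H) : Multiset H) + {x} = W := by
      rw [fill_coe3 hs, hW]
      show _ + (({a} : Multiset H) + {b} + {y}) + {x} = _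
      abel
    set w := fill s ![[a], [b], [y]] with hw
    have hn' := hn
    rw [← c0, Multiset.nodup_add] at hn'
    have n1 : w.Nodup := hn'.1
    have n2 : x ∉ w := by
      intro h
      exact Multiset.disjoint_left.1 hn'.2.2 h (by simp)
    have hL : ∀ h : H, Sum.inl h ∈ s → h ∈ ((s.filterMap Sum.getLeft? : List H) : Multiset H) := by
      intro h hh
      rw [Multiset.mem_coe, List.mem_filterMap]
      exact ⟨Sum.inl h, hh, rfl⟩
    have hn3 := hn
    rw [hW, Multiset.nodup_add] at hn3
    have na : Sum.inl a ∉ s := fun h => Multiset.disjoint_left.1 hn3.2.2 (hL a h) (by simp)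
    have nb : Sum.inl b ∉ s := fun h => Multiset.disjoint_left.1 hn3.2.2 (hL b h) (by simp)
    have hay : a ≠ y := by rw [ha, hy]; simp
    have hab : a ≠ b := by rw [ha, hb]; simp
    have hby : b ≠ y := by
      intro h
      have h3 := hn3.2.1
      rw [h] at h3
      have : ({a} + {y} + {x} + {y} : Multiset H) = ({y} + {y}) + ({a} + {x}) := by abel
      rw [this, Multiset.nodup_add] at h3
      have h4 := h3.1
      rw [Multiset.nodup_add] at h4
      exact Multiset.disjoint_left.1 h4.2.2 (by simp : y ∈ ({y} : Multiset H)) (by simp)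
    have ma : a ∈ w := by
      rw [← Multiset.mem_coe, hw, fill_coe3 hs]
      simp
    have mb : pt a ∈ w := by
      rw [← Multiset.mem_coe, hw, fill_coe3 hs]
      show b ∈ _
      simp
    have s1 : ∀ l : List H, sub a l w = fill s ![l, [b], [y]] := by
      intro l
      rw [hw, sub_fill na]
      congr 1
      funext m
      fin_cases m
      · show sub a l [a] = l
        simp [sub]
      · show sub a l [b] = [b]
        exact sub_of_not_mem (by simp [hab])
      · show sub a l [y] = [y]
        exact sub_of_not_mem (by simp [hay])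
    have s2 : ∀ l : List H, sub (pt a) l w = fill s ![[a], l, [y]] := by
      intro l
      show sub b l w = _
      rw [hw, sub_fill nb]
      congr 1
      funext m
      fin_cases m
      · show sub b l [a] = [a]
        exact sub_of_not_mem (by simp [hab.symm])
      · show sub b l [b] = l
        simp [sub]
      · show sub b l [y] = [y]
        exact sub_of_not_mem (by simp [hby])
    have := hinv w a x n1 ma mb n2
    rw [s1, s1, s2, s2] at this
    unfold D4
    have hpa : pt a = b := rfl
    rw [hpa] at this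
    linear_combination -this
  · have z : ∀ u : List H, (u : Multiset H) = W → F u = 0 := by
      intro u hu
      apply hcl
      intro h
      apply hn
      rw [← hu]
      exact h.1
    unfold D4
    rw [z _ c1, z _ c2, z _ c3, z _ c4]
    ring

end CA247
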