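import Pool.Agent.CA247.Core

set_option autoImplicit false

namespace CA247

variable {F : List H → ℚ}

/-- Linear combination of blocks in a context. -/
noncomputable def bs (F : List H → ℚ) (w : List H) (L : List (ℚ × Multiset (List H)))
    (V : Multiset (List H)) : ℚ := (L.map (fun p => p.1 * fh F w (p.2 + V))).sum

theorem bs_nil (w : List H) (V : Multiset (List H)) : bs F w [] V = 0 := rfl
theorem bs_cons (w : List H) (p : ℚ × Multiset (List H)) (L : List (ℚ × Multiset (List H)))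
    (V : Multiset (List H)) : bs F w (p :: L) V = p.1 * fh F w (p.2 + V) + bs F w L V := by
  simp [bs]

theorem sum_map_sub {α : Type*} (L : List α) (f g h : α → ℚ) (H : ∀ p ∈ L, f p = g p - h p) :
    (L.map f).sum = (L.map g).sum - (L.map h).sum := by
  induction L with
  | nil => simp
  | cons p L ih =>
    simp only [List.map_cons, List.sum_cons]
    rw [H p (by simp), ih (fun q hq => H q (by simp [hq]))]
    ring

theorem block_ind (hF : GoodC F) (L : List (ℚ × Multiset (List H))) (C : Multiset H)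
    (hC : ∀ p ∈ L, fl p.2 = C)
    (hbase : ∀ (w : List H) (V : Multiset (List H)), ((w : Multiset H) + C + fl V).Nodup →
      (¬ ∃ s, IsStep w V s) → bs F w L V = 0) :
    ∀ (w : List H) (V : Multiset (List H)), bs F w L V = 0 := by
  have key : ∀ (n : ℕ) (w : List H) (V : Multiset (List H)), V.card = n → bs F w L V = 0 := by
    intro n
    induction n with
    | zero =>
      intro w V hV
      by_cases hN : ((w : Multiset H) + C + fl V).Nodup
      · apply hbase w V hN
        rintro ⟨s, -, -, r, -, h⟩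
        rw [h] at hV; simp at hV
      · unfold bs
        apply List.sum_eq_zero
        intro z hz
        obtain ⟨p, hp, rfl⟩ := List.mem_map.1 hz
        rw [fh_of_not, mul_zero]
        unfold Nod
        rw [fl_add, hC p hp, ← add_assoc]; exact hN
    | succ n ih =>
      intro w V hV
      by_cases hN : ((w : Multiset H) + C + fl V).Nodup
      · by_cases hS : ∃ s, IsStep w V s
        · obtain ⟨s, h1, h2, r, h3, h4⟩ := hS
          have hc : s.V'.card = n := by rw [h4, Multiset.card_cons] at hV; omega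
          have e : bs F w L V = bs F (sub s.h [s.x, s.y] w) L s.V'
              - bs F (sub s.h [s.y, s.x] w) L s.V' := by
            unfold bs
            have : ∀ p ∈ L, p.1 * fh F w (p.2 + V) = p.1 * fh F (sub s.h [s.x, s.y] w) (p.2 + s.V')
                - p.1 * fh F (sub s.h [s.y, s.x] w) (p.2 + s.V') := by
              intro p hp
              rw [fh_res hF (w := w) (V := p.2 + V) (h := s.h) (x := s.x) (y := s.y) (r := r)
                (V' := p.2 + s.V') ?_ h1 h2 h3 ?_]
              · ring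
              · unfold Nod; rw [fl_add, hC p hp, ← add_assoc]; exact hN
              · rw [h4, Multiset.add_cons]
            exact sum_map_sub L _ _ _ this
          rw [e, ih _ _ hc, ih _ _ hc, sub_zero]
        · exact hbase w V hN hS
      · unfold bs
        apply List.sum_eq_zero
        intro z hz
        obtain ⟨p, hp, rfl⟩ := List.mem_map.1 hz
        rw [fh_of_not, mul_zero]
        unfold Nod
        rw [fl_add, hC p hp, ← add_assoc]; exact hN
  exact fun w V => key _ w V rfl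

/-- resolve the vertex `r` -/
theorem fh_v (hF : GoodC F) {w : List H} {V : Multiset (List H)} {r : List H} {k x y : H}
    (hN : Nod w (r ::ₘ V)) (hk : pt k ∈ w) (hp : 2 ≤ k.1) (hr : IsRot r k x y) :
    fh F w (r ::ₘ V) = fh F (sub (pt k) [x, y] w) V - fh F (sub (pt k) [y, x] w) V :=
  fh_res hF (r := r) hN hk hp (by rw [pt_pt]; exact hr) rfl

theorem mem_of_isRot {r : List H} {a b c : H} (h : IsRot r a b c) (k : H) :
    k ∈ r ↔ k = a ∨ k = b ∨ k = c := by
  rw [← Multiset.mem_coe, h.coe]; simp only [Multiset.mem_add, Multiset.mem_singleton]; tauto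

/-- If no letter of `w` meets the block or `V`, there is no step. -/
theorem no_step {w : List H} {B V : Multiset (List H)} (h1 : ¬ ∃ s, IsStep w V s)
    (h2 : ∀ k ∈ fl B, 2 ≤ k.1 → pt k ∉ w) : ¬ ∃ s, IsStep w (B + V) s := by
  rintro ⟨⟨h, x, y, V'⟩, e1, e2, r, e3, e4⟩
  simp only at e1 e2 e3 e4
  have hr : r ∈ B + V := by rw [e4]; simp
  rcases Multiset.mem_add.1 hr with hr | hr
  · apply h2 (pt h) (mem_fl.2 ⟨r, hr, (mem_of_isRot e3 _).2 (Or.inl rfl)⟩) e2
    simpa using e1
  · obtain ⟨W, hW⟩ := Multiset.exists_cons_of_mem hr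
    exact h1 ⟨⟨h, x, y, W⟩, e1, e2, r, e3, hW⟩

theorem fh_as (hF : GoodC F) (w : List H) (a b c : H) (V : Multiset (List H)) :
    fh F w ([a, b, c] ::ₘ V) = - fh F w ([b, a, c] ::ₘ V) := by
  have key := block_ind hF [(1, {[a, b, c]}), (1, {[b, a, c]})] ({a} + {b} + {c}) ?_ ?_ w V
  · rw [bs_cons, bs_cons, bs_nil] at key
    simp only [Multiset.singleton_add, one_mul, add_zero] at key
    linarith
  · intro p hp
    simp only [List.mem_cons, List.not_mem_nil, or_false] at hp
    rcases hp with rfl | rfl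
    · show fl {[a, b, c]} = _
      simp only [fl, Multiset.map_singleton, Multiset.sum_singleton]; rfl
    · show fl {[b, a, c]} = _
      simp only [fl, Multiset.map_singleton, Multiset.sum_singleton]
      show ({b} + {a} + {c} : Multiset H) = _
      abel
  · intro w V hN hS
    rw [bs_cons, bs_cons, bs_nil]
    simp only [Multiset.singleton_add, one_mul, add_zero]
    have hN1 : Nod w ([a, b, c] ::ₘ V) := by
      unfold Nod; rw [fl_cons, ← add_assoc]; exact hN
    have hN2 : Nod w ([b, a, c] ::ₘ V) := by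
      unfold Nod; rw [fl_cons, ← add_assoc]
      have : (([b, a, c] : List H) : Multiset H) = {a} + {b} + {c} := by
        show ({b} + {a} + {c} : Multiset H) = _
        abel
      rw [this]; exact hN
    by_cases ha : pt a ∈ w ∧ 2 ≤ a.1
    · rw [fh_v hF hN1 ha.1 ha.2 (Or.inl rfl), fh_v hF hN2 ha.1 ha.2 (Or.inr (Or.inl rfl))]
      ring
    by_cases hb : pt b ∈ w ∧ 2 ≤ b.1
    · rw [fh_v hF hN1 hb.1 hb.2 (Or.inr (Or.inl rfl)), fh_v hF hN2 hb.1 hb.2 (Or.inl rfl)]
      ring
    by_cases hc : pt c ∈ w ∧ 2 ≤ c.1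
    · rw [fh_v hF hN1 hc.1 hc.2 (Or.inr (Or.inr rfl)), fh_v hF hN2 hc.1 hc.2 (Or.inr (Or.inr rfl))]
      ring
    have n1 : ¬ ∃ s, IsStep w ([a, b, c] ::ₘ V) s := by
      rw [← Multiset.singleton_add]
      apply no_step hS
      intro k hk hp e
      simp only [fl, Multiset.map_singleton, Multiset.sum_singleton, Multiset.mem_coe,
        List.mem_cons, List.not_mem_nil, or_false] at hk
      rcases hk with rfl | rfl | rfl
      · exact ha ⟨e, hp⟩
      · exact hb ⟨e, hp⟩
      · exact hc ⟨e, hp⟩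
    have n2 : ¬ ∃ s, IsStep w ([b, a, c] ::ₘ V) s := by
      rw [← Multiset.singleton_add]
      apply no_step hS
      intro k hk hp e
      simp only [fl, Multiset.map_singleton, Multiset.sum_singleton, Multiset.mem_coe,
        List.mem_cons, List.not_mem_nil, or_false] at hk
      rcases hk with rfl | rfl | rfl
      · exact hb ⟨e, hp⟩
      · exact ha ⟨e, hp⟩
      · exact hc ⟨e, hp⟩
    rw [fh_none n1 (by simp), fh_none n2 (by simp)]
    ring

theorem fh_rot (hF : GoodC F) (w : List H) (a b c : H) (V : Multiset (List H)) :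
    fh F w ([a, b, c] ::ₘ V) = fh F w ([b, c, a] ::ₘ V) := by
  have key := block_ind hF [(1, {[a, b, c]}), (-1, {[b, c, a]})] ({a} + {b} + {c}) ?_ ?_ w V
  · rw [bs_cons, bs_cons, bs_nil] at key
    simp only [Multiset.singleton_add, one_mul, add_zero] at key
    linarith
  · intro p hp
    simp only [List.mem_cons, List.not_mem_nil, or_false] at hp
    rcases hp with rfl | rfl
    · show fl {[a, b, c]} = _
      simp only [fl, Multiset.map_singleton, Multiset.sum_singleton]; rfl
    · show fl {[b, c, a]} = _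
      simp only [fl, Multiset.map_singleton, Multiset.sum_singleton]
      show ({b} + {c} + {a} : Multiset H) = _
      abel
  · intro w V hN hS
    rw [bs_cons, bs_cons, bs_nil]
    simp only [Multiset.singleton_add, one_mul, add_zero]
    have hN1 : Nod w ([a, b, c] ::ₘ V) := by
      unfold Nod; rw [fl_cons, ← add_assoc]; exact hN
    have hN2 : Nod w ([b, c, a] ::ₘ V) := by
      unfold Nod; rw [fl_cons, ← add_assoc]
      have : (([b, c, a] : List H) : Multiset H) = {a} + {b} + {c} := by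
        show ({b} + {c} + {a} : Multiset H) = _
        abel
      rw [this]; exact hN
    by_cases ha : pt a ∈ w ∧ 2 ≤ a.1
    · rw [fh_v hF hN1 ha.1 ha.2 (Or.inl rfl), fh_v hF hN2 ha.1 ha.2 (Or.inr (Or.inr rfl))]
      ring
    by_cases hb : pt b ∈ w ∧ 2 ≤ b.1
    · rw [fh_v hF hN1 hb.1 hb.2 (Or.inr (Or.inl rfl)), fh_v hF hN2 hb.1 hb.2 (Or.inl rfl)]
      ring
    by_cases hc : pt c ∈ w ∧ 2 ≤ c.1
    · rw [fh_v hF hN1 hc.1 hc.2 (Or.inr (Or.inr rfl)), fh_v hF hN2 hc.1 hc.2 (Or.inr (Or.inl rfl))]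
      ring
    have n1 : ¬ ∃ s, IsStep w ([a, b, c] ::ₘ V) s := by
      rw [← Multiset.singleton_add]
      apply no_step hS
      intro k hk hp e
      simp only [fl, Multiset.map_singleton, Multiset.sum_singleton, Multiset.mem_coe,
        List.mem_cons, List.not_mem_nil, or_false] at hk
      rcases hk with rfl | rfl | rfl
      · exact ha ⟨e, hp⟩
      · exact hb ⟨e, hp⟩
      · exact hc ⟨e, hp⟩
    have n2 : ¬ ∃ s, IsStep w ([b, c, a] ::ₘ V) s := by
      rw [← Multiset.singleton_add]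
      apply no_step hS
      intro k hk hp e
      simp only [fl, Multiset.map_singleton, Multiset.sum_singleton, Multiset.mem_coe,
        List.mem_cons, List.not_mem_nil, or_false] at hk
      rcases hk with rfl | rfl | rfl
      · exact hb ⟨e, hp⟩
      · exact hc ⟨e, hp⟩
      · exact ha ⟨e, hp⟩
    rw [fh_none n1 (by simp), fh_none n2 (by simp)]
    ring

/-- two-step resolution, form `k → [x,e]`, `e → [c,d]`. -/
theorem fh_vv (hF : GoodC F) {w : List H} {V : Multiset (List H)} {r1 r2 : List H} {k x e c d : H}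
    (hN : Nod w (r1 ::ₘ r2 ::ₘ V)) (hk : pt k ∈ w) (hp : 2 ≤ k.1) (he : 2 ≤ e.1)
    (hr1 : IsRot r1 k x e) (hr2 : IsRot r2 (pt e) c d) :
    fh F w (r1 ::ₘ r2 ::ₘ V) = fh F (sub (pt k) [x, c, d] w) V - fh F (sub (pt k) [x, d, c] w) V
      - fh F (sub (pt k) [c, d, x] w) V + fh F (sub (pt k) [d, c, x] w) V := by
  have hs : IsStep w (r1 ::ₘ r2 ::ₘ V) ⟨pt k, x, e, r2 ::ₘ V⟩ :=
    ⟨hk, hp, r1, by rw [pt_pt]; exact hr1, rfl⟩
  have nd := step_nod hN hs
  simp only at nd
  have he_w : e ∉ w := fun h => hN.disj h (by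
    rw [fl_cons]; have := (mem_of_isRot hr1 e).2 (Or.inr (Or.inr rfl)); simp [this])
  have hxe : x ≠ e := by
    intro h
    have h1 := nd.1.wn
    obtain ⟨u, v, e1, hu, hv⟩ := exists_split hN.wn hk
    rw [e1, sub_split hu hv, h] at h1
    rw [List.append_assoc, List.nodup_append] at h1
    have h2 := h1.2.1
    simp at h2
  have m1 : e ∈ sub (pt k) [x, e] w := mem_sub.2 (Or.inr ⟨hk, by simp⟩)
  have m2 : e ∈ sub (pt k) [e, x] w := mem_sub.2 (Or.inr ⟨hk, by simp⟩)
  rw [fh_v hF hN hk hp hr1]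
  rw [fh_res hF (h := e) (r := r2) nd.1 m1 he hr2 rfl,
    fh_res hF (h := e) (r := r2) nd.2 m2 he hr2 rfl]
  rw [sub_sub he_w, sub_sub he_w, sub_sub he_w, sub_sub he_w]
  have s1 : ∀ u v : H, sub e [u, v] [x, e] = [x, u, v] := fun u v => by
    rw [sub_cons, if_neg hxe, sub_cons, if_pos rfl, sub_nil]; rfl
  have s2 : ∀ u v : H, sub e [u, v] [e, x] = [u, v, x] := fun u v => by
    rw [sub_cons, if_pos rfl, sub_cons, if_neg hxe, sub_nil]; rfl
  rw [s1, s1, s2, s2]
  ring

/-- two-step resolution, form `k → [e,x]`, `e → [c,d]`. -/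
theorem fh_vv' (hF : GoodC F) {w : List H} {V : Multiset (List H)} {r1 r2 : List H} {k x e c d : H}
    (hN : Nod w (r1 ::ₘ r2 ::ₘ V)) (hk : pt k ∈ w) (hp : 2 ≤ k.1) (he : 2 ≤ e.1)
    (hr1 : IsRot r1 k e x) (hr2 : IsRot r2 (pt e) c d) :
    fh F w (r1 ::ₘ r2 ::ₘ V) = fh F (sub (pt k) [c, d, x] w) V - fh F (sub (pt k) [d, c, x] w) V
      - fh F (sub (pt k) [x, c, d] w) V + fh F (sub (pt k) [x, d, c] w) V := by
  have hs : IsStep w (r1 ::ₘ r2 ::ₘ V) ⟨pt k, e, x, r2 ::ₘ V⟩ :=
    ⟨hk, hp, r1, by rw [pt_pt]; exact hr1, rfl⟩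
  have nd := step_nod hN hs
  simp only at nd
  have he_w : e ∉ w := fun h => hN.disj h (by
    rw [fl_cons]; have := (mem_of_isRot hr1 e).2 (Or.inr (Or.inl rfl)); simp [this])
  have hxe : x ≠ e := by
    intro h
    have h1 := nd.1.wn
    obtain ⟨u, v, e1, hu, hv⟩ := exists_split hN.wn hk
    rw [e1, sub_split hu hv, h] at h1
    rw [List.append_assoc, List.nodup_append] at h1
    have h2 := h1.2.1
    simp at h2
  have m1 : e ∈ sub (pt k) [e, x] w := mem_sub.2 (Or.inr ⟨hk, by simp⟩)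
  have m2 : e ∈ sub (pt k) [x, e] w := mem_sub.2 (Or.inr ⟨hk, by simp⟩)
  rw [fh_v hF hN hk hp hr1]
  rw [fh_res hF (h := e) (r := r2) nd.1 m1 he hr2 rfl,
    fh_res hF (h := e) (r := r2) nd.2 m2 he hr2 rfl]
  rw [sub_sub he_w, sub_sub he_w, sub_sub he_w, sub_sub he_w]
  have s1 : ∀ u v : H, sub e [u, v] [x, e] = [x, u, v] := fun u v => by
    rw [sub_cons, if_neg hxe, sub_cons, if_pos rfl, sub_nil]; rfl
  have s2 : ∀ u v : H, sub e [u, v] [e, x] = [u, v, x] := fun u v => by
    rw [sub_cons, if_pos rfl, sub_cons, if_neg hxe, sub_nil]; rfl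
  rw [s1, s1, s2, s2]
  ring

theorem fh_ihx (hF : GoodC F) (w : List H) (a b c d e : H) (he : 2 ≤ e.1)
    (V : Multiset (List H)) :
    fh F w ([a, b, e] ::ₘ [pt e, c, d] ::ₘ V) + fh F w ([b, c, e] ::ₘ [pt e, a, d] ::ₘ V)
      + fh F w ([c, a, e] ::ₘ [pt e, b, d] ::ₘ V) = 0 := by
  have fl2 : ∀ (r s : List H), fl ({r} + {s}) = (r : Multiset H) + (s : Multiset H) := by
    intro r s; simp [fl]
  have key := block_ind hF [(1, {[a, b, e]} + {[pt e, c, d]}), (1, {[b, c, e]} + {[pt e, a, d]}),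
      (1, {[c, a, e]} + {[pt e, b, d]})] ({a} + {b} + {c} + {d} + {e} + {pt e}) ?_ ?_ w V
  · rw [bs_cons, bs_cons, bs_cons, bs_nil] at key
    simp only [add_assoc, Multiset.singleton_add, Multiset.cons_add, one_mul, add_zero] at key
    linarith
  · intro p hp
    simp only [List.mem_cons, List.not_mem_nil, or_false] at hp
    rcases hp with rfl | rfl | rfl
    · show fl ({[a, b, e]} + {[pt e, c, d]}) = _
      rw [fl2]
      show ({a} + {b} + {e} + ({pt e} + {c} + {d}) : Multiset H) = _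
      abel
    · show fl ({[b, c, e]} + {[pt e, a, d]}) = _
      rw [fl2]
      show ({b} + {c} + {e} + ({pt e} + {a} + {d}) : Multiset H) = _
      abel
    · show fl ({[c, a, e]} + {[pt e, b, d]}) = _
      rw [fl2]
      show ({c} + {a} + {e} + ({pt e} + {b} + {d}) : Multiset H) = _
      abel
  · intro w V hN hS
    rw [bs_cons, bs_cons, bs_cons, bs_nil]
    simp only [add_assoc, Multiset.singleton_add, Multiset.cons_add, one_mul, add_zero]
    have hNN : ∀ (r s : List H), ((r : Multiset H) + (s : Multiset H)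
        = ({a} + {b} + {c} + {d} + {e} + {pt e} : Multiset H)) → Nod w (r ::ₘ s ::ₘ V) := by
      intro r s h
      unfold Nod
      rw [fl_cons, fl_cons, ← add_assoc (r : Multiset H), h, ← add_assoc]
      exact hN
    have N1 : Nod w ([a, b, e] ::ₘ [pt e, c, d] ::ₘ V) := hNN _ _ (by
      show ({a} + {b} + {e} + ({pt e} + {c} + {d}) : Multiset H) = _
      abel)
    have N2 : Nod w ([b, c, e] ::ₘ [pt e, a, d] ::ₘ V) := hNN _ _ (by
      show ({b} + {c} + {e} + ({pt e} + {a} + {d}) : Multiset H) = _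
      abel)
    have N3 : Nod w ([c, a, e] ::ₘ [pt e, b, d] ::ₘ V) := hNN _ _ (by
      show ({c} + {a} + {e} + ({pt e} + {b} + {d}) : Multiset H) = _
      abel)
    have S1 := Multiset.cons_swap [a, b, e] [pt e, c, d] V
    have S2 := Multiset.cons_swap [b, c, e] [pt e, a, d] V
    have S3 := Multiset.cons_swap [c, a, e] [pt e, b, d] V
    have he' : 2 ≤ (pt e).1 := he
    -- a
    by_cases ha : pt a ∈ w ∧ 2 ≤ a.1
    · rw [fh_vv hF N1 ha.1 ha.2 he (Or.inl rfl) (Or.inl rfl), S2,
        fh_vv hF (S2 ▸ N2) ha.1 ha.2 he' (Or.inr (Or.inl rfl)) (by rw [pt_pt]; exact Or.inr (Or.inr rfl)),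
        fh_vv' hF N3 ha.1 ha.2 he (Or.inr (Or.inl rfl)) (Or.inl rfl)]
      ring
    by_cases hb : pt b ∈ w ∧ 2 ≤ b.1
    · rw [fh_vv hF N2 hb.1 hb.2 he (Or.inl rfl) (Or.inl rfl), S3,
        fh_vv hF (S3 ▸ N3) hb.1 hb.2 he' (Or.inr (Or.inl rfl)) (by rw [pt_pt]; exact Or.inr (Or.inr rfl)),
        fh_vv' hF N1 hb.1 hb.2 he (Or.inr (Or.inl rfl)) (Or.inl rfl)]
      ring
    by_cases hc : pt c ∈ w ∧ 2 ≤ c.1
    · rw [fh_vv hF N3 hc.1 hc.2 he (Or.inl rfl) (Or.inl rfl), S1,
        fh_vv hF (S1 ▸ N1) hc.1 hc.2 he' (Or.inr (Or.inl rfl)) (by rw [pt_pt]; exact Or.inr (Or.inr rfl)),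
        fh_vv' hF N2 hc.1 hc.2 he (Or.inr (Or.inl rfl)) (Or.inl rfl)]
      ring
    by_cases hd : pt d ∈ w ∧ 2 ≤ d.1
    · rw [S1, S2, S3,
        fh_vv' hF (S1 ▸ N1) hd.1 hd.2 he' (Or.inr (Or.inr rfl)) (by rw [pt_pt]; exact Or.inr (Or.inr rfl)),
        fh_vv' hF (S2 ▸ N2) hd.1 hd.2 he' (Or.inr (Or.inr rfl)) (by rw [pt_pt]; exact Or.inr (Or.inr rfl)),
        fh_vv' hF (S3 ▸ N3) hd.1 hd.2 he' (Or.inr (Or.inr rfl)) (by rw [pt_pt]; exact Or.inr (Or.inr rfl))]
      ring
    have hew : e ∉ w ∧ pt e ∉ w := by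
      constructor
      · intro h
        exact N1.disj h (by rw [fl_cons]; simp)
      · intro h
        exact N1.disj h (by rw [fl_cons, fl_cons]; simp)
    have nn : ∀ (r s : List H), (∀ k, k ∈ r ∨ k ∈ s → k = a ∨ k = b ∨ k = c ∨ k = d ∨ k = e ∨ k = pt e) →
        fh F w (r ::ₘ s ::ₘ V) = 0 := by
      intro r s hrs
      apply fh_none _ (by simp)
      have : r ::ₘ s ::ₘ V = ({r} + {s}) + V := by
        rw [add_assoc, Multiset.singleton_add, Multiset.singleton_add]
      rw [this]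
      apply no_step hS
      intro k hk hp hw
      rw [fl2] at hk
      have hk' : k ∈ r ∨ k ∈ s := by simpa using hk
      rcases hrs k hk' with rfl | rfl | rfl | rfl | rfl | rfl
      · exact ha ⟨hw, hp⟩
      · exact hb ⟨hw, hp⟩
      · exact hc ⟨hw, hp⟩
      · exact hd ⟨hw, hp⟩
      · exact hew.2 hw
      · exact hew.1 (by simpa using hw)
    have q1 : ∀ k, k ∈ ([a, b, e] : List H) ∨ k ∈ ([pt e, c, d] : List H) →
        k = a ∨ k = b ∨ k = c ∨ k = d ∨ k = e ∨ k = pt e := by
      intro k hk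
      simp only [List.mem_cons, List.not_mem_nil, or_false] at hk
      rcases hk with (rfl | rfl | rfl) | (rfl | rfl | rfl) <;> simp
    have q2 : ∀ k, k ∈ ([b, c, e] : List H) ∨ k ∈ ([pt e, a, d] : List H) →
        k = a ∨ k = b ∨ k = c ∨ k = d ∨ k = e ∨ k = pt e := by
      intro k hk
      simp only [List.mem_cons, List.not_mem_nil, or_false] at hk
      rcases hk with (rfl | rfl | rfl) | (rfl | rfl | rfl) <;> simp
    have q3 : ∀ k, k ∈ ([c, a, e] : List H) ∨ k ∈ ([pt e, b, d] : List H) →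
        k = a ∨ k = b ∨ k = c ∨ k = d ∨ k = e ∨ k = pt e := by
      intro k hk
      simp only [List.mem_cons, List.not_mem_nil, or_false] at hk
      rcases hk with (rfl | rfl | rfl) | (rfl | rfl | rfl) <;> simp
    rw [nn _ _ q1, nn _ _ q2, nn _ _ q3]
    ring

end CA247
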