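import Pool.Agent.CA247.Calc

set_option autoImplicit false

namespace CA247

variable {F : List H → ℚ}

def pc (n : ℕ) : ℕ := if n % 2 = 0 then n + 1 else n - 1

def decH (n : ℕ) : H := (n / 2, n % 2 == 1)

def dec (ρ : ℕ → H) (n : ℕ) : H := if n < 200 then decH n else ρ n

theorem pc_div (n : ℕ) : pc n / 2 = n / 2 := by unfold pc; split_ifs <;> omega

theorem decH_pc (n : ℕ) : decH (pc n) = pt (decH n) := by
  unfold decH pt
  refine Prod.ext (pc_div n) ?_
  show (pc n % 2 == 1) = !(n % 2 == 1)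
  unfold pc
  split_ifs with h
  · have h1 : (n + 1) % 2 = 1 := by omega
    rw [h1, h]; rfl
  · have h1 : (n - 1) % 2 = 0 := by omega
    have h2 : n % 2 = 1 := by omega
    rw [h1, h2]; rfl

theorem dec_pc {ρ : ℕ → H} {n : ℕ} (h : n < 200) : dec ρ (pc n) = pt (dec ρ n) := by
  have h1 : pc n < 200 := by unfold pc; split_ifs <;> omega
  unfold dec
  rw [if_pos h, if_pos h1, decH_pc]

def ms (ρ : ℕ → H) (N : List (List ℕ)) : Multiset (List H) :=
  (N.map (List.map (dec ρ)) : List (List H))

noncomputable def E1 (F : List H → ℚ) (w : List H) (ρ : ℕ → H) (V : Multiset (List H))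
    (N : List (List ℕ)) : ℚ := fh F w (ms ρ N + V)

theorem ms_cons (ρ : ℕ → H) (n : List ℕ) (N : List (List ℕ)) :
    ms ρ (n :: N) = n.map (dec ρ) ::ₘ ms ρ N := rfl

theorem ms_append (ρ : ℕ → H) (N M : List (List ℕ)) : ms ρ (N ++ M) = ms ρ N + ms ρ M := by
  simp [ms]

theorem E1_cons (w : List H) (ρ : ℕ → H) (V : Multiset (List H)) (n : List ℕ) (N : List (List ℕ)) :
    E1 F w ρ V (n :: N) = E1 F w ρ (n.map (dec ρ) ::ₘ V) N := by
  unfold E1; rw [ms_cons, Multiset.cons_add, Multiset.add_cons]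

structure Fresh (w : List H) (ρ : ℕ → H) (V : Multiset (List H)) : Prop where
  w : ∀ h ∈ w, ¬ (19 ≤ h.1 ∧ h.1 < 31)
  V : ∀ h ∈ fl V, ¬ (19 ≤ h.1 ∧ h.1 < 31)
  ρ : ∀ n, ¬ (19 ≤ (ρ n).1 ∧ (ρ n).1 < 31)

def tc (π : List ℕ) (n : ℕ) : ℕ :=
  if 38 ≤ n ∧ n < 62 then
    (if n % 2 = 0 then π.getD ((n - 38) / 2) 0 else pc (π.getD ((n - 38) / 2) 0))
  else n

def tau (π : List ℕ) (h : H) : H :=
  if 19 ≤ h.1 ∧ h.1 < 31 then
    ((π.getD (h.1 - 19) 0) / 2, xor h.2 ((π.getD (h.1 - 19) 0) % 2 == 1))
  else h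

def okPi (π : List ℕ) : Bool :=
  decide (π.length = 12) && π.all (fun m => decide (38 ≤ m) && decide (m < 62)) &&
    decide ((π.map (· / 2)).Nodup)

theorem tau_in {π : List ℕ} (h : okPi π = true) {k : H} (hk : 19 ≤ k.1 ∧ k.1 < 31) :
    19 ≤ (tau π k).1 ∧ (tau π k).1 < 31 := by
  simp only [okPi, Bool.and_eq_true, decide_eq_true_eq, List.all_eq_true] at h
  obtain ⟨⟨h1, h2⟩, h3⟩ := h
  unfold tau
  rw [if_pos hk]
  have hlt : k.1 - 19 < π.length := by omega
  have hm := h2 (π.getD (k.1 - 19) 0) (by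
    rw [List.getD_eq_getElem _ _ hlt]; exact List.getElem_mem hlt)
  simp only
  omega

theorem tau_aut {π : List ℕ} (h : okPi π = true) : Aut (tau π) := by
  have hin := @tau_in π h
  have hout : ∀ k : H, ¬ (19 ≤ k.1 ∧ k.1 < 31) → tau π k = k := fun k hk => by
    unfold tau; rw [if_neg hk]
  simp only [okPi, Bool.and_eq_true, decide_eq_true_eq, List.all_eq_true] at h
  obtain ⟨⟨h1, h2⟩, h3⟩ := h
  refine ⟨?_, ?_, ?_, ?_⟩
  · intro a b e
    by_cases ha : 19 ≤ a.1 ∧ a.1 < 31
    · have hb : 19 ≤ b.1 ∧ b.1 < 31 := by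
        by_contra hb
        have := hin ha
        rw [e, hout b hb] at this
        exact hb this
      unfold tau at e
      rw [if_pos ha, if_pos hb] at e
      have hla : a.1 - 19 < π.length := by omega
      have hlb : b.1 - 19 < π.length := by omega
      rw [List.getD_eq_getElem _ _ hla, List.getD_eq_getElem _ _ hlb] at e
      have e1 := congrArg Prod.fst e
      have e2 := congrArg Prod.snd e
      simp only at e1 e2
      have hla' : a.1 - 19 < (π.map (· / 2)).length := by simpa using hla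
      have hlb' : b.1 - 19 < (π.map (· / 2)).length := by simpa using hlb
      have : a.1 - 19 = b.1 - 19 := by
        apply (List.Nodup.getElem_inj_iff h3 (hi := hla') (hj := hlb')).1
        simpa using e1
      have hab : a.1 = b.1 := by omega
      have e3 : a.2 = b.2 := by
        simp only [hab] at e2
        revert e2
        cases a.2 <;> cases b.2 <;> simp
      exact Prod.ext hab e3
    · have hb : ¬ (19 ≤ b.1 ∧ b.1 < 31) := by
        intro hb
        have := hin hb
        rw [← e, hout a ha] at this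
        exact ha this
      rw [hout a ha, hout b hb] at e; exact e
  · intro k
    by_cases hk : 19 ≤ k.1 ∧ k.1 < 31
    · unfold tau
      rw [if_pos (by simpa using hk), if_pos hk]
      refine Prod.ext (by simp) ?_
      simp only [pt]
      cases k.2 <;> cases ((π.getD (k.1 - 19) 0) % 2 == 1) <;> rfl
    · rw [hout k hk, hout (CA247.pt k) (by simpa using hk)]
  · intro k hk
    by_cases hk' : 19 ≤ k.1 ∧ k.1 < 31
    · have := hin hk'; omega
    · rw [hout k hk']; exact hk
  · intro k hk
    rw [hout k (by omega)]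
    exact ⟨hk, rfl⟩

theorem dec_tc {ρ : ℕ → H} (hρ : ∀ n, ¬ (19 ≤ (ρ n).1 ∧ (ρ n).1 < 31)) {π : List ℕ}
    (h : okPi π = true) (n : ℕ) : dec ρ (tc π n) = tau π (dec ρ n) := by
  simp only [okPi, Bool.and_eq_true, decide_eq_true_eq, List.all_eq_true] at h
  obtain ⟨⟨h1, h2⟩, h3⟩ := h
  by_cases hn : 38 ≤ n ∧ n < 62
  · have hlt : (n - 38) / 2 < π.length := by omega
    set m := π.getD ((n - 38) / 2) 0 with hm
    have hm2 : 38 ≤ m ∧ m < 62 := by
      have := h2 m (by rw [hm, List.getD_eq_getElem _ _ hlt]; exact List.getElem_mem hlt)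
      omega
    have e1 : dec ρ n = decH n := by unfold dec; rw [if_pos (by omega)]
    have e2 : tau π (decH n) = (m / 2, xor (n % 2 == 1) (m % 2 == 1)) := by
      unfold tau decH
      rw [if_pos (by simp only; omega)]
      have : n / 2 - 19 = (n - 38) / 2 := by omega
      simp only [this]
      rw [← hm]
    rw [e1, e2]
    unfold tc
    rw [if_pos hn, ← hm]
    by_cases hp : n % 2 = 0
    · rw [if_pos hp, hp]
      unfold dec decH
      rw [if_pos (by omega)]
      simp
    · rw [if_neg hp]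
      have hp' : n % 2 = 1 := by omega
      have hlt2 : m < 200 := by omega
      rw [dec_pc hlt2, hp']
      unfold dec decH pt
      rw [if_pos hlt2]
      simp
  · have e1 : tc π n = n := by unfold tc; rw [if_neg hn]
    rw [e1]
    unfold tau
    rw [if_neg]
    unfold dec
    split_ifs with h200
    · unfold decH; simp only; omega
    · exact hρ n

theorem E1_relabel (hF : GoodC F) {w : List H} {ρ : ℕ → H} {V : Multiset (List H)}
    (hf : Fresh w ρ V) {π : List ℕ} (h : okPi π = true) (N : List (List ℕ)) :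
    E1 F w ρ V (N.map (List.map (tc π))) = E1 F w ρ V N := by
  have hout : ∀ k : H, ¬ (19 ≤ k.1 ∧ k.1 < 31) → tau π k = k := fun k hk => by
    unfold tau; rw [if_neg hk]
  have e1 : ms ρ (N.map (List.map (tc π))) = (ms ρ N).map (List.map (tau π)) := by
    unfold ms
    rw [Multiset.map_coe, List.map_map, List.map_map]
    congr 1
    apply List.map_congr_left
    intro n _
    simp only [Function.comp, List.map_map]
    apply List.map_congr_left
    intro k _
    exact dec_tc hf.ρ h k
  have e2 : V.map (List.map (tau π)) = V := fl_fix (fun k hk => hout k (hf.V k hk))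
  have e3 : w.map (tau π) = w := by
    have : ∀ k ∈ w, tau π k = id k := fun k hk => hout k (hf.w k hk)
    rw [List.map_congr_left this, List.map_id]
  unfold E1
  rw [e1, ← fh_rel hF (tau_aut h) w (ms ρ N + V), Multiset.map_add, e2, e3]

def n3 (n : List ℕ) : ℤ × List ℕ :=
  match n with
  | [a, b, c] =>
    if a < b then
      (if b < c then (1, [a, b, c]) else if a < c then (-1, [a, c, b]) else (1, [c, a, b]))
    else
      (if a < c then (-1, [b, a, c]) else if b < c then (1, [b, c, a]) else (-1, [c, b, a]))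
  | l => (1, l)

theorem n3_sound (hF : GoodC F) (w : List H) (ρ : ℕ → H) (V : Multiset (List H)) (n : List ℕ) :
    fh F w (n.map (dec ρ) ::ₘ V) = (n3 n).1 * fh F w ((n3 n).2.map (dec ρ) ::ₘ V) := by
  match n with
  | [a, b, c] =>
    have hA : ∀ x y z : ℕ, fh F w (([x, y, z] : List ℕ).map (dec ρ) ::ₘ V)
        = - fh F w (([y, x, z] : List ℕ).map (dec ρ) ::ₘ V) := fun x y z => fh_as hF w _ _ _ V
    have hR : ∀ x y z : ℕ, fh F w (([x, y, z] : List ℕ).map (dec ρ) ::ₘ V)
        = fh F w (([y, z, x] : List ℕ).map (dec ρ) ::ₘ V) := fun x y z => fh_rot hF w _ _ _ V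
    unfold n3
    simp only
    split_ifs
    · simp
    · rw [hR a b c, hA b c a, hR c b a, hR b a c]; simp
    · rw [hR a b c, hR b c a]; simp
    · rw [hA a b c]; simp
    · rw [hR a b c]; simp
    · rw [hA a b c, hR b a c, hR a c b]; simp
  | [] => simp [n3]
  | [_] => simp [n3]
  | [_, _] => simp [n3]
  | _ :: _ :: _ :: _ :: _ => simp [n3]

def kN (n : List ℕ) : ℕ := n.foldl (fun k x => k * 512 + x) 0

def insN (n : List ℕ) : List (List ℕ) → List (List ℕ)
  | [] => [n]
  | m :: N => if kN n ≤ kN m then n :: m :: N else m :: insN n N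

theorem insN_perm (n : List ℕ) (N : List (List ℕ)) : (insN n N).Perm (n :: N) := by
  induction N with
  | nil => exact List.Perm.refl _
  | cons m N ih =>
    unfold insN
    split_ifs
    · exact List.Perm.refl _
    · exact (List.Perm.cons m ih).trans (List.Perm.swap n m N)

def nfN : List (List ℕ) → ℤ × List (List ℕ)
  | [] => (1, [])
  | n :: N => ((n3 n).1 * (nfN N).1, insN (n3 n).2 (nfN N).2)

theorem nfN_sound (hF : GoodC F) (w : List H) (ρ : ℕ → H) (N : List (List ℕ)) :
    ∀ V, E1 F w ρ V N = (nfN N).1 * E1 F w ρ V (nfN N).2 := by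
  induction N with
  | nil => intro V; simp [nfN]
  | cons n N ih =>
    intro V
    have e1 : ms ρ (insN (n3 n).2 (nfN N).2) = ms ρ ((n3 n).2 :: (nfN N).2) := by
      unfold ms
      rw [Multiset.coe_eq_coe]
      exact (insN_perm _ _).map _
    have e2 : E1 F w ρ V (insN (n3 n).2 (nfN N).2) = E1 F w ρ V ((n3 n).2 :: (nfN N).2) := by
      unfold E1; rw [e1]
    show E1 F w ρ V (n :: N) = (((n3 n).1 * (nfN N).1 : ℤ) : ℚ) * E1 F w ρ V (insN (n3 n).2 (nfN N).2)
    rw [e2, E1_cons, E1_cons, ih, ]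
    have e3 : E1 F w ρ (n.map (dec ρ) ::ₘ V) (nfN N).2
        = (n3 n).1 * E1 F w ρ ((n3 n).2.map (dec ρ) ::ₘ V) (nfN N).2 := by
      unfold E1
      rw [Multiset.add_cons, n3_sound hF, Multiset.add_cons]
    rw [e3]; push_cast; ring

inductive Tr where
  | nil : Tr
  | node : ℕ → List (List ℕ) → ℤ → Tr → Tr → Tr

def Tr.ins (k : ℕ) (N : List (List ℕ)) (c : ℤ) : Tr → Tr
  | .nil => .node k N c .nil .nil
  | .node k' N' c' l r =>
    if k < k' then .node k' N' c' (Tr.ins k N c l) r
    else if k' < k then .node k' N' c' l (Tr.ins k N c r)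
    else if N = N' then .node k' N' (c' + c) l r
    else .node k' N' c' (Tr.ins k N c l) r

def Tr.ev (E : List (List ℕ) → ℚ) : Tr → ℚ
  | .nil => 0
  | .node _ N c l r => c * E N + l.ev E + r.ev E

def Tr.allZ : Tr → Bool
  | .nil => true
  | .node _ _ c l r => decide (c = 0) && l.allZ && r.allZ

theorem Tr.ins_ev (E : List (List ℕ) → ℚ) (k : ℕ) (N : List (List ℕ)) (c : ℤ) (t : Tr) :
    (t.ins k N c).ev E = t.ev E + c * E N := by
  induction t with
  | nil => simp [Tr.ins, Tr.ev]
  | node k' N' c' l r ihl ihr =>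
    unfold Tr.ins
    split_ifs with h1 h2 h3
    · simp only [Tr.ev, ihl]; ring
    · simp only [Tr.ev, ihr]; ring
    · subst h3; simp only [Tr.ev]; push_cast; ring
    · simp only [Tr.ev, ihl]; ring

theorem Tr.ev_allZ (E : List (List ℕ) → ℚ) (t : Tr) (h : t.allZ = true) : t.ev E = 0 := by
  induction t with
  | nil => rfl
  | node k N c l r ihl ihr =>
    simp only [Tr.allZ, Bool.and_eq_true, decide_eq_true_eq] at h
    simp only [Tr.ev, h.1.1, ihl h.1.2, ihr h.2]; simp

/-- decode a permutation from a number (base 64, twelve digits). -/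
def dpi : ℕ → ℕ → List ℕ
  | 0, _ => []
  | n + 1, k => (k % 64) :: dpi n (k / 64)

def kNet (N : List (List ℕ)) : ℕ := N.foldl (fun k n => k * 134217728 + kN n) 0

def addT (t : Tr) (c : ℤ) (π : List ℕ) (N : List (List ℕ)) : Tr :=
  t.ins (kNet (nfN (N.map (List.map (tc π)))).2) (nfN (N.map (List.map (tc π)))).2
    (c * (nfN (N.map (List.map (tc π)))).1)

def run : Tr → List (ℤ × List (List ℕ)) → List ℕ → Bool
  | t, [], _ => t.allZ
  | _, _ :: _, [] => false
  | t, x :: L, k :: ks => okPi (dpi 12 k) && run (addT t x.1 (dpi 12 k) x.2) L ks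

noncomputable def evL (F : List H → ℚ) (w : List H) (ρ : ℕ → H) (V : Multiset (List H))
    (L : List (ℤ × List (List ℕ))) : ℚ := (L.map (fun t => (t.1 : ℚ) * E1 F w ρ V t.2)).sum

theorem evL_nil (w : List H) (ρ : ℕ → H) (V : Multiset (List H)) : evL F w ρ V [] = 0 := rfl
theorem evL_cons (w : List H) (ρ : ℕ → H) (V : Multiset (List H)) (t : ℤ × List (List ℕ))
    (L : List (ℤ × List (List ℕ))) :
    evL F w ρ V (t :: L) = (t.1 : ℚ) * E1 F w ρ V t.2 + evL F w ρ V L := by
  simp [evL]
theorem evL_append (w : List H) (ρ : ℕ → H) (V : Multiset (List H))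
    (L M : List (ℤ × List (List ℕ))) :
    evL F w ρ V (L ++ M) = evL F w ρ V L + evL F w ρ V M := by
  simp [evL]

theorem run_sound (hF : GoodC F) {w : List H} {ρ : ℕ → H} {V : Multiset (List H)}
    (hf : Fresh w ρ V) (L : List (ℤ × List (List ℕ))) :
    ∀ (t : Tr) (ks : List ℕ), run t L ks = true → t.ev (E1 F w ρ V) + evL F w ρ V L = 0 := by
  induction L with
  | nil => intro t ks h; rw [evL_nil, add_zero]; exact t.ev_allZ _ (by simpa [run] using h)
  | cons x L ih =>
    intro t ks h
    match ks with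
    | [] => simp [run] at h
    | k :: ks =>
      simp only [run, Bool.and_eq_true] at h
      have := ih _ ks h.2
      rw [evL_cons, ← this, addT, Tr.ins_ev]
      have e := nfN_sound hF w ρ (x.2.map (List.map (tc (dpi 12 k)))) V
      rw [E1_relabel hF hf h.1] at e
      rw [e]; push_cast; ring

/-- an instance of the IHX relation -/
structure Inst where
  m : ℤ
  a : ℕ
  b : ℕ
  c : ℕ
  d : ℕ
  e : ℕ
  rest : List (List ℕ)

def Inst.terms (i : Inst) : List (ℤ × List (List ℕ)) :=
  [(i.m, [i.a, i.b, i.e] :: [pc i.e, i.c, i.d] :: i.rest),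
   (i.m, [i.b, i.c, i.e] :: [pc i.e, i.a, i.d] :: i.rest),
   (i.m, [i.c, i.a, i.e] :: [pc i.e, i.b, i.d] :: i.rest)]

def allTerms (I : List Inst) : List (ℤ × List (List ℕ)) := I.flatMap Inst.terms

def okI (i : Inst) : Bool := decide (4 ≤ i.e) && decide (i.e < 200)

theorem inst_zero (hF : GoodC F) (w : List H) (ρ : ℕ → H) (V : Multiset (List H)) (i : Inst)
    (h : okI i = true) : evL F w ρ V i.terms = 0 := by
  simp only [okI, Bool.and_eq_true, decide_eq_true_eq] at h
  have he : 2 ≤ (dec ρ i.e).1 := by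
    unfold dec decH; rw [if_pos h.2]; simp only; omega
  have key := fh_ihx hF w (dec ρ i.a) (dec ρ i.b) (dec ρ i.c) (dec ρ i.d) (dec ρ i.e) he
    (ms ρ i.rest + V)
  unfold Inst.terms
  rw [evL_cons, evL_cons, evL_cons, evL_nil]
  unfold E1
  simp only [ms_cons, List.map_cons, List.map_nil, dec_pc h.2, Multiset.cons_add]
  linear_combination (i.m : ℚ) * key

theorem allTerms_zero (hF : GoodC F) (w : List H) (ρ : ℕ → H) (V : Multiset (List H))
    (I : List Inst) (h : I.all okI = true) : evL F w ρ V (allTerms I) = 0 := by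
  induction I with
  | nil => rfl
  | cons i I ih =>
    simp only [List.all_cons, Bool.and_eq_true] at h
    show evL F w ρ V (i.terms ++ allTerms I) = 0
    rw [evL_append, inst_zero hF w ρ V i h.1, ih h.2, add_zero]

/-- The checking principle. -/
theorem check (hF : GoodC F) {w : List H} {ρ : ℕ → H} {V : Multiset (List H)}
    (hf : Fresh w ρ V) (T : List (ℤ × List (List ℕ))) (I : List Inst) (ks : List ℕ)
    (h1 : I.all okI = true) (h2 : run Tr.nil (T ++ allTerms I) ks = true) :
    evL F w ρ V T = 0 := by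
  have := run_sound hF hf (T ++ allTerms I) Tr.nil ks h2
  rw [evL_append, allTerms_zero hF w ρ V I h1] at this
  simpa [Tr.ev] using this

end CA247
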