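import Pool.Agent.CA247.Calc

set_option autoImplicit false

namespace CA247

variable {F : List H → ℚ}

/-- Injective maps of half-edges commuting with `pt` and preserving the two special labels. -/
structure AutJ (τ : H → H) : Prop where
  inj : Function.Injective τ
  pt : ∀ h, τ (pt h) = pt (τ h)
  pl : ∀ h : H, 2 ≤ h.1 ↔ 2 ≤ (τ h).1

theorem IsStep.mapJ {w : List H} {V : Multiset (List H)} {s : St} (hs : IsStep w V s) {τ : H → H}
    (hτ : AutJ τ) : IsStep (w.map τ) (V.map (List.map τ)) ⟨τ s.h, τ s.x, τ s.y, s.V'.map (List.map τ)⟩ := by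
  obtain ⟨h1, h2, r, h3, h4⟩ := hs
  refine ⟨List.mem_map_of_mem h1, (hτ.pl _).1 h2, r.map τ, ?_, ?_⟩
  · have := h3.map τ
    rwa [hτ.pt] at this
  · rw [h4, Multiset.map_cons]

theorem step_unmapJ {w : List H} {V : Multiset (List H)} {τ : H → H} (hτ : AutJ τ)
    (hs : ∃ s, IsStep (w.map τ) (V.map (List.map τ)) s) : ∃ s, IsStep w V s := by
  obtain ⟨⟨h, x, y, V'⟩, h1, h2, r, h3, h4⟩ := hs
  simp only at h1 h2 h3 h4
  obtain ⟨h', hh', rfl⟩ := List.mem_map.1 h1
  have hp : 2 ≤ h'.1 := (hτ.pl _).2 h2
  have h4' : r ∈ V.map (List.map τ) := by rw [h4]; simp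
  obtain ⟨r', hr', rfl⟩ := Multiset.mem_map.1 h4'
  obtain ⟨W, hW⟩ := Multiset.exists_cons_of_mem hr'
  rw [← hτ.pt] at h3
  rcases h3 with h3 | h3 | h3
  · obtain ⟨a, b, c, rfl, ha, hb, hc⟩ := list_map_inj hτ.inj h3
    exact ⟨⟨h', b, c, W⟩, hh', hp, _, Or.inl (by rw [← hτ.inj ha]), hW⟩
  · obtain ⟨a, b, c, rfl, ha, hb, hc⟩ := list_map_inj hτ.inj h3
    exact ⟨⟨h', c, a, W⟩, hh', hp, _, Or.inr (Or.inl (by rw [← hτ.inj hb])), hW⟩
  · obtain ⟨a, b, c, rfl, ha, hb, hc⟩ := list_map_inj hτ.inj h3
    exact ⟨⟨h', a, b, W⟩, hh', hp, _, Or.inr (Or.inr (by rw [← hτ.inj hc])), hW⟩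

theorem fh_sgn (hF : GoodC F) {τ : H → H} (hτ : AutJ τ) (ε : ℚ)
    (hε : ∀ w : List H, w.Nodup → F (w.map τ) = ε * F w) (w : List H) (V : Multiset (List H)) :
    fh F (w.map τ) (V.map (List.map τ)) = ε * fh F w V := by
  have key : ∀ (n : ℕ) (w : List H) (V : Multiset (List H)), V.card = n →
      fh F (w.map τ) (V.map (List.map τ)) = ε * fh F w V := by
    intro n
    induction n with
    | zero =>
      intro w V hV
      rw [Multiset.card_eq_zero] at hV
      subst hV
      by_cases hN : w.Nodup
      · rw [Multiset.map_zero, fh_zero (hN.map hτ.inj), fh_zero hN, hε w hN]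
      · rw [fh_of_not, fh_of_not, mul_zero]
        · unfold Nod; simpa using hN
        · unfold Nod; simpa [List.nodup_map_iff hτ.inj] using hN
    | succ n ih =>
      intro w V hV
      by_cases hN : Nod w V
      · by_cases hS : ∃ s, IsStep w V s
        · obtain ⟨s, hs⟩ := hS
          have hm := hs.mapJ hτ
          obtain ⟨h1, h2, r, h3, h4⟩ := hs
          have hc : s.V'.card = n := by rw [h4, Multiset.card_cons] at hV; omega
          rw [fh_res hF hN h1 h2 h3 h4,
            fh_res hF (w := w.map τ) (V := V.map (List.map τ)) (h := τ s.h) (x := τ s.x) (y := τ s.y)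
            (r := r.map τ) (V' := s.V'.map (List.map τ)) (hN.map hτ.inj) hm.1 hm.2.1
            (by have := h3.map τ; rwa [hτ.pt] at this) (by rw [h4, Multiset.map_cons])]
          have r1 := ih (sub s.h [s.x, s.y] w) s.V' hc
          have r2 := ih (sub s.h [s.y, s.x] w) s.V' hc
          rw [sub_map hτ.inj] at r1 r2
          simp only [List.map_cons, List.map_nil] at r1 r2
          rw [r1, r2]; ring
        · have hV0 : V ≠ 0 := by rintro rfl; simp at hV
          rw [fh_none hS hV0, fh_none (fun h => hS (step_unmapJ hτ h)), mul_zero]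
          intro h
          apply hV0
          exact Multiset.map_eq_zero.1 h
      · rw [fh_of_not hN, fh_of_not, mul_zero]
        intro h
        apply hN
        unfold Nod at h ⊢
        rw [fl_map, ← Multiset.map_coe, ← Multiset.map_add] at h
        exact Multiset.Nodup.of_map _ h
  exact key _ w V rfl

def sg (b : Bool) : ℚ := if b then -1 else 1

structure GoodJ (F : List H → ℚ) : Prop where
  good : GoodC F
  sgn : ∀ τ, AutJ τ → ∀ w : List H, w.Nodup →
    F (w.map τ) = (sg (τ (0, false)).2 * sg (τ (1, false)).2) * F w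
  adj : ∀ (u v : List H) (h : H), h.1 < 2 → (u ++ h :: pt h :: v).Nodup →
    F (u ++ h :: pt h :: v) = 0

theorem fh_adj (hF : GoodJ F) {h : H} (hh : h.1 < 2) :
    ∀ (u v : List H) (V : Multiset (List H)), fh F (u ++ h :: pt h :: v) V = 0 := by
  have key : ∀ (n : ℕ) (u v : List H) (V : Multiset (List H)), V.card = n →
      fh F (u ++ h :: pt h :: v) V = 0 := by
    intro n
    induction n with
    | zero =>
      intro u v V hV
      rw [Multiset.card_eq_zero] at hV
      subst hV
      by_cases hN : (u ++ h :: pt h :: v).Nodup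
      · rw [fh_zero hN, hF.adj u v h hh hN]
      · rw [fh_of_not]
        unfold Nod; simpa using hN
    | succ n ih =>
      intro u v V hV
      by_cases hN : Nod (u ++ h :: pt h :: v) V
      · by_cases hS : ∃ s, IsStep (u ++ h :: pt h :: v) V s
        · obtain ⟨s, h1, h2, r, h3, h4⟩ := hS
          have hc : s.V'.card = n := by rw [h4, Multiset.card_cons] at hV; omega
          rw [fh_res hF.good hN h1 h2 h3 h4]
          have n1 : h ≠ s.h := fun e => by rw [e] at hh; omega
          have n2 : pt h ≠ s.h := fun e => by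
            have : (pt h).1 = s.h.1 := by rw [e]
            rw [pt_fst] at this; omega
          rw [sub_append, sub_cons, if_neg n1, sub_cons, if_neg n2, sub_append, sub_cons, if_neg n1,
            sub_cons, if_neg n2]
          have r1 := ih (sub s.h [s.x, s.y] u) (sub s.h [s.x, s.y] v) s.V' hc
          have r2 := ih (sub s.h [s.y, s.x] u) (sub s.h [s.y, s.x] v) s.V' hc
          simp only [List.cons_append, List.nil_append]
          rw [r1, r2, sub_zero]
        · rw [fh_none hS]
          rintro rfl; simp at hV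
      · exact fh_of_not hN
  exact fun u v V => key _ u v V rfl

theorem fh_bk (hF : GoodJ F) {h : H} (hh : h.1 < 2) (c : H) (w : List H) (V : Multiset (List H)) :
    fh F w ([h, pt h, c] ::ₘ V) = 0 := by
  have key := block_ind hF.good [(1, {[h, pt h, c]})] ({h} + {pt h} + {c}) ?_ ?_ w V
  · rw [bs_cons, bs_nil] at key
    simpa only [Multiset.singleton_add, one_mul, add_zero] using key
  · intro p hp
    simp only [List.mem_cons, List.not_mem_nil, or_false] at hp
    subst hp
    show fl {[h, pt h, c]} = _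
    simp only [fl, Multiset.map_singleton, Multiset.sum_singleton]; rfl
  · intro w V hN hS
    rw [bs_cons, bs_nil]
    simp only [Multiset.singleton_add, one_mul, add_zero]
    have hN1 : Nod w ([h, pt h, c] ::ₘ V) := by
      unfold Nod; rw [fl_cons, ← add_assoc]; exact hN
    by_cases hc : pt c ∈ w ∧ 2 ≤ c.1
    · rw [fh_v hF.good hN1 hc.1 hc.2 (Or.inr (Or.inr rfl))]
      obtain ⟨u, v, e, hu, hv⟩ := exists_split hN1.wn hc.1
      rw [e, sub_split hu hv, sub_split hu hv]
      have e1 := fh_adj hF hh u v V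
      have e2 := fh_adj hF (h := pt h) hh u v V
      rw [pt_pt] at e2
      simp only [List.append_assoc, List.cons_append, List.nil_append]
      rw [e1, e2, sub_zero]
    · apply fh_none _ (by simp)
      rw [← Multiset.singleton_add]
      apply no_step hS
      intro k hk hp e
      simp only [fl, Multiset.map_singleton, Multiset.sum_singleton, Multiset.mem_coe,
        List.mem_cons, List.not_mem_nil, or_false] at hk
      rcases hk with rfl | rfl | rfl
      · omega
      · rw [pt_fst] at hp; omega
      · exact hc ⟨e, hp⟩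

/-- reachability of the vertices -/
inductive Rch : Multiset H → Multiset (List H) → Prop
  | nil (A : Multiset H) : Rch A 0
  | step {A A' : Multiset H} {r : List H} {V' : Multiset (List H)} {h x y : H} (hp : 2 ≤ h.1)
      (hr : IsRot r (pt h) x y) (hA : A = h ::ₘ A') (R : Rch (x ::ₘ y ::ₘ A') V') : Rch A (r ::ₘ V')

theorem Rch.mono {A : Multiset H} {V : Multiset (List H)} (h : Rch A V) (B : Multiset H) :
    Rch (A + B) V := by
  induction h with
  | nil A => exact Rch.nil _
  | step hp hr hA R ih =>
    refine Rch.step hp hr (by rw [hA, Multiset.cons_add]) ?_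
    rwa [Multiset.cons_add, Multiset.cons_add] at ih

def rn (b c : H) (h : H) : H := if h = pt b then (0, true) else if h = pt c then (1, true) else h

def Nax (FC FJ : List H → ℚ) : Prop :=
  ∀ (w : List H) (a b c : H), w.Nodup → a ∉ w → b ∉ w → c ∉ w → a ≠ b → b ≠ c → c ≠ a →
    pt a ∈ w → pt b ∈ w → pt c ∈ w → (∀ h ∈ w, 2 ≤ h.1) →
    (FC (sub (pt a) [b, c] w) - FC (sub (pt a) [c, b] w))
    + (FJ (sub (pt a) [(0, false), (1, false)] (w.map (rn b c)))
      - FJ (sub (pt a) [(1, false), (0, false)] (w.map (rn b c))))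
    + (FJ (sub (pt b) [(0, false), (1, false)] (w.map (rn c a)))
      - FJ (sub (pt b) [(1, false), (0, false)] (w.map (rn c a))))
    + (FJ (sub (pt c) [(0, false), (1, false)] (w.map (rn a b)))
      - FJ (sub (pt c) [(1, false), (0, false)] (w.map (rn a b)))) = 0

theorem rn_inj {b c x y : H} (hbc : b ≠ c) (hx : 2 ≤ x.1) (hy : 2 ≤ y.1)
    (e : rn b c x = rn b c y) : x = y := by
  unfold rn at e
  split_ifs at e with h1 h2 h3 h4 h5 h6 h7
  · rw [h1, h2]
  · simp at e
  · rw [← e] at hy; simp at hy
  · simp at e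
  · rw [h4, h6]
  · rw [← e] at hy; simp at hy
  · rw [e] at hx; simp at hx
  · rw [e] at hx; simp at hx
  · exact e

theorem rn_ne {b c x a : H} (hx : 2 ≤ x.1) (ha : 2 ≤ a.1) (e : rn b c x = a) : x = a := by
  unfold rn at e
  split_ifs at e with h1 h2
  · rw [← e] at ha; simp at ha
  · rw [← e] at ha; simp at ha
  · exact e

theorem rn_nf {b c x : H} (hx : 2 ≤ x.1) (n : ℕ) (hn : n < 2) : rn b c x ≠ (n, false) := by
  intro e
  unfold rn at e
  split_ifs at e with h1 h2
  · simp at e
  · simp at e
  · rw [e] at hx; simp at hx; omega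

theorem nodJ {w : List H} {V : Multiset (List H)} {a b c : H} {r : List H}
    (hr : (r : Multiset H) = {a} + {b} + {c})
    (hN : Nod w (r ::ₘ V)) (hl : ∀ h ∈ (w : Multiset H) + fl (r ::ₘ V), 2 ≤ h.1) :
    Nod (w.map (rn b c)) ([a, (0, false), (1, false)] ::ₘ V.map (List.map (rn b c))) := by
  unfold Nod at *
  rw [fl_cons, hr] at hN hl
  have hbc : b ≠ c := by
    intro e
    rw [Multiset.nodup_add] at hN
    have := hN.2.1
    rw [Multiset.nodup_add] at this
    have := this.1
    rw [e, add_assoc, Multiset.nodup_add] at this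
    have := this.2.1
    simp at this
  have hN2 : ({a} + ((w : Multiset H) + fl V)).Nodup := by
    refine Multiset.nodup_of_le ?_ hN
    have : (w : Multiset H) + ({a} + {b} + {c} + fl V) = ({a} + ((w : Multiset H) + fl V)) + ({b} + {c}) := by
      abel
    rw [this]
    exact Multiset.le_add_right _ _
  have hl2 : ∀ h ∈ (w : Multiset H) + fl V, 2 ≤ h.1 := by
    intro h hh
    apply hl
    simp only [Multiset.mem_add] at hh ⊢
    tauto
  have hla : 2 ≤ a.1 := hl a (by simp)
  have e1 : ((w.map (rn b c) : List H) : Multiset H)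
      + fl ([a, (0, false), (1, false)] ::ₘ V.map (List.map (rn b c)))
      = ((w : Multiset H) + fl V).map (rn b c) + (([a, (0, false), (1, false)] : List H) : Multiset H) := by
    rw [fl_cons, fl_map, Multiset.map_add, Multiset.map_coe]; abel
  rw [e1, Multiset.nodup_add]
  rw [Multiset.nodup_add] at hN2
  refine ⟨Multiset.Nodup.map_on ?_ hN2.2.1, ?_, ?_⟩
  · intro x hx y hy e
    exact rn_inj hbc (hl2 x hx) (hl2 y hy) e
  · rw [Multiset.coe_nodup]
    have h1 : a ≠ (0, false) := by rintro rfl; simp at hla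
    have h2 : a ≠ (1, false) := by rintro rfl; simp at hla
    simp [h1, h2]
  · rw [Multiset.disjoint_left]
    intro x hx hx2
    obtain ⟨y, hy, rfl⟩ := Multiset.mem_map.1 hx
    simp only [Multiset.mem_coe, List.mem_cons, List.not_mem_nil, or_false] at hx2
    rcases hx2 with e | e | e
    · have := rn_ne (hl2 y hy) hla e
      rw [this] at hy
      exact Multiset.disjoint_left.1 hN2.2.2 (by simp) hy
    · exact rn_nf (hl2 y hy) 0 (by norm_num) e
    · exact rn_nf (hl2 y hy) 1 (by norm_num) e

theorem sub_map' {τ : H → H} {h : H} {l w : List H} (hτ : ∀ k ∈ w, τ k = τ h → k = h) :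
    (sub h l w).map τ = sub (τ h) (l.map τ) (w.map τ) := by
  induction w with
  | nil => rfl
  | cons k w ih =>
    rw [sub_cons, List.map_append, ih (fun k' hk' => hτ k' (List.mem_cons_of_mem _ hk')),
      List.map_cons, sub_cons]
    congr 1
    by_cases hk : k = h
    · rw [if_pos hk, if_pos (by rw [hk])]
    · rw [if_neg hk, if_neg (fun e => hk (hτ k (by simp) e))]; rfl

/-- one resolution step for the J-version -/
theorem resJ {FJ : List H → ℚ} (hJ : GoodC FJ) {w : List H} {V' : Multiset (List H)} {r rr : List H}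
    {a b c h x y : H} (hrr : (rr : Multiset H) = {a} + {b} + {c})
    (hN : Nod w (rr ::ₘ r ::ₘ V')) (hl : ∀ h ∈ (w : Multiset H) + fl (rr ::ₘ r ::ₘ V'), 2 ≤ h.1)
    (hw : h ∈ w) (hp : 2 ≤ h.1) (hr : IsRot r (pt h) x y) :
    fh FJ (w.map (rn b c)) ([a, (0, false), (1, false)] ::ₘ (r ::ₘ V').map (List.map (rn b c)))
      = fh FJ ((sub h [x, y] w).map (rn b c)) ([a, (0, false), (1, false)] ::ₘ V'.map (List.map (rn b c)))
      - fh FJ ((sub h [y, x] w).map (rn b c)) ([a, (0, false), (1, false)] ::ₘ V'.map (List.map (rn b c))) := by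
  have hNJ := nodJ hrr hN hl
  have hbr : b ∉ fl (r ::ₘ V') := by
    intro e
    unfold Nod at hN
    rw [Multiset.nodup_add] at hN
    have := hN.2.1
    rw [fl_cons, Multiset.nodup_add] at this
    exact Multiset.disjoint_left.1 this.2.2 (by rw [hrr]; simp) e
  have hcr : c ∉ fl (r ::ₘ V') := by
    intro e
    unfold Nod at hN
    rw [Multiset.nodup_add] at hN
    have := hN.2.1
    rw [fl_cons, Multiset.nodup_add] at this
    exact Multiset.disjoint_left.1 this.2.2 (by rw [hrr]; simp) e
  have hbw : b ∉ w := fun e => hN.disj e (by rw [fl_cons, hrr]; simp)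
  have hcw : c ∉ w := fun e => hN.disj e (by rw [fl_cons, hrr]; simp)
  have hph : pt h ∈ fl (r ::ₘ V') := by rw [fl_cons, hr.coe]; simp
  have e1 : rn b c h = h := by
    unfold rn
    rw [if_neg, if_neg]
    · intro e; apply hcr; rw [e, pt_pt] at hph; exact hph
    · intro e; apply hbr; rw [e, pt_pt] at hph; exact hph
  have e2 : rn b c (pt h) = pt h := by
    unfold rn
    rw [if_neg, if_neg]
    · intro e; rw [pt_inj] at e; exact hcw (e ▸ hw)
    · intro e; rw [pt_inj] at e; exact hbw (e ▸ hw)
  have hbc : b ≠ c := by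
    intro e
    unfold Nod at hN
    rw [Multiset.nodup_add] at hN
    have := hN.2.1
    rw [fl_cons, Multiset.nodup_add] at this
    have := this.1
    rw [hrr, e, add_assoc, Multiset.nodup_add] at this
    have := this.2.1
    simp at this
  have hs : ∀ l, (sub h l w).map (rn b c) = sub h (l.map (rn b c)) (w.map (rn b c)) := by
    intro l
    rw [sub_map' (τ := rn b c), e1]
    intro k hk e
    exact rn_inj hbc (hl k (by simp [hk])) hp e
  rw [hs, hs]
  have hr' := hr.map (rn b c)
  rw [e2] at hr'
  have hNJ' := hNJ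
  refine fh_res hJ hNJ ?_ hp hr' ?_
  · rw [← e1]; exact List.mem_map_of_mem hw
  · rw [Multiset.map_cons, Multiset.cons_swap]

theorem fh_N {FC FJ : List H → ℚ} (hC : GoodC FC) (hJ : GoodC FJ) (hX : Nax FC FJ)
    {A : Multiset H} {V : Multiset (List H)} (hR : Rch A V) :
    ∀ (w : List H) (a b c : H), (w : Multiset H) = A → Nod w ([a, b, c] ::ₘ V) →
      (∀ h ∈ (w : Multiset H) + fl ([a, b, c] ::ₘ V), 2 ≤ h.1) →
      pt a ∈ (w : Multiset H) + fl V → pt b ∈ (w : Multiset H) + fl V →
      pt c ∈ (w : Multiset H) + fl V →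
      fh FC w ([a, b, c] ::ₘ V)
      + fh FJ (w.map (rn b c)) ([a, (0, false), (1, false)] ::ₘ V.map (List.map (rn b c)))
      + fh FJ (w.map (rn c a)) ([b, (0, false), (1, false)] ::ₘ V.map (List.map (rn c a)))
      + fh FJ (w.map (rn a b)) ([c, (0, false), (1, false)] ::ₘ V.map (List.map (rn a b))) = 0 := by
  induction hR with
  | nil A =>
    intro w a b c hA hN hl pa pb pc
    have r1 : (([a, b, c] : List H) : Multiset H) = {a} + {b} + {c} := rfl
    have r2 : (([a, b, c] : List H) : Multiset H) = {b} + {c} + {a} := by rw [r1]; abel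
    have r3 : (([a, b, c] : List H) : Multiset H) = {c} + {a} + {b} := by rw [r1]; abel
    have J1 := nodJ r1 hN hl
    have J2 := nodJ r2 hN hl
    have J3 := nodJ r3 hN hl
    simp only [fl_zero, add_zero, Multiset.mem_coe] at pa pb pc
    have ha : 2 ≤ a.1 := hl a (by rw [fl_cons]; simp)
    have hb : 2 ≤ b.1 := hl b (by rw [fl_cons]; simp)
    have hc : 2 ≤ c.1 := hl c (by rw [fl_cons]; simp)
    have haw : a ∉ w := fun e => hN.disj e (by rw [fl_cons]; simp)
    have hbw : b ∉ w := fun e => hN.disj e (by rw [fl_cons]; simp)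
    have hcw : c ∉ w := fun e => hN.disj e (by rw [fl_cons]; simp)
    have hnd : a ≠ b ∧ b ≠ c ∧ c ≠ a := by
      unfold Nod at hN
      rw [fl_cons, Multiset.nodup_add] at hN
      have := hN.2.1
      rw [Multiset.nodup_add] at this
      have := this.1
      rw [Multiset.coe_nodup] at this
      simp only [List.nodup_cons, List.mem_cons, List.not_mem_nil, or_false, not_or] at this
      exact ⟨this.1.1, this.2.1, fun e => this.1.2 e.symm⟩
    obtain ⟨hab, hbc, hca⟩ := hnd
    have q := hX w a b c hN.wn haw hbw hcw hab hbc hca pa pb pc (fun h hh => hl h (by simp [hh]))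
    have m1 : pt a ∈ w.map (rn b c) := by
      have : rn b c (pt a) = pt a := by
        unfold rn; rw [if_neg, if_neg]
        · intro e; exact hca (pt_inj.1 e).symm
        · intro e; exact hab (pt_inj.1 e)
      rw [← this]; exact List.mem_map_of_mem pa
    have m2 : pt b ∈ w.map (rn c a) := by
      have : rn c a (pt b) = pt b := by
        unfold rn; rw [if_neg, if_neg]
        · intro e; exact hab (pt_inj.1 e).symm
        · intro e; exact hbc (pt_inj.1 e)
      rw [← this]; exact List.mem_map_of_mem pb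
    have m3 : pt c ∈ w.map (rn a b) := by
      have : rn a b (pt c) = pt c := by
        unfold rn; rw [if_neg, if_neg]
        · intro e; exact hbc (pt_inj.1 e).symm
        · intro e; exact hca (pt_inj.1 e)
      rw [← this]; exact List.mem_map_of_mem pc
    have z0 : Multiset.map (List.map (rn b c)) (0 : Multiset (List H)) = 0 := rfl
    have z1 : Multiset.map (List.map (rn c a)) (0 : Multiset (List H)) = 0 := rfl
    have z2 : Multiset.map (List.map (rn a b)) (0 : Multiset (List H)) = 0 := rfl
    rw [z0] at J1 ⊢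
    rw [z1] at J2 ⊢
    rw [z2] at J3 ⊢
    rw [fh_v hC hN pa ha (Or.inl rfl), fh_v hJ J1 m1 ha (Or.inl rfl), fh_v hJ J2 m2 hb (Or.inl rfl),
      fh_v hJ J3 m3 hc (Or.inl rfl)]
    have nn : ∀ {w : List H} {a x y : H}, Nod w ([a, x, y] ::ₘ 0) → pt a ∈ w → 2 ≤ a.1 →
        (sub (pt a) [x, y] w).Nodup ∧ (sub (pt a) [y, x] w).Nodup := by
      intro w a x y h1 h2 h3
      have hs : IsStep w ([a, x, y] ::ₘ 0) ⟨pt a, x, y, 0⟩ :=
        ⟨h2, h3, _, by rw [pt_pt]; exact Or.inl rfl, rfl⟩
      have nd := step_nod h1 hs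
      exact ⟨nd.1.wn, nd.2.wn⟩
    have d0 := nn hN pa ha
    have d1 := nn J1 m1 ha
    have d2 := nn J2 m2 hb
    have d3 := nn J3 m3 hc
    rw [fh_zero d0.1, fh_zero d0.2, fh_zero d1.1, fh_zero d1.2, fh_zero d2.1, fh_zero d2.2,
      fh_zero d3.1, fh_zero d3.2]
    exact q
  | @step A A' r V' h x y hp hr hA R ih =>
    intro w a b c hwA hN hl pa pb pc
    have r1 : (([a, b, c] : List H) : Multiset H) = {a} + {b} + {c} := rfl
    have r2 : (([a, b, c] : List H) : Multiset H) = {b} + {c} + {a} := by rw [r1]; abel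
    have r3 : (([a, b, c] : List H) : Multiset H) = {c} + {a} + {b} := by rw [r1]; abel
    have hw : h ∈ w := by rw [← Multiset.mem_coe, hwA, hA]; simp
    rw [resJ hJ r1 hN hl hw hp hr, resJ hJ r2 hN hl hw hp hr, resJ hJ r3 hN hl hw hp hr]
    rw [fh_res hC (V' := [a, b, c] ::ₘ V') hN hw hp hr (by rw [Multiset.cons_swap])]
    have hs : IsStep w ([a, b, c] ::ₘ r ::ₘ V') ⟨h, x, y, [a, b, c] ::ₘ V'⟩ :=
      ⟨hw, hp, r, hr, by rw [Multiset.cons_swap]⟩
    have nd := step_nod hN hs
    have hcont := step_cont hN hs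
    simp only at nd hcont
    have c1 : (sub h [x, y] w : Multiset H) = x ::ₘ y ::ₘ A' := by
      have := coe_sub (l := [x, y]) hN.wn hw
      rw [hwA, hA] at this
      have e2 : (([x, y] : List H) : Multiset H) = {x} + {y} := rfl
      rw [e2, ← Multiset.singleton_add h A'] at this
      have e3 : ({h} + A' + ({x} + {y}) : Multiset H) = (x ::ₘ y ::ₘ A') + {h} := by
        rw [← Multiset.singleton_add x, ← Multiset.singleton_add y]; abel
      rw [e3] at this
      exact add_right_cancel this
    have c2 : (sub h [y, x] w : Multiset H) = x ::ₘ y ::ₘ A' := by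
      rw [← c1]; exact sub_swap_coe (List.Perm.swap x y [])
    have mem_keep : ∀ k, k ∈ ({a} + {b} + {c} : Multiset H) → pt k ∈ (w : Multiset H) + fl (r ::ₘ V') →
        pt k ∈ (sub h [x, y] w : Multiset H) + fl V' := by
      intro k hk hk2
      have h1 : pt k ∈ (w : Multiset H) + fl ([a, b, c] ::ₘ r ::ₘ V') := by
        rw [fl_cons, ← add_assoc, add_right_comm]; exact Multiset.mem_add.2 (Or.inl hk2)
      rw [hcont, fl_cons, r1] at h1
      simp only [Multiset.mem_add, Multiset.mem_singleton] at h1 hk ⊢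
      have g1 : pt k ≠ h := by
        intro e
        have e' : pt h = k := by rw [← e, pt_pt]
        have hphr : pt h ∈ fl (r ::ₘ V') := by rw [fl_cons, hr.coe]; simp
        have hN' := hN
        unfold Nod at hN'
        rw [Multiset.nodup_add, fl_cons, Multiset.nodup_add] at hN'
        rw [e'] at hphr
        exact Multiset.disjoint_left.1 hN'.2.1.2.2 (by
          rw [r1]; simp only [Multiset.mem_add, Multiset.mem_singleton]; tauto) hphr
      have g2 : pt k ≠ pt h := by
        intro e
        rw [pt_inj] at e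
        apply hN.disj hw
        rw [fl_cons, r1, ← e]
        simp only [Multiset.mem_add, Multiset.mem_singleton]; tauto
      have g3 : ¬ (pt k = a ∨ pt k = b) ∨ pt k = a ∨ pt k = b := by tauto
      have g4 : ∀ z, z ∈ ({a} + {b} + {c} : Multiset H) → pt k ≠ z := by
        intro z hz e
        have hN' := hN
        unfold Nod at hN'
        rw [fl_cons, ← add_assoc, add_right_comm, Multiset.nodup_add] at hN'
        exact Multiset.disjoint_left.1 hN'.2.2 hk2 (by rw [r1, e]; exact hz)
      have g5 := g4 a (by simp)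
      have g6 := g4 b (by simp)
      have g7 := g4 c (by simp)
      tauto
    have fresh1 : ∀ h' ∈ (sub h [x, y] w : Multiset H) + fl ([a, b, c] ::ₘ V'), 2 ≤ h'.1 := by
      intro h' hh'
      apply hl
      rw [hcont]
      simp only [Multiset.mem_add] at hh' ⊢
      tauto
    have e12 : (sub h [y, x] w : Multiset H) = (sub h [x, y] w : Multiset H) := by rw [c1, c2]
    have I1 := ih (sub h [x, y] w) a b c c1 nd.1 fresh1 (mem_keep a (by simp) pa)
      (mem_keep b (by simp) pb) (mem_keep c (by simp) pc)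
    have I2 := ih (sub h [y, x] w) a b c c2 nd.2 (by rw [e12]; exact fresh1)
      (by rw [e12]; exact mem_keep a (by simp) pa)
      (by rw [e12]; exact mem_keep b (by simp) pb) (by rw [e12]; exact mem_keep c (by simp) pc)
    linear_combination I1 - I2

end CA247
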