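import Pool.Agent.CA247.L1
import Pool.Agent.CA247.Jay

set_option autoImplicit false

namespace CA247

variable {F : List H → ℚ}

theorem alt4_neg {α : Type} (f : α → α → α → α → ℚ) (a b c d : α) :
    alt4 (fun a b c d => - f a b c d) a b c d = - alt4 f a b c d := by unfold alt4; ring
theorem alt4_add {α : Type} (f g : α → α → α → α → ℚ) (a b c d : α) :
    alt4 (fun a b c d => f a b c d + g a b c d) a b c d = alt4 f a b c d + alt4 g a b c d := by
  unfold alt4; ring
theorem alt4_sub {α : Type} (f g : α → α → α → α → ℚ) (a b c d : α) :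
    alt4 (fun a b c d => f a b c d - g a b c d) a b c d = alt4 f a b c d - alt4 g a b c d := by
  unfold alt4; ring
theorem alt4_smul {α : Type} (e : ℚ) (f : α → α → α → α → ℚ) (a b c d : α) :
    alt4 (fun a b c d => e * f a b c d) a b c d = e * alt4 f a b c d := by
  unfold alt4; ring
theorem alt4_zero {α : Type} (a b c d : α) :
    alt4 (fun _ _ _ _ => (0 : ℚ)) a b c d = 0 := by
  unfold alt4; ring

theorem alt4_congr' {α : Type} {f g : α → α → α → α → ℚ} {P : α → Prop} {a b c d : α}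
    (ha : P a) (hb : P b) (hc : P c) (hd : P d)
    (h : ∀ a b c d, P a → P b → P c → P d → f a b c d = g a b c d) :
    alt4 f a b c d = alt4 g a b c d := by
  unfold alt4
  rw [h a b c d ha hb hc hd, h a b d c ha hb hd hc, h a c b d ha hc hb hd, h a c d b ha hc hd hb,
    h a d b c ha hd hb hc, h a d c b ha hd hc hb, h b a c d hb ha hc hd, h b a d c hb ha hd hc,
    h b c a d hb hc ha hd, h b c d a hb hc hd ha, h b d a c hb hd ha hc, h b d c a hb hd hc ha,
    h c a b d hc ha hb hd, h c a d b hc ha hd hb, h c b a d hc hb ha hd, h c b d a hc hb hd ha,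
    h c d a b hc hd ha hb, h c d b a hc hd hb ha, h d a b c hd ha hb hc, h d a c b hd ha hc hb,
    h d b a c hd hb ha hc, h d b c a hd hb hc ha, h d c a b hd hc ha hb, h d c b a hd hc hb ha]

theorem alt4_comm {α : Type} (G : α → α → α → α → α → α → α → α → ℚ) (a b c d e f g h : α) :
    alt4 (fun a b c d => alt4 (fun e f g h => G a b c d e f g h) e f g h) a b c d
      = alt4 (fun e f g h => alt4 (fun a b c d => G a b c d e f g h) a b c d) e f g h := by
  conv_rhs => unfold alt4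
  have : (fun a b c d => alt4 (fun e f g h => G a b c d e f g h) e f g h)
      = (fun a b c d => G a b c d e f g h - G a b c d e f h g - G a b c d e g f h
        + G a b c d e g h f + G a b c d e h f g - G a b c d e h g f - G a b c d f e g h
        + G a b c d f e h g + G a b c d f g e h - G a b c d f g h e - G a b c d f h e g
        + G a b c d f h g e + G a b c d g e f h - G a b c d g e h f - G a b c d g f e h
        + G a b c d g f h e + G a b c d g h e f - G a b c d g h f e - G a b c d h e f g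
        + G a b c d h e g f + G a b c d h f e g - G a b c d h f g e - G a b c d h g e f
        + G a b c d h g f e) := rfl
  rw [this]
  simp only [alt4_sub, alt4_add]
  rfl

def alt3 {α : Type} (f : α → α → α → ℚ) (a b c : α) : ℚ :=
  f a b c - f a c b - f b a c + f b c a + f c a b - f c b a

theorem alt3_neg {α : Type} (f : α → α → α → ℚ) (a b c : α) :
    alt3 (fun a b c => - f a b c) a b c = - alt3 f a b c := by unfold alt3; ring
theorem alt3_add {α : Type} (f g : α → α → α → ℚ) (a b c : α) :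
    alt3 (fun a b c => f a b c + g a b c) a b c = alt3 f a b c + alt3 g a b c := by
  unfold alt3; ring
theorem alt3_sub {α : Type} (f g : α → α → α → ℚ) (a b c : α) :
    alt3 (fun a b c => f a b c - g a b c) a b c = alt3 f a b c - alt3 g a b c := by
  unfold alt3; ring
theorem alt3_smul {α : Type} (e : ℚ) (f : α → α → α → ℚ) (a b c : α) :
    alt3 (fun a b c => e * f a b c) a b c = e * alt3 f a b c := by
  unfold alt3; ring
theorem alt3_zero {α : Type} (a b c : α) : alt3 (fun _ _ _ => (0 : ℚ)) a b c = 0 := by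
  unfold alt3; ring
theorem alt3_12 {α : Type} (f : α → α → α → ℚ) (a b c : α) :
    alt3 f a b c = - alt3 f b a c := by unfold alt3; ring
theorem alt3_23 {α : Type} (f : α → α → α → ℚ) (a b c : α) :
    alt3 f a b c = - alt3 f a c b := by unfold alt3; ring

theorem alt3_congr' {α : Type} {f g : α → α → α → ℚ} {P : α → Prop} {a b c : α}
    (ha : P a) (hb : P b) (hc : P c)
    (h : ∀ a b c, P a → P b → P c → f a b c = g a b c) :
    alt3 f a b c = alt3 g a b c := by
  unfold alt3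
  rw [h a b c ha hb hc, h a c b ha hc hb, h b a c hb ha hc, h b c a hb hc ha, h c a b hc ha hb,
    h c b a hc hb ha]

noncomputable def KK (F : List H → ℚ) (w : List H)
    (p1 a1 b1 c1 d1 p2 a2 b2 c2 d2 y1 y2 y3 : H) : ℚ :=
  alt4 (fun a b c d => Kv F 20 w ([y1, y2, y3] ::ₘ thn 40 a b c d p2) p1 a1 b1 c1 d1) a2 b2 c2 d2

noncomputable def EE (F : List H → ℚ) (p1 a1 b1 c1 d1 p2 a2 b2 c2 d2 y1 y2 y3 : H) : ℚ :=
  alt3 (fun u v w => KK F [u, v, w] p1 a1 b1 c1 d1 p2 a2 b2 c2 d2 y1 y2 y3)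
    (10, true) (11, true) (12, true)

noncomputable def ev2 (F : List H → ℚ) (t : List ℕ) : ℚ :=
  match t with
  | [p1, a1, b1, c1, d1, p2, a2, b2, c2, d2, y1, y2, y3] =>
    EE F (decH p1) (decH a1) (decH b1) (decH c1) (decH d1) (decH p2) (decH a2) (decH b2) (decH c2)
      (decH d2) (decH y1) (decH y2) (decH y3)
  | _ => 0

/-! ### structural moves -/

theorem KK_1 (w : List H) (p1 a1 b1 c1 d1 p2 a2 b2 c2 d2 y1 y2 y3 : H) :
    KK F w p1 a1 b1 c1 d1 p2 a2 b2 c2 d2 y1 y2 y3 = - KK F w p1 b1 a1 c1 d1 p2 a2 b2 c2 d2 y1 y2 y3 := by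
  unfold KK
  rw [← alt4_neg]
  congr 1; funext a b c d
  exact alt4_12 _ _ _ _ _
theorem KK_2 (w : List H) (p1 a1 b1 c1 d1 p2 a2 b2 c2 d2 y1 y2 y3 : H) :
    KK F w p1 a1 b1 c1 d1 p2 a2 b2 c2 d2 y1 y2 y3 = - KK F w p1 a1 c1 b1 d1 p2 a2 b2 c2 d2 y1 y2 y3 := by
  unfold KK
  rw [← alt4_neg]
  congr 1; funext a b c d
  exact alt4_23 _ _ _ _ _
theorem KK_3 (w : List H) (p1 a1 b1 c1 d1 p2 a2 b2 c2 d2 y1 y2 y3 : H) :
    KK F w p1 a1 b1 c1 d1 p2 a2 b2 c2 d2 y1 y2 y3 = - KK F w p1 a1 b1 d1 c1 p2 a2 b2 c2 d2 y1 y2 y3 := by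
  unfold KK
  rw [← alt4_neg]
  congr 1; funext a b c d
  exact alt4_34 _ _ _ _ _
theorem KK_4 (w : List H) (p1 a1 b1 c1 d1 p2 a2 b2 c2 d2 y1 y2 y3 : H) :
    KK F w p1 a1 b1 c1 d1 p2 a2 b2 c2 d2 y1 y2 y3 = - KK F w p1 a1 b1 c1 d1 p2 b2 a2 c2 d2 y1 y2 y3 :=
  alt4_12 _ _ _ _ _
theorem KK_5 (w : List H) (p1 a1 b1 c1 d1 p2 a2 b2 c2 d2 y1 y2 y3 : H) :
    KK F w p1 a1 b1 c1 d1 p2 a2 b2 c2 d2 y1 y2 y3 = - KK F w p1 a1 b1 c1 d1 p2 a2 c2 b2 d2 y1 y2 y3 :=
  alt4_23 _ _ _ _ _
theorem KK_6 (w : List H) (p1 a1 b1 c1 d1 p2 a2 b2 c2 d2 y1 y2 y3 : H) :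
    KK F w p1 a1 b1 c1 d1 p2 a2 b2 c2 d2 y1 y2 y3 = - KK F w p1 a1 b1 c1 d1 p2 a2 b2 d2 c2 y1 y2 y3 :=
  alt4_34 _ _ _ _ _
theorem KK_7 (hF : GoodC F) (w : List H) (p1 a1 b1 c1 d1 p2 a2 b2 c2 d2 y1 y2 y3 : H) :
    KK F w p1 a1 b1 c1 d1 p2 a2 b2 c2 d2 y1 y2 y3 = - KK F w p1 a1 b1 c1 d1 p2 a2 b2 c2 d2 y2 y1 y3 := by
  unfold KK Kv
  rw [← alt4_neg]
  congr 1; funext a b c d
  rw [← alt4_neg]
  congr 1; funext a' b' c' d'
  rw [Multiset.add_cons, Multiset.add_cons, fh_as hF]
theorem KK_8 (hF : GoodC F) (w : List H) (p1 a1 b1 c1 d1 p2 a2 b2 c2 d2 y1 y2 y3 : H) :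
    KK F w p1 a1 b1 c1 d1 p2 a2 b2 c2 d2 y1 y2 y3 = - KK F w p1 a1 b1 c1 d1 p2 a2 b2 c2 d2 y1 y3 y2 := by
  unfold KK Kv
  rw [← alt4_neg]
  congr 1; funext a b c d
  rw [← alt4_neg]
  congr 1; funext a' b' c' d'
  rw [Multiset.add_cons, Multiset.add_cons, fh_rot hF w y1 y2 y3, fh_as hF w y2 y3 y1,
    ← fh_rot hF w y1 y3 y2]

theorem EE_neg {p1 a1 b1 c1 d1 p2 a2 b2 c2 d2 y1 y2 y3 p1' a1' b1' c1' d1' p2' a2' b2' c2' d2' y1' y2' y3' : H}
    (h : ∀ w : List H, KK F w p1 a1 b1 c1 d1 p2 a2 b2 c2 d2 y1 y2 y3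
      = - KK F w p1' a1' b1' c1' d1' p2' a2' b2' c2' d2' y1' y2' y3') :
    EE F p1 a1 b1 c1 d1 p2 a2 b2 c2 d2 y1 y2 y3
      = - EE F p1' a1' b1' c1' d1' p2' a2' b2' c2' d2' y1' y2' y3' := by
  unfold EE
  rw [← alt3_neg]
  congr 1; funext a b c
  exact h _

/-! ### the swap of the two blocks -/

def bsw (h : H) : H :=
  if 20 ≤ h.1 ∧ h.1 < 28 then (h.1 + 20, h.2) else
    if 40 ≤ h.1 ∧ h.1 < 48 then (h.1 - 20, h.2) else h

theorem bsw_bsw (h : H) : bsw (bsw h) = h := by
  by_cases h1 : 20 ≤ h.1 ∧ h.1 < 28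
  · have e1 : bsw h = (h.1 + 20, h.2) := by unfold bsw; rw [if_pos h1]
    rw [e1]; unfold bsw
    rw [if_neg (by simp only; omega), if_pos (by simp only; omega)]
    exact Prod.ext (by simp) rfl
  · by_cases h2 : 40 ≤ h.1 ∧ h.1 < 48
    · have e1 : bsw h = (h.1 - 20, h.2) := by unfold bsw; rw [if_neg h1, if_pos h2]
      rw [e1]; unfold bsw
      rw [if_pos (by simp only; omega)]
      exact Prod.ext (by simp only; omega) rfl
    · have e1 : bsw h = h := by unfold bsw; rw [if_neg h1, if_neg h2]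
      rw [e1, e1]

theorem bsw_aut : Aut bsw := by
  refine ⟨fun a b e => by rw [← bsw_bsw a, e, bsw_bsw b], ?_, ?_, ?_⟩
  · intro h
    unfold bsw pt
    simp only
    split_ifs <;> rfl
  · intro h hh
    unfold bsw
    split_ifs <;> (try simp only) <;> omega
  · intro h hh
    have h1 : ¬ (20 ≤ h.1 ∧ h.1 < 28) := by omega
    have h2 : ¬ (40 ≤ h.1 ∧ h.1 < 48) := by omega
    unfold bsw
    rw [if_neg h1, if_neg h2]
    exact ⟨hh, rfl⟩

theorem bsw_fix {h : H} (hh : h.1 < 20) : bsw h = h := by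
  have h1 : ¬ (20 ≤ h.1 ∧ h.1 < 28) := by omega
  have h2 : ¬ (40 ≤ h.1 ∧ h.1 < 48) := by omega
  unfold bsw
  rw [if_neg h1, if_neg h2]

theorem bsw_thn20 (a b c d p : H) : (thn 20 a b c d p).map (List.map bsw)
    = thn 40 (bsw a) (bsw b) (bsw c) (bsw d) (bsw p) := rfl
theorem bsw_thn40 (a b c d p : H) : (thn 40 a b c d p).map (List.map bsw)
    = thn 20 (bsw a) (bsw b) (bsw c) (bsw d) (bsw p) := rfl

theorem KK_swap (hF : GoodC F) {w : List H} {p1 a1 b1 c1 d1 p2 a2 b2 c2 d2 y1 y2 y3 : H}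
    (hw : ∀ h ∈ w, h.1 < 20) (h1 : p1.1 < 20) (h2 : a1.1 < 20) (h3 : b1.1 < 20) (h4 : c1.1 < 20)
    (h5 : d1.1 < 20) (h6 : p2.1 < 20) (h7 : a2.1 < 20) (h8 : b2.1 < 20) (h9 : c2.1 < 20)
    (h10 : d2.1 < 20) (h11 : y1.1 < 20) (h12 : y2.1 < 20) (h13 : y3.1 < 20) :
    KK F w p1 a1 b1 c1 d1 p2 a2 b2 c2 d2 y1 y2 y3 = KK F w p2 a2 b2 c2 d2 p1 a1 b1 c1 d1 y1 y2 y3 := by
  unfold KK Kv
  rw [alt4_comm (fun a b c d e f g h => fh F w (thn 20 e f g h p1 + ([y1, y2, y3] ::ₘ thn 40 a b c d p2)))]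
  refine alt4_congr' (P := fun h => h.1 < 20) h2 h3 h4 h5 ?_
  intro a b c d ha hb hc hd
  refine alt4_congr' (P := fun h => h.1 < 20) h7 h8 h9 h10 ?_
  intro e f g h he hf hg hh
  have hwm : w.map bsw = w := by
    have : ∀ k ∈ w, bsw k = id k := fun k hk => bsw_fix (hw k hk)
    rw [List.map_congr_left this, List.map_id]
  have key := fh_rel hF bsw_aut w (thn 20 a b c d p1 + ([y1, y2, y3] ::ₘ thn 40 e f g h p2))
  rw [hwm, Multiset.map_add, Multiset.map_cons, bsw_thn20, bsw_thn40] at key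
  simp only [List.map_cons, List.map_nil] at key
  rw [bsw_fix ha, bsw_fix hb, bsw_fix hc, bsw_fix hd, bsw_fix h1, bsw_fix he, bsw_fix hf,
    bsw_fix hg, bsw_fix hh, bsw_fix h6, bsw_fix h11, bsw_fix h12, bsw_fix h13] at key
  rw [← key, Multiset.add_cons, Multiset.add_cons, add_comm]

/-! ### relabelling -/

theorem thn_map {τ : H → H} {s : ℕ} (hτ : ∀ h : H, s ≤ h.1 → h.1 < s + 8 → τ h = h) (a b c d p : H) :
    (thn s a b c d p).map (List.map τ) = thn s (τ a) (τ b) (τ c) (τ d) (τ p) := by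
  unfold thn
  rw [Multiset.map_coe]
  simp only [List.map_cons, List.map_nil]
  have h : ∀ (i : ℕ) (e : Bool), i < 8 → τ (s + i, e) = (s + i, e) := fun i e hi =>
    hτ _ (by simp only; omega) (by simp only; omega)
  have h0 : ∀ e : Bool, τ (s, e) = (s, e) := fun e => h 0 e (by norm_num)
  rw [h0, h0, h 1 _ (by norm_num), h 1 _ (by norm_num), h 2 _ (by norm_num), h 2 _ (by norm_num),
    h 3 _ (by norm_num), h 3 _ (by norm_num), h 4 _ (by norm_num), h 4 _ (by norm_num),
    h 5 _ (by norm_num), h 5 _ (by norm_num), h 6 _ (by norm_num), h 6 _ (by norm_num),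
    h 7 _ (by norm_num), h 7 _ (by norm_num)]

theorem KK_tau (hF : GoodJ F) {τ : H → H} (hτ : AutJ τ)
    (hfix : ∀ h : H, 20 ≤ h.1 → τ h = h) (w : List H)
    (p1 a1 b1 c1 d1 p2 a2 b2 c2 d2 y1 y2 y3 : H) :
    KK F (w.map τ) (τ p1) (τ a1) (τ b1) (τ c1) (τ d1) (τ p2) (τ a2) (τ b2) (τ c2) (τ d2)
      (τ y1) (τ y2) (τ y3)
      = (sg (τ (0, false)).2 * sg (τ (1, false)).2) * KK F w p1 a1 b1 c1 d1 p2 a2 b2 c2 d2 y1 y2 y3 := by
  unfold KK Kv
  rw [← alt4_map, ← alt4_smul]
  congr 1; funext a b c d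
  rw [← alt4_map, ← alt4_smul]
  congr 1; funext a' b' c' d'
  rw [← fh_sgn hF.good hτ _ (hF.sgn τ hτ)]
  rw [Multiset.map_add, Multiset.map_cons, thn_map (fun h h1 _ => hfix h h1),
    thn_map (fun h h1 _ => hfix h (by omega))]
  rfl

theorem EE_tau (hF : GoodJ F) {τ : H → H} (hτ : AutJ τ)
    (hfix : ∀ h : H, 20 ≤ h.1 → τ h = h) (u0 v0 w0 : H)
    (p1 a1 b1 c1 d1 p2 a2 b2 c2 d2 y1 y2 y3 : H) :
    alt3 (fun u v w => KK F [u, v, w] (τ p1) (τ a1) (τ b1) (τ c1) (τ d1) (τ p2) (τ a2) (τ b2)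
      (τ c2) (τ d2) (τ y1) (τ y2) (τ y3)) (τ u0) (τ v0) (τ w0)
      = (sg (τ (0, false)).2 * sg (τ (1, false)).2) *
        alt3 (fun u v w => KK F [u, v, w] p1 a1 b1 c1 d1 p2 a2 b2 c2 d2 y1 y2 y3) u0 v0 w0 := by
  rw [← alt3_smul]
  have : ∀ (f : H → H → H → ℚ), alt3 f (τ u0) (τ v0) (τ w0)
      = alt3 (fun u v w => f (τ u) (τ v) (τ w)) u0 v0 w0 := fun _ => rfl
  rw [this]
  congr 1; funext u v w
  exact KK_tau hF hτ hfix [u, v, w] p1 a1 b1 c1 d1 p2 a2 b2 c2 d2 y1 y2 y3

def swl (i j c : ℕ) : ℕ := if c / 2 = i then 2 * j + c % 2 else if c / 2 = j then 2 * i + c % 2 else c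
def fll (i c : ℕ) : ℕ := if c / 2 = i then pc c else c
def flp (i : ℕ) (h : H) : H := if h.1 = i then pt h else h
def sw2 (i j : ℕ) (h : H) : H := if h.1 = i then (j, h.2) else if h.1 = j then (i, h.2) else h

theorem decH_fll (i c : ℕ) : decH (fll i c) = flp i (decH c) := by
  unfold fll flp
  by_cases h : c / 2 = i
  · rw [if_pos h, if_pos (by exact h), decH_pc]
  · rw [if_neg h, if_neg (by exact h)]

theorem decH_swl (i j c : ℕ) : decH (swl i j c) = sw2 i j (decH c) := by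
  have e0 : (decH c).1 = c / 2 := rfl
  have e1 : (decH c).2 = (c % 2 == 1) := rfl
  unfold swl sw2
  rw [e0, e1]
  by_cases h : c / 2 = i
  · rw [if_pos h, if_pos h]
    unfold decH
    refine Prod.ext (by simp only; omega) ?_
    simp only
    have : (2 * j + c % 2) % 2 = c % 2 := by omega
    rw [this]
  · rw [if_neg h, if_neg h]
    by_cases h' : c / 2 = j
    · rw [if_pos h', if_pos h']
      unfold decH
      refine Prod.ext (by simp only; omega) ?_
      simp only
      have : (2 * i + c % 2) % 2 = c % 2 := by omega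
      rw [this]
    · rw [if_neg h', if_neg h']

theorem flp_autJ (i : ℕ) : AutJ (flp i) := by
  have e : ∀ h, flp i (flp i h) = h := by
    intro h; unfold flp
    by_cases h1 : h.1 = i
    · simp [h1]
    · simp [h1]
  refine ⟨fun a b h => by rw [← e a, h, e b], ?_, ?_⟩
  · intro h; unfold flp; simp only [pt_fst]; split_ifs <;> rfl
  · intro h; unfold flp; split_ifs <;> simp

theorem sw2_autJ (i j : ℕ) (hij : 2 ≤ i ↔ 2 ≤ j) : AutJ (sw2 i j) := by
  have e : ∀ h, sw2 i j (sw2 i j h) = h := by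
    rintro ⟨h, b⟩; unfold sw2
    by_cases h1 : h = i
    · subst h1
      by_cases h2 : j = h
      · subst h2; simp
      · simp [h2]
    · by_cases h2 : h = j
      · subst h2; simp [h1]
      · simp [h1, h2]
  refine ⟨fun a b h => by rw [← e a, h, e b], ?_, ?_⟩
  · intro h; unfold sw2; simp only [pt_fst]; split_ifs <;> rfl
  · intro h; unfold sw2
    split_ifs with h1 h2
    · simp only; rw [h1]; exact hij
    · simp only; rw [h2]; exact hij.symm
    · rfl

def mv (m : ℕ) (t : List ℕ) : ℤ × List ℕ :=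
  match t with
  | [p1, a1, b1, c1, d1, p2, a2, b2, c2, d2, y1, y2, y3] =>
    if m = 0 then (-1, [p1, b1, a1, c1, d1, p2, a2, b2, c2, d2, y1, y2, y3])
    else if m = 1 then (-1, [p1, a1, c1, b1, d1, p2, a2, b2, c2, d2, y1, y2, y3])
    else if m = 2 then (-1, [p1, a1, b1, d1, c1, p2, a2, b2, c2, d2, y1, y2, y3])
    else if m = 3 then (-1, [p1, a1, b1, c1, d1, p2, b2, a2, c2, d2, y1, y2, y3])
    else if m = 4 then (-1, [p1, a1, b1, c1, d1, p2, a2, c2, b2, d2, y1, y2, y3])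
    else if m = 5 then (-1, [p1, a1, b1, c1, d1, p2, a2, b2, d2, c2, y1, y2, y3])
    else if m = 6 then (-1, [p1, a1, b1, c1, d1, p2, a2, b2, c2, d2, y2, y1, y3])
    else if m = 7 then (-1, [p1, a1, b1, c1, d1, p2, a2, b2, c2, d2, y1, y3, y2])
    else if m = 8 ∧ (p1 < 40 ∧ a1 < 40 ∧ b1 < 40 ∧ c1 < 40 ∧ d1 < 40 ∧ p2 < 40 ∧ a2 < 40 ∧ b2 < 40
        ∧ c2 < 40 ∧ d2 < 40 ∧ y1 < 40 ∧ y2 < 40 ∧ y3 < 40) then
      (1, [p2, a2, b2, c2, d2, p1, a1, b1, c1, d1, y1, y2, y3])
    else if m = 9 then (1, t.map (swl 0 1))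
    else if m = 10 then (-1, t.map (fll 0))
    else if m = 11 then (-1, t.map (swl 10 11))
    else if m = 12 then (-1, t.map (swl 11 12))
    else if 13 ≤ m ∧ m ≤ 18 then (1, t.map (swl m (m + 1)))
    else if 20 ≤ m ∧ m ≤ 26 then (1, t.map (fll (m - 7)))
    else (1, t)
  | _ => (1, t)

theorem ev2_tau (hF : GoodJ F) {τ : H → H} {f : ℕ → ℕ} (hf : ∀ c, decH (f c) = τ (decH c))
    (hτ : AutJ τ) (hfix : ∀ h : H, 20 ≤ h.1 → τ h = h)
    (h1 : τ (10, true) = (10, true)) (h2 : τ (11, true) = (11, true))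
    (h3 : τ (12, true) = (12, true)) (ε : ℤ)
    (hε : (ε : ℚ) * (sg (τ (0, false)).2 * sg (τ (1, false)).2) = 1) (t : List ℕ) :
    ev2 F t = ε * ev2 F (t.map f) := by
  unfold ev2
  match t with
  | [p1, a1, b1, c1, d1, p2, a2, b2, c2, d2, y1, y2, y3] =>
    simp only [List.map_cons, List.map_nil, hf]
    unfold EE
    have := EE_tau hF hτ hfix (10, true) (11, true) (12, true) (decH p1) (decH a1) (decH b1)
      (decH c1) (decH d1) (decH p2) (decH a2) (decH b2) (decH c2)
      (decH d2) (decH y1) (decH y2) (decH y3)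
    rw [h1, h2, h3] at this
    rw [this, ← mul_assoc, hε, one_mul]
  | [] | [_] | [_, _] | [_, _, _] | [_, _, _, _] | [_, _, _, _, _] | [_, _, _, _, _, _]
  | [_, _, _, _, _, _, _] | [_, _, _, _, _, _, _, _] | [_, _, _, _, _, _, _, _, _]
  | [_, _, _, _, _, _, _, _, _, _] | [_, _, _, _, _, _, _, _, _, _, _]
  | [_, _, _, _, _, _, _, _, _, _, _, _] => simp
  | _ :: _ :: _ :: _ :: _ :: _ :: _ :: _ :: _ :: _ :: _ :: _ :: _ :: _ :: _ => simp

theorem ev2_tau' (hF : GoodJ F) {τ : H → H} {f : ℕ → ℕ} (hf : ∀ c, decH (f c) = τ (decH c))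
    (hτ : AutJ τ) (hfix : ∀ h : H, 20 ≤ h.1 → τ h = h)
    (h0 : ∀ G : H → H → H → ℚ, alt3 G (τ (10, true)) (τ (11, true)) (τ (12, true))
      = - alt3 G (10, true) (11, true) (12, true))
    (hε : (sg (τ (0, false)).2 * sg (τ (1, false)).2) = 1) (t : List ℕ) :
    ev2 F t = ((-1 : ℤ) : ℚ) * ev2 F (t.map f) := by
  unfold ev2
  match t with
  | [p1, a1, b1, c1, d1, p2, a2, b2, c2, d2, y1, y2, y3] =>
    simp only [List.map_cons, List.map_nil, hf]
    unfold EE
    have := EE_tau hF hτ hfix (10, true) (11, true) (12, true) (decH p1) (decH a1) (decH b1)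
      (decH c1) (decH d1) (decH p2) (decH a2) (decH b2) (decH c2)
      (decH d2) (decH y1) (decH y2) (decH y3)
    rw [h0, hε, one_mul] at this
    rw [← this]; push_cast; ring
  | [] | [_] | [_, _] | [_, _, _] | [_, _, _, _] | [_, _, _, _, _] | [_, _, _, _, _, _]
  | [_, _, _, _, _, _, _] | [_, _, _, _, _, _, _, _] | [_, _, _, _, _, _, _, _, _]
  | [_, _, _, _, _, _, _, _, _, _] | [_, _, _, _, _, _, _, _, _, _, _]
  | [_, _, _, _, _, _, _, _, _, _, _, _] => simp
  | _ :: _ :: _ :: _ :: _ :: _ :: _ :: _ :: _ :: _ :: _ :: _ :: _ :: _ :: _ => simp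

theorem decH_lt {c : ℕ} (h : c < 40) : (decH c).1 < 20 := by unfold decH; simp only; omega

theorem mv_sound' (hF : GoodJ F) (m : ℕ) (t : List ℕ) (r : ℤ × List ℕ) (hr : mv m t = r) :
    ev2 F t = (r.1 : ℚ) * ev2 F r.2 := by
  match t, hr with
  | [p1, a1, b1, c1, d1, p2, a2, b2, c2, d2, y1, y2, y3], hr =>
    unfold mv at hr
    simp only at hr
    by_cases m0 : m = 0
    · rw [if_pos m0] at hr; subst hr
      simp only [ev2]; push_cast; rw [neg_one_mul]; exact EE_neg (fun w => KK_1 w _ _ _ _ _ _ _ _ _ _ _ _ _)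
    rw [if_neg m0] at hr
    by_cases m1 : m = 1
    · rw [if_pos m1] at hr; subst hr
      simp only [ev2]; push_cast; rw [neg_one_mul]; exact EE_neg (fun w => KK_2 w _ _ _ _ _ _ _ _ _ _ _ _ _)
    rw [if_neg m1] at hr
    by_cases m2 : m = 2
    · rw [if_pos m2] at hr; subst hr
      simp only [ev2]; push_cast; rw [neg_one_mul]; exact EE_neg (fun w => KK_3 w _ _ _ _ _ _ _ _ _ _ _ _ _)
    rw [if_neg m2] at hr
    by_cases m3 : m = 3
    · rw [if_pos m3] at hr; subst hr
      simp only [ev2]; push_cast; rw [neg_one_mul]; exact EE_neg (fun w => KK_4 w _ _ _ _ _ _ _ _ _ _ _ _ _)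
    rw [if_neg m3] at hr
    by_cases m4 : m = 4
    · rw [if_pos m4] at hr; subst hr
      simp only [ev2]; push_cast; rw [neg_one_mul]; exact EE_neg (fun w => KK_5 w _ _ _ _ _ _ _ _ _ _ _ _ _)
    rw [if_neg m4] at hr
    by_cases m5 : m = 5
    · rw [if_pos m5] at hr; subst hr
      simp only [ev2]; push_cast; rw [neg_one_mul]; exact EE_neg (fun w => KK_6 w _ _ _ _ _ _ _ _ _ _ _ _ _)
    rw [if_neg m5] at hr
    by_cases m6 : m = 6
    · rw [if_pos m6] at hr; subst hr
      simp only [ev2]; push_cast; rw [neg_one_mul]; exact EE_neg (fun w => KK_7 hF.good w _ _ _ _ _ _ _ _ _ _ _ _ _)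
    rw [if_neg m6] at hr
    by_cases m7 : m = 7
    · rw [if_pos m7] at hr; subst hr
      simp only [ev2]; push_cast; rw [neg_one_mul]; exact EE_neg (fun w => KK_8 hF.good w _ _ _ _ _ _ _ _ _ _ _ _ _)
    rw [if_neg m7] at hr
    by_cases m8 : m = 8 ∧ (p1 < 40 ∧ a1 < 40 ∧ b1 < 40 ∧ c1 < 40 ∧ d1 < 40 ∧ p2 < 40 ∧ a2 < 40 ∧ b2 < 40
        ∧ c2 < 40 ∧ d2 < 40 ∧ y1 < 40 ∧ y2 < 40 ∧ y3 < 40)
    · rw [if_pos m8] at hr; subst hr
      obtain ⟨-, h1, h2, h3, h4, h5, h6, h7, h8, h9, h10, h11, h12, h13⟩ := m8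
      simp only [ev2]; push_cast; rw [one_mul]
      unfold EE
      refine alt3_congr' (P := fun h => h.1 < 20) (by norm_num) (by norm_num) (by norm_num) ?_
      intro u v w hu hv hw
      exact KK_swap hF.good (by simp [hu, hv, hw]) (decH_lt h1) (decH_lt h2) (decH_lt h3)
        (decH_lt h4) (decH_lt h5) (decH_lt h6) (decH_lt h7) (decH_lt h8) (decH_lt h9)
        (decH_lt h10) (decH_lt h11) (decH_lt h12) (decH_lt h13)
    rw [if_neg m8] at hr
    by_cases m9 : m = 9
    · rw [if_pos m9] at hr; subst hr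
      refine ev2_tau hF (decH_swl 0 1) (sw2_autJ 0 1 (by norm_num)) ?_ ?_ ?_ ?_ 1 ?_ _
      · intro h hh; unfold sw2; rw [if_neg (by omega), if_neg (by omega)]
      · simp [sw2]
      · simp [sw2]
      · simp [sw2]
      · simp [sw2, sg]
    rw [if_neg m9] at hr
    by_cases m10 : m = 10
    · rw [if_pos m10] at hr; subst hr
      refine ev2_tau hF (decH_fll 0) (flp_autJ 0) ?_ ?_ ?_ ?_ (-1) ?_ _
      · intro h hh; unfold flp; rw [if_neg (by omega)]
      · simp [flp]
      · simp [flp]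
      · simp [flp]
      · simp [flp, sg, pt]
    rw [if_neg m10] at hr
    by_cases m11 : m = 11
    · rw [if_pos m11] at hr; subst hr
      refine ev2_tau' hF (decH_swl 10 11) (sw2_autJ 10 11 (by norm_num)) ?_ ?_ ?_ _
      · intro h hh; unfold sw2; rw [if_neg (by omega), if_neg (by omega)]
      · intro G
        have e1 : sw2 10 11 (10, true) = (11, true) := by simp [sw2]
        have e2 : sw2 10 11 (11, true) = (10, true) := by simp [sw2]
        have e3 : sw2 10 11 (12, true) = (12, true) := by simp [sw2]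
        rw [e1, e2, e3, alt3_12]
      · simp [sw2, sg]
    rw [if_neg m11] at hr
    by_cases m12 : m = 12
    · rw [if_pos m12] at hr; subst hr
      refine ev2_tau' hF (decH_swl 11 12) (sw2_autJ 11 12 (by norm_num)) ?_ ?_ ?_ _
      · intro h hh; unfold sw2; rw [if_neg (by omega), if_neg (by omega)]
      · intro G
        have e1 : sw2 11 12 (10, true) = (10, true) := by simp [sw2]
        have e2 : sw2 11 12 (11, true) = (12, true) := by simp [sw2]
        have e3 : sw2 11 12 (12, true) = (11, true) := by simp [sw2]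
        rw [e1, e2, e3, alt3_23]
      · simp [sw2, sg]
    rw [if_neg m12] at hr
    by_cases m13 : 13 ≤ m ∧ m ≤ 18
    · rw [if_pos m13] at hr; subst hr
      refine ev2_tau hF (decH_swl m (m + 1)) (sw2_autJ m (m + 1) (by omega)) ?_ ?_ ?_ ?_ 1 ?_ _
      · intro h hh; unfold sw2; rw [if_neg (by omega), if_neg (by omega)]
      · unfold sw2; rw [if_neg (by simp only; omega), if_neg (by simp only; omega)]
      · unfold sw2; rw [if_neg (by simp only; omega), if_neg (by simp only; omega)]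
      · unfold sw2; rw [if_neg (by simp only; omega), if_neg (by simp only; omega)]
      · have e0 : sw2 m (m + 1) (0, false) = (0, false) := by
          unfold sw2; rw [if_neg (by simp only; omega), if_neg (by simp only; omega)]
        have e1 : sw2 m (m + 1) (1, false) = (1, false) := by
          unfold sw2; rw [if_neg (by simp only; omega), if_neg (by simp only; omega)]
        rw [e0, e1]; simp [sg]
    rw [if_neg m13] at hr
    by_cases m20 : 20 ≤ m ∧ m ≤ 26
    · rw [if_pos m20] at hr; subst hr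
      refine ev2_tau hF (decH_fll (m - 7)) (flp_autJ (m - 7)) ?_ ?_ ?_ ?_ 1 ?_ _
      · intro h hh; unfold flp; rw [if_neg (by omega)]
      · unfold flp; rw [if_neg (by simp only; omega)]
      · unfold flp; rw [if_neg (by simp only; omega)]
      · unfold flp; rw [if_neg (by simp only; omega)]
      · have e0 : flp (m - 7) (0, false) = (0, false) := by
          unfold flp; rw [if_neg (by simp only; omega)]
        have e1 : flp (m - 7) (1, false) = (1, false) := by
          unfold flp; rw [if_neg (by simp only; omega)]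
        rw [e0, e1]; simp [sg]
    rw [if_neg m20] at hr
    subst hr
    simp
  | [], hr => subst hr; simp [mv]
  | [_], hr => subst hr; simp [mv]
  | [_, _], hr => subst hr; simp [mv]
  | [_, _, _], hr => subst hr; simp [mv]
  | [_, _, _, _], hr => subst hr; simp [mv]
  | [_, _, _, _, _], hr => subst hr; simp [mv]
  | [_, _, _, _, _, _], hr => subst hr; simp [mv]
  | [_, _, _, _, _, _, _], hr => subst hr; simp [mv]
  | [_, _, _, _, _, _, _, _], hr => subst hr; simp [mv]
  | [_, _, _, _, _, _, _, _, _], hr => subst hr; simp [mv]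
  | [_, _, _, _, _, _, _, _, _, _], hr => subst hr; simp [mv]
  | [_, _, _, _, _, _, _, _, _, _, _], hr => subst hr; simp [mv]
  | [_, _, _, _, _, _, _, _, _, _, _, _], hr => subst hr; simp [mv]
  | _ :: _ :: _ :: _ :: _ :: _ :: _ :: _ :: _ :: _ :: _ :: _ :: _ :: _ :: _, hr => subst hr; simp [mv]

theorem mv_sound (hF : GoodJ F) (m : ℕ) (t : List ℕ) :
    ev2 F t = ((mv m t).1 : ℚ) * ev2 F (mv m t).2 := mv_sound' hF m t _ rfl

/-! ### relation instances -/

structure I2 where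
  typ : ℕ
  c : ℤ
  d : List ℕ

def ok38 (d : List ℕ) : Bool := d.all (fun c => decide (c < 38))

def cycT (c : ℤ) (d : List ℕ) : List (ℤ × List ℕ) :=
  match d with
  | [l0, l1, l2, l3, l4, p2, a2, b2, c2, d2, y1, y2, y3] =>
    [(c, [l0, l1, l2, l3, l4, p2, a2, b2, c2, d2, y1, y2, y3]),
     (-c, [l1, l0, l2, l3, l4, p2, a2, b2, c2, d2, y1, y2, y3]),
     (c, [l2, l0, l1, l3, l4, p2, a2, b2, c2, d2, y1, y2, y3]),
     (-c, [l3, l0, l1, l2, l4, p2, a2, b2, c2, d2, y1, y2, y3]),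
     (c, [l4, l0, l1, l2, l3, p2, a2, b2, c2, d2, y1, y2, y3])]
  | _ => []

def invT (m : ℤ) (l : List ℕ) : List (ℤ × List ℕ) :=
  match l with
  | [p, a, b, c, d, z, p2, a2, b2, c2, d2] =>
    [(m, [38, a, b, c, d, p2, a2, b2, c2, d2, z, p, 39]),
     (m, [p, 38, b, c, d, p2, a2, b2, c2, d2, z, a, 39]),
     (m, [p, a, 38, c, d, p2, a2, b2, c2, d2, z, b, 39]),
     (m, [p, a, b, 38, d, p2, a2, b2, c2, d2, z, c, 39]),
     (m, [p, a, b, c, 38, p2, a2, b2, c2, d2, z, d, 39])]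
  | _ => []

def TT (m : ℤ) (l : List ℕ) : List (ℤ × List ℕ) :=
  match l with
  | [a, b, c, d, e, f, p2, a2, b2, c2, d2] =>
    [(m, [38, c, d, e, f, p2, a2, b2, c2, d2, a, b, 39]),
     (m, [38, a, d, e, f, p2, a2, b2, c2, d2, b, c, 39]),
     (m, [38, b, d, e, f, p2, a2, b2, c2, d2, c, a, 39]),
     (-m, [38, f, a, b, c, p2, a2, b2, c2, d2, d, e, 39]),
     (-m, [38, d, a, b, c, p2, a2, b2, c2, d2, e, f, 39]),
     (-m, [38, e, a, b, c, p2, a2, b2, c2, d2, f, d, 39])]
  | _ => []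

def bkT (m : ℤ) (l : List ℕ) : List (ℤ × List ℕ) :=
  match l with
  | [p1, a1, b1, c1, d1, p2, a2, b2, c2, d2, y1, y2, y3] =>
    if y1 < 4 ∧ y2 = pc y1 then [(m, [p1, a1, b1, c1, d1, p2, a2, b2, c2, d2, y1, y2, y3])] else []
  | _ => []

def I2.terms (i : I2) : List (ℤ × List ℕ) :=
  if i.typ = 0 ∧ ok38 i.d = true then cycT i.c i.d
  else if i.typ = 1 ∧ ok38 i.d = true then invT i.c i.d
  else if i.typ = 2 ∧ ok38 i.d = true then TT i.c i.d
  else if i.typ = 3 then bkT i.c i.d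
  else if i.typ = 4 then [(i.c, i.d), (-i.c, i.d)]
  else []

noncomputable def sv (F : List H → ℚ) (L : List (ℤ × List ℕ)) : ℚ :=
  (L.map (fun t => (t.1 : ℚ) * ev2 F t.2)).sum

theorem sv_nil : sv F [] = 0 := rfl
theorem sv_cons (t : ℤ × List ℕ) (L : List (ℤ × List ℕ)) :
    sv F (t :: L) = (t.1 : ℚ) * ev2 F t.2 + sv F L := by
  simp [sv]
theorem sv_append (L M : List (ℤ × List ℕ)) : sv F (L ++ M) = sv F L + sv F M := by
  simp [sv]

theorem Fr_decH {c : ℕ} (h : c < 38) : Fr (decH c) := by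
  unfold Fr decH; simp only; omega

theorem Fr_lt {h : H} (hh : h.1 < 19) : Fr h := by unfold Fr; omega

theorem Fr_thn40 {a b c d p : H} (ha : Fr a) (hb : Fr b) (hc : Fr c) (hd : Fr d) (hp : Fr p) :
    ∀ h ∈ fl (thn 40 a b c d p), Fr h := by
  intro h hh
  rw [mem_fl] at hh
  obtain ⟨r, hr, hr2⟩ := hh
  unfold thn at hr
  simp only [Multiset.mem_coe, List.mem_cons, List.not_mem_nil, or_false] at hr
  rcases hr with rfl | rfl | rfl | rfl | rfl | rfl | rfl <;>
    simp only [List.mem_cons, List.not_mem_nil, or_false] at hr2 <;>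
    rcases hr2 with rfl | rfl | rfl <;>
    first
      | assumption
      | (unfold Fr; simp)

theorem Fr_V {a b c d p y1 y2 y3 : H} (ha : Fr a) (hb : Fr b) (hc : Fr c) (hd : Fr d) (hp : Fr p)
    (h1 : Fr y1) (h2 : Fr y2) (h3 : Fr y3) :
    ∀ h ∈ fl ([y1, y2, y3] ::ₘ thn 40 a b c d p), Fr h := by
  intro h hh
  rw [fl_cons, Multiset.mem_add] at hh
  rcases hh with hh | hh
  · simp only [Multiset.mem_coe, List.mem_cons, List.not_mem_nil, or_false] at hh
    rcases hh with rfl | rfl | rfl <;> assumption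
  · exact Fr_thn40 ha hb hc hd hp h hh

theorem KK_cyc (hF : GoodC F) {w : List H} {a b c d e p2 a2 b2 c2 d2 y1 y2 y3 : H}
    (hw : ∀ h ∈ w, Fr h) (ha : Fr a) (hb : Fr b) (hc : Fr c) (hd : Fr d) (he : Fr e)
    (h1 : Fr p2) (h2 : Fr a2) (h3 : Fr b2) (h4 : Fr c2) (h5 : Fr d2) (h6 : Fr y1) (h7 : Fr y2)
    (h8 : Fr y3) :
    KK F w a b c d e p2 a2 b2 c2 d2 y1 y2 y3 - KK F w b a c d e p2 a2 b2 c2 d2 y1 y2 y3
    + KK F w c a b d e p2 a2 b2 c2 d2 y1 y2 y3 - KK F w d a b c e p2 a2 b2 c2 d2 y1 y2 y3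
    + KK F w e a b c d p2 a2 b2 c2 d2 y1 y2 y3 = 0 := by
  unfold KK
  rw [← alt4_sub, ← alt4_add, ← alt4_sub, ← alt4_add, ← alt4_zero a2 b2 c2 d2]
  refine alt4_congr' (P := Fr) h2 h3 h4 h5 ?_
  intro a' b' c' d' ha' hb' hc' hd'
  exact K_cyc hF hw (Fr_V ha' hb' hc' hd' h1 h6 h7 h8) (by
    simp only [List.mem_cons, List.not_mem_nil, or_false, forall_eq_or_imp, forall_eq]
    exact ⟨ha, hb, hc, hd, he⟩)

theorem KK_inv (hF : GoodC F) {w : List H} {p a b c d z p2 a2 b2 c2 d2 : H}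
    (hw : ∀ h ∈ w, Fr h) (hp : Fr p) (ha : Fr a) (hb : Fr b) (hc : Fr c) (hd : Fr d) (hz : Fr z)
    (h1 : Fr p2) (h2 : Fr a2) (h3 : Fr b2) (h4 : Fr c2) (h5 : Fr d2) :
    KK F w (19, false) a b c d p2 a2 b2 c2 d2 z p (19, true)
    + KK F w p (19, false) b c d p2 a2 b2 c2 d2 z a (19, true)
    + KK F w p a (19, false) c d p2 a2 b2 c2 d2 z b (19, true)
    + KK F w p a b (19, false) d p2 a2 b2 c2 d2 z c (19, true)
    + KK F w p a b c (19, false) p2 a2 b2 c2 d2 z d (19, true) = 0 := by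
  unfold KK
  rw [← alt4_add, ← alt4_add, ← alt4_add, ← alt4_add, ← alt4_zero a2 b2 c2 d2]
  refine alt4_congr' (P := Fr) h2 h3 h4 h5 ?_
  intro a' b' c' d' ha' hb' hc' hd'
  exact K_inv hF hw (Fr_thn40 ha' hb' hc' hd' h1) (by
    simp only [List.mem_cons, List.not_mem_nil, or_false, forall_eq_or_imp, forall_eq]
    exact ⟨ha, hb, hc, hd, hp, hz⟩)

theorem KK_T (hF : GoodC F) {w : List H} {a b c d e f p2 a2 b2 c2 d2 : H}
    (hw : ∀ h ∈ w, Fr h) (ha : Fr a) (hb : Fr b) (hc : Fr c) (hd : Fr d) (he : Fr e) (hf : Fr f)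
    (h1 : Fr p2) (h2 : Fr a2) (h3 : Fr b2) (h4 : Fr c2) (h5 : Fr d2) :
    KK F w (19, false) c d e f p2 a2 b2 c2 d2 a b (19, true)
    + KK F w (19, false) a d e f p2 a2 b2 c2 d2 b c (19, true)
    + KK F w (19, false) b d e f p2 a2 b2 c2 d2 c a (19, true)
    - KK F w (19, false) f a b c p2 a2 b2 c2 d2 d e (19, true)
    - KK F w (19, false) d a b c p2 a2 b2 c2 d2 e f (19, true)
    - KK F w (19, false) e a b c p2 a2 b2 c2 d2 f d (19, true) = 0 := by
  unfold KK
  rw [← alt4_add, ← alt4_add, ← alt4_sub, ← alt4_sub, ← alt4_sub, ← alt4_zero a2 b2 c2 d2]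
  refine alt4_congr' (P := Fr) h2 h3 h4 h5 ?_
  intro a' b' c' d' ha' hb' hc' hd'
  exact K_T hF hw (Fr_thn40 ha' hb' hc' hd' h1) (by
    simp only [List.mem_cons, List.not_mem_nil, or_false, forall_eq_or_imp, forall_eq]
    exact ⟨ha, hb, hc, hd, he, hf⟩)

theorem KK_bk (hF : GoodJ F) {w : List H} {p1 a1 b1 c1 d1 p2 a2 b2 c2 d2 y1 y3 : H}
    (h : y1.1 < 2) : KK F w p1 a1 b1 c1 d1 p2 a2 b2 c2 d2 y1 (pt y1) y3 = 0 := by
  unfold KK Kv
  rw [← alt4_zero a2 b2 c2 d2]
  congr 1; funext a b c d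
  rw [← alt4_zero a1 b1 c1 d1]
  congr 1; funext a' b' c' d'
  rw [Multiset.add_cons, fh_bk hF h]

theorem alt3_zero' {f : H → H → H → ℚ} {P : H → Prop} {a b c : H} (ha : P a) (hb : P b) (hc : P c)
    (h : ∀ a b c, P a → P b → P c → f a b c = 0) : alt3 f a b c = 0 := by
  rw [← alt3_zero a b c]
  exact alt3_congr' (P := P) ha hb hc h

theorem I2_zero (hF : GoodJ F) (i : I2) : sv F i.terms = 0 := by
  unfold I2.terms
  by_cases h0 : i.typ = 0 ∧ ok38 i.d = true
  · rw [if_pos h0]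
    have h := h0.2
    unfold cycT
    split
    · rename_i l0 l1 l2 l3 l4 p2 a2 b2 c2 d2 y1 y2 y3 hd
      rw [hd] at h
      simp only [ok38, List.all_cons, List.all_nil, Bool.and_true, Bool.and_eq_true,
        decide_eq_true_eq] at h
      obtain ⟨e0, e1, e2, e3, e4, e5, e6, e7, e8, e9, e10, e11, e12⟩ := h
      rw [sv_cons, sv_cons, sv_cons, sv_cons, sv_cons, sv_nil]
      simp only [ev2]
      unfold EE
      have key : alt3 (fun u v w =>
          KK F [u, v, w] (decH l0) (decH l1) (decH l2) (decH l3) (decH l4) (decH p2) (decH a2)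
            (decH b2) (decH c2) (decH d2) (decH y1) (decH y2) (decH y3)
          - KK F [u, v, w] (decH l1) (decH l0) (decH l2) (decH l3) (decH l4) (decH p2) (decH a2)
            (decH b2) (decH c2) (decH d2) (decH y1) (decH y2) (decH y3)
          + KK F [u, v, w] (decH l2) (decH l0) (decH l1) (decH l3) (decH l4) (decH p2) (decH a2)
            (decH b2) (decH c2) (decH d2) (decH y1) (decH y2) (decH y3)
          - KK F [u, v, w] (decH l3) (decH l0) (decH l1) (decH l2) (decH l4) (decH p2) (decH a2)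
            (decH b2) (decH c2) (decH d2) (decH y1) (decH y2) (decH y3)
          + KK F [u, v, w] (decH l4) (decH l0) (decH l1) (decH l2) (decH l3) (decH p2) (decH a2)
            (decH b2) (decH c2) (decH d2) (decH y1) (decH y2) (decH y3))
          (10, true) (11, true) (12, true) = 0 := by
        refine alt3_zero' (P := Fr) (Fr_lt (by norm_num)) (Fr_lt (by norm_num))
          (Fr_lt (by norm_num)) ?_
        intro u v w hu hv hw
        exact KK_cyc hF.good (by simp [hu, hv, hw]) (Fr_decH e0) (Fr_decH e1) (Fr_decH e2)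
          (Fr_decH e3) (Fr_decH e4) (Fr_decH e5) (Fr_decH e6) (Fr_decH e7) (Fr_decH e8)
          (Fr_decH e9) (Fr_decH e10) (Fr_decH e11) (Fr_decH e12)
      rw [alt3_add, alt3_sub, alt3_add, alt3_sub] at key
      push_cast
      linear_combination (i.c : ℚ) * key
    · rfl
  rw [if_neg h0]
  by_cases h1 : i.typ = 1 ∧ ok38 i.d = true
  · rw [if_pos h1]
    have h := h1.2
    unfold invT
    split
    · rename_i p a b c d z p2 a2 b2 c2 d2 hd
      rw [hd] at h
      simp only [ok38, List.all_cons, List.all_nil, Bool.and_true, Bool.and_eq_true,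
        decide_eq_true_eq] at h
      obtain ⟨e0, e1, e2, e3, e4, e5, e6, e7, e8, e9, e10⟩ := h
      rw [sv_cons, sv_cons, sv_cons, sv_cons, sv_cons, sv_nil]
      simp only [ev2]
      have d38 : decH 38 = (19, false) := rfl
      have d39 : decH 39 = (19, true) := rfl
      rw [d38, d39]
      unfold EE
      have key : alt3 (fun u v w =>
          KK F [u, v, w] (19, false) (decH a) (decH b) (decH c) (decH d) (decH p2) (decH a2)
            (decH b2) (decH c2) (decH d2) (decH z) (decH p) (19, true)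
          + KK F [u, v, w] (decH p) (19, false) (decH b) (decH c) (decH d) (decH p2) (decH a2)
            (decH b2) (decH c2) (decH d2) (decH z) (decH a) (19, true)
          + KK F [u, v, w] (decH p) (decH a) (19, false) (decH c) (decH d) (decH p2) (decH a2)
            (decH b2) (decH c2) (decH d2) (decH z) (decH b) (19, true)
          + KK F [u, v, w] (decH p) (decH a) (decH b) (19, false) (decH d) (decH p2) (decH a2)
            (decH b2) (decH c2) (decH d2) (decH z) (decH c) (19, true)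
          + KK F [u, v, w] (decH p) (decH a) (decH b) (decH c) (19, false) (decH p2) (decH a2)
            (decH b2) (decH c2) (decH d2) (decH z) (decH d) (19, true))
          (10, true) (11, true) (12, true) = 0 := by
        refine alt3_zero' (P := Fr) (Fr_lt (by norm_num)) (Fr_lt (by norm_num))
          (Fr_lt (by norm_num)) ?_
        intro u v w hu hv hw
        exact KK_inv hF.good (by simp [hu, hv, hw]) (Fr_decH e0) (Fr_decH e1) (Fr_decH e2)
          (Fr_decH e3) (Fr_decH e4) (Fr_decH e5) (Fr_decH e6) (Fr_decH e7) (Fr_decH e8)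
          (Fr_decH e9) (Fr_decH e10)
      rw [alt3_add, alt3_add, alt3_add, alt3_add] at key
      linear_combination (i.c : ℚ) * key
    · rfl
  rw [if_neg h1]
  by_cases h2 : i.typ = 2 ∧ ok38 i.d = true
  · rw [if_pos h2]
    have h := h2.2
    unfold TT
    split
    · rename_i a b c d e f p2 a2 b2 c2 d2 hd
      rw [hd] at h
      simp only [ok38, List.all_cons, List.all_nil, Bool.and_true, Bool.and_eq_true,
        decide_eq_true_eq] at h
      obtain ⟨e0, e1, e2, e3, e4, e5, e6, e7, e8, e9, e10⟩ := h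
      rw [sv_cons, sv_cons, sv_cons, sv_cons, sv_cons, sv_cons, sv_nil]
      simp only [ev2]
      have d38 : decH 38 = (19, false) := rfl
      have d39 : decH 39 = (19, true) := rfl
      rw [d38, d39]
      unfold EE
      have key : alt3 (fun u v w =>
          KK F [u, v, w] (19, false) (decH c) (decH d) (decH e) (decH f) (decH p2) (decH a2)
            (decH b2) (decH c2) (decH d2) (decH a) (decH b) (19, true)
          + KK F [u, v, w] (19, false) (decH a) (decH d) (decH e) (decH f) (decH p2) (decH a2)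
            (decH b2) (decH c2) (decH d2) (decH b) (decH c) (19, true)
          + KK F [u, v, w] (19, false) (decH b) (decH d) (decH e) (decH f) (decH p2) (decH a2)
            (decH b2) (decH c2) (decH d2) (decH c) (decH a) (19, true)
          - KK F [u, v, w] (19, false) (decH f) (decH a) (decH b) (decH c) (decH p2) (decH a2)
            (decH b2) (decH c2) (decH d2) (decH d) (decH e) (19, true)
          - KK F [u, v, w] (19, false) (decH d) (decH a) (decH b) (decH c) (decH p2) (decH a2)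
            (decH b2) (decH c2) (decH d2) (decH e) (decH f) (19, true)
          - KK F [u, v, w] (19, false) (decH e) (decH a) (decH b) (decH c) (decH p2) (decH a2)
            (decH b2) (decH c2) (decH d2) (decH f) (decH d) (19, true))
          (10, true) (11, true) (12, true) = 0 := by
        refine alt3_zero' (P := Fr) (Fr_lt (by norm_num)) (Fr_lt (by norm_num))
          (Fr_lt (by norm_num)) ?_
        intro u v w hu hv hw
        exact KK_T hF.good (by simp [hu, hv, hw]) (Fr_decH e0) (Fr_decH e1) (Fr_decH e2)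
          (Fr_decH e3) (Fr_decH e4) (Fr_decH e5) (Fr_decH e6) (Fr_decH e7) (Fr_decH e8)
          (Fr_decH e9) (Fr_decH e10)
      rw [alt3_sub, alt3_sub, alt3_sub, alt3_add, alt3_add] at key
      push_cast
      linear_combination (i.c : ℚ) * key
    · rfl
  rw [if_neg h2]
  by_cases h3 : i.typ = 3
  · rw [if_pos h3]
    unfold bkT
    split
    · rename_i p1 a1 b1 c1 d1 p2 a2 b2 c2 d2 y1 y2 y3 hd
      by_cases hy : y1 < 4 ∧ y2 = pc y1
      · rw [if_pos hy, sv_cons, sv_nil]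
        obtain ⟨hy1, rfl⟩ := hy
        simp only [ev2]
        rw [decH_pc]
        unfold EE
        have : (decH y1).1 < 2 := by unfold decH; simp only; omega
        have e : (fun u v w : H => KK F [u, v, w] (decH p1) (decH a1) (decH b1) (decH c1) (decH d1)
            (decH p2) (decH a2) (decH b2) (decH c2) (decH d2) (decH y1) (pt (decH y1)) (decH y3))
            = fun _ _ _ => 0 := by
          funext u v w; exact KK_bk hF this
        rw [e, alt3_zero]; ring
      · rw [if_neg hy]; rfl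
    · rfl
  rw [if_neg h3]
  by_cases h4 : i.typ = 4
  · rw [if_pos h4, sv_cons, sv_cons, sv_nil]; push_cast; ring
  rw [if_neg h4]; rfl

def runM (s : ℤ) (t : List ℕ) : List ℕ → ℤ × List ℕ
  | [] => (s, t)
  | m :: ms => match mv m t with
    | (s', t') => runM (s * s') t' ms

theorem runM_sound (hF : GoodJ F) (ms : List ℕ) : ∀ (s : ℤ) (t : List ℕ),
    (s : ℚ) * ev2 F t = ((runM s t ms).1 : ℚ) * ev2 F (runM s t ms).2 := by
  induction ms with
  | nil => intro s t; rfl
  | cons m ms ih =>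
    intro s t
    show _ = ((runM (s * (mv m t).1) (mv m t).2 ms).1 : ℚ) * ev2 F (runM (s * (mv m t).1) (mv m t).2 ms).2
    rw [← ih, mv_sound hF m t]; push_cast; ring

def key2 (t : List ℕ) : ℕ := t.foldl (fun k c => k * 64 + c) 0

def run2 : Tr → List (ℤ × List ℕ) → List (List ℕ) → Bool
  | t, [], _ => t.allZ
  | _, _ :: _, [] => false
  | t, x :: L, ms :: M => match runM x.1 x.2 ms with
    | (s, u) => run2 (Tr.ins (key2 u) [u] s t) L M

noncomputable def ev2' (F : List H → ℚ) (N : List (List ℕ)) : ℚ := ev2 F (N.headD [])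

theorem run2_sound (hF : GoodJ F) (L : List (ℤ × List ℕ)) :
    ∀ (t : Tr) (M : List (List ℕ)), run2 t L M = true → t.ev (ev2' F) + sv F L = 0 := by
  induction L with
  | nil => intro t M h; rw [sv_nil, add_zero]; exact t.ev_allZ _ (by simpa [run2] using h)
  | cons x L ih =>
    intro t M h
    match M with
    | [] => simp [run2] at h
    | ms :: M =>
      have h' : run2 (Tr.ins (key2 (runM x.1 x.2 ms).2) [(runM x.1 x.2 ms).2] (runM x.1 x.2 ms).1 t) L M
          = true := h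
      have := ih _ M h'
      rw [sv_cons, ← this, Tr.ins_ev]
      have e := runM_sound hF ms x.1 x.2
      have e2 : ev2' F [(runM x.1 x.2 ms).2] = ev2 F (runM x.1 x.2 ms).2 := rfl
      rw [e2, ← e]; ring

theorem check2 (hF : GoodJ F) (T : List (ℤ × List ℕ)) (I : List I2) (M : List (List ℕ))
    (h : run2 Tr.nil (T ++ I.flatMap I2.terms) M = true) : sv F T = 0 := by
  have := run2_sound hF (T ++ I.flatMap I2.terms) Tr.nil M h
  rw [sv_append] at this
  have e : ∀ I : List I2, sv F (I.flatMap I2.terms) = 0 := by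
    intro I
    induction I with
    | nil => rfl
    | cons i I ih => rw [List.flatMap_cons, sv_append, I2_zero hF, ih, add_zero]
  rw [e] at this
  simpa [Tr.ev] using this

end CA247
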