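import Pool.Agent.CA247.Defs

set_option autoImplicit false

namespace CA247

@[simp] theorem pt_pt (h : H) : pt (pt h) = h := by simp [pt]
@[simp] theorem pt_fst (h : H) : (pt h).1 = h.1 := rfl
theorem pt_ne (h : H) : pt h ≠ h := by
  intro e; have := congrArg Prod.snd e; simp [pt] at this
theorem ne_pt (h : H) : h ≠ pt h := fun e => pt_ne h e.symm
theorem pt_inj {a b : H} : pt a = pt b ↔ a = b :=
  ⟨fun e => by simpa using congrArg pt e, fun e => by rw [e]⟩
theorem pt_eq_iff {a b : H} : pt a = b ↔ a = pt b :=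
  ⟨fun e => by rw [← e]; simp, fun e => by rw [e]; simp⟩

/-- Substitute the letter `h` by the word `l`. -/
def sub (h : H) (l : List H) (w : List H) : List H :=
  w.flatMap (fun k => if k = h then l else [k])

theorem sub_nil (h : H) (l : List H) : sub h l [] = [] := rfl
theorem sub_cons (h : H) (l : List H) (k : H) (w : List H) :
    sub h l (k :: w) = (if k = h then l else [k]) ++ sub h l w := by
  simp [sub]
theorem sub_append (h : H) (l u v : List H) :
    sub h l (u ++ v) = sub h l u ++ sub h l v := by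
  simp [sub]
theorem sub_of_not_mem {h : H} {l w : List H} (hw : h ∉ w) : sub h l w = w := by
  induction w with
  | nil => rfl
  | cons k w ih =>
    simp only [List.mem_cons, not_or] at hw
    rw [sub_cons, if_neg (fun e => hw.1 e.symm), ih hw.2]; rfl

theorem sub_split {h : H} {l u v : List H} (hu : h ∉ u) (hv : h ∉ v) :
    sub h l (u ++ h :: v) = u ++ l ++ v := by
  rw [sub_append, sub_cons, if_pos rfl, sub_of_not_mem hu, sub_of_not_mem hv]
  simp

theorem exists_split {h : H} {w : List H} (hw : w.Nodup) (hm : h ∈ w) :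
    ∃ u v, w = u ++ h :: v ∧ h ∉ u ∧ h ∉ v := by
  obtain ⟨u, v, rfl⟩ := List.append_of_mem hm
  refine ⟨u, v, rfl, ?_, ?_⟩
  · intro hu
    have := (List.nodup_append.1 hw).2.2
    exact this h hu h (by simp) rfl
  · intro hv
    have := (List.nodup_append.1 hw).2.1
    rw [List.nodup_cons] at this
    exact this.1 hv

theorem sub_comm {h h0 : H} {l l0 : List H} (w : List H) (hne : h ≠ h0) (h1 : h ∉ l0)
    (h2 : h0 ∉ l) : sub h l (sub h0 l0 w) = sub h0 l0 (sub h l w) := by
  induction w with
  | nil => rfl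
  | cons k w ih =>
    rw [sub_cons, sub_cons, sub_append, sub_append, ih]
    congr 1
    by_cases hk : k = h
    · subst hk
      rw [if_neg hne, if_pos rfl, sub_of_not_mem h2, sub_cons, if_pos rfl, sub_nil, List.append_nil]
    · by_cases hk0 : k = h0
      · subst hk0
        rw [if_pos rfl, if_neg hk, sub_of_not_mem h1, sub_cons, if_pos rfl, sub_nil,
          List.append_nil]
      · rw [if_neg hk0, if_neg hk, sub_cons, if_neg hk, sub_cons, if_neg hk0, sub_nil, sub_nil]

theorem sub_map {τ : H → H} (hτ : Function.Injective τ) (h : H) (l w : List H) :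
    (sub h l w).map τ = sub (τ h) (l.map τ) (w.map τ) := by
  induction w with
  | nil => rfl
  | cons k w ih =>
    rw [sub_cons, List.map_append, ih, List.map_cons, sub_cons]
    congr 1
    by_cases hk : k = h
    · rw [if_pos hk, if_pos (by rw [hk])]
    · rw [if_neg hk, if_neg (fun e => hk (hτ e))]; rfl

theorem mem_sub {h k : H} {l w : List H} :
    k ∈ sub h l w ↔ (k ∈ w ∧ k ≠ h) ∨ (h ∈ w ∧ k ∈ l) := by
  induction w with
  | nil => simp [sub_nil]
  | cons a w ih =>
    rw [sub_cons, List.mem_append, ih]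
    by_cases ha : a = h
    · subst ha
      rw [if_pos rfl]
      simp only [List.mem_cons, true_or, true_and]
      constructor
      · rintro (hk | ⟨hk, hk2⟩ | ⟨_, hk⟩)
        · exact Or.inr hk
        · exact Or.inl ⟨Or.inr hk, hk2⟩
        · exact Or.inr hk
      · rintro (⟨hk | hk, hk2⟩ | hk)
        · exact absurd hk hk2
        · exact Or.inr (Or.inl ⟨hk, hk2⟩)
        · exact Or.inl hk
    · rw [if_neg ha]
      rw [List.mem_singleton, List.mem_cons, List.mem_cons]
      constructor
      · rintro (hk | ⟨hk, hk2⟩ | ⟨hk1, hk⟩)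
        · exact Or.inl ⟨Or.inl hk, by rw [hk]; exact ha⟩
        · exact Or.inl ⟨Or.inr hk, hk2⟩
        · exact Or.inr ⟨Or.inr hk1, hk⟩
      · rintro (⟨hk | hk, hk2⟩ | ⟨hk1 | hk1, hk⟩)
        · exact Or.inl hk
        · exact Or.inr (Or.inl ⟨hk, hk2⟩)
        · exact absurd hk1.symm ha
        · exact Or.inr (Or.inr ⟨hk1, hk⟩)

/-- Flattened content of a family of vertices. -/
def fl (V : Multiset (List H)) : Multiset H := (V.map (fun l : List H => (l : Multiset H))).sum

@[simp] theorem fl_zero : fl 0 = 0 := rfl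
@[simp] theorem fl_cons (l : List H) (V : Multiset (List H)) : fl (l ::ₘ V) = (l : Multiset H) + fl V := by
  simp [fl]
@[simp] theorem fl_add (V W : Multiset (List H)) : fl (V + W) = fl V + fl W := by
  simp [fl]

theorem fl_map (τ : H → H) (V : Multiset (List H)) : fl (V.map (List.map τ)) = (fl V).map τ := by
  induction V using Multiset.induction_on with
  | empty => rfl
  | cons a V ih => simp [ih]

/-- All half-edges of the state are distinct. -/
def Nod (w : List H) (V : Multiset (List H)) : Prop := ((w : Multiset H) + fl V).Nodup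

structure St where
  h : H
  x : H
  y : H
  V' : Multiset (List H)

/-- Rotations. -/
def IsRot (r : List H) (a b c : H) : Prop := r = [a, b, c] ∨ r = [c, a, b] ∨ r = [b, c, a]

theorem IsRot.coe {r : List H} {a b c : H} (h : IsRot r a b c) :
    (r : Multiset H) = {a} + {b} + {c} := by
  rcases h with rfl | rfl | rfl
  · rfl
  · show (([c, a, b] : List H) : Multiset H) = (([a, b, c] : List H) : Multiset H)
    rw [Multiset.coe_eq_coe]
    exact (List.perm_append_comm (l₁ := [c]) (l₂ := [a, b]))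
  · show (([b, c, a] : List H) : Multiset H) = (([a, b, c] : List H) : Multiset H)
    rw [Multiset.coe_eq_coe]
    exact (List.perm_append_comm (l₁ := [b, c]) (l₂ := [a]))

theorem IsRot.map {r : List H} {a b c : H} (h : IsRot r a b c) (τ : H → H) :
    IsRot (r.map τ) (τ a) (τ b) (τ c) := by
  rcases h with rfl | rfl | rfl
  · exact Or.inl rfl
  · exact Or.inr (Or.inl rfl)
  · exact Or.inr (Or.inr rfl)

def IsStep (w : List H) (V : Multiset (List H)) (s : St) : Prop :=
  s.h ∈ w ∧ 2 ≤ s.h.1 ∧ ∃ r, IsRot r (pt s.h) s.x s.y ∧ V = r ::ₘ s.V'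

open Classical in
noncomputable def stepOf (w : List H) (V : Multiset (List H)) : Option St :=
  if h : ∃ s, IsStep w V s then some h.choose else none

theorem stepOf_some {w : List H} {V : Multiset (List H)} (h : ∃ s, IsStep w V s) :
    ∃ s, stepOf w V = some s ∧ IsStep w V s := by
  refine ⟨h.choose, ?_, h.choose_spec⟩
  unfold stepOf; rw [dif_pos h]

theorem stepOf_none {w : List H} {V : Multiset (List H)} (h : ¬ ∃ s, IsStep w V s) :
    stepOf w V = none := by
  unfold stepOf; rw [dif_neg h]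

/-- Resolution of floating vertices, evaluated with `F`. -/
noncomputable def fhn (F : List H → ℚ) : ℕ → List H → Multiset (List H) → ℚ
  | 0, w, V => if V.card = 0 then F w else 0
  | n + 1, w, V =>
    match stepOf w V with
    | none => 0
    | some s => fhn F n (sub s.h [s.x, s.y] w) s.V' - fhn F n (sub s.h [s.y, s.x] w) s.V'

/-- Automorphisms of the set of half-edges. -/
structure Aut (τ : H → H) : Prop where
  inj : Function.Injective τ
  pt : ∀ h, τ (pt h) = pt (τ h)
  plain : ∀ h : H, 2 ≤ h.1 → 2 ≤ (τ h).1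
  jj : ∀ h : H, h.1 < 2 → (τ h).1 < 2 ∧ (τ h).2 = h.2

structure GoodC (F : List H → ℚ) : Prop where
  rel : ∀ τ, Aut τ → ∀ w : List H, w.Nodup → F (w.map τ) = F w
  inv : ∀ (w : List H) (a x : H), w.Nodup → a ∈ w → pt a ∈ w → x ∉ w → 2 ≤ a.1 →
    F (sub a [x, a] w) - F (sub a [a, x] w) + F (sub (pt a) [x, pt a] w)
      - F (sub (pt a) [pt a, x] w) = 0

theorem coe_sub {h : H} {l w : List H} (hw : w.Nodup) (hm : h ∈ w) :
    (sub h l w : Multiset H) + {h} = (w : Multiset H) + (l : Multiset H) := by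
  obtain ⟨u, v, rfl, hu, hv⟩ := exists_split hw hm
  rw [sub_split hu hv]
  simp only [← Multiset.coe_add, ← Multiset.cons_coe, ← Multiset.singleton_add]
  abel

theorem Nod.wn {w : List H} {V : Multiset (List H)} (h : Nod w V) : w.Nodup := by
  have : (w : Multiset H).Nodup := Multiset.nodup_of_le (Multiset.le_add_right _ _) h
  simpa using this

theorem step_cont {w : List H} {V : Multiset (List H)} {s : St} (hN : Nod w V) (hs : IsStep w V s) :
    (w : Multiset H) + fl V = {s.h} + {pt s.h} + ((sub s.h [s.x, s.y] w : Multiset H) + fl s.V') := by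
  obtain ⟨hm, -, r, hr, rfl⟩ := hs
  have h1 := coe_sub (l := [s.x, s.y]) hN.wn hm
  rw [fl_cons, hr.coe]
  have h2 : (([s.x, s.y] : List H) : Multiset H) = {s.x} + {s.y} := rfl
  rw [h2] at h1
  calc (w : Multiset H) + ({pt s.h} + {s.x} + {s.y} + fl s.V')
      = ((w : Multiset H) + ({s.x} + {s.y})) + ({pt s.h} + fl s.V') := by abel
    _ = ((sub s.h [s.x, s.y] w : Multiset H) + {s.h}) + ({pt s.h} + fl s.V') := by rw [h1]
    _ = _ := by abel

theorem sub_swap_coe {h : H} {l l' w : List H} (hl : List.Perm l l') :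
    (sub h l w : Multiset H) = (sub h l' w : Multiset H) := by
  rw [Multiset.coe_eq_coe]
  induction w with
  | nil => exact List.Perm.refl _
  | cons k w ih =>
    rw [sub_cons, sub_cons]
    refine List.Perm.append ?_ ih
    split_ifs
    · exact hl
    · exact List.Perm.refl _

theorem step_nod {w : List H} {V : Multiset (List H)} {s : St} (hN : Nod w V) (hs : IsStep w V s) :
    Nod (sub s.h [s.x, s.y] w) s.V' ∧ Nod (sub s.h [s.y, s.x] w) s.V' := by
  have h := step_cont hN hs
  have h1 : Nod (sub s.h [s.x, s.y] w) s.V' := by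
    unfold Nod at hN ⊢
    rw [h] at hN
    exact Multiset.nodup_of_le (Multiset.le_add_left _ _) hN
  refine ⟨h1, ?_⟩
  unfold Nod at h1 ⊢
  rwa [sub_swap_coe (List.Perm.swap s.x s.y [])]

theorem mem_fl {V : Multiset (List H)} {k : H} : k ∈ fl V ↔ ∃ r ∈ V, k ∈ r := by
  induction V using Multiset.induction_on with
  | empty => simp
  | cons a V ih => simp [ih]

theorem Nod.disj {w : List H} {V : Multiset (List H)} (h : Nod w V) {k : H} (h1 : k ∈ w)
    (h2 : k ∈ fl V) : False := by
  unfold Nod at h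
  rw [Multiset.nodup_add] at h
  exact Multiset.disjoint_left.1 h.2.2 (by simpa using h1) h2

/-- label swapping automorphism sending `h0` to `k` (and `k` to `h0`). -/
def swp (h0 k : H) (z : H) : H :=
  if z = h0 then k else if z = pt h0 then pt k else
    if z = k then h0 else if z = pt k then pt h0 else z

theorem swp_aut {h0 k : H} (h1 : 2 ≤ h0.1) (h2 : 2 ≤ k.1) (hne : h0.1 ≠ k.1) : Aut (swp h0 k) := by
  have n1 : h0 ≠ k := fun e => hne (by rw [e])
  have n2 : h0 ≠ pt k := fun e => hne (by rw [e]; rfl)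
  have n3 : pt h0 ≠ k := fun e => hne (by rw [← e]; rfl)
  have n4 : pt h0 ≠ pt k := fun e => n1 (pt_inj.1 e)
  have e0 : ∀ z, swp h0 k (swp h0 k z) = z := by
    intro z
    unfold swp
    by_cases z1 : z = h0
    · subst z1; simp [n1.symm, n3.symm]
    by_cases z2 : z = pt h0
    · subst z2; simp [pt_ne, n2.symm, n4.symm, pt_inj, n1.symm]
    by_cases z3 : z = k
    · subst z3; simp [z1, z2]
    by_cases z4 : z = pt k
    · subst z4; simp [z1, z2, pt_ne]
    · simp [z1, z2, z3, z4]
  refine ⟨fun a b e => by rw [← e0 a, e, e0 b], ?_, ?_, ?_⟩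
  · intro z
    unfold swp
    by_cases z1 : z = h0
    · subst z1; simp [pt_ne]
    by_cases z2 : z = pt h0
    · subst z2; simp [pt_ne]
    have z1' : pt z ≠ pt h0 := fun e => z1 (pt_inj.1 e)
    have z2' : pt z ≠ h0 := fun e => z2 (by rw [← e]; simp)
    by_cases z3 : z = k
    · subst z3; simp [z1, z2, z1', z2', pt_ne]
    by_cases z4 : z = pt k
    · subst z4
      simp [z1, z2, pt_ne]
      simp at z1' z2'
      simp [z1', z2', n1.symm, Ne.symm n3]
    have z3' : pt z ≠ pt k := fun e => z3 (pt_inj.1 e)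
    have z4' : pt z ≠ k := fun e => z4 (by rw [← e]; simp)
    simp [z1, z2, z3, z4, z1', z2', z3', z4']
  · intro z hz
    unfold swp
    split_ifs <;> simp_all
  · intro z hz
    have z1 : z ≠ h0 := fun e => by rw [e] at hz; omega
    have z2 : z ≠ pt h0 := fun e => by rw [e] at hz; simp at hz; omega
    have z3 : z ≠ k := fun e => by rw [e] at hz; omega
    have z4 : z ≠ pt k := fun e => by rw [e] at hz; simp at hz; omega
    simp [swp, z1, z2, z3, z4, hz]


theorem sub_sub {h k : H} {l l' : List H} {w : List H} (hk : k ∉ w) :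
    sub k l (sub h l' w) = sub h (sub k l l') w := by
  induction w with
  | nil => rfl
  | cons a w ih =>
    simp only [List.mem_cons, not_or] at hk
    rw [sub_cons, sub_append, ih hk.2, sub_cons]
    congr 1
    by_cases ha : a = h
    · rw [if_pos ha, if_pos ha]
    · rw [if_neg ha, if_neg ha, sub_cons, if_neg (Ne.symm hk.1), sub_nil]; rfl

theorem sub_same (a : H) (l l' w : List H) : sub a l (sub a l' w) = sub a (sub a l l') w := by
  induction w with
  | nil => rfl
  | cons b w ih =>
    rw [sub_cons, sub_append, ih, sub_cons]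
    congr 1
    by_cases ha : b = a
    · rw [if_pos ha, if_pos ha]
    · rw [if_neg ha, if_neg ha, sub_cons, if_neg ha, sub_nil]; rfl

theorem sub_self (a : H) (w : List H) : sub a [a] w = w := by
  induction w with
  | nil => rfl
  | cons b w ih =>
    rw [sub_cons, ih]
    by_cases ha : b = a
    · rw [if_pos ha, ha]; rfl
    · rw [if_neg ha]; rfl

theorem flatMap_congr' {α β : Type*} {f g : α → List β} {w : List α} (h : ∀ a ∈ w, f a = g a) :
    w.flatMap f = w.flatMap g := by
  induction w with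
  | nil => rfl
  | cons a w ih =>
    rw [List.flatMap_cons, List.flatMap_cons, h a (by simp), ih (fun b hb => h b (by simp [hb]))]

theorem swp_fix {h0 k z : H} (h : z.1 ≠ h0.1) (h' : z.1 ≠ k.1) : swp h0 k z = z := by
  have z1 : z ≠ h0 := fun e => h (by rw [e])
  have z2 : z ≠ pt h0 := fun e => h (by rw [e]; rfl)
  have z3 : z ≠ k := fun e => h' (by rw [e])
  have z4 : z ≠ pt k := fun e => h' (by rw [e]; rfl)
  simp [swp, z1, z2, z3, z4]

theorem swp_fix' {h0 k z : H} (z1 : z ≠ h0) (z2 : z ≠ pt h0) (z3 : z ≠ k) (z4 : z ≠ pt k) :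
    swp h0 k z = z := by
  simp [swp, z1, z2, z3, z4]

theorem IsStep.map {w : List H} {V : Multiset (List H)} {s : St} (hs : IsStep w V s) {τ : H → H}
    (hτ : Aut τ) : IsStep (w.map τ) (V.map (List.map τ)) ⟨τ s.h, τ s.x, τ s.y, s.V'.map (List.map τ)⟩ := by
  obtain ⟨h1, h2, r, h3, h4⟩ := hs
  refine ⟨List.mem_map_of_mem h1, hτ.plain _ h2, r.map τ, ?_, ?_⟩
  · have := h3.map τ
    rwa [hτ.pt] at this
  · rw [h4, Multiset.map_cons]

theorem list_map_inj {τ : H → H} (hτ : Function.Injective τ) {r : List H} {a b c : H}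
    (h : r.map τ = [a, b, c]) : ∃ a' b' c', r = [a', b', c'] ∧ τ a' = a ∧ τ b' = b ∧ τ c' = c := by
  match r, h with
  | [a', b', c'], h =>
    simp only [List.map_cons, List.map_nil, List.cons.injEq, and_true] at h
    exact ⟨a', b', c', rfl, h.1, h.2.1, h.2.2⟩
  | [], h => simp at h
  | [_], h => simp at h
  | [_, _], h => simp at h
  | _ :: _ :: _ :: _ :: _, h => simp at h

theorem step_unmap {w : List H} {V : Multiset (List H)} {τ : H → H} (hτ : Aut τ)
    (hs : ∃ s, IsStep (w.map τ) (V.map (List.map τ)) s) : ∃ s, IsStep w V s := by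
  obtain ⟨⟨h, x, y, V'⟩, h1, h2, r, h3, h4⟩ := hs
  simp only at h1 h2 h3 h4
  obtain ⟨h', hh', rfl⟩ := List.mem_map.1 h1
  have hp : 2 ≤ h'.1 := by
    by_contra hc
    have := (hτ.jj h' (by omega)).1
    omega
  have h4' : r ∈ V.map (List.map τ) := by rw [h4]; simp
  obtain ⟨r', hr', rfl⟩ := Multiset.mem_map.1 h4'
  obtain ⟨W, hW⟩ := Multiset.exists_cons_of_mem hr'
  rw [← hτ.pt] at h3
  rcases h3 with h3 | h3 | h3
  · obtain ⟨a, b, c, rfl, ha, hb, hc⟩ := list_map_inj hτ.inj h3
    exact ⟨⟨h', b, c, W⟩, hh', hp, _, Or.inl (by rw [← hτ.inj ha]), hW⟩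
  · obtain ⟨a, b, c, rfl, ha, hb, hc⟩ := list_map_inj hτ.inj h3
    exact ⟨⟨h', c, a, W⟩, hh', hp, _, Or.inr (Or.inl (by rw [← hτ.inj hb])), hW⟩
  · obtain ⟨a, b, c, rfl, ha, hb, hc⟩ := list_map_inj hτ.inj h3
    exact ⟨⟨h', a, b, W⟩, hh', hp, _, Or.inr (Or.inr (by rw [← hτ.inj hc])), hW⟩

variable (F : List H → ℚ)

def RelP (n : ℕ) : Prop := ∀ (w : List H) (V : Multiset (List H)), V.card = n → Nod w V →
  ∀ τ, Aut τ → fhn F n (w.map τ) (V.map (List.map τ)) = fhn F n w V

def InvP (n : ℕ) : Prop := ∀ (w : List H) (V : Multiset (List H)) (a x : H), V.card = n →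
  Nod (x :: w) V → a ∈ w → pt a ∈ w → 2 ≤ a.1 →
  fhn F n (sub a [x, a] w) V - fhn F n (sub a [a, x] w) V + fhn F n (sub (pt a) [x, pt a] w) V
      - fhn F n (sub (pt a) [pt a, x] w) V = 0

def ResP (n : ℕ) : Prop := ∀ (w : List H) (V : Multiset (List H)), V.card = n + 1 → Nod w V →
  ∀ s, IsStep w V s → fhn F (n + 1) w V =
    fhn F n (sub s.h [s.x, s.y] w) s.V' - fhn F n (sub s.h [s.y, s.x] w) s.V'

theorem Nod.map {w : List H} {V : Multiset (List H)} (h : Nod w V) {τ : H → H}
    (hτ : Function.Injective τ) : Nod (w.map τ) (V.map (List.map τ)) := by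
  unfold Nod at *
  rw [fl_map, ← Multiset.map_coe, ← Multiset.map_add]
  exact h.map hτ

theorem fl_fix {V : Multiset (List H)} {τ : H → H} (h : ∀ k ∈ fl V, τ k = k) :
    V.map (List.map τ) = V := by
  have : ∀ r ∈ V, List.map τ r = id r := by
    intro r hr
    have : ∀ k ∈ r, τ k = id k := fun k hk => h k (mem_fl.2 ⟨r, hr, hk⟩)
    rw [List.map_congr_left this, List.map_id]; rfl
  rw [Multiset.map_congr rfl this, Multiset.map_id]

/-- Same vertex, resolved through two of its legs. -/
theorem rot_case {n : ℕ} (hRel : RelP F n) (hInv : InvP F n) {w : List H}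
    {V V' : Multiset (List H)} {h h0 y : H} {r : List H} (hc : V'.card = n) (hN : Nod w V)
    (hr : IsRot r (pt h) (pt h0) y) (hV : V = r ::ₘ V') (hh : h ∈ w) (hh0 : h0 ∈ w)
    (hp : 2 ≤ h.1) (hp0 : 2 ≤ h0.1) :
    fhn F n (sub h [pt h0, y] w) V' - fhn F n (sub h [y, pt h0] w) V'
      = fhn F n (sub h0 [y, pt h] w) V' - fhn F n (sub h0 [pt h, y] w) V' := by
  have hs : IsStep w V ⟨h, pt h0, y, V'⟩ := ⟨hh, hp, r, hr, hV⟩
  have hcont := step_cont hN hs
  simp only at hcont
  have hN' := hN
  unfold Nod at hN'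
  rw [hcont] at hN'
  have hmemr : ∀ k, k ∈ r ↔ k = pt h ∨ k = pt h0 ∨ k = y := by
    intro k
    have := hr.coe
    rw [← Multiset.mem_coe, this]
    simp [or_assoc]
  have hfl : ∀ k, k ∈ r → k ∈ fl V := fun k hk => by
    rw [hV, fl_cons]; simp [hk]
  have hph : pt h ∉ w := fun e => hN.disj e (hfl _ ((hmemr _).2 (Or.inl rfl)))
  have hph0 : pt h0 ∉ w := fun e => hN.disj e (hfl _ ((hmemr _).2 (Or.inr (Or.inl rfl))))
  have hyw : y ∉ w := fun e => hN.disj e (hfl _ ((hmemr _).2 (Or.inr (Or.inr rfl))))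
  have hrnd : r.Nodup := by
    have : (r : Multiset H).Nodup := by
      unfold Nod at hN
      rw [hV, fl_cons] at hN
      exact Multiset.nodup_of_le (le_trans (Multiset.le_add_right _ _) (Multiset.le_add_left _ _)) hN
    simpa using this
  have hne : ([pt h, pt h0, y] : List H).Nodup := by
    have : (([pt h, pt h0, y] : List H) : Multiset H).Nodup := by
      have h5 : (([pt h, pt h0, y] : List H) : Multiset H) = (r : Multiset H) := by
        rw [hr.coe]; rfl
      rw [h5]; simpa using hrnd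
    simpa using this
  have hhh0 : h ≠ h0 := by
    intro e; simp [e] at hne
  have hyph : y ≠ pt h := by
    intro e; simp [e] at hne
  have hyph0 : y ≠ pt h0 := by
    intro e; simp [e] at hne
  have hyh : y ≠ h := fun e => hyw (e ▸ hh)
  have hyh0 : y ≠ h0 := fun e => hyw (e ▸ hh0)
  have hh0h : h0.1 ≠ (pt h).1 := by
    intro e
    rcases Bool.eq_or_eq_not h0.2 h.2 with e2 | e2
    · exact hhh0 (Prod.ext e.symm e2.symm)
    · apply hph
      have : pt h = h0 := Prod.ext e.symm (by simp [pt, e2])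
      rw [this]; exact hh0
  -- the intermediate word
  have hw1 : ∀ l, sub (pt h0) l (sub h [pt h0] w) = sub h l w := by
    intro l
    rw [sub_sub hph0, sub_cons, if_pos rfl, sub_nil, List.append_nil]
  have hcoe : ((y :: sub h [pt h0] w : List H) : Multiset H) = (sub h [pt h0, y] w : Multiset H) := by
    obtain ⟨u, v, e, hu, hv⟩ := exists_split hN.wn hh
    rw [e, sub_split hu hv, sub_split hu hv]
    simp only [← Multiset.coe_add, ← Multiset.cons_coe, ← Multiset.singleton_add, Multiset.coe_nil]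
    abel
  have hN1 : Nod (y :: sub h [pt h0] w) V' := by
    unfold Nod
    rw [hcoe]
    exact (step_nod hN hs).1
  have hm1 : h0 ∈ sub h [pt h0] w := mem_sub.2 (Or.inl ⟨hh0, Ne.symm hhh0⟩)
  have hm2 : pt h0 ∈ sub h [pt h0] w := mem_sub.2 (Or.inr ⟨hh, by simp⟩)
  have key := hInv (sub h [pt h0] w) V' h0 y hc hN1 hm1 hm2 hp0
  rw [hw1, hw1] at key
  -- relabelling
  have hτ : Aut (swp h0 (pt h)) := swp_aut hp0 (by simpa using hp) hh0h
  have hVfix : V'.map (List.map (swp h0 (pt h))) = V' := by
    apply fl_fix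
    intro k hk
    have hkV : k ∈ fl V := by rw [hV, fl_cons]; simp [hk]
    have k1 : k ≠ h0 := fun e => hN.disj hh0 (e ▸ hkV)
    have k3 : k ≠ h := fun e => hN.disj hh (e ▸ hkV)
    have hdis : ∀ z, z ∈ r → k ≠ z := by
      intro z hz e
      unfold Nod at hN
      rw [hV, fl_cons] at hN
      have h6 := Multiset.nodup_of_le (Multiset.le_add_left _ _) hN
      rw [Multiset.nodup_add] at h6
      exact Multiset.disjoint_left.1 h6.2.2 (by simpa using hz) (e ▸ hk)
    have k2 : k ≠ pt h0 := hdis _ ((hmemr _).2 (Or.inr (Or.inl rfl)))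
    have k4 : k ≠ pt h := hdis _ ((hmemr _).2 (Or.inl rfl))
    exact swp_fix' k1 k2 k4 (by simpa using k3)
  have hwords : ∀ (p q : H), p ≠ h0 ∨ True → (∀ z, z = p ∨ z = q → z = y ∨ z = h0) →
      (sub h0 [p, q] (sub h [pt h0] w)).map (swp h0 (pt h))
        = sub h0 [swp h0 (pt h) p, swp h0 (pt h) q] w := by
    intro p q _ _
    unfold sub
    rw [List.flatMap_assoc, List.map_flatMap]
    apply flatMap_congr'
    intro a ha
    by_cases e1 : a = h
    · subst e1
      rw [if_pos rfl, if_neg hhh0]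
      simp only [List.flatMap_cons, List.flatMap_nil, List.append_nil]
      rw [if_neg (pt_ne h0)]
      have n0 : pt h0 ≠ h0 := pt_ne h0
      simp [swp, n0]
    · rw [if_neg e1]
      simp only [List.flatMap_cons, List.flatMap_nil, List.append_nil]
      by_cases e2 : a = h0
      · rw [if_pos e2, if_pos e2]; rfl
      · rw [if_neg e2, if_neg e2]
        have e3 : a ≠ pt h0 := fun e => hph0 (e ▸ ha)
        have e4 : a ≠ pt h := fun e => hph (e ▸ ha)
        simp [swp, e1, e2, e3, e4]
  have sy : swp h0 (pt h) y = y := swp_fix' hyh0 hyph0 hyph (by simpa using hyh)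
  have sh0 : swp h0 (pt h) h0 = pt h := by simp [swp]
  have hNa : ∀ l : List H, (l = [y, h0] ∨ l = [h0, y]) → Nod (sub h0 l (sub h [pt h0] w)) V' := by
    intro l hl
    have h7 : (sub h0 l (sub h [pt h0] w) : Multiset H) = ((y :: sub h [pt h0] w : List H) : Multiset H) := by
      have h8 := coe_sub (l := l) (w := sub h [pt h0] w) (h := h0)
        (by have := hN1.wn; exact (List.nodup_cons.1 this).2) hm1
      have h9 : ((l : List H) : Multiset H) = {y} + {h0} := by
        rcases hl with rfl | rfl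
        · rfl
        · rw [add_comm]; rfl
      rw [h9, ← add_assoc] at h8
      have h10 := add_right_cancel h8
      rw [h10, ← Multiset.cons_coe, ← Multiset.singleton_add, add_comm]
    unfold Nod at hN1 ⊢
    rw [h7]; exact hN1
  have e1 : fhn F n (sub h0 [y, h0] (sub h [pt h0] w)) V' = fhn F n (sub h0 [y, pt h] w) V' := by
    have := hRel _ V' hc (hNa _ (Or.inl rfl)) _ hτ
    rw [hVfix, hwords y h0 (Or.inr trivial) (by tauto), sy, sh0] at this
    exact this.symm
  have e2 : fhn F n (sub h0 [h0, y] (sub h [pt h0] w)) V' = fhn F n (sub h0 [pt h, y] w) V' := by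
    have := hRel _ V' hc (hNa _ (Or.inr rfl)) _ hτ
    rw [hVfix, hwords h0 y (Or.inr trivial) (by tauto), sy, sh0] at this
    exact this.symm
  rw [e1, e2] at key
  linarith



theorem nod_cons_of {w : List H} {V : Multiset (List H)} {x : H} (h : Nod (x :: w) V) :
    Nod w V ∧ x ∉ w ∧ x ∉ fl V := by
  unfold Nod at h
  rw [← Multiset.cons_coe, Multiset.cons_add, Multiset.nodup_cons] at h
  refine ⟨h.2, ?_, ?_⟩
  · intro e; exact h.1 (by simp [e])
  · intro e; exact h.1 (by simp [e])

theorem nod_congr {w w' : List H} {V V' : Multiset (List H)}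
    (h : (w : Multiset H) + fl V = (w' : Multiset H) + fl V') : Nod w V ↔ Nod w' V' := by
  unfold Nod; rw [h]

theorem coe_ins {a x : H} {w : List H} (hw : w.Nodup) (ha : a ∈ w) {l : List H}
    (hl : (l : Multiset H) = {x} + {a}) :
    (sub a l w : Multiset H) = ((x :: w : List H) : Multiset H) := by
  have h8 := coe_sub (l := l) hw ha
  rw [hl, ← add_assoc] at h8
  rw [add_right_cancel h8, ← Multiset.cons_coe, ← Multiset.singleton_add, add_comm]

/-- case of the same vertex, general rotation. -/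
theorem same_case {n : ℕ} (hRel : RelP F n) (hInv : InvP F n) {w : List H}
    {V V' : Multiset (List H)} {r : List H} (hc : V'.card = n) (hN : Nod w V)
    (hV : V = r ::ₘ V') {h x y h0 x0 y0 : H} (hr : IsRot r (pt h) x y) (hr0 : IsRot r (pt h0) x0 y0)
    (hh : h ∈ w) (hh0 : h0 ∈ w) (hp : 2 ≤ h.1) (hp0 : 2 ≤ h0.1) :
    fhn F n (sub h [x, y] w) V' - fhn F n (sub h [y, x] w) V'
      = fhn F n (sub h0 [x0, y0] w) V' - fhn F n (sub h0 [y0, x0] w) V' := by
  have key : (h = h0 ∧ x = x0 ∧ y = y0) ∨ (x = pt h0 ∧ y = x0 ∧ pt h = y0) ∨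
      (y = pt h0 ∧ pt h = x0 ∧ x = y0) := by
    rcases hr with rfl | rfl | rfl <;> rcases hr0 with e | e | e <;>
      simp only [List.cons.injEq, and_true] at e <;>
      obtain ⟨e1, e2, e3⟩ := e
    · exact Or.inl ⟨pt_inj.1 e1, e2, e3⟩
    · exact Or.inr (Or.inl ⟨e2, e3, e1⟩)
    · exact Or.inr (Or.inr ⟨e3, e1, e2⟩)
    · exact Or.inr (Or.inr ⟨e1, e2, e3⟩)
    · exact Or.inl ⟨pt_inj.1 e2, e3, e1⟩
    · exact Or.inr (Or.inl ⟨e3, e1, e2⟩)
    · exact Or.inr (Or.inl ⟨e1, e2, e3⟩)
    · exact Or.inr (Or.inr ⟨e2, e3, e1⟩)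
    · exact Or.inl ⟨pt_inj.1 e3, e1, e2⟩
  rcases key with ⟨rfl, rfl, rfl⟩ | ⟨rfl, rfl, rfl⟩ | ⟨rfl, rfl, rfl⟩
  · rfl
  · exact rot_case F hRel hInv hc hN hr hV hh hh0 hp hp0
  · exact (rot_case F hRel hInv hc hN hr0 hV hh0 hh hp0 hp).symm

theorem res_step {n : ℕ} (hRel : RelP F n) (hInv : InvP F n) (hRes : ∀ m, n = m + 1 → ResP F m) :
    ResP F n := by
  intro w V hcard hN s hs
  obtain ⟨s0, e0, hs0⟩ := stepOf_some ⟨s, hs⟩
  have hun : fhn F (n + 1) w V =
      fhn F n (sub s0.h [s0.x, s0.y] w) s0.V' - fhn F n (sub s0.h [s0.y, s0.x] w) s0.V' := by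
    show (match stepOf w V with
      | none => 0
      | some s => fhn F n (sub s.h [s.x, s.y] w) s.V' - fhn F n (sub s.h [s.y, s.x] w) s.V') = _
    rw [e0]
  rw [hun]
  have hs' := hs
  have hs0' := hs0
  obtain ⟨hh, hp, r, hr, hV⟩ := hs
  obtain ⟨hh0, hp0, r0, hr0, hV0⟩ := hs0
  obtain ⟨h, x, y, V'⟩ := s
  obtain ⟨h0, x0, y0, V0⟩ := s0
  simp only at hh hp hr hV hh0 hp0 hr0 hV0 ⊢
  rcases Multiset.cons_eq_cons.1 (hV.symm.trans hV0) with ⟨e1, e2⟩ | ⟨hne, W, e1, e2⟩
  · subst e1; subst e2
    have hc : V'.card = n := by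
      rw [hV, Multiset.card_cons] at hcard; omega
    exact (same_case F hRel hInv hc hN hV hr hr0 hh hh0 hp hp0).symm
  · have hc : W.card + 2 = n + 1 := by
      rw [hV, e1, Multiset.card_cons, Multiset.card_cons] at hcard; omega
    obtain ⟨m, rfl⟩ : ∃ m, n = m + 1 := ⟨W.card, by omega⟩
    have hR := hRes m rfl
    have memr : ∀ k, k ∈ r ↔ k = pt h ∨ k = x ∨ k = y := by
      intro k
      rw [← Multiset.mem_coe, hr.coe]; simp [or_assoc]
    have memr0 : ∀ k, k ∈ r0 ↔ k = pt h0 ∨ k = x0 ∨ k = y0 := by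
      intro k
      rw [← Multiset.mem_coe, hr0.coe]; simp [or_assoc]
    have hfr : ∀ k, k ∈ r → k ∈ fl V := fun k hk => by rw [hV, fl_cons]; simp [hk]
    have hfr0 : ∀ k, k ∈ r0 → k ∈ fl V := fun k hk => by rw [hV0, fl_cons]; simp [hk]
    have dis : ∀ k, k ∈ r → k ∈ r0 → False := by
      intro k k1 k2
      unfold Nod at hN
      rw [hV, e1, fl_cons, fl_cons] at hN
      have h6 := Multiset.nodup_of_le (Multiset.le_add_left _ _) hN
      rw [Multiset.nodup_add] at h6
      exact Multiset.disjoint_left.1 h6.2.2 (by simpa using k1) (by simp [k2])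
    have hhh0 : h ≠ h0 := by
      intro e
      exact dis (pt h) ((memr _).2 (Or.inl rfl)) ((memr0 _).2 (Or.inl (by rw [e])))
    have hx0 : h ∉ ([x0, y0] : List H) := by
      intro e
      have : h ∈ r0 := by
        simp only [List.mem_cons, List.not_mem_nil, or_false] at e
        exact (memr0 _).2 (Or.inr e)
      exact hN.disj hh (hfr0 _ this)
    have hx : h0 ∉ ([x, y] : List H) := by
      intro e
      have : h0 ∈ r := by
        simp only [List.mem_cons, List.not_mem_nil, or_false] at e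
        exact (memr _).2 (Or.inr e)
      exact hN.disj hh0 (hfr _ this)
    have hx0' : h ∉ ([y0, x0] : List H) := by simpa [or_comm] using hx0
    have hx' : h0 ∉ ([y, x] : List H) := by simpa [or_comm] using hx
    have nd := step_nod hN hs'
    have nd0 := step_nod hN hs0'
    simp only at nd nd0
    have st : ∀ l : List H, IsStep (sub h l w) V' ⟨h0, x0, y0, W⟩ := fun l =>
      ⟨mem_sub.2 (Or.inl ⟨hh0, Ne.symm hhh0⟩), hp0, r0, hr0, e1⟩
    have st0 : ∀ l : List H, IsStep (sub h0 l w) V0 ⟨h, x, y, W⟩ := fun l =>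
      ⟨mem_sub.2 (Or.inl ⟨hh, hhh0⟩), hp, r, hr, e2⟩
    have c1 : V'.card = m + 1 := by rw [e1, Multiset.card_cons]; omega
    have c2 : V0.card = m + 1 := by rw [e2, Multiset.card_cons]; omega
    rw [hR _ _ c1 nd.1 _ (st _), hR _ _ c1 nd.2 _ (st _), hR _ _ c2 nd0.1 _ (st0 _),
      hR _ _ c2 nd0.2 _ (st0 _)]
    simp only
    rw [sub_comm w hhh0 hx0 hx, sub_comm w hhh0 hx0' hx, sub_comm w hhh0 hx0 hx',
      sub_comm w hhh0 hx0' hx']
    ring

theorem inv_step {n : ℕ} (hRes : ResP F n) (hInv : InvP F n) : InvP F (n + 1) := by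
  intro w V a x hcard hNx ha hpa hpl
  obtain ⟨hN, hxw, hxV⟩ := nod_cons_of hNx
  have hax : a ≠ x := fun e => hxw (e ▸ ha)
  have hpax : pt a ≠ x := fun e => hxw (e ▸ hpa)
  have cx1 : (([x, a] : List H) : Multiset H) = {x} + {a} := rfl
  have cx2 : (([a, x] : List H) : Multiset H) = {x} + {a} := by rw [add_comm]; rfl
  have cx3 : (([x, pt a] : List H) : Multiset H) = {x} + {pt a} := rfl
  have cx4 : (([pt a, x] : List H) : Multiset H) = {x} + {pt a} := by rw [add_comm]; rfl
  have N1 : Nod (sub a [x, a] w) V := (nod_congr (by rw [coe_ins hN.wn ha cx1])).2 hNx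
  have N2 : Nod (sub a [a, x] w) V := (nod_congr (by rw [coe_ins hN.wn ha cx2])).2 hNx
  have N3 : Nod (sub (pt a) [x, pt a] w) V := (nod_congr (by rw [coe_ins hN.wn hpa cx3])).2 hNx
  have N4 : Nod (sub (pt a) [pt a, x] w) V := (nod_congr (by rw [coe_ins hN.wn hpa cx4])).2 hNx
  by_cases hA : ∃ s, IsStep w V s
  · -- resolve a letter of the context
    obtain ⟨⟨h, p, q, V'⟩, hs⟩ := hA
    have nd := step_nod hN hs
    have hcont := step_cont hN hs
    simp only at nd hcont
    have hs' := hs
    obtain ⟨hh, hp, r, hr, hV⟩ := hs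
    simp only at hh hp hr hV
    have memr : ∀ k, k ∈ r ↔ k = pt h ∨ k = p ∨ k = q := by
      intro k
      rw [← Multiset.mem_coe, hr.coe]; simp [or_assoc]
    have hfr : ∀ k, k ∈ r → k ∈ fl V := fun k hk => by rw [hV, fl_cons]; simp [hk]
    have hha : h ≠ a := by
      intro e; exact hN.disj hpa (hfr _ ((memr _).2 (Or.inl (by rw [e]))))
    have hhpa : h ≠ pt a := by
      intro e
      exact hN.disj ha (hfr _ ((memr _).2 (Or.inl (by rw [e]; simp))))
    have hhx : h ≠ x := fun e => hxw (e ▸ hh)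
    have pq : ∀ z, z ∈ w → z ≠ p ∧ z ≠ q := fun z hz =>
      ⟨fun e => hN.disj hz (hfr _ ((memr _).2 (Or.inr (Or.inl e)))),
       fun e => hN.disj hz (hfr _ ((memr _).2 (Or.inr (Or.inr e))))⟩
    have hx2 : x ≠ p ∧ x ≠ q :=
      ⟨fun e => hxV (hfr _ ((memr _).2 (Or.inr (Or.inl e)))),
       fun e => hxV (hfr _ ((memr _).2 (Or.inr (Or.inr e))))⟩
    have hc : V'.card = n := by rw [hV, Multiset.card_cons] at hcard; omega
    have st : ∀ (c : H) (l : List H), h ≠ c → IsStep (sub c l w) V ⟨h, p, q, V'⟩ := fun c l hc =>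
      ⟨mem_sub.2 (Or.inl ⟨hh, hc⟩), hp, r, hr, hV⟩
    rw [hRes _ _ hcard N1 _ (st _ _ hha), hRes _ _ hcard N2 _ (st _ _ hha),
      hRes _ _ hcard N3 _ (st _ _ hhpa), hRes _ _ hcard N4 _ (st _ _ hhpa)]
    simp only
    have comm : ∀ (c : H) (l l' : List H), h ≠ c → h ∉ l → c ∉ l' →
        sub h l' (sub c l w) = sub c l (sub h l' w) := fun c l l' e1 e2 e3 => sub_comm w e1 e2 e3
    have ap := pq a ha
    have pap := pq (pt a) hpa
    rw [comm a [x, a] [p, q] hha (by simp [hhx, hha]) (by simp [ap.1, ap.2]),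
      comm a [x, a] [q, p] hha (by simp [hhx, hha]) (by simp [ap.1, ap.2]),
      comm a [a, x] [p, q] hha (by simp [hhx, hha]) (by simp [ap.1, ap.2]),
      comm a [a, x] [q, p] hha (by simp [hhx, hha]) (by simp [ap.1, ap.2]),
      comm (pt a) [x, pt a] [p, q] hhpa (by simp [hhx, hhpa]) (by simp [pap.1, pap.2]),
      comm (pt a) [x, pt a] [q, p] hhpa (by simp [hhx, hhpa]) (by simp [pap.1, pap.2]),
      comm (pt a) [pt a, x] [p, q] hhpa (by simp [hhx, hhpa]) (by simp [pap.1, pap.2]),
      comm (pt a) [pt a, x] [q, p] hhpa (by simp [hhx, hhpa]) (by simp [pap.1, pap.2])]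
    have NN : Nod (x :: sub h [p, q] w) V' := by
      unfold Nod
      rw [← Multiset.cons_coe, Multiset.cons_add, Multiset.nodup_cons]
      refine ⟨?_, nd.1⟩
      rw [Multiset.mem_add, Multiset.mem_coe, mem_sub]
      rintro ((⟨e, -⟩ | ⟨-, e⟩) | e)
      · exact hxw e
      · simp only [List.mem_cons, List.not_mem_nil, or_false] at e
        exact e.elim hx2.1 hx2.2
      · exact hxV (by rw [hV, fl_cons]; simp [e])
    have NN' : Nod (x :: sub h [q, p] w) V' := by
      have : ((x :: sub h [q, p] w : List H) : Multiset H) = ((x :: sub h [p, q] w : List H) : Multiset H) := by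
        rw [← Multiset.cons_coe, ← Multiset.cons_coe, sub_swap_coe (List.Perm.swap p q [])]
      exact (nod_congr (by rw [this])).2 NN
    have k1 := hInv _ V' a x hc NN (mem_sub.2 (Or.inl ⟨ha, Ne.symm hha⟩))
      (mem_sub.2 (Or.inl ⟨hpa, Ne.symm hhpa⟩)) hpl
    have k2 := hInv _ V' a x hc NN' (mem_sub.2 (Or.inl ⟨ha, Ne.symm hha⟩))
      (mem_sub.2 (Or.inl ⟨hpa, Ne.symm hhpa⟩)) hpl
    linarith
  · by_cases hB : ∃ p q V' r, 2 ≤ x.1 ∧ IsRot r (pt x) p q ∧ V = r ::ₘ V'
    · obtain ⟨p, q, V', r, hxp, hr, hV⟩ := hB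
      have hc : V'.card = n := by rw [hV, Multiset.card_cons] at hcard; omega
      have st : ∀ (c : H) (l : List H), c ∈ w → x ∈ l → IsStep (sub c l w) V ⟨x, p, q, V'⟩ :=
        fun c l h1 h2 => ⟨mem_sub.2 (Or.inr ⟨h1, h2⟩), hxp, r, hr, hV⟩
      rw [hRes _ _ hcard N1 _ (st _ _ ha (by simp)), hRes _ _ hcard N2 _ (st _ _ ha (by simp)),
        hRes _ _ hcard N3 _ (st _ _ hpa (by simp)), hRes _ _ hcard N4 _ (st _ _ hpa (by simp))]
      simp only
      have memr : ∀ k, k ∈ r ↔ k = pt x ∨ k = p ∨ k = q := by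
        intro k
        rw [← Multiset.mem_coe, hr.coe]; simp [or_assoc]
      have hfr : ∀ k, k ∈ r → k ∈ fl V := fun k hk => by rw [hV, fl_cons]; simp [hk]
      have pw : p ∉ w := fun e => hN.disj e (hfr _ ((memr _).2 (Or.inr (Or.inl rfl))))
      have qw : q ∉ w := fun e => hN.disj e (hfr _ ((memr _).2 (Or.inr (Or.inr rfl))))
      have px : p ≠ x := fun e => hxV (e ▸ hfr _ ((memr _).2 (Or.inr (Or.inl rfl))))
      have qx : q ≠ x := fun e => hxV (e ▸ hfr _ ((memr _).2 (Or.inr (Or.inr rfl))))
      have pa : p ≠ a := fun e => pw (e ▸ ha)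
      have qa : q ≠ a := fun e => qw (e ▸ ha)
      have ppa : p ≠ pt a := fun e => pw (e ▸ hpa)
      have qpa : q ≠ pt a := fun e => qw (e ▸ hpa)
      -- general words
      have hN0 : Nod (p :: q :: w) V' := by
        have h1 := (step_nod N1 (st a [x, a] ha (by simp))).1
        simp only at h1
        rw [sub_sub hxw] at h1
        have e3 : sub x [p, q] [x, a] = [p, q, a] := by
          rw [sub_cons, if_pos rfl, sub_cons, if_neg hax, sub_nil]; rfl
        rw [e3] at h1
        have h8 := coe_sub (l := [p, q, a]) hN.wn ha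
        have h9 : (([p, q, a] : List H) : Multiset H) = {p} + {q} + {a} := rfl
        rw [h9, ← add_assoc] at h8
        have h10 := add_right_cancel h8
        refine (nod_congr ?_).1 h1
        rw [h10, ← Multiset.cons_coe, ← Multiset.cons_coe, ← Multiset.singleton_add,
          ← Multiset.singleton_add]
        abel
      have npq : p ≠ q := by
        have := hN0.wn
        rw [List.nodup_cons] at this
        intro e; exact this.1 (by simp [e])
      -- T X Y
      set T : List H → List H → ℚ := fun X Y => fhn F n (sub a X (sub (pt a) Y w)) V' with hT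
      have e1 : ∀ l, sub a l w = sub a l (sub (pt a) [pt a] w) := fun l => by rw [sub_self]
      have e2 : ∀ l, sub (pt a) l w = sub a [a] (sub (pt a) l w) := fun l => by
        rw [sub_self]
      have sx : ∀ (u v : H), sub x [u, v] [x, a] = [u, v, a] := fun u v => by
        rw [sub_cons, if_pos rfl, sub_cons, if_neg hax, sub_nil]; rfl
      have sx2 : ∀ (u v : H), sub x [u, v] [a, x] = [a, u, v] := fun u v => by
        rw [sub_cons, if_neg hax, sub_cons, if_pos rfl, sub_nil]; rfl
      have sx3 : ∀ (u v : H), sub x [u, v] [x, pt a] = [u, v, pt a] := fun u v => by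
        rw [sub_cons, if_pos rfl, sub_cons, if_neg hpax, sub_nil]; rfl
      have sx4 : ∀ (u v : H), sub x [u, v] [pt a, x] = [pt a, u, v] := fun u v => by
        rw [sub_cons, if_neg hpax, sub_cons, if_pos rfl, sub_nil]; rfl
      rw [sub_sub hxw, sub_sub hxw, sub_sub hxw, sub_sub hxw, sub_sub hxw, sub_sub hxw,
        sub_sub hxw, sub_sub hxw, sx, sx, sx2, sx2, sx3, sx3, sx4, sx4]
      have t1 : ∀ l, fhn F n (sub a l w) V' = T l [pt a] := fun l => by rw [hT]; simp only [sub_self]
      have t2 : ∀ l, fhn F n (sub (pt a) l w) V' = T [a] l := fun l => by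
        rw [hT]; simp only [sub_self]
      rw [t1, t1, t1, t1, t2, t2, t2, t2]
      -- the instances
      have inst : ∀ (z u : H) (X Y : List H), z ≠ a → z ≠ pt a → pt a ∉ X → a ∉ Y → a ∈ X →
          pt a ∈ Y → Nod (z :: sub a X (sub (pt a) Y w)) V' →
          T (sub a [z, a] X) Y - T (sub a [a, z] X) Y + T X (sub (pt a) [z, pt a] Y)
            - T X (sub (pt a) [pt a, z] Y) = 0 := by
        intro z u X Y z1 z2 hX hY hX' hY' hNz
        have m1 : a ∈ sub (pt a) Y w := mem_sub.2 (Or.inl ⟨ha, ne_pt a⟩)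
        have m2 : pt a ∈ sub (pt a) Y w := mem_sub.2 (Or.inr ⟨hpa, hY'⟩)
        have k := hInv (sub a X (sub (pt a) Y w)) V' a z hc hNz (mem_sub.2 (Or.inr ⟨m1, hX'⟩))
          (mem_sub.2 (Or.inl ⟨m2, pt_ne a⟩)) hpl
        rw [sub_same, sub_same, sub_comm _ (pt_ne a) hX (by simp [z1.symm, ne_pt]), sub_same,
          sub_comm _ (pt_ne a) hX (by simp [z1.symm, ne_pt]), sub_same] at k
        exact k
      have coe2 : ∀ (u : H) (X Y : List H), ((X : Multiset H) + (Y : Multiset H) = {u} + {a} + {pt a}) →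
          a ∉ Y → (sub a X (sub (pt a) Y w) : Multiset H) = ((u :: w : List H) : Multiset H) := by
        intro u X Y hXY hY
        have c1 := coe_sub (l := Y) hN.wn hpa
        have hnd : (sub (pt a) Y w).Nodup ∨ True := Or.inr trivial
        -- direct computation through counts
        obtain ⟨u1, v1, ew, hu1, hv1⟩ := exists_split hN.wn ha
        have hpa1 : a ∉ sub (pt a) Y u1 := by
          rw [mem_sub]; rintro (⟨e, -⟩ | ⟨-, e⟩)
          · exact hu1 e
          · exact hY e
        have hpa2 : a ∉ sub (pt a) Y v1 := by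
          rw [mem_sub]; rintro (⟨e, -⟩ | ⟨-, e⟩)
          · exact hv1 e
          · exact hY e
        have es : sub (pt a) Y w = sub (pt a) Y u1 ++ a :: sub (pt a) Y v1 := by
          rw [ew, sub_append, sub_cons, if_neg (ne_pt a)]; rfl
        rw [es, sub_split hpa1 hpa2]
        have c2 : ((sub (pt a) Y u1 ++ X ++ sub (pt a) Y v1 : List H) : Multiset H) + {a} + {pt a}
            = (w : Multiset H) + (Y : Multiset H) + (X : Multiset H) := by
          rw [← c1, es]
          simp only [← Multiset.coe_add, ← Multiset.cons_coe, ← Multiset.singleton_add]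
          abel
        have c3 : (w : Multiset H) + (Y : Multiset H) + (X : Multiset H)
            = ((u :: w : List H) : Multiset H) + {a} + {pt a} := by
          rw [add_assoc, add_comm (Y : Multiset H), hXY, ← Multiset.cons_coe, ← Multiset.singleton_add]
          abel
        exact add_right_cancel (add_right_cancel (c2.trans c3))
      have NB : ∀ (z u : H) (X Y : List H), ((X : Multiset H) + (Y : Multiset H) = {u} + {a} + {pt a}) →
          a ∉ Y → ((z = p ∧ u = q) ∨ (z = q ∧ u = p)) → Nod (z :: sub a X (sub (pt a) Y w)) V' := by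
        intro z u X Y h1 h2 h3
        have h4 := coe2 u X Y h1 h2
        refine (nod_congr ?_).2 hN0
        rcases h3 with ⟨rfl, rfl⟩ | ⟨rfl, rfl⟩
        · rw [← Multiset.cons_coe, h4, Multiset.cons_coe]
        · rw [← Multiset.cons_coe, h4, Multiset.cons_coe]
          congr 1
          rw [Multiset.coe_eq_coe]
          exact List.Perm.swap _ _ _
      have ca : ∀ u : H, (([u, a] : List H) : Multiset H) + (([pt a] : List H) : Multiset H) = {u} + {a} + {pt a} :=
        fun u => rfl
      have cb : ∀ u : H, (([a, u] : List H) : Multiset H) + (([pt a] : List H) : Multiset H) = {u} + {a} + {pt a} :=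
        fun u => by
          have : (([a, u] : List H) : Multiset H) = {u} + {a} := by rw [add_comm]; rfl
          rw [this]; rfl
      have cc : ∀ u : H, (([a] : List H) : Multiset H) + (([u, pt a] : List H) : Multiset H) = {u} + {a} + {pt a} :=
        fun u => by
          have : (([u, pt a] : List H) : Multiset H) = {u} + {pt a} := rfl
          rw [this, Multiset.coe_singleton]; abel
      have cd : ∀ u : H, (([a] : List H) : Multiset H) + (([pt a, u] : List H) : Multiset H) = {u} + {a} + {pt a} :=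
        fun u => by
          have : (([pt a, u] : List H) : Multiset H) = {pt a} + {u} := rfl
          rw [this, Multiset.coe_singleton]; abel
      have dA : ∀ z u : H, z ≠ a → sub a [z, a] [u, a] = (if u = a then [z, a] else [u]) ++ [z, a] :=
        fun z u _ => by rw [sub_cons, sub_cons, if_pos rfl, sub_nil]; rfl
      have main8 : ∀ z u : H, ((z = p ∧ u = q) ∨ (z = q ∧ u = p)) →
          (T [u, z, a] [pt a] - T [u, a, z] [pt a] + T [u, a] [z, pt a] - T [u, a] [pt a, z] = 0) ∧
          (T [z, a, u] [pt a] - T [a, z, u] [pt a] + T [a, u] [z, pt a] - T [a, u] [pt a, z] = 0) ∧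
          (T [z, a] [u, pt a] - T [a, z] [u, pt a] + T [a] [u, z, pt a] - T [a] [u, pt a, z] = 0) ∧
          (T [z, a] [pt a, u] - T [a, z] [pt a, u] + T [a] [z, pt a, u] - T [a] [pt a, z, u] = 0) := by
        intro z u hzu
        have za : z ≠ a := by rcases hzu with ⟨rfl, -⟩ | ⟨rfl, -⟩ <;> assumption
        have zpa : z ≠ pt a := by rcases hzu with ⟨rfl, -⟩ | ⟨rfl, -⟩ <;> assumption
        have ua : u ≠ a := by rcases hzu with ⟨-, rfl⟩ | ⟨-, rfl⟩ <;> assumption
        have upa : u ≠ pt a := by rcases hzu with ⟨-, rfl⟩ | ⟨-, rfl⟩ <;> assumption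
        have na : pt a ≠ a := pt_ne a
        have na' : a ≠ pt a := ne_pt a
        refine ⟨?_, ?_, ?_, ?_⟩
        · have k := inst z u [u, a] [pt a] za zpa (by simp [upa.symm, na]) (by simp [na'])
            (by simp) (by simp) (NB z u _ _ (ca u) (by simp [na']) hzu)
          simpa [sub_cons, sub_nil, ua, upa, na, na'] using k
        · have k := inst z u [a, u] [pt a] za zpa (by simp [upa.symm, na]) (by simp [na'])
            (by simp) (by simp) (NB z u _ _ (cb u) (by simp [na']) hzu)
          simpa [sub_cons, sub_nil, ua, upa, na, na'] using k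
        · have k := inst z u [a] [u, pt a] za zpa (by simp [na]) (by simp [ua.symm, na'])
            (by simp) (by simp) (NB z u _ _ (cc u) (by simp [ua.symm, na']) hzu)
          simpa [sub_cons, sub_nil, ua, upa, na, na'] using k
        · have k := inst z u [a] [pt a, u] za zpa (by simp [na]) (by simp [ua.symm, na'])
            (by simp) (by simp) (NB z u _ _ (cd u) (by simp [ua.symm, na']) hzu)
          simpa [sub_cons, sub_nil, ua, upa, na, na'] using k
      obtain ⟨I1, I2, I3, I4⟩ := main8 q p (Or.inr ⟨rfl, rfl⟩)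
      obtain ⟨J1, J2, J3, J4⟩ := main8 p q (Or.inl ⟨rfl, rfl⟩)
      linarith
    · -- nothing can be resolved
      have none_ : ∀ (c : H) (l : List H), (c = a ∨ c = pt a) → (∀ z ∈ l, z = x ∨ z = c) →
          fhn F (n + 1) (sub c l w) V = 0 := by
        intro c l hc hl
        have : ¬ ∃ s, IsStep (sub c l w) V s := by
          rintro ⟨⟨h, p, q, V'⟩, h1, h2, r, hr, hV⟩
          simp only at h1 h2 hr hV
          have hpr : pt h ∈ fl V := by
            rw [hV, fl_cons]
            have : pt h ∈ r := by rw [← Multiset.mem_coe, hr.coe]; simp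
            simp [this]
          have hha : h ≠ a := fun e => hN.disj hpa (by rw [← e]; exact hpr)
          have hhpa : h ≠ pt a := fun e => hN.disj ha (by
            have : pt h = a := by rw [e]; simp
            rw [← this]; exact hpr)
          have : h ∈ w ∨ h = x := by
            rcases mem_sub.1 h1 with ⟨e, -⟩ | ⟨-, e⟩
            · exact Or.inl e
            · rcases hl h e with e | e
              · exact Or.inr e
              · rcases hc with rfl | rfl
                · exact absurd e hha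
                · exact absurd e hhpa
          rcases this with e | e
          · exact hA ⟨⟨h, p, q, V'⟩, e, h2, r, hr, hV⟩
          · exact hB ⟨p, q, V', r, e ▸ h2, e ▸ hr, hV⟩
        show (match stepOf (sub c l w) V with
          | none => 0
          | some s => fhn F n (sub s.h [s.x, s.y] (sub c l w)) s.V'
            - fhn F n (sub s.h [s.y, s.x] (sub c l w)) s.V') = _
        rw [stepOf_none this]
      rw [none_ a _ (Or.inl rfl) (by simp), none_ a _ (Or.inl rfl) (by simp),
        none_ (pt a) _ (Or.inr rfl) (by simp), none_ (pt a) _ (Or.inr rfl) (by simp)]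
      ring

theorem rel_step {n : ℕ} (hRes : ResP F n) (hRel : RelP F n) : RelP F (n + 1) := by
  intro w V hcard hN τ hτ
  by_cases hA : ∃ s, IsStep w V s
  · obtain ⟨s, hs⟩ := hA
    have hm := hs.map hτ
    rw [hRes w V hcard hN s hs, hRes _ _ (by rw [Multiset.card_map]; exact hcard)
      (hN.map hτ.inj) _ hm]
    simp only
    have nd := step_nod hN hs
    have hc : s.V'.card = n := by
      obtain ⟨-, -, r, -, hV⟩ := hs
      rw [hV, Multiset.card_cons] at hcard; omega
    have r1 := hRel _ _ hc nd.1 τ hτ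
    have r2 := hRel _ _ hc nd.2 τ hτ
    rw [sub_map hτ.inj] at r1 r2
    rw [← r1, ← r2]
    rfl
  · have hB : ¬ ∃ s, IsStep (w.map τ) (V.map (List.map τ)) s := fun h => hA (step_unmap hτ h)
    have h1 : fhn F (n + 1) w V = 0 := by
      show (match stepOf w V with
          | none => 0
          | some s => fhn F n (sub s.h [s.x, s.y] w) s.V' - fhn F n (sub s.h [s.y, s.x] w) s.V') = _
      rw [stepOf_none hA]
    have h2 : fhn F (n + 1) (w.map τ) (V.map (List.map τ)) = 0 := by
      show (match stepOf (w.map τ) (V.map (List.map τ)) with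
          | none => 0
          | some s => fhn F n (sub s.h [s.x, s.y] (w.map τ)) s.V'
            - fhn F n (sub s.h [s.y, s.x] (w.map τ)) s.V') = _
      rw [stepOf_none hB]
    rw [h1, h2]

theorem all_props {F : List H → ℚ} (hF : GoodC F) :
    ∀ n, RelP F n ∧ InvP F n ∧ ResP F n := by
  intro n
  induction n with
  | zero =>
    have h1 : RelP F 0 := by
      intro w V hV hN τ hτ
      simp only [fhn, Multiset.card_map, hV, if_true]
      exact hF.rel τ hτ w hN.wn
    have h2 : InvP F 0 := by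
      intro w V a x hV hN ha hpa hpl
      simp only [fhn, hV, if_true]
      obtain ⟨hN', hx, -⟩ := nod_cons_of hN
      exact hF.inv w a x hN'.wn ha hpa hx hpl
    exact ⟨h1, h2, res_step F h1 h2 (fun m hm => by omega)⟩
  | succ n ih =>
    obtain ⟨h1, h2, h3⟩ := ih
    have r := rel_step F h3 h1
    have i := inv_step F h3 h2
    refine ⟨r, i, res_step F r i ?_⟩
    intro m hm
    obtain rfl : n = m := by omega
    exact h3

/-- Evaluation of a state. -/
noncomputable def fh (F : List H → ℚ) (w : List H) (V : Multiset (List H)) : ℚ :=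
  open Classical in if Nod w V then fhn F V.card w V else 0

theorem fh_of_not {F : List H → ℚ} {w : List H} {V : Multiset (List H)} (h : ¬ Nod w V) :
    fh F w V = 0 := by
  unfold fh; rw [if_neg h]

theorem fh_res {F : List H → ℚ} (hF : GoodC F) {w : List H} {V : Multiset (List H)} {h x y : H}
    {r : List H} {V' : Multiset (List H)} (hN : Nod w V) (hm : h ∈ w) (hp : 2 ≤ h.1)
    (hr : IsRot r (pt h) x y) (hV : V = r ::ₘ V') :
    fh F w V = fh F (sub h [x, y] w) V' - fh F (sub h [y, x] w) V' := by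
  have hs : IsStep w V ⟨h, x, y, V'⟩ := ⟨hm, hp, r, hr, hV⟩
  have nd := step_nod hN hs
  simp only at nd
  unfold fh
  rw [if_pos hN, if_pos nd.1, if_pos nd.2]
  have hc : V.card = V'.card + 1 := by rw [hV, Multiset.card_cons]
  rw [hc]
  exact (all_props hF V'.card).2.2 w V hc hN _ hs

theorem fh_none {F : List H → ℚ} {w : List H} {V : Multiset (List H)}
    (h : ¬ ∃ s, IsStep w V s) (hV : V ≠ 0) : fh F w V = 0 := by
  unfold fh
  split_ifs with hN
  · obtain ⟨n, hn⟩ : ∃ n, V.card = n + 1 := by
      refine ⟨V.card - 1, ?_⟩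
      have : V.card ≠ 0 := by simpa using hV
      omega
    rw [hn]
    show (match stepOf w V with
          | none => 0
          | some s => fhn F n (sub s.h [s.x, s.y] w) s.V' - fhn F n (sub s.h [s.y, s.x] w) s.V') = _
    rw [stepOf_none h]
  · rfl

theorem fh_zero {F : List H → ℚ} {w : List H} (h : w.Nodup) : fh F w 0 = F w := by
  unfold fh
  rw [if_pos (by unfold Nod; simpa using h)]
  simp [fhn]

theorem fh_rel {F : List H → ℚ} (hF : GoodC F) {τ : H → H} (hτ : Aut τ) (w : List H)
    (V : Multiset (List H)) : fh F (w.map τ) (V.map (List.map τ)) = fh F w V := by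
  unfold fh
  by_cases hN : Nod w V
  · rw [if_pos hN, if_pos (hN.map hτ.inj), Multiset.card_map]
    exact (all_props hF _).1 w V rfl hN τ hτ
  · rw [if_neg hN, if_neg]
    intro h
    apply hN
    unfold Nod at h ⊢
    rw [fl_map, ← Multiset.map_coe, ← Multiset.map_add] at h
    exact Multiset.Nodup.of_map _ h

end CA247
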