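import Pool.Agent.CA247.Base
import Pool.Agent.CA247.Chk2

set_option autoImplicit false

namespace CA247

def DG (G : List H → List H → List H → ℚ) (i j : ℕ) : ℚ :=
  G [(i, false), (j, false)] [(i, true)] [(j, true)]
  - G [(j, false), (i, false)] [(i, true)] [(j, true)]
  + G [(i, false)] [(i, true), (j, false)] [(j, true)]
  - G [(i, false)] [(j, false), (i, true)] [(j, true)]
  + G [(i, false)] [(j, false)] [(i, true), (j, true)]
  - G [(i, false)] [(j, false)] [(j, true), (i, true)]

theorem core_N (G : List H → List H → List H → ℚ) (k l : ℕ)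
    (h0 : DG G k l = 0)
    (h1 : DG (fun X Y Z => G X Z Y) k l = 0)
    (h2 : DG (fun X Y Z => G Z X Y) k l = 0)
    (h3 : DG (fun X Y Z => G Z Y X) k l = 0)
    (hs : ∀ X Y Z : List H, G X Y Z = G (X.map (sw2 k l)) (Y.map (sw2 k l)) (Z.map (sw2 k l))) :
    2 * G [(k, false), (l, false)] [(k, true)] [(l, true)] - 2 * G [(l, false), (k, false)] 
      [(k, true)] [(l, true)] + G [(l, true)] [(k, false), (l, false)] [(k, true)] - G [(l, 
      true)] [(l, false), (k, false)] [(k, true)] + G [(k, true)] [(l, true)] [(k, false), (l, 
      false)] - G [(k, true)] [(l, true)] [(l, false), (k, false)] - G [(l, false)] [(k, 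
      false), (l, true)] [(k, true)] + G [(l, false)] [(l, true), (k, false)] [(k, true)] - G 
      [(k, true)] [(l, false)] [(k, false), (l, true)] + G [(k, true)] [(l, false)] [(l, true), 
      (k, false)] - G [(l, true)] [(k, true), (l, false)] [(k, false)] + G [(l, true)] [(l, 
      false), (k, true)] [(k, false)] - G [(k, false)] [(l, true)] [(k, true), (l, false)] + G 
      [(k, false)] [(l, true)] [(l, false), (k, true)] + 2 * G [(k, true), (l, true)] [(k, 
      false)] [(l, false)] - 2 * G [(l, true), (k, true)] [(k, false)] [(l, false)] + G [(l, 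
      false)] [(k, true), (l, true)] [(k, false)] - G [(l, false)] [(l, true), (k, true)] [(k, 
      false)] + G [(k, false)] [(l, false)] [(k, true), (l, true)] - G [(k, false)] [(l, 
      false)] [(l, true), (k, true)] = 0 := by
  have ek : ∀ b : Bool, sw2 k l (k, b) = (l, b) := fun b => by simp [sw2]
  have el : ∀ b : Bool, sw2 k l (l, b) = (k, b) := fun b => by
    unfold sw2; by_cases h : l = k
    · simp [h]
    · simp [h]
  have s0 := hs [(k, false), (l, false)] [(k, true)] [(l, true)]
  simp only [List.map_cons, List.map_nil, ek, el] at s0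
  have s1 := hs [(l, false), (k, false)] [(k, true)] [(l, true)]
  simp only [List.map_cons, List.map_nil, ek, el] at s1
  have s2 := hs [(k, true)] [(l, true)] [(k, false), (l, false)]
  simp only [List.map_cons, List.map_nil, ek, el] at s2
  have s3 := hs [(k, true)] [(l, true)] [(l, false), (k, false)]
  simp only [List.map_cons, List.map_nil, ek, el] at s3
  have s4 := hs [(l, false)] [(k, false), (l, true)] [(k, true)]
  simp only [List.map_cons, List.map_nil, ek, el] at s4
  have s5 := hs [(l, false)] [(l, true), (k, false)] [(k, true)]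
  simp only [List.map_cons, List.map_nil, ek, el] at s5
  have s6 := hs [(k, true)] [(l, false)] [(k, false), (l, true)]
  simp only [List.map_cons, List.map_nil, ek, el] at s6
  have s7 := hs [(k, true)] [(l, false)] [(l, true), (k, false)]
  simp only [List.map_cons, List.map_nil, ek, el] at s7
  have s8 := hs [(k, true), (l, true)] [(k, false)] [(l, false)]
  simp only [List.map_cons, List.map_nil, ek, el] at s8
  have s9 := hs [(l, true), (k, true)] [(k, false)] [(l, false)]
  simp only [List.map_cons, List.map_nil, ek, el] at s9
  have s10 := hs [(l, false)] [(k, true), (l, true)] [(k, false)]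
  simp only [List.map_cons, List.map_nil, ek, el] at s10
  have s11 := hs [(l, false)] [(l, true), (k, true)] [(k, false)]
  simp only [List.map_cons, List.map_nil, ek, el] at s11
  unfold DG at h0 h1 h2 h3
  linear_combination h0 - h1 + h2 - h3 + s0 - s1 + s2 - s3 - s4 + s5 - s6 + s7 + s8 - s9 + s10 - s11

theorem core_inv0 (G : List H → List H → List H → ℚ) (k l : ℕ)
    (h0 : DG G k l = 0)
    (h1 : DG (fun X Y Z => G Y X Z) k l = 0)
    (hs : ∀ X Y Z : List H, G X Y Z = G (X.map (sw2 k l)) (Y.map (sw2 k l)) (Z.map (sw2 k l))) :
    G [(l, false), (k, false)] [(k, true)] [(l, true)] - G [(k, false), (l, false)] [(k, true)] 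
      [(l, true)] + G [(k, false)] [(l, false), (k, true)] [(l, true)] - G [(k, false)] [(k, 
      true), (l, false)] [(l, true)] + G [(l, false), (k, true)] [(k, false)] [(l, true)] - G 
      [(k, true), (l, false)] [(k, false)] [(l, true)] + G [(k, true)] [(l, false), (k, false)] 
      [(l, true)] - G [(k, true)] [(k, false), (l, false)] [(l, true)] = 0 := by
  have ek : ∀ b : Bool, sw2 k l (k, b) = (l, b) := fun b => by simp [sw2]
  have el : ∀ b : Bool, sw2 k l (l, b) = (k, b) := fun b => by
    unfold sw2; by_cases h : l = k
    · simp [h]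
    · simp [h]
  have s0 := hs [(k, false)] [(l, false)] [(k, true), (l, true)]
  simp only [List.map_cons, List.map_nil, ek, el] at s0
  have s1 := hs [(k, false)] [(l, false)] [(l, true), (k, true)]
  simp only [List.map_cons, List.map_nil, ek, el] at s1
  unfold DG at h0 h1
  linear_combination - h0 - h1 + s0 - s1

theorem core_inv1 (G : List H → List H → List H → ℚ) (k l : ℕ)
    (h0 : DG (fun X Y Z => G Y Z X) k l = 0)
    (h1 : DG (fun X Y Z => G Z Y X) k l = 0)
    (hs : ∀ X Y Z : List H, G X Y Z = G (X.map (sw2 k l)) (Y.map (sw2 k l)) (Z.map (sw2 k l))) :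
    G [(l, true), (k, false)] [(k, true)] [(l, false)] - G [(k, false), (l, true)] [(k, true)] 
      [(l, false)] + G [(k, false)] [(l, true), (k, true)] [(l, false)] - G [(k, false)] [(k, 
      true), (l, true)] [(l, false)] + G [(l, true), (k, true)] [(k, false)] [(l, false)] - G 
      [(k, true), (l, true)] [(k, false)] [(l, false)] + G [(k, true)] [(l, true), (k, false)] 
      [(l, false)] - G [(k, true)] [(k, false), (l, true)] [(l, false)] = 0 := by
  have ek : ∀ b : Bool, sw2 k l (k, b) = (l, b) := fun b => by simp [sw2]
  have el : ∀ b : Bool, sw2 k l (l, b) = (k, b) := fun b => by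
    unfold sw2; by_cases h : l = k
    · simp [h]
    · simp [h]
  have s0 := hs [(l, true), (k, false)] [(k, true)] [(l, false)]
  simp only [List.map_cons, List.map_nil, ek, el] at s0
  have s1 := hs [(k, false), (l, true)] [(k, true)] [(l, false)]
  simp only [List.map_cons, List.map_nil, ek, el] at s1
  have s2 := hs [(k, false)] [(l, true), (k, true)] [(l, false)]
  simp only [List.map_cons, List.map_nil, ek, el] at s2
  have s3 := hs [(k, false)] [(k, true), (l, true)] [(l, false)]
  simp only [List.map_cons, List.map_nil, ek, el] at s3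
  have s4 := hs [(l, true), (k, true)] [(k, false)] [(l, false)]
  simp only [List.map_cons, List.map_nil, ek, el] at s4
  have s5 := hs [(k, true), (l, true)] [(k, false)] [(l, false)]
  simp only [List.map_cons, List.map_nil, ek, el] at s5
  have s6 := hs [(k, true)] [(l, true), (k, false)] [(l, false)]
  simp only [List.map_cons, List.map_nil, ek, el] at s6
  have s7 := hs [(k, true)] [(k, false), (l, true)] [(l, false)]
  simp only [List.map_cons, List.map_nil, ek, el] at s7
  have s8 := hs [(k, true)] [(l, true)] [(k, false), (l, false)]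
  simp only [List.map_cons, List.map_nil, ek, el] at s8
  have s9 := hs [(k, true)] [(l, true)] [(l, false), (k, false)]
  simp only [List.map_cons, List.map_nil, ek, el] at s9
  unfold DG at h0 h1
  linear_combination h0 + h1 + s0 - s1 + s2 - s3 + s4 - s5 + s6 - s7 - s8 + s9

end CA247
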