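import Pool.Agent.CA247.Poly

set_option autoImplicit false

namespace CA247

def thg : TP :=
  [(2, [[200, 202, 206, 208, 204]]), (-2, [[200, 202, 206, 204, 208]]), (1, [[200, 202, 208],
  [204], [206]]), (-2, [[200, 202, 208, 204, 206]]), (1, [[200, 202, 206], [204], [208]]), (2,
  [[200, 202, 204, 206, 208]]), (6, [[200, 202], [204, 206, 208]]), (-3, [[200, 202, 208], [204,
  206]]), (-3, [[200, 202, 206], [204, 208]]), (-2, [[200, 206, 208, 202, 204]]), (3, [[200, 208,
  206], [202, 204]]), (-2, [[200], [202], [204, 206, 208]]), (2, [[200, 204, 202, 208, 206]]),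
  (-1, [[200, 208, 206], [202], [204]]), (-2, [[200, 204, 202, 206, 208]]), (-2, [[200, 204, 208,
  206, 202]]), (3, [[200, 204], [202, 208, 206]]), (2, [[200, 208, 206, 202, 204]]), (-1, [[200],
  [202, 208, 206], [204]]), (-6, [[200, 204, 202], [206, 208]]), (2, [[200, 204, 202], [206],
  [208]]), (2, [[200, 208, 204, 206, 202]]), (2, [[200, 206, 204, 208, 202]]), (-2, [[200, 208,
  206, 204, 202]]), (-6, [[200, 202], [204, 208, 206]]), (6, [[200, 202, 204], [206, 208]]), (-2,
  [[200, 202, 204], [206], [208]]), (1, [[200], [202, 206, 208], [204]]), (2, [[200], [202],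
  [204, 208, 206]]), (-3, [[200, 204], [202, 206, 208]]), (1, [[200, 206, 208], [202], [204]]),
  (-3, [[200, 206, 208], [202, 204]]), (3, [[200, 206, 202], [204, 208]]), (3, [[200, 208, 202],
  [204, 206]]), (-1, [[200, 206, 202], [204], [208]]), (-1, [[200, 208, 202], [204], [206]])]

def kpg : TP :=
  [(18, [[200, 202, 206], [204], [208]]), (-54, [[200, 202, 206], [204, 208]]), (-54, [[200, 204,
  202], [206, 208]]), (18, [[200, 204, 202], [206], [208]]), (54, [[200, 202, 204], [206, 208]]),
  (-18, [[200, 202, 204], [206], [208]]), (54, [[200, 206, 202], [204, 208]]), (-18, [[200, 206,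
  202], [204], [208]]), (-18, [[200, 204, 206], [202], [208]]), (54, [[200, 204, 206], [202,
  208]]), (-54, [[200, 206, 204], [202, 208]]), (18, [[200, 206, 204], [202], [208]]), (18,
  [[200], [202, 204, 206], [208]]), (-54, [[200, 208], [202, 204, 206]]), (54, [[200, 208], [202,
  206, 204]]), (-18, [[200], [202, 206, 204], [208]])]

end CA247
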