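import Mathlib

/-!
# Chord diagrams and arrow diagrams on an oriented interval

The spaces of `MP_c2e4b2_gt`. A diagram is written as the list of its endpoints in the order in
which they lie on the oriented interval, with labels for the chords; the labels (and, for chord
diagrams, the order of the two endpoints of a chord) are forgotten in the quotient spaces.
-/

set_option autoImplicit false

namespace CA247

/-- Labelled endpoints. The chord (or arrow) with label `i : ℕ` has the two endpoints `(i, false)`
and `(i, true)`. For arrow diagrams `(i, false)` is the tail and `(i, true)` is the head. -/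
abbrev H := ℕ × Bool

/-- The other endpoint of the same chord (or arrow). -/
def pt (h : H) : H := (h.1, !h.2)

/-- A labelled diagram of degree `d`: the list of its `2 * d` distinct endpoints, read along the
interval; together with an endpoint the list contains the other endpoint of the same chord. -/
def IsWord (d : ℕ) (w : List H) : Prop := w.Nodup ∧ (∀ h ∈ w, pt h ∈ w) ∧ w.length = 2 * d

/-- The free `ℚ`-vector space on the labelled diagrams of degree `d`. -/
abbrev Free (d : ℕ) := {w : List H // IsWord d w} →₀ ℚ

open Classical in
/-- The basis vector of a labelled diagram of degree `d` (and `0` for every other list). -/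
noncomputable def bas (d : ℕ) (w : List H) : Free d :=
  if h : IsWord d w then Finsupp.single ⟨w, h⟩ 1 else 0

/-- Renaming of the labels. -/
def ren (s : ℕ → ℕ) (h : H) : H := (s h.1, h.2)

/-- Exchange of the two endpoints of the chords with label in `S` (for arrows: reversal). -/
def flS (S : Finset ℕ) (h : H) : H := if h.1 ∈ S then pt h else h

/-- The labels occurring in a list of endpoints. -/
def labs (w : List H) : Finset ℕ := (w.map Prod.fst).toFinset

/-- Three short disjoint subarcs `0`, `1`, `2` of the interval are given by a list whose entries
`Sum.inr m` mark the places of the subarcs; its entries `Sum.inl h` are the endpoints outside the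
subarcs. `fill s X` is the diagram with the endpoints `X m`, in this order, on the subarc `m`. -/
def fill (s : List (H ⊕ Fin 3)) (X : Fin 3 → List H) : List H :=
  s.flatMap (Sum.elim (fun h => [h]) X)

/-- The marked subarcs, in the order in which they lie on the interval. -/
def marks (s : List (H ⊕ Fin 3)) : List (Fin 3) := s.filterMap Sum.getRight?

/-- The 4T combination `[t₀₁, t₀₂ + t₁₂] = t₀₁ t₀₂ - t₀₂ t₀₁ + t₀₁ t₁₂ - t₁₂ t₀₁` (in the first
factor `t₀₁` the chord has label `i`, the chord of the second factor has label `j`). -/
noncomputable def rel4 (d : ℕ) (s : List (H ⊕ Fin 3)) (i j : ℕ) : Free d :=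
  bas d (fill s ![[(i, false), (j, false)], [(i, true)], [(j, true)]])
  - bas d (fill s ![[(j, false), (i, false)], [(i, true)], [(j, true)]])
  + bas d (fill s ![[(i, false)], [(i, true), (j, false)], [(j, true)]])
  - bas d (fill s ![[(i, false)], [(j, false), (i, true)], [(j, true)]])

/-- The 6T combination `[r₀₁, r₀₂] + [r₀₁, r₁₂] + [r₀₂, r₁₂]`, where `r₀₁` is an arrow with tail on
subarc `0` and head on subarc `1` etc. (in each commutator `[x, y]` the arrow `x` has label `i` and
the arrow `y` has label `j`). -/
noncomputable def rel6 (d : ℕ) (s : List (H ⊕ Fin 3)) (i j : ℕ) : Free d :=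
  bas d (fill s ![[(i, false), (j, false)], [(i, true)], [(j, true)]])
  - bas d (fill s ![[(j, false), (i, false)], [(i, true)], [(j, true)]])
  + bas d (fill s ![[(i, false)], [(i, true), (j, false)], [(j, true)]])
  - bas d (fill s ![[(i, false)], [(j, false), (i, true)], [(j, true)]])
  + bas d (fill s ![[(i, false)], [(j, false)], [(i, true), (j, true)]])
  - bas d (fill s ![[(i, false)], [(j, false)], [(j, true), (i, true)]])

/-- The relations of the chord diagram space: the labels do not matter, the two endpoints of a chord
are not distinguished, and 4T (for all positions of the three subarcs on the interval). -/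
noncomputable def relC (d : ℕ) : Submodule ℚ (Free d) :=
  Submodule.span ℚ
    ({v | ∃ (s : ℕ → ℕ) (w : List H), Function.Injective s ∧ v = bas d (w.map (ren s)) - bas d w} ∪
     {v | ∃ (i : ℕ) (w : List H), v = bas d (w.map (flS {i})) - bas d w} ∪
     {v | ∃ (s : List (H ⊕ Fin 3)) (i j : ℕ), (marks s).Perm [0, 1, 2] ∧ v = rel4 d s i j})

/-- The relations of the arrow diagram space: the labels do not matter, and 6T (for all positions of
the three subarcs on the interval). -/
noncomputable def relA (d : ℕ) : Submodule ℚ (Free d) :=
  Submodule.span ℚ
    ({v | ∃ (s : ℕ → ℕ) (w : List H), Function.Injective s ∧ v = bas d (w.map (ren s)) - bas d w} ∪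
     {v | ∃ (s : List (H ⊕ Fin 3)) (i j : ℕ), (marks s).Perm [0, 1, 2] ∧ v = rel6 d s i j})

/-- The space of chord diagrams of degree `d` on the interval modulo 4T. -/
abbrev ChordSp (d : ℕ) := Free d ⧸ relC d

/-- The space of arrow diagrams of degree `d` on the interval modulo 6T. -/
abbrev ArrowSp (d : ℕ) := Free d ⧸ relA d

/-- The class of a labelled diagram in the chord diagram space. -/
noncomputable def chord (d : ℕ) (w : List H) : ChordSp d := (relC d).mkQ (bas d w)

/-- The class of a labelled diagram in the arrow diagram space. -/
noncomputable def arrow (d : ℕ) (w : List H) : ArrowSp d := (relA d).mkQ (bas d w)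

/-- The span of the chord diagrams with an isolated chord. -/
noncomputable def FI (d : ℕ) : Submodule ℚ (ChordSp d) :=
  Submodule.span ℚ {x | ∃ (u v : List H) (h : H), x = chord d (u ++ h :: pt h :: v)}

/-- The span of the arrow diagrams with an isolated arrow (of either orientation). -/
noncomputable def aFI (d : ℕ) : Submodule ℚ (ArrowSp d) :=
  Submodule.span ℚ {x | ∃ (u v : List H) (h : H), x = arrow d (u ++ h :: pt h :: v)}

/-- The sum of the `2 ^ d` orientations of a chord diagram, on labelled diagrams. -/
noncomputable def phi0 (d : ℕ) : Free d →ₗ[ℚ] Free d :=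
  Finsupp.linearCombination ℚ (fun w => ∑ S ∈ (labs w.1).powerset, bas d (w.1.map (flS S)))

end CA247
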