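import Pool.Agent.CA247.MZ

set_option autoImplicit false

namespace CA247

/-- Functionals on functions of words that are finite linear combinations of evaluations. -/
def Rep (Φ : (List H → ℚ) → ℚ) : Prop :=
  ∃ v : List H →₀ ℚ, ∀ F : List H → ℚ, Φ F = Finsupp.linearCombination ℚ F v

theorem Rep.ev (w : List H) : Rep (fun F => F w) :=
  ⟨Finsupp.single w 1, fun F => by rw [Finsupp.linearCombination_single, one_smul]⟩

theorem Rep.zero : Rep (fun _ => 0) := ⟨0, fun F => by rw [map_zero]⟩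

theorem Rep.add {Φ Ψ : (List H → ℚ) → ℚ} (h1 : Rep Φ) (h2 : Rep Ψ) : Rep (fun F => Φ F + Ψ F) := by
  obtain ⟨v1, h1⟩ := h1
  obtain ⟨v2, h2⟩ := h2
  exact ⟨v1 + v2, fun F => by rw [map_add, ← h1, ← h2]⟩

theorem Rep.sub {Φ Ψ : (List H → ℚ) → ℚ} (h1 : Rep Φ) (h2 : Rep Ψ) : Rep (fun F => Φ F - Ψ F) := by
  obtain ⟨v1, h1⟩ := h1
  obtain ⟨v2, h2⟩ := h2
  exact ⟨v1 - v2, fun F => by rw [map_sub, ← h1, ← h2]⟩

theorem Rep.mul {Φ : (List H → ℚ) → ℚ} (c : ℚ) (h1 : Rep Φ) : Rep (fun F => c * Φ F) := by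
  obtain ⟨v1, h1⟩ := h1
  exact ⟨c • v1, fun F => by rw [map_smul, ← h1, smul_eq_mul]⟩

theorem fhn_rep : ∀ (n : ℕ) (w : List H) (V : Multiset (List H)), Rep (fun F => fhn F n w V) := by
  intro n
  induction n with
  | zero =>
    intro w V
    simp only [fhn]
    by_cases h : V.card = 0
    · simp only [h, if_true]; exact Rep.ev w
    · simp only [h, if_false]; exact Rep.zero
  | succ n ih =>
    intro w V
    simp only [fhn]
    rcases hs : stepOf w V with _ | s
    · exact Rep.zero
    · exact (ih _ _).sub (ih _ _)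

theorem fh_rep (w : List H) (V : Multiset (List H)) : Rep (fun F => fh F w V) := by
  unfold fh
  by_cases h : Nod w V
  · simp only [h, if_true]; exact fhn_rep _ _ _
  · simp only [h, if_false]; exact Rep.zero

theorem alt4_rep {f : (List H → ℚ) → H → H → H → H → ℚ} (h : ∀ a b c d, Rep (fun F => f F a b c d))
    (a b c d : H) : Rep (fun F => alt4 (f F) a b c d) := by
  unfold alt4
  exact (((((((((((((((((((((((h _ _ _ _).sub (h _ _ _ _)).sub (h _ _ _ _)).add (h _ _ _ _)).add
    (h _ _ _ _)).sub (h _ _ _ _)).sub (h _ _ _ _)).add (h _ _ _ _)).add (h _ _ _ _)).sub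
    (h _ _ _ _)).sub (h _ _ _ _)).add (h _ _ _ _)).add (h _ _ _ _)).sub (h _ _ _ _)).sub
    (h _ _ _ _)).add (h _ _ _ _)).add (h _ _ _ _)).sub (h _ _ _ _)).sub (h _ _ _ _)).add
    (h _ _ _ _)).add (h _ _ _ _)).sub (h _ _ _ _)).sub (h _ _ _ _)).add (h _ _ _ _)

theorem alt3_rep {f : (List H → ℚ) → H → H → H → ℚ} (h : ∀ a b c, Rep (fun F => f F a b c))
    (a b c : H) : Rep (fun F => alt3 (f F) a b c) := by
  unfold alt3
  exact (((((h _ _ _).sub (h _ _ _)).sub (h _ _ _)).add (h _ _ _)).add (h _ _ _)).sub (h _ _ _)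

theorem EE_rep (p1 a1 b1 c1 d1 p2 a2 b2 c2 d2 y1 y2 y3 : H) :
    Rep (fun F => EE F p1 a1 b1 c1 d1 p2 a2 b2 c2 d2 y1 y2 y3) := by
  unfold EE
  refine alt3_rep (fun u v w => ?_) _ _ _
  unfold KK
  refine alt4_rep (fun a b c d => ?_) _ _ _ _
  unfold Kv
  exact alt4_rep (fun a b c d => fh_rep _ _) _ _ _ _

theorem M_rep : Rep (fun F => M3 F - 3 * M2 F) :=
  (EE_rep _ _ _ _ _ _ _ _ _ _ _ _ _).sub ((EE_rep _ _ _ _ _ _ _ _ _ _ _ _ _).mul 3)

theorem M_rep' : ∃ v : List H →₀ ℚ, ∀ F : List H → ℚ,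
    M3 F - 3 * M2 F = Finsupp.linearCombination ℚ F v := M_rep

/-! ### only words of length 18 matter -/

theorem fhn_len {F G : List H → ℚ} : ∀ (n : ℕ) (w : List H) (V : Multiset (List H)), V.card = n →
    Nod w V → (∀ u : List H, u.length = w.length + n → F u = G u) → fhn F n w V = fhn G n w V := by
  intro n
  induction n with
  | zero =>
    intro w V hV hN h
    simp only [fhn, hV, if_true]
    exact h w (by simp)
  | succ n ih =>
    intro w V hV hN h
    simp only [fhn]
    by_cases hs : ∃ s, IsStep w V s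
    · obtain ⟨s, h1, h2⟩ := stepOf_some hs
      rw [h1]
      simp only
      have nd := step_nod hN h2
      have hm := h2.1
      obtain ⟨-, -, r, hr, hV'⟩ := h2
      have hc : s.V'.card = n := by
        have := congrArg Multiset.card hV'
        rw [Multiset.card_cons, hV] at this
        omega
      have len : ∀ l : List H, l.length = 2 → (CA247.sub s.h l w).length = w.length + 1 := by
        intro l hl
        have := congrArg Multiset.card (coe_sub (l := l) hN.wn hm)
        rw [Multiset.card_add, Multiset.card_add, Multiset.coe_card, Multiset.coe_card,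
          Multiset.coe_card, Multiset.card_singleton, hl] at this
        omega
      rw [ih _ _ hc nd.1 (fun u hu => h u (by rw [hu, len _ rfl]; omega)),
        ih _ _ hc nd.2 (fun u hu => h u (by rw [hu, len _ rfl]; omega))]
    · rw [stepOf_none hs]

theorem fh_len {F G : List H → ℚ} {w : List H} {V : Multiset (List H)}
    (h : ∀ u : List H, u.length = w.length + V.card → F u = G u) : fh F w V = fh G w V := by
  unfold fh
  by_cases hN : Nod w V
  · rw [if_pos hN, if_pos hN]; exact fhn_len _ _ _ rfl hN h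
  · rw [if_neg hN, if_neg hN]

theorem alt4_len {f g : H → H → H → H → ℚ} (h : ∀ a b c d, f a b c d = g a b c d) (a b c d : H) :
    alt4 f a b c d = alt4 g a b c d := by
  have : f = g := by funext a b c d; exact h a b c d
  rw [this]

theorem alt3_len {f g : H → H → H → ℚ} (h : ∀ a b c, f a b c = g a b c) (a b c : H) :
    alt3 f a b c = alt3 g a b c := by
  have : f = g := by funext a b c; exact h a b c
  rw [this]

theorem EE_len {F G : List H → ℚ} (h : ∀ u : List H, u.length = 18 → F u = G u)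
    (p1 a1 b1 c1 d1 p2 a2 b2 c2 d2 y1 y2 y3 : H) :
    EE F p1 a1 b1 c1 d1 p2 a2 b2 c2 d2 y1 y2 y3 = EE G p1 a1 b1 c1 d1 p2 a2 b2 c2 d2 y1 y2 y3 := by
  unfold EE
  refine alt3_len (fun u v w => ?_) _ _ _
  unfold KK
  refine alt4_len (fun a b c d => ?_) _ _ _ _
  unfold Kv
  refine alt4_len (fun a' b' c' d' => ?_) _ _ _ _
  apply fh_len
  intro z hz
  exact h z hz

theorem M_len {F G : List H → ℚ} (h : ∀ u : List H, u.length = 18 → F u = G u) :
    M3 F - 3 * M2 F = M3 G - 3 * M2 G := by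
  unfold M3 M2
  rw [EE_len h, EE_len h]

end CA247
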