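import Pool.Agent.CA247.ValA

set_option autoImplicit false

namespace CA247

def SP : TP := [(1, [[21, 23, 25]]), (-1, [[21, 25, 23]]), (-1, [[23, 21, 25]]), (1, [[23, 25, 21]]),
  (1, [[25, 21, 23]]), (-1, [[25, 23, 21]])]
def YP : TP := [(1, [[31, 33, 35]]), (-1, [[31, 35, 33]])]

theorem SP_spec (m : H → R) :
    alt3 (fun u v w => TW [u, v, w] m) (10, true) (11, true) (12, true) = sP m SP := by
  have e : ∀ a b c : ℕ, wd m [a, b, c] = TW [decH a, decH b, decH c] m := fun a b c => rfl
  unfold SP alt3
  simp only [sP_cons, sP_nil, sW_cons, sW_nil, e]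
  have d1 : decH 21 = (10, true) := rfl
  have d2 : decH 23 = (11, true) := rfl
  have d3 : decH 25 = (12, true) := rfl
  rw [d1, d2, d3]
  push_cast; ring

theorem YP_spec (m : H → R) : vt [m (15, true), m (16, true), m (17, true)] = sP m YP := by
  unfold YP vt
  simp only [sP_cons, sP_nil, sW_cons, sW_nil, wd, pr_cons, pr_nil]
  have d1 : decH 31 = (15, true) := rfl
  have d2 : decH 33 = (16, true) := rfl
  have d3 : decH 35 = (17, true) := rfl
  rw [d1, d2, d3]
  simp only [Matrix.mul_one, Matrix.mul_assoc]
  push_cast; ring

def Lo : List ℕ := [10, 11, 12] ++ ([13, 14] ++ [15, 16, 17])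
def Lo2 : List ℕ := [10, 11, 12] ++ ([15, 13, 14] ++ [16, 17])

def noL (L : List ℕ) (P : TP) : Bool :=
  P.all (fun t => t.2.all (fun u => L.all (fun l => nol l u)))

theorem sW_indep {L : List ℕ} {W : List (List ℕ)}
    (h : W.all (fun u => L.all (fun l => nol l u)) = true) {m m' : H → R}
    (hm : ∀ h : H, h.1 ∉ L → m h = m' h) : sW m W = sW m' W := by
  unfold sW
  congr 1
  apply List.map_congr_left
  intro u hu
  unfold wd pr
  congr 2
  apply List.map_congr_left
  intro n hn
  apply hm
  intro hL
  rw [List.all_eq_true] at h
  have h2 := h u hu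
  rw [List.all_eq_true] at h2
  have h3 := h2 _ hL
  unfold nol at h3
  rw [List.all_eq_true] at h3
  have h4 := h3 n hn
  have : n / 2 = (decH n).1 := rfl
  rw [this] at h4
  simp at h4

theorem noL_spec {L : List ℕ} {P : TP} (h : noL L P = true) {m m' : H → R}
    (hm : ∀ h : H, h.1 ∉ L → m h = m' h) : sP m P = sP m' P := by
  induction P with
  | nil => rfl
  | cons t P ih =>
    unfold noL at h
    rw [List.all_cons, Bool.and_eq_true] at h
    rw [sP_cons, sP_cons, sW_indep h.1 hm, ih h.2]

def stg (L : List ℕ) (P Q P' : TP) : Bool :=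
  noL L Q && (match ctA L P with
    | none => false
    | some P1 => eqP P1 P')

theorem stg_spec {L : List ℕ} {P Q P' : TP} (h : stg L P Q P' = true) (m : H → R) :
    ev ME L m (fun m => sP m Q * sP m P) = sP m Q * sP m P' := by
  unfold stg at h
  rw [Bool.and_eq_true] at h
  rw [ev_mul_indep ME (fun m => sP m P) L m (fun m m' hm => noL_spec h.1 hm)]
  cases hq : ctA L P with
  | none =>
    have h2 := h.2
    rw [hq] at h2; simp at h2
  | some P1 =>
    have h2 := h.2
    rw [hq] at h2
    rw [ctA_spec m hq, eqP_spec h2]

theorem rchY : Rch ({((15, false) : H)} + {((16, false) : H)} + {((17, false) : H)})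
    {[(15, true), (16, true), (17, true)]} := by
  have e : ({[(15, true), (16, true), (17, true)]} : Multiset (List H))
      = [(15, true), (16, true), (17, true)] ::ₘ 0 := rfl
  rw [e]
  refine Rch.step (h := (15, false)) (x := (16, true)) (y := (17, true))
    (A' := {((16, false) : H)} + {((17, false) : H)}) (by norm_num) (Or.inl rfl) ?_ (Rch.nil _)
  rw [← Multiset.singleton_add]; abel

theorem M3_gg_pre {w : List H} (hw : (w : Multiset H) = W0) :
    KK gg w (13, false) (15, false) (16, false) (17, false) (14, false)
      (13, true) (10, false) (11, false) (12, false) (14, true) (15, true) (16, true) (17, true)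
      = ev ME Lo (fun _ => 1) (fun m => TW w m * (vt [m (15, true), m (16, true), m (17, true)] *
        (Kh 20 (13, false) (15, false) (16, false) (17, false) (14, false) m
          * Kh 40 (13, true) (10, false) (11, false) (12, false) (14, true) m))) := by
  refine KK_val ?_ (C := _) rfl ?_ ?_ ?_ ?_ ?_ ?_
  · intro a b c d a' b' c' d' h1 h2
    have := rch3 hw rchY a b c d a' b' c' d' h1 h2
    refine cast (congrArg (Rch (w : Multiset H)) ?_) this
    rw [← Multiset.singleton_add]; abel
  · rw [hw]; decide +kernel
  · rw [hw]; decide +kernel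
  · decide +kernel
  · decide +kernel
  · rw [hw]; decide +kernel
  · rw [hw]; decide +kernel

theorem M2_gg_pre {w : List H} (hw : (w : Multiset H) = W0) :
    KK gg w (15, false) (10, false) (11, false) (13, false) (14, false)
      (13, true) (16, false) (17, false) (12, false) (14, true) (15, true) (16, true) (17, true)
      = ev ME Lo2 (fun _ => 1) (fun m => TW w m * (vt [m (15, true), m (16, true), m (17, true)] *
        (Kh 20 (15, false) (10, false) (11, false) (13, false) (14, false) m
          * Kh 40 (13, true) (16, false) (17, false) (12, false) (14, true) m))) := by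
  refine KK_val ?_ (C := _) rfl ?_ ?_ ?_ ?_ ?_ ?_
  · intro a b c d a' b' c' d' h1 h2
    have := rch2 hw rchY a b c d a' b' c' d' h1 h2
    refine cast (congrArg (Rch (w : Multiset H)) ?_) this
    rw [← Multiset.singleton_add]; abel
  · rw [hw]; decide +kernel
  · rw [hw]; decide +kernel
  · decide +kernel
  · decide +kernel
  · rw [hw]; decide +kernel
  · rw [hw]; decide +kernel

def k3a : TP := sbP (sub5 30 32 34 28 26) kpg
def k3b : TP := sbP (sub5 20 22 24 29 27) kpg
def k2a : TP := sbP (sub5 20 22 26 28 30) kpg
def k2b : TP := sbP (sub5 32 34 24 29 27) kpg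

theorem Kh3a (m : H → R) : Kh 20 (13, false) (15, false) (16, false) (17, false) (14, false) m
    = sP m k3a :=
  Kh_val (s := 20) (p := 26) (a := 30) (b := 32) (c := 34) (d := 28) (by norm_num) chkT20
    (by decide) (by decide) (by decide) (by decide) (by decide) m
theorem Kh3b (m : H → R) : Kh 40 (13, true) (10, false) (11, false) (12, false) (14, true) m
    = sP m k3b :=
  Kh_val (s := 40) (p := 27) (a := 20) (b := 22) (c := 24) (d := 29) (by norm_num) chkT40
    (by decide) (by decide) (by decide) (by decide) (by decide) m
theorem Kh2a (m : H → R) : Kh 20 (15, false) (10, false) (11, false) (13, false) (14, false) m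
    = sP m k2a :=
  Kh_val (s := 20) (p := 30) (a := 20) (b := 22) (c := 26) (d := 28) (by norm_num) chkT20
    (by decide) (by decide) (by decide) (by decide) (by decide) m
theorem Kh2b (m : H → R) : Kh 40 (13, true) (16, false) (17, false) (12, false) (14, true) m
    = sP m k2b :=
  Kh_val (s := 40) (p := 27) (a := 32) (b := 34) (c := 24) (d := 29) (by norm_num) chkT40
    (by decide) (by decide) (by decide) (by decide) (by decide) m

def A3 : TP := [(540, [[26], [28]]), (-1620, [[26, 28]])]
def B3 : TP := [(437400, [[20, 24, 22]]), (-437400, [[20, 22, 24]])]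
def A2 : TP :=
  [(-108, [[24], [27], [29, 31]]), (-108, [[24, 27], [29], [31]]), (324, [[24, 27], [29, 31]]),
  (-324, [[24, 31], [27, 29]]), (108, [[24], [27, 29], [31]]), (108, [[24, 31], [27], [29]]),
  (108, [[24, 29, 27, 31]]), (-108, [[24, 29, 31, 27]]), (-108, [[24, 27, 31, 29]]), (108, [[24,
  31, 27, 29]])]
def B2 : TP := [(-87480, [[20, 24, 22]]), (87480, [[20, 22, 24]])]

theorem s3a : stg [15, 16, 17] (mulP YP k3a) (mulP SP k3b) A3 = true := by decide +kernel
theorem s3b : stg [13, 14] (mulP k3b A3) SP B3 = true := by decide +kernel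
theorem s3c : stg [10, 11, 12] (mulP SP B3) [(1, [])] [(62985600, [])] = true := by decide +kernel
theorem s2a : stg [16, 17] (mulP YP k2b) (mulP SP k2a) A2 = true := by decide +kernel
theorem s2b : stg [15, 13, 14] (mulP k2a A2) SP B2 = true := by decide +kernel
theorem s2c : stg [10, 11, 12] (mulP SP B2) [(1, [])] [(-12597120, [])] = true := by decide +kernel

theorem M3_gg : M3 gg = 62985600 := by
  have hw : ∀ u v w : H, ({u} + {v} + {w} : Multiset H)
      = {((10, true) : H)} + {((11, true) : H)} + {((12, true) : H)} →
      (([u, v, w] : List H) : Multiset H) = W0 := fun u v w h => h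
  unfold M3 EE
  have e1 : alt3 (fun u v w => KK gg [u, v, w] (13, false) (15, false) (16, false) (17, false)
      (14, false) (13, true) (10, false) (11, false) (12, false) (14, true) (15, true) (16, true)
      (17, true)) (10, true) (11, true) (12, true)
      = alt3 (fun u v w => ev ME Lo (fun _ => 1) (fun m => TW [u, v, w] m *
        (vt [m (15, true), m (16, true), m (17, true)] *
        (Kh 20 (13, false) (15, false) (16, false) (17, false) (14, false) m
          * Kh 40 (13, true) (10, false) (11, false) (12, false) (14, true) m))))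
        (10, true) (11, true) (12, true) :=
    alt3_congrM (fun u v w h => M3_gg_pre (hw u v w h))
  rw [e1, ← ev_alt3 ME Lo (fun _ => 1) (fun u v w m => TW [u, v, w] m *
        (vt [m (15, true), m (16, true), m (17, true)] *
        (Kh 20 (13, false) (15, false) (16, false) (17, false) (14, false) m
          * Kh 40 (13, true) (10, false) (11, false) (12, false) (14, true) m)))]
  have e2 : ∀ m : H → R, alt3 (fun u v w => TW [u, v, w] m *
        (vt [m (15, true), m (16, true), m (17, true)] *
        (Kh 20 (13, false) (15, false) (16, false) (17, false) (14, false) m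
          * Kh 40 (13, true) (10, false) (11, false) (12, false) (14, true) m)))
          (10, true) (11, true) (12, true)
          = sP m (mulP SP k3b) * sP m (mulP YP k3a) := by
    intro m
    rw [mulP_spec, mulP_spec, ← SP_spec, ← YP_spec, ← Kh3a, ← Kh3b]
    unfold alt3; ring
  rw [ev_congr ME Lo (fun _ => 1) e2]
  unfold Lo
  rw [ev_append, ev_congr ME [10, 11, 12] (fun _ => 1)
    (T' := fun m => sP m [(1, [])] * sP m (mulP SP B3)) ?_, stg_spec s3c]
  · simp only [sP_cons, sP_nil, sW_nil]; norm_num
  · intro m
    rw [ev_append, ev_congr ME [13, 14] m (T' := fun m => sP m SP * sP m (mulP k3b A3)) ?_,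
      stg_spec s3b, mulP_spec]
    · simp only [sP_cons, sP_nil, sW_nil]; ring
    · intro m
      rw [stg_spec s3a, mulP_spec, mulP_spec]; ring

theorem M2_gg : M2 gg = -12597120 := by
  have hw : ∀ u v w : H, ({u} + {v} + {w} : Multiset H)
      = {((10, true) : H)} + {((11, true) : H)} + {((12, true) : H)} →
      (([u, v, w] : List H) : Multiset H) = W0 := fun u v w h => h
  unfold M2 EE
  have e1 : alt3 (fun u v w => KK gg [u, v, w] (15, false) (10, false) (11, false) (13, false)
      (14, false) (13, true) (16, false) (17, false) (12, false) (14, true) (15, true) (16, true)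
      (17, true)) (10, true) (11, true) (12, true)
      = alt3 (fun u v w => ev ME Lo2 (fun _ => 1) (fun m => TW [u, v, w] m *
        (vt [m (15, true), m (16, true), m (17, true)] *
        (Kh 20 (15, false) (10, false) (11, false) (13, false) (14, false) m
          * Kh 40 (13, true) (16, false) (17, false) (12, false) (14, true) m))))
        (10, true) (11, true) (12, true) :=
    alt3_congrM (fun u v w h => M2_gg_pre (hw u v w h))
  rw [e1, ← ev_alt3 ME Lo2 (fun _ => 1) (fun u v w m => TW [u, v, w] m *
        (vt [m (15, true), m (16, true), m (17, true)] *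
        (Kh 20 (15, false) (10, false) (11, false) (13, false) (14, false) m
          * Kh 40 (13, true) (16, false) (17, false) (12, false) (14, true) m)))]
  have e2 : ∀ m : H → R, alt3 (fun u v w => TW [u, v, w] m *
        (vt [m (15, true), m (16, true), m (17, true)] *
        (Kh 20 (15, false) (10, false) (11, false) (13, false) (14, false) m
          * Kh 40 (13, true) (16, false) (17, false) (12, false) (14, true) m)))
          (10, true) (11, true) (12, true)
          = sP m (mulP SP k2a) * sP m (mulP YP k2b) := by
    intro m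
    rw [mulP_spec, mulP_spec, ← SP_spec, ← YP_spec, ← Kh2a, ← Kh2b]
    unfold alt3; ring
  rw [ev_congr ME Lo2 (fun _ => 1) e2]
  unfold Lo2
  rw [ev_append, ev_congr ME [10, 11, 12] (fun _ => 1)
    (T' := fun m => sP m [(1, [])] * sP m (mulP SP B2)) ?_, stg_spec s2c]
  · simp only [sP_cons, sP_nil, sW_nil]; norm_num
  · intro m
    rw [ev_append, ev_congr ME [15, 13, 14] m (T' := fun m => sP m SP * sP m (mulP k2a A2)) ?_,
      stg_spec s2b, mulP_spec]
    · simp only [sP_cons, sP_nil, sW_nil]; ring
    · intro m
      rw [stg_spec s2a, mulP_spec, mulP_spec]; ring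

theorem M_gg : M3 gg - 3 * M2 gg ≠ 0 := by
  rw [M3_gg, M2_gg]; norm_num

end CA247
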