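import Pool.Agent.CA247.Base4
import Pool.Agent.CA247.Rep
import Pool.Agent.CA247.Val2

/-!
# The induced map on chord diagrams, and the answer to Q2 of `MP_c2e4b2_gt`
-/

set_option autoImplicit false

namespace CA247

theorem bas_of_not {d : ℕ} {w : List H} (h : ¬ IsWord d w) : bas d w = 0 := by
  unfold bas; rw [dif_neg h]

theorem isWord_map {d : ℕ} {w : List H} {τ : H → H} (hi : Function.Injective τ)
    (hp : ∀ h, τ (pt h) = pt (τ h)) : IsWord d (w.map τ) ↔ IsWord d w := by
  have := Clo_map hi hp w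
  unfold Clo at this
  unfold IsWord
  rw [List.length_map]
  tauto

theorem phi0_bas (d : ℕ) (w : List H) :
    phi0 d (bas d w) = ∑ S ∈ (labs w).powerset, bas d (w.map (flS S)) := by
  by_cases h : IsWord d w
  · have : bas d w = Finsupp.single ⟨w, h⟩ 1 := by unfold bas; rw [dif_pos h]
    rw [this]
    unfold phi0
    rw [Finsupp.linearCombination_single, one_smul]
  · rw [bas_of_not h, map_zero]
    symm
    apply Finset.sum_eq_zero
    intro S _
    rw [bas_of_not]
    rwa [isWord_map (flS_inj S) (fun h => flS_pt S h)]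

theorem arrB_of {d : ℕ} (ψ : ArrowSp d →ₗ[ℚ] ℚ) : ArrB (fun w => ψ (arrow d w)) := by
  have mem : ∀ v ∈ relA d, ψ ((relA d).mkQ v) = 0 := by
    intro v hv
    have : (relA d).mkQ v = 0 := by
      rw [← LinearMap.mem_ker, Submodule.ker_mkQ]; exact hv
    rw [this, map_zero]
  refine ⟨?_, ?_, ?_⟩
  · intro s hs w
    have := mem _ (Submodule.subset_span (Or.inl ⟨s, w, hs, rfl⟩))
    rw [map_sub, map_sub] at this
    exact sub_eq_zero.1 this
  · intro w hw
    have : ¬ IsWord d w := fun h => hw ⟨h.1, h.2.1⟩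
    simp only [arrow, bas_of_not this, map_zero]
  · intro s i j hs
    have := mem _ (Submodule.subset_span (Or.inr ⟨s, i, j, hs, rfl⟩))
    unfold rel6 at this
    simp only [map_add, map_sub] at this
    exact this

theorem Ft_dual {d : ℕ} (ψ : ArrowSp d →ₗ[ℚ] ℚ) (w : List H) :
    ψ ((relA d).mkQ (phi0 d (bas d w))) = Ft (fun w => ψ (arrow d w)) w := by
  rw [phi0_bas, map_sum, map_sum]
  rfl

/-- The sum of the orientations respects the relations. -/
theorem phi0_rel (d : ℕ) : relC d ≤ (relA d).comap (phi0 d) := by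
  unfold relC
  rw [Submodule.span_le]
  intro v hv
  show phi0 d v ∈ relA d
  rw [← Submodule.ker_mkQ (relA d), LinearMap.mem_ker, ← Module.forall_dual_apply_eq_zero_iff ℚ]
  intro ψ
  have hf := arrB_of ψ
  rcases hv with (⟨s, w, hs, rfl⟩ | ⟨i, w, rfl⟩) | ⟨s, i, j, hs, rfl⟩
  · rw [map_sub, map_sub, map_sub, Ft_dual, Ft_dual, Ft_ren hf hs, _root_.sub_self]
  · rw [map_sub, map_sub, map_sub, Ft_dual, Ft_dual, Ft_flip, _root_.sub_self]
  · unfold rel4
    simp only [map_add, map_sub, Ft_dual]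
    exact four_of_inv (fun u hu => Ft_open hf hu) (Ft_inv hf) hs i j

/-- The map `φ_d` from chord diagrams to arrow diagrams: a chord diagram goes to the sum of its
`2 ^ d` oriented versions. -/
noncomputable def phi (d : ℕ) : ChordSp d →ₗ[ℚ] ArrowSp d :=
  Submodule.mapQ (relC d) (relA d) (phi0 d) (phi0_rel d)

theorem phi_chord (d : ℕ) (w : List H) :
    phi d (chord d w) = ∑ S ∈ (labs w).powerset, arrow d (w.map (flS S)) := by
  have : phi d (chord d w) = (relA d).mkQ (phi0 d (bas d w)) := rfl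
  rw [this, phi0_bas, map_sum]
  rfl

/-- `φ_d` maps `FI` to the span of the arrow diagrams with an isolated arrow. -/
theorem phi_FI (d : ℕ) : FI d ≤ (aFI d).comap (phi d) := by
  unfold FI
  rw [Submodule.span_le]
  rintro _ ⟨u, v, h, rfl⟩
  rw [SetLike.mem_coe, Submodule.mem_comap, phi_chord]
  apply Submodule.sum_mem
  intro S _
  apply Submodule.subset_span
  refine ⟨u.map (flS S), v.map (flS S), flS S h, ?_⟩
  rw [List.map_append, List.map_cons, List.map_cons, flS_pt]

/-- The induced map `φ̄_d` modulo isolated chords and arrows. -/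
noncomputable def phiBar (d : ℕ) : (ChordSp d ⧸ FI d) →ₗ[ℚ] (ArrowSp d ⧸ aFI d) :=
  Submodule.mapQ (FI d) (aFI d) (phi d) (phi_FI d)

theorem functional_of {d : ℕ} {F : List H → ℚ} (hw : ∀ w, ¬ IsWord d w → F w = 0)
    (hren : ∀ s : ℕ → ℕ, Function.Injective s → ∀ w : List H, F (w.map (ren s)) = F w)
    (hfl : ∀ (i : ℕ) (w : List H), F (w.map (flS {i})) = F w)
    (h4 : ∀ (s : List (H ⊕ Fin 3)) (i j : ℕ), (marks s).Perm [0, 1, 2] → D4 F s i j = 0) :
    ∃ G : ChordSp d →ₗ[ℚ] ℚ, ∀ w, G (chord d w) = F w := by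
  set G0 : Free d →ₗ[ℚ] ℚ := Finsupp.linearCombination ℚ (fun w => F w.1) with hG0
  have ev : ∀ w, G0 (bas d w) = F w := by
    intro w
    by_cases h : IsWord d w
    · have : bas d w = Finsupp.single ⟨w, h⟩ 1 := by unfold bas; rw [dif_pos h]
      rw [this, hG0, Finsupp.linearCombination_single, one_smul]
    · rw [bas_of_not h, map_zero, hw w h]
  have hk : relC d ≤ LinearMap.ker G0 := by
    unfold relC
    rw [Submodule.span_le]
    intro v hv
    show v ∈ LinearMap.ker G0
    rw [LinearMap.mem_ker]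
    rcases hv with (⟨s, w, hs, rfl⟩ | ⟨i, w, rfl⟩) | ⟨s, i, j, hs, rfl⟩
    · rw [map_sub, ev, ev, hren s hs, _root_.sub_self]
    · rw [map_sub, ev, ev, hfl, _root_.sub_self]
    · unfold rel4
      simp only [map_add, map_sub, ev]
      exact h4 s i j hs
  refine ⟨(relC d).liftQ G0 hk, fun w => ?_⟩
  have : (relC d).liftQ G0 hk (chord d w) = G0 (bas d w) := rfl
  rw [this, ev]

/-- The deframed `gl_3` weight system in degree `9`. -/
noncomputable def g9 (w : List H) : ℚ := if w.length = 18 then gg w else 0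

theorem g9_functional : ∃ G : ChordSp 9 →ₗ[ℚ] ℚ, ∀ w, G (chord 9 w) = g9 w := by
  have hcl : ∀ u, ¬ Clo u → g9 u = 0 := by
    intro u hu
    unfold g9 gg
    rw [if_neg hu]
    split_ifs <;> rfl
  apply functional_of
  · intro w hw
    by_cases hc : Clo w
    · have : w.length ≠ 18 := fun h => hw ⟨hc.1, hc.2, h⟩
      unfold g9; rw [if_neg this]
    · exact hcl w hc
  · intro s hs w
    unfold g9
    rw [List.length_map, gg_rel ⟨ren_inj hs, fun h => ren_pt s h⟩]
  · intro i w
    unfold g9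
    rw [List.length_map, gg_rel ⟨flS_inj _, fun h => flS_pt _ h⟩]
  · intro s i j hs
    refine four_of_inv hcl ?_ hs i j
    intro w a x hw ha hpa hx
    have len : ∀ (h : H), h ∈ w → ∀ l : List H, l.length = 2 → (CA247.sub h l w).length = w.length + 1 := by
      intro h hh l hl
      have := congrArg Multiset.card (coe_sub (l := l) hw hh)
      rw [Multiset.card_add, Multiset.card_add, Multiset.coe_card, Multiset.coe_card,
        Multiset.coe_card, Multiset.card_singleton, hl] at this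
      omega
    unfold g9
    rw [len a ha _ rfl, len a ha _ rfl, len _ hpa _ rfl, len _ hpa _ rfl]
    by_cases h : w.length + 1 = 18
    · simp only [h, if_true]
      exact gg_inv w a x hw ha hpa hx
    · simp only [h, if_false]; ring

theorem main : ∃ x : ChordSp 9, x ∉ FI 9 ∧ phi 9 x ∈ aFI 9 := by
  obtain ⟨v, hv⟩ := M_rep'
  refine ⟨Finsupp.linearCombination ℚ (chord 9) v, ?_, ?_⟩
  · obtain ⟨G, hG⟩ := g9_functional
    intro hx
    have h0 : FI 9 ≤ LinearMap.ker G := by
      unfold FI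
      rw [Submodule.span_le]
      rintro _ ⟨u, v, h, rfl⟩
      show _ ∈ LinearMap.ker G
      rw [LinearMap.mem_ker, hG]
      unfold g9
      rw [gg_iso]
      split_ifs <;> rfl
    have h1 : G (Finsupp.linearCombination ℚ (chord 9) v) = 0 := LinearMap.mem_ker.1 (h0 hx)
    rw [Finsupp.apply_linearCombination] at h1
    have h2 : (G ∘ chord 9) = g9 := by funext w; exact hG w
    rw [h2, ← hv g9] at h1
    have h3 : M3 g9 - 3 * M2 g9 = M3 gg - 3 * M2 gg := by
      apply M_len
      intro u hu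
      unfold g9
      rw [if_pos hu]
    rw [h3] at h1
    exact M_gg h1
  · rw [← Submodule.ker_mkQ (aFI 9), LinearMap.mem_ker, ← Module.forall_dual_apply_eq_zero_iff ℚ]
    intro ψ
    set ψ' : ArrowSp 9 →ₗ[ℚ] ℚ := ψ ∘ₗ (aFI 9).mkQ with hψ
    have e1 : ψ ((aFI 9).mkQ (phi 9 (Finsupp.linearCombination ℚ (chord 9) v)))
        = (ψ' ∘ₗ phi 9) (Finsupp.linearCombination ℚ (chord 9) v) := rfl
    rw [e1, Finsupp.apply_linearCombination]
    have hf : ArrF (fun w => ψ' (arrow 9 w)) := by
      refine ⟨arrB_of ψ', ?_⟩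
      intro u v h
      have : (aFI 9).mkQ (arrow 9 (u ++ h :: pt h :: v)) = 0 := by
        rw [← LinearMap.mem_ker, Submodule.ker_mkQ]
        exact Submodule.subset_span ⟨u, v, h, rfl⟩
      show ψ ((aFI 9).mkQ (arrow 9 (u ++ h :: pt h :: v))) = 0
      rw [this, map_zero]
    have e2 : ((ψ' ∘ₗ phi 9) ∘ chord 9) = Ft (fun w => ψ' (arrow 9 w)) := by
      funext w
      exact Ft_dual ψ' w
    rw [e2, ← hv]
    exact MZ (Ft_goodC hf.toArrB) (Fe_goodJ hf) (Ft_nax hf.toArrB)

theorem not_injective : ¬ Function.Injective (phiBar 9) := by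
  intro hinj
  obtain ⟨x, h1, h2⟩ := main
  apply h1
  have h3 : phiBar 9 ((FI 9).mkQ x) = 0 := by
    have : phiBar 9 ((FI 9).mkQ x) = (aFI 9).mkQ (phi 9 x) := rfl
    rw [this, ← LinearMap.mem_ker, Submodule.ker_mkQ]
    exact h2
  have h4 : (FI 9).mkQ x = 0 := hinj (by rw [h3, map_zero])
  rwa [← LinearMap.mem_ker, Submodule.ker_mkQ] at h4

end CA247
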