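import Pool.Agent.CA247.Dat1

set_option autoImplicit false

namespace CA247

variable {F : List H → ℚ}

/-- alternating sum over the 24 permutations of four arguments -/
def alt4 {α : Type} (f : α → α → α → α → ℚ) (a b c d : α) : ℚ :=
  f a b c d - f a b d c - f a c b d + f a c d b + f a d b c - f a d c b - f b a c d + f b a d c
  + f b c a d - f b c d a - f b d a c + f b d c a + f c a b d - f c a d b - f c b a d + f c b d a
  + f c d a b - f c d b a - f d a b c + f d a c b + f d b a c - f d b c a - f d c a b + f d c b a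

theorem alt4_12 {α : Type} (f : α → α → α → α → ℚ) (a b c d : α) :
    alt4 f a b c d = - alt4 f b a c d := by unfold alt4; ring
theorem alt4_23 {α : Type} (f : α → α → α → α → ℚ) (a b c d : α) :
    alt4 f a b c d = - alt4 f a c b d := by unfold alt4; ring
theorem alt4_34 {α : Type} (f : α → α → α → α → ℚ) (a b c d : α) :
    alt4 f a b c d = - alt4 f a b d c := by unfold alt4; ring

def thC (a b c d p : ℕ) : List (List ℕ) :=
  [[40, 42, 44], [41, a, 46], [47, b, 48], [43, c, 50], [45, d, 52], [53, p, 54], [49, 51, 55]]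

def KC (m : ℤ) (p a b c d : ℕ) (N : List (List ℕ)) : List (ℤ × List (List ℕ)) :=
  [(m, thC a b c d p ++ N),
   (-m, thC a b d c p ++ N),
   (-m, thC a c b d p ++ N),
   (m, thC a c d b p ++ N),
   (m, thC a d b c p ++ N),
   (-m, thC a d c b p ++ N),
   (-m, thC b a c d p ++ N),
   (m, thC b a d c p ++ N),
   (m, thC b c a d p ++ N),
   (-m, thC b c d a p ++ N),
   (-m, thC b d a c p ++ N),
   (m, thC b d c a p ++ N),
   (m, thC c a b d p ++ N),
   (-m, thC c a d b p ++ N),
   (-m, thC c b a d p ++ N),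
   (m, thC c b d a p ++ N),
   (m, thC c d a b p ++ N),
   (-m, thC c d b a p ++ N),
   (-m, thC d a b c p ++ N),
   (m, thC d a c b p ++ N),
   (m, thC d b a c p ++ N),
   (-m, thC d b c a p ++ N),
   (-m, thC d c a b p ++ N),
   (m, thC d c b a p ++ N)]

theorem evL_KC (w : List H) (ρ : ℕ → H) (V : Multiset (List H)) (m : ℤ) (p a b c d : ℕ)
    (N : List (List ℕ)) : evL F w ρ V (KC m p a b c d N)
      = m * alt4 (fun a b c d => E1 F w ρ V (thC a b c d p ++ N)) a b c d := by
  simp only [KC, evL, List.map_cons, List.map_nil, List.sum_cons, List.sum_nil, alt4]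
  push_cast
  ring

/-- theta network with labels `b, …, b+7` -/
def thn (s : ℕ) (a b c d p : H) : Multiset (List H) :=
  (([[(s, false), (s + 1, false), (s + 2, false)], [(s, true), a, (s + 3, false)],
    [(s + 3, true), b, (s + 4, false)], [(s + 1, true), c, (s + 5, false)],
    [(s + 2, true), d, (s + 6, false)], [(s + 6, true), p, (s + 7, false)],
    [(s + 4, true), (s + 5, true), (s + 7, true)]] : List (List H)) : Multiset (List H))

/-- the two-loop element, evaluated -/
noncomputable def Kv (F : List H → ℚ) (s : ℕ) (w : List H) (V : Multiset (List H)) (p a b c d : H) : ℚ :=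
  alt4 (fun a b c d => fh F w (thn s a b c d p + V)) a b c d

def env (L : List H) (n : ℕ) : H := L.getD ((n - 200) / 2) (0, false)

def Fr (h : H) : Prop := ¬ (19 ≤ h.1 ∧ h.1 < 31)

theorem fresh_env {w : List H} {V : Multiset (List H)} {L : List H} (hw : ∀ h ∈ w, Fr h)
    (hV : ∀ h ∈ fl V, Fr h) (hL : ∀ h ∈ L, Fr h) : Fresh w (env L) V := by
  refine ⟨hw, hV, fun n => ?_⟩
  unfold env
  rcases Nat.lt_or_ge ((n - 200) / 2) L.length with h | h
  · rw [List.getD_eq_getElem _ _ h]; exact hL _ (List.getElem_mem h)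
  · rw [List.getD_eq_default _ _ h]; simp

theorem ms_thC (ρ : ℕ → H) (a b c d p : ℕ) : ms ρ (thC a b c d p)
    = thn 20 (dec ρ a) (dec ρ b) (dec ρ c) (dec ρ d) (dec ρ p) := rfl

theorem alt4_map {α β : Type} (g : α → β) (f : β → β → β → β → ℚ) (a b c d : α) :
    alt4 (fun a b c d => f (g a) (g b) (g c) (g d)) a b c d = alt4 f (g a) (g b) (g c) (g d) := rfl

theorem evL_KC' (w : List H) (ρ : ℕ → H) (V : Multiset (List H)) (m : ℤ) (p a b c d : ℕ)
    (N : List (List ℕ)) : evL F w ρ V (KC m p a b c d N)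
      = m * Kv F 20 w (ms ρ N + V) (dec ρ p) (dec ρ a) (dec ρ b) (dec ρ c) (dec ρ d) := by
  rw [evL_KC]
  unfold Kv
  rw [← alt4_map]
  congr 2
  funext a b c d
  unfold E1
  rw [ms_append, ms_thC, add_assoc]

theorem K_cyc (hF : GoodC F) {w : List H} {V : Multiset (List H)} {a b c d e : H}
    (hw : ∀ h ∈ w, Fr h) (hV : ∀ h ∈ fl V, Fr h) (hL : ∀ h ∈ [a, b, c, d, e], Fr h) :
    Kv F 20 w V a b c d e - Kv F 20 w V b a c d e + Kv F 20 w V c a b d e
      - Kv F 20 w V d a b c e + Kv F 20 w V e a b c d = 0 := by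
  have key := check hF (fresh_env hw hV hL) (KC 1 200 202 204 206 208 [] ++ (KC (-1) 202 200 204 206 208 []
    ++ (KC 1 204 200 202 206 208 [] ++ (KC (-1) 206 200 202 204 208 [] ++ KC 1 208 200 202 204 206 []))))
    [] ks2 (by decide +kernel) (by decide +kernel)
  rw [evL_append, evL_append, evL_append, evL_append, evL_KC', evL_KC', evL_KC', evL_KC', evL_KC'] at key
  have e0 : ms (env [a, b, c, d, e]) [] + V = V := by
    show (0 : Multiset (List H)) + V = V
    rw [zero_add]
  rw [e0] at key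
  have k2 : (1 : ℤ) * Kv F 20 w V a b c d e + ((-1 : ℤ) * Kv F 20 w V b a c d e
      + ((1 : ℤ) * Kv F 20 w V c a b d e
      + ((-1 : ℤ) * Kv F 20 w V d a b c e + (1 : ℤ) * Kv F 20 w V e a b c d))) = 0 := key
  push_cast at k2
  linarith

theorem th_inv (hF : GoodC F) {w : List H} {V : Multiset (List H)} {a b c d p z : H}
    (hw : ∀ h ∈ w, Fr h) (hV : ∀ h ∈ fl V, Fr h) (hL : ∀ h ∈ [a, b, c, d, p, z], Fr h) :
    fh F w (thn 20 (19, false) b c d p + ([z, a, (19, true)] ::ₘ V))
    + fh F w (thn 20 a (19, false) c d p + ([z, b, (19, true)] ::ₘ V))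
    + fh F w (thn 20 a b (19, false) d p + ([z, c, (19, true)] ::ₘ V))
    + fh F w (thn 20 a b c (19, false) p + ([z, d, (19, true)] ::ₘ V))
    + fh F w (thn 20 a b c d (19, false) + ([z, p, (19, true)] ::ₘ V)) = 0 := by
  have key := check hF (fresh_env hw hV hL)
    [(1, thC 38 202 204 206 208 ++ [[210, 200, 39]]), (1, thC 200 38 204 206 208 ++ [[210, 202, 39]]),
     (1, thC 200 202 38 206 208 ++ [[210, 204, 39]]), (1, thC 200 202 204 38 208 ++ [[210, 206, 39]]),
     (1, thC 200 202 204 206 38 ++ [[210, 208, 39]])]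
    inst3 ks3 (by decide +kernel) (by decide +kernel)
  rw [evL_cons, evL_cons, evL_cons, evL_cons, evL_cons, evL_nil] at key
  unfold E1 at key
  simp only [ms_append, add_assoc, ms_cons, Multiset.cons_add] at key
  have k2 : ((1 : ℤ) : ℚ) * fh F w (thn 20 (19, false) b c d p + ([z, a, (19, true)] ::ₘ (0 + V)))
      + (((1 : ℤ) : ℚ) * fh F w (thn 20 a (19, false) c d p + ([z, b, (19, true)] ::ₘ (0 + V)))
      + (((1 : ℤ) : ℚ) * fh F w (thn 20 a b (19, false) d p + ([z, c, (19, true)] ::ₘ (0 + V)))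
      + (((1 : ℤ) : ℚ) * fh F w (thn 20 a b c (19, false) p + ([z, d, (19, true)] ::ₘ (0 + V)))
      + (((1 : ℤ) : ℚ) * fh F w (thn 20 a b c d (19, false) + ([z, p, (19, true)] ::ₘ (0 + V))) + 0)))) = 0 := by
    exact key
  push_cast at k2
  rw [zero_add] at k2
  linarith

/-- antisymmetrised invariance -/
theorem K_inv (hF : GoodC F) {w : List H} {V : Multiset (List H)} {a b c d p z : H}
    (hw : ∀ h ∈ w, Fr h) (hV : ∀ h ∈ fl V, Fr h) (hL : ∀ h ∈ [a, b, c, d, p, z], Fr h) :
    Kv F 20 w ([z, p, (19, true)] ::ₘ V) (19, false) a b c d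
    + Kv F 20 w ([z, a, (19, true)] ::ₘ V) p (19, false) b c d
    + Kv F 20 w ([z, b, (19, true)] ::ₘ V) p a (19, false) c d
    + Kv F 20 w ([z, c, (19, true)] ::ₘ V) p a b (19, false) d
    + Kv F 20 w ([z, d, (19, true)] ::ₘ V) p a b c (19, false) = 0 := by
  simp only [List.mem_cons, List.not_mem_nil, or_false, forall_eq_or_imp, forall_eq] at hL
  obtain ⟨ha, hb, hc, hd, hp, hz⟩ := hL
  have I : ∀ a b c d : H, Fr a → Fr b → Fr c → Fr d →
      fh F w (thn 20 (19, false) b c d p + ([z, a, (19, true)] ::ₘ V))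
      + fh F w (thn 20 a (19, false) c d p + ([z, b, (19, true)] ::ₘ V))
      + fh F w (thn 20 a b (19, false) d p + ([z, c, (19, true)] ::ₘ V))
      + fh F w (thn 20 a b c (19, false) p + ([z, d, (19, true)] ::ₘ V))
      + fh F w (thn 20 a b c d (19, false) + ([z, p, (19, true)] ::ₘ V)) = 0 := by
    intro a b c d ha hb hc hd
    exact th_inv hF hw hV (by
      simp only [List.mem_cons, List.not_mem_nil, or_false, forall_eq_or_imp, forall_eq]
      exact ⟨ha, hb, hc, hd, hp, hz⟩)
  unfold Kv alt4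
  linear_combination I a b c d ha hb hc hd - I a b d c ha hb hd hc - I a c b d ha hc hb hd
    + I a c d b ha hc hd hb + I a d b c ha hd hb hc - I a d c b ha hd hc hb
    - I b a c d hb ha hc hd + I b a d c hb ha hd hc + I b c a d hb hc ha hd
    - I b c d a hb hc hd ha - I b d a c hb hd ha hc + I b d c a hb hd hc ha
    + I c a b d hc ha hb hd - I c a d b hc ha hd hb - I c b a d hc hb ha hd
    + I c b d a hc hb hd ha + I c d a b hc hd ha hb - I c d b a hc hd hb ha
    - I d a b c hd ha hb hc + I d a c b hd ha hc hb + I d b a c hd hb ha hc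
    - I d b c a hd hb hc ha - I d c a b hd hc ha hb + I d c b a hd hc hb ha

/-- the symmetric four-term identity -/
theorem K_T (hF : GoodC F) {w : List H} {V : Multiset (List H)} {a b c d e f : H}
    (hw : ∀ h ∈ w, Fr h) (hV : ∀ h ∈ fl V, Fr h) (hL : ∀ h ∈ [a, b, c, d, e, f], Fr h) :
    Kv F 20 w ([a, b, (19, true)] ::ₘ V) (19, false) c d e f
    + Kv F 20 w ([b, c, (19, true)] ::ₘ V) (19, false) a d e f
    + Kv F 20 w ([c, a, (19, true)] ::ₘ V) (19, false) b d e f
    - Kv F 20 w ([d, e, (19, true)] ::ₘ V) (19, false) f a b c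
    - Kv F 20 w ([e, f, (19, true)] ::ₘ V) (19, false) d a b c
    - Kv F 20 w ([f, d, (19, true)] ::ₘ V) (19, false) e a b c = 0 := by
  have key := check hF (fresh_env hw hV hL)
    (KC 2 38 204 206 208 210 [[200, 202, 39]] ++ (KC 2 38 200 206 208 210 [[202, 204, 39]] ++
    (KC 2 38 202 206 208 210 [[204, 200, 39]] ++ (KC (-2) 38 210 200 202 204 [[206, 208, 39]] ++
    (KC (-2) 38 206 200 202 204 [[208, 210, 39]] ++ KC (-2) 38 208 200 202 204 [[210, 206, 39]])))))
    inst4 ks4 (by decide +kernel) (by decide +kernel)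
  rw [evL_append, evL_append, evL_append, evL_append, evL_append, evL_KC', evL_KC', evL_KC',
    evL_KC', evL_KC', evL_KC'] at key
  simp only [ms_cons, Multiset.cons_add] at key
  have k2 : ((2 : ℤ) : ℚ) * Kv F 20 w ([a, b, (19, true)] ::ₘ (0 + V)) (19, false) c d e f
    + (((2 : ℤ) : ℚ) * Kv F 20 w ([b, c, (19, true)] ::ₘ (0 + V)) (19, false) a d e f
    + (((2 : ℤ) : ℚ) * Kv F 20 w ([c, a, (19, true)] ::ₘ (0 + V)) (19, false) b d e f
    + (((-2 : ℤ) : ℚ) * Kv F 20 w ([d, e, (19, true)] ::ₘ (0 + V)) (19, false) f a b c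
    + (((-2 : ℤ) : ℚ) * Kv F 20 w ([e, f, (19, true)] ::ₘ (0 + V)) (19, false) d a b c
    + ((-2 : ℤ) : ℚ) * Kv F 20 w ([f, d, (19, true)] ::ₘ (0 + V)) (19, false) e a b c)))) = 0 := key
  push_cast at k2
  rw [zero_add] at k2
  linarith

end CA247
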