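import Pool.Agent.CA247.Dat2

set_option autoImplicit false

namespace CA247

variable {F : List H → ℚ}

theorem lvl2 (hF : GoodJ F) :
    3 * (EE F (15, false) (10, false) (11, false) (13, false) (14, false)
       (13, true) (0, true) (1, true) (12, false) (14, true) (15, true) (0, false) (1, false)
    + EE F (1, true) (10, false) (11, false) (13, false) (14, false)
       (13, true) (16, false) (0, true) (12, false) (14, true) (16, true) (0, false) (1, false)
    + EE F (0, true) (10, false) (11, false) (13, false) (14, false)
       (13, true) (1, true) (17, false) (12, false) (14, true) (17, true) (0, false) (1, false))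
    - (EE F (13, false) (15, false) (0, true) (1, true) (14, false)
       (13, true) (10, false) (11, false) (12, false) (14, true) (15, true) (0, false) (1, false)
    + EE F (13, false) (1, true) (16, false) (0, true) (14, false)
       (13, true) (10, false) (11, false) (12, false) (14, true) (16, true) (0, false) (1, false)
    + EE F (13, false) (0, true) (1, true) (17, false) (14, false)
       (13, true) (10, false) (11, false) (12, false) (14, true) (17, true) (0, false) (1, false))
    = 0 := by
  have key := check2 hF tgt2 ins2 mvs2 (by decide +kernel)
  unfold tgt2 at key
  rw [sv_cons, sv_cons, sv_cons, sv_cons, sv_cons, sv_cons, sv_nil] at key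
  have k2 : ((-576 : ℤ) : ℚ) * EE F (13, false) (15, false) (0, true) (1, true) (14, false)
       (13, true) (10, false) (11, false) (12, false) (14, true) (15, true) (0, false) (1, false)
    + (((-576 : ℤ) : ℚ) * EE F (13, false) (1, true) (16, false) (0, true) (14, false)
       (13, true) (10, false) (11, false) (12, false) (14, true) (16, true) (0, false) (1, false)
    + (((-576 : ℤ) : ℚ) * EE F (13, false) (0, true) (1, true) (17, false) (14, false)
       (13, true) (10, false) (11, false) (12, false) (14, true) (17, true) (0, false) (1, false)
    + (((1728 : ℤ) : ℚ) * EE F (15, false) (10, false) (11, false) (13, false) (14, false)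
       (13, true) (0, true) (1, true) (12, false) (14, true) (15, true) (0, false) (1, false)
    + (((1728 : ℤ) : ℚ) * EE F (1, true) (10, false) (11, false) (13, false) (14, false)
       (13, true) (16, false) (0, true) (12, false) (14, true) (16, true) (0, false) (1, false)
    + (((1728 : ℤ) : ℚ) * EE F (0, true) (10, false) (11, false) (13, false) (14, false)
       (13, true) (1, true) (17, false) (12, false) (14, true) (17, true) (0, false) (1, false)
    + 0))))) = 0 := key
  push_cast at k2
  linarith

end CA247
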