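import Pool.Agent.CA247.Chk2

set_option autoImplicit false

namespace CA247

theorem thn_rch_a {s : ℕ} (hs : 2 ≤ s) {a b c d p : H} (hp : 2 ≤ a.1) {A : Multiset H}
    {V : Multiset (List H)} (R : Rch ({b} + {c} + {d} + {p} + A) V) :
    Rch (pt a ::ₘ A) (thn s a b c d p + V) := by
  have e : thn s a b c d p + V = [((s, true) : H), a, ((s + 3, false) : H)] ::ₘ [((s + 3, true) : H), b, ((s + 4, false) : H)] ::ₘ [((s + 4, true) : H), ((s + 5, true) : H), ((s + 7, true) : H)] ::ₘ [((s + 1, true) : H), c, ((s + 5, false) : H)] ::ₘ [((s, false) : H), ((s + 1, false) : H), ((s + 2, false) : H)] ::ₘ [((s + 2, true) : H), d, ((s + 6, false) : H)] ::ₘ [((s + 6, true) : H), p, ((s + 7, false) : H)] ::ₘ V := by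
    unfold thn
    simp only [← Multiset.cons_coe, ← Multiset.singleton_add, Multiset.coe_nil, add_zero]
    abel
  rw [e]
  refine Rch.step (h := pt a) (x := ((s + 3, false) : H)) (y := ((s, true) : H)) (A' := A) (by exact hp) (by rw [pt_pt]; exact Or.inr (Or.inl rfl)) ?_ ?_
  · simp only [← Multiset.singleton_add]
  refine Rch.step (h := ((s + 3, false) : H)) (x := b) (y := ((s + 4, false) : H)) (A' := ((s, true) : H) ::ₘ A) (by show 2 ≤ _; omega) (by show IsRot _ (_, _) _ _; exact Or.inl rfl) ?_ ?_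
  · simp only [← Multiset.singleton_add]
  refine Rch.step (h := ((s + 4, false) : H)) (x := ((s + 5, true) : H)) (y := ((s + 7, true) : H)) (A' := b ::ₘ ((s, true) : H) ::ₘ A) (by show 2 ≤ _; omega) (by show IsRot _ (_, _) _ _; exact Or.inl rfl) ?_ ?_
  · simp only [← Multiset.singleton_add]; abel
  refine Rch.step (h := ((s + 5, true) : H)) (x := ((s + 1, true) : H)) (y := c) (A' := ((s + 7, true) : H) ::ₘ b ::ₘ ((s, true) : H) ::ₘ A) (by show 2 ≤ _; omega) (by show IsRot _ (_, _) _ _; exact Or.inr (Or.inr rfl)) ?_ ?_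
  · simp only [← Multiset.singleton_add]
  refine Rch.step (h := ((s + 1, true) : H)) (x := ((s + 2, false) : H)) (y := ((s, false) : H)) (A' := c ::ₘ ((s + 7, true) : H) ::ₘ b ::ₘ ((s, true) : H) ::ₘ A) (by show 2 ≤ _; omega) (by show IsRot _ (_, _) _ _; exact Or.inr (Or.inl rfl)) ?_ ?_
  · simp only [← Multiset.singleton_add]
  refine Rch.step (h := ((s + 2, false) : H)) (x := d) (y := ((s + 6, false) : H)) (A' := ((s, false) : H) ::ₘ c ::ₘ ((s + 7, true) : H) ::ₘ b ::ₘ ((s, true) : H) ::ₘ A) (by show 2 ≤ _; omega) (by show IsRot _ (_, _) _ _; exact Or.inl rfl) ?_ ?_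
  · simp only [← Multiset.singleton_add]
  refine Rch.step (h := ((s + 6, false) : H)) (x := p) (y := ((s + 7, false) : H)) (A' := d ::ₘ ((s, false) : H) ::ₘ c ::ₘ ((s + 7, true) : H) ::ₘ b ::ₘ ((s, true) : H) ::ₘ A) (by show 2 ≤ _; omega) (by show IsRot _ (_, _) _ _; exact Or.inl rfl) ?_ ?_
  · simp only [← Multiset.singleton_add]; abel
  have R2 := R.mono ({((s + 7, false) : H)} + {((s, false) : H)} + {((s + 7, true) : H)} + {((s, true) : H)})
  refine cast (congrArg (fun B => Rch B V) ?_) R2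
  simp only [← Multiset.singleton_add]; abel

theorem thn_rch_b {s : ℕ} (hs : 2 ≤ s) {a b c d p : H} (hp : 2 ≤ b.1) {A : Multiset H}
    {V : Multiset (List H)} (R : Rch ({a} + {c} + {d} + {p} + A) V) :
    Rch (pt b ::ₘ A) (thn s a b c d p + V) := by
  have e : thn s a b c d p + V = [((s + 3, true) : H), b, ((s + 4, false) : H)] ::ₘ [((s + 4, true) : H), ((s + 5, true) : H), ((s + 7, true) : H)] ::ₘ [((s + 1, true) : H), c, ((s + 5, false) : H)] ::ₘ [((s, false) : H), ((s + 1, false) : H), ((s + 2, false) : H)] ::ₘ [((s + 2, true) : H), d, ((s + 6, false) : H)] ::ₘ [((s + 6, true) : H), p, ((s + 7, false) : H)] ::ₘ [((s, true) : H), a, ((s + 3, false) : H)] ::ₘ V := by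
    unfold thn
    simp only [← Multiset.cons_coe, ← Multiset.singleton_add, Multiset.coe_nil, add_zero]
    abel
  rw [e]
  refine Rch.step (h := pt b) (x := ((s + 4, false) : H)) (y := ((s + 3, true) : H)) (A' := A) (by exact hp) (by rw [pt_pt]; exact Or.inr (Or.inl rfl)) ?_ ?_
  · simp only [← Multiset.singleton_add]
  refine Rch.step (h := ((s + 4, false) : H)) (x := ((s + 5, true) : H)) (y := ((s + 7, true) : H)) (A' := ((s + 3, true) : H) ::ₘ A) (by show 2 ≤ _; omega) (by show IsRot _ (_, _) _ _; exact Or.inl rfl) ?_ ?_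
  · simp only [← Multiset.singleton_add]
  refine Rch.step (h := ((s + 5, true) : H)) (x := ((s + 1, true) : H)) (y := c) (A' := ((s + 7, true) : H) ::ₘ ((s + 3, true) : H) ::ₘ A) (by show 2 ≤ _; omega) (by show IsRot _ (_, _) _ _; exact Or.inr (Or.inr rfl)) ?_ ?_
  · simp only [← Multiset.singleton_add]
  refine Rch.step (h := ((s + 1, true) : H)) (x := ((s + 2, false) : H)) (y := ((s, false) : H)) (A' := c ::ₘ ((s + 7, true) : H) ::ₘ ((s + 3, true) : H) ::ₘ A) (by show 2 ≤ _; omega) (by show IsRot _ (_, _) _ _; exact Or.inr (Or.inl rfl)) ?_ ?_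
  · simp only [← Multiset.singleton_add]
  refine Rch.step (h := ((s + 2, false) : H)) (x := d) (y := ((s + 6, false) : H)) (A' := ((s, false) : H) ::ₘ c ::ₘ ((s + 7, true) : H) ::ₘ ((s + 3, true) : H) ::ₘ A) (by show 2 ≤ _; omega) (by show IsRot _ (_, _) _ _; exact Or.inl rfl) ?_ ?_
  · simp only [← Multiset.singleton_add]
  refine Rch.step (h := ((s + 6, false) : H)) (x := p) (y := ((s + 7, false) : H)) (A' := d ::ₘ ((s, false) : H) ::ₘ c ::ₘ ((s + 7, true) : H) ::ₘ ((s + 3, true) : H) ::ₘ A) (by show 2 ≤ _; omega) (by show IsRot _ (_, _) _ _; exact Or.inl rfl) ?_ ?_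
  · simp only [← Multiset.singleton_add]; abel
  refine Rch.step (h := ((s, false) : H)) (x := a) (y := ((s + 3, false) : H)) (A' := p ::ₘ ((s + 7, false) : H) ::ₘ d ::ₘ c ::ₘ ((s + 7, true) : H) ::ₘ ((s + 3, true) : H) ::ₘ A) (by show 2 ≤ _; omega) (by show IsRot _ (_, _) _ _; exact Or.inl rfl) ?_ ?_
  · simp only [← Multiset.singleton_add]; abel
  have R2 := R.mono ({((s + 3, false) : H)} + {((s + 7, false) : H)} + {((s + 7, true) : H)} + {((s + 3, true) : H)})
  refine cast (congrArg (fun B => Rch B V) ?_) R2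
  simp only [← Multiset.singleton_add]; abel

theorem thn_rch_c {s : ℕ} (hs : 2 ≤ s) {a b c d p : H} (hp : 2 ≤ c.1) {A : Multiset H}
    {V : Multiset (List H)} (R : Rch ({a} + {b} + {d} + {p} + A) V) :
    Rch (pt c ::ₘ A) (thn s a b c d p + V) := by
  have e : thn s a b c d p + V = [((s + 1, true) : H), c, ((s + 5, false) : H)] ::ₘ [((s + 4, true) : H), ((s + 5, true) : H), ((s + 7, true) : H)] ::ₘ [((s + 6, true) : H), p, ((s + 7, false) : H)] ::ₘ [((s + 2, true) : H), d, ((s + 6, false) : H)] ::ₘ [((s, false) : H), ((s + 1, false) : H), ((s + 2, false) : H)] ::ₘ [((s, true) : H), a, ((s + 3, false) : H)] ::ₘ [((s + 3, true) : H), b, ((s + 4, false) : H)] ::ₘ V := by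
    unfold thn
    simp only [← Multiset.cons_coe, ← Multiset.singleton_add, Multiset.coe_nil, add_zero]
    abel
  rw [e]
  refine Rch.step (h := pt c) (x := ((s + 5, false) : H)) (y := ((s + 1, true) : H)) (A' := A) (by exact hp) (by rw [pt_pt]; exact Or.inr (Or.inl rfl)) ?_ ?_
  · simp only [← Multiset.singleton_add]
  refine Rch.step (h := ((s + 5, false) : H)) (x := ((s + 7, true) : H)) (y := ((s + 4, true) : H)) (A' := ((s + 1, true) : H) ::ₘ A) (by show 2 ≤ _; omega) (by show IsRot _ (_, _) _ _; exact Or.inr (Or.inl rfl)) ?_ ?_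
  · simp only [← Multiset.singleton_add]
  refine Rch.step (h := ((s + 7, true) : H)) (x := ((s + 6, true) : H)) (y := p) (A' := ((s + 4, true) : H) ::ₘ ((s + 1, true) : H) ::ₘ A) (by show 2 ≤ _; omega) (by show IsRot _ (_, _) _ _; exact Or.inr (Or.inr rfl)) ?_ ?_
  · simp only [← Multiset.singleton_add]
  refine Rch.step (h := ((s + 6, true) : H)) (x := ((s + 2, true) : H)) (y := d) (A' := p ::ₘ ((s + 4, true) : H) ::ₘ ((s + 1, true) : H) ::ₘ A) (by show 2 ≤ _; omega) (by show IsRot _ (_, _) _ _; exact Or.inr (Or.inr rfl)) ?_ ?_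
  · simp only [← Multiset.singleton_add]
  refine Rch.step (h := ((s + 2, true) : H)) (x := ((s, false) : H)) (y := ((s + 1, false) : H)) (A' := d ::ₘ p ::ₘ ((s + 4, true) : H) ::ₘ ((s + 1, true) : H) ::ₘ A) (by show 2 ≤ _; omega) (by show IsRot _ (_, _) _ _; exact Or.inr (Or.inr rfl)) ?_ ?_
  · simp only [← Multiset.singleton_add]
  refine Rch.step (h := ((s, false) : H)) (x := a) (y := ((s + 3, false) : H)) (A' := ((s + 1, false) : H) ::ₘ d ::ₘ p ::ₘ ((s + 4, true) : H) ::ₘ ((s + 1, true) : H) ::ₘ A) (by show 2 ≤ _; omega) (by show IsRot _ (_, _) _ _; exact Or.inl rfl) ?_ ?_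
  · simp only [← Multiset.singleton_add]
  refine Rch.step (h := ((s + 3, false) : H)) (x := b) (y := ((s + 4, false) : H)) (A' := a ::ₘ ((s + 1, false) : H) ::ₘ d ::ₘ p ::ₘ ((s + 4, true) : H) ::ₘ ((s + 1, true) : H) ::ₘ A) (by show 2 ≤ _; omega) (by show IsRot _ (_, _) _ _; exact Or.inl rfl) ?_ ?_
  · simp only [← Multiset.singleton_add]; abel
  have R2 := R.mono ({((s + 4, false) : H)} + {((s + 1, false) : H)} + {((s + 4, true) : H)} + {((s + 1, true) : H)})
  refine cast (congrArg (fun B => Rch B V) ?_) R2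
  simp only [← Multiset.singleton_add]; abel

theorem thn_rch_d {s : ℕ} (hs : 2 ≤ s) {a b c d p : H} (hp : 2 ≤ d.1) {A : Multiset H}
    {V : Multiset (List H)} (R : Rch ({a} + {b} + {c} + {p} + A) V) :
    Rch (pt d ::ₘ A) (thn s a b c d p + V) := by
  have e : thn s a b c d p + V = [((s + 2, true) : H), d, ((s + 6, false) : H)] ::ₘ [((s + 6, true) : H), p, ((s + 7, false) : H)] ::ₘ [((s + 4, true) : H), ((s + 5, true) : H), ((s + 7, true) : H)] ::ₘ [((s + 3, true) : H), b, ((s + 4, false) : H)] ::ₘ [((s, true) : H), a, ((s + 3, false) : H)] ::ₘ [((s, false) : H), ((s + 1, false) : H), ((s + 2, false) : H)] ::ₘ [((s + 1, true) : H), c, ((s + 5, false) : H)] ::ₘ V := by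
    unfold thn
    simp only [← Multiset.cons_coe, ← Multiset.singleton_add, Multiset.coe_nil, add_zero]
    abel
  rw [e]
  refine Rch.step (h := pt d) (x := ((s + 6, false) : H)) (y := ((s + 2, true) : H)) (A' := A) (by exact hp) (by rw [pt_pt]; exact Or.inr (Or.inl rfl)) ?_ ?_
  · simp only [← Multiset.singleton_add]
  refine Rch.step (h := ((s + 6, false) : H)) (x := p) (y := ((s + 7, false) : H)) (A' := ((s + 2, true) : H) ::ₘ A) (by show 2 ≤ _; omega) (by show IsRot _ (_, _) _ _; exact Or.inl rfl) ?_ ?_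
  · simp only [← Multiset.singleton_add]
  refine Rch.step (h := ((s + 7, false) : H)) (x := ((s + 4, true) : H)) (y := ((s + 5, true) : H)) (A' := p ::ₘ ((s + 2, true) : H) ::ₘ A) (by show 2 ≤ _; omega) (by show IsRot _ (_, _) _ _; exact Or.inr (Or.inr rfl)) ?_ ?_
  · simp only [← Multiset.singleton_add]; abel
  refine Rch.step (h := ((s + 4, true) : H)) (x := ((s + 3, true) : H)) (y := b) (A' := ((s + 5, true) : H) ::ₘ p ::ₘ ((s + 2, true) : H) ::ₘ A) (by show 2 ≤ _; omega) (by show IsRot _ (_, _) _ _; exact Or.inr (Or.inr rfl)) ?_ ?_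
  · simp only [← Multiset.singleton_add]
  refine Rch.step (h := ((s + 3, true) : H)) (x := ((s, true) : H)) (y := a) (A' := b ::ₘ ((s + 5, true) : H) ::ₘ p ::ₘ ((s + 2, true) : H) ::ₘ A) (by show 2 ≤ _; omega) (by show IsRot _ (_, _) _ _; exact Or.inr (Or.inr rfl)) ?_ ?_
  · simp only [← Multiset.singleton_add]
  refine Rch.step (h := ((s, true) : H)) (x := ((s + 1, false) : H)) (y := ((s + 2, false) : H)) (A' := a ::ₘ b ::ₘ ((s + 5, true) : H) ::ₘ p ::ₘ ((s + 2, true) : H) ::ₘ A) (by show 2 ≤ _; omega) (by show IsRot _ (_, _) _ _; exact Or.inl rfl) ?_ ?_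
  · simp only [← Multiset.singleton_add]
  refine Rch.step (h := ((s + 1, false) : H)) (x := c) (y := ((s + 5, false) : H)) (A' := ((s + 2, false) : H) ::ₘ a ::ₘ b ::ₘ ((s + 5, true) : H) ::ₘ p ::ₘ ((s + 2, true) : H) ::ₘ A) (by show 2 ≤ _; omega) (by show IsRot _ (_, _) _ _; exact Or.inl rfl) ?_ ?_
  · simp only [← Multiset.singleton_add]
  have R2 := R.mono ({((s + 5, false) : H)} + {((s + 2, false) : H)} + {((s + 5, true) : H)} + {((s + 2, true) : H)})
  refine cast (congrArg (fun B => Rch B V) ?_) R2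
  simp only [← Multiset.singleton_add]; abel

theorem thn_rch_p {s : ℕ} (hs : 2 ≤ s) {a b c d p : H} (hp : 2 ≤ p.1) {A : Multiset H}
    {V : Multiset (List H)} (R : Rch ({a} + {b} + {c} + {d} + A) V) :
    Rch (pt p ::ₘ A) (thn s a b c d p + V) := by
  have e : thn s a b c d p + V = [((s + 6, true) : H), p, ((s + 7, false) : H)] ::ₘ [((s + 4, true) : H), ((s + 5, true) : H), ((s + 7, true) : H)] ::ₘ [((s + 3, true) : H), b, ((s + 4, false) : H)] ::ₘ [((s, true) : H), a, ((s + 3, false) : H)] ::ₘ [((s, false) : H), ((s + 1, false) : H), ((s + 2, false) : H)] ::ₘ [((s + 1, true) : H), c, ((s + 5, false) : H)] ::ₘ [((s + 2, true) : H), d, ((s + 6, false) : H)] ::ₘ V := by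
    unfold thn
    simp only [← Multiset.cons_coe, ← Multiset.singleton_add, Multiset.coe_nil, add_zero]
    abel
  rw [e]
  refine Rch.step (h := pt p) (x := ((s + 7, false) : H)) (y := ((s + 6, true) : H)) (A' := A) (by exact hp) (by rw [pt_pt]; exact Or.inr (Or.inl rfl)) ?_ ?_
  · simp only [← Multiset.singleton_add]
  refine Rch.step (h := ((s + 7, false) : H)) (x := ((s + 4, true) : H)) (y := ((s + 5, true) : H)) (A' := ((s + 6, true) : H) ::ₘ A) (by show 2 ≤ _; omega) (by show IsRot _ (_, _) _ _; exact Or.inr (Or.inr rfl)) ?_ ?_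
  · simp only [← Multiset.singleton_add]
  refine Rch.step (h := ((s + 4, true) : H)) (x := ((s + 3, true) : H)) (y := b) (A' := ((s + 5, true) : H) ::ₘ ((s + 6, true) : H) ::ₘ A) (by show 2 ≤ _; omega) (by show IsRot _ (_, _) _ _; exact Or.inr (Or.inr rfl)) ?_ ?_
  · simp only [← Multiset.singleton_add]
  refine Rch.step (h := ((s + 3, true) : H)) (x := ((s, true) : H)) (y := a) (A' := b ::ₘ ((s + 5, true) : H) ::ₘ ((s + 6, true) : H) ::ₘ A) (by show 2 ≤ _; omega) (by show IsRot _ (_, _) _ _; exact Or.inr (Or.inr rfl)) ?_ ?_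
  · simp only [← Multiset.singleton_add]
  refine Rch.step (h := ((s, true) : H)) (x := ((s + 1, false) : H)) (y := ((s + 2, false) : H)) (A' := a ::ₘ b ::ₘ ((s + 5, true) : H) ::ₘ ((s + 6, true) : H) ::ₘ A) (by show 2 ≤ _; omega) (by show IsRot _ (_, _) _ _; exact Or.inl rfl) ?_ ?_
  · simp only [← Multiset.singleton_add]
  refine Rch.step (h := ((s + 1, false) : H)) (x := c) (y := ((s + 5, false) : H)) (A' := ((s + 2, false) : H) ::ₘ a ::ₘ b ::ₘ ((s + 5, true) : H) ::ₘ ((s + 6, true) : H) ::ₘ A) (by show 2 ≤ _; omega) (by show IsRot _ (_, _) _ _; exact Or.inl rfl) ?_ ?_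
  · simp only [← Multiset.singleton_add]
  refine Rch.step (h := ((s + 2, false) : H)) (x := d) (y := ((s + 6, false) : H)) (A' := c ::ₘ ((s + 5, false) : H) ::ₘ a ::ₘ b ::ₘ ((s + 5, true) : H) ::ₘ ((s + 6, true) : H) ::ₘ A) (by show 2 ≤ _; omega) (by show IsRot _ (_, _) _ _; exact Or.inl rfl) ?_ ?_
  · simp only [← Multiset.singleton_add]; abel
  have R2 := R.mono ({((s + 6, false) : H)} + {((s + 5, false) : H)} + {((s + 5, true) : H)} + {((s + 6, true) : H)})
  refine cast (congrArg (fun B => Rch B V) ?_) R2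
  simp only [← Multiset.singleton_add]; abel

theorem thn_rch {s : ℕ} (hs : 2 ≤ s) {a b c d p l : H} {L A : Multiset H} {V : Multiset (List H)}
    (hL : ({a} + {b} + {c} + {d} + {p} : Multiset H) = {l} + L) (hl : 2 ≤ l.1)
    (R : Rch (L + A) V) : Rch (pt l ::ₘ A) (thn s a b c d p + V) := by
  have hm : l ∈ ({a} + {b} + {c} + {d} + {p} : Multiset H) := by rw [hL]; simp
  have canc : ∀ X : Multiset H, ({a} + {b} + {c} + {d} + {p} : Multiset H) = {l} + X → L = X := by
    intro X hX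
    rw [hL] at hX
    exact add_left_cancel hX
  simp only [Multiset.mem_add, Multiset.mem_singleton] at hm
  rcases hm with (((rfl | rfl) | rfl) | rfl) | rfl
  · rw [canc ({b} + {c} + {d} + {p}) (by abel)] at R
    exact thn_rch_a hs hl R
  · rw [canc ({a} + {c} + {d} + {p}) (by abel)] at R
    exact thn_rch_b hs hl R
  · rw [canc ({a} + {b} + {d} + {p}) (by abel)] at R
    exact thn_rch_c hs hl R
  · rw [canc ({a} + {b} + {c} + {p}) (by abel)] at R
    exact thn_rch_d hs hl R
  · rw [canc ({a} + {b} + {c} + {d}) (by abel)] at R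
    exact thn_rch_p hs hl R

def intl (s : ℕ) : Multiset H :=
  (([(s, false), (s, true), (s + 1, false), (s + 1, true), (s + 2, false), (s + 2, true),
    (s + 3, false), (s + 3, true), (s + 4, false), (s + 4, true), (s + 5, false), (s + 5, true),
    (s + 6, false), (s + 6, true), (s + 7, false), (s + 7, true)] : List H) : Multiset H)

theorem fl_coe_cons (r : List H) (L : List (List H)) :
    fl ((r :: L : List (List H)) : Multiset (List H)) = (r : Multiset H) + fl (L : Multiset (List H)) := by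
  rw [← Multiset.cons_coe, fl_cons]

theorem fl_thn (s : ℕ) (a b c d p : H) :
    fl (thn s a b c d p) = {a} + {b} + {c} + {d} + {p} + intl s := by
  unfold thn intl
  rw [fl_coe_cons, fl_coe_cons, fl_coe_cons, fl_coe_cons, fl_coe_cons, fl_coe_cons, fl_coe_cons,
    Multiset.coe_nil, fl_zero]
  simp only [← Multiset.cons_coe, Multiset.coe_nil, ← Multiset.singleton_add, add_zero]
  abel

theorem alt4_congrM {f g : H → H → H → H → ℚ} {a b c d : H}
    (h : ∀ a' b' c' d' : H, ({a'} + {b'} + {c'} + {d'} : Multiset H) = {a} + {b} + {c} + {d} →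
      f a' b' c' d' = g a' b' c' d') : alt4 f a b c d = alt4 g a b c d := by
  unfold alt4
  rw [h a b c d rfl, h a b d c (by abel), h a c b d (by abel), h a c d b (by abel),
    h a d b c (by abel), h a d c b (by abel), h b a c d (by abel), h b a d c (by abel),
    h b c a d (by abel), h b c d a (by abel), h b d a c (by abel), h b d c a (by abel),
    h c a b d (by abel), h c a d b (by abel), h c b a d (by abel), h c b d a (by abel),
    h c d a b (by abel), h c d b a (by abel), h d a b c (by abel), h d a c b (by abel),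
    h d b a c (by abel), h d b c a (by abel), h d c a b (by abel), h d c b a (by abel)]

theorem KK_N {FC FJ : List H → ℚ} (hC : GoodC FC) (hJ : GoodC FJ) (hX : Nax FC FJ) {w : List H}
    {p1 a1 b1 c1 d1 p2 a2 b2 c2 d2 y1 y2 y3 : H}
    (hR : ∀ a b c d a' b' c' d' : H, ({a} + {b} + {c} + {d} : Multiset H) = {a1} + {b1} + {c1} + {d1} →
      ({a'} + {b'} + {c'} + {d'} : Multiset H) = {a2} + {b2} + {c2} + {d2} →
      Rch (w : Multiset H) (thn 20 a b c d p1 + thn 40 a' b' c' d' p2))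
    {C : Multiset H} (hCd : C = (w : Multiset H) + (({a1} + {b1} + {c1} + {d1} + {p1} + intl 20)
      + ({a2} + {b2} + {c2} + {d2} + {p2} + intl 40)))
    (hN : (C + ({y1} + {y2} + {y3})).Nodup) (hl : ∀ h ∈ C + ({y1} + {y2} + {y3}), 2 ≤ h.1)
    (m1 : pt y1 ∈ C) (m2 : pt y2 ∈ C) (m3 : pt y3 ∈ C)
    (q1 : y1.1 < 20) (q2 : y2.1 < 20) (q3 : y3.1 < 20)
    (w1 : w.map (rn y2 y3) = w) (w2 : w.map (rn y3 y1) = w) (w3 : w.map (rn y1 y2) = w) :
    KK FC w p1 a1 b1 c1 d1 p2 a2 b2 c2 d2 y1 y2 y3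
    + KK FJ w (rn y2 y3 p1) (rn y2 y3 a1) (rn y2 y3 b1) (rn y2 y3 c1) (rn y2 y3 d1)
      (rn y2 y3 p2) (rn y2 y3 a2) (rn y2 y3 b2) (rn y2 y3 c2) (rn y2 y3 d2) y1 (0, false) (1, false)
    + KK FJ w (rn y3 y1 p1) (rn y3 y1 a1) (rn y3 y1 b1) (rn y3 y1 c1) (rn y3 y1 d1)
      (rn y3 y1 p2) (rn y3 y1 a2) (rn y3 y1 b2) (rn y3 y1 c2) (rn y3 y1 d2) y2 (0, false) (1, false)
    + KK FJ w (rn y1 y2 p1) (rn y1 y2 a1) (rn y1 y2 b1) (rn y1 y2 c1) (rn y1 y2 d1)
      (rn y1 y2 p2) (rn y1 y2 a2) (rn y1 y2 b2) (rn y1 y2 c2) (rn y1 y2 d2) y3 (0, false) (1, false)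
    = 0 := by
  have fix : ∀ b c : H, b.1 < 20 → c.1 < 20 → ∀ h : H, 20 ≤ h.1 → rn b c h = h := by
    intro b c hb hc h hh
    unfold rn
    rw [if_neg, if_neg]
    · intro e; have := congrArg Prod.fst e; rw [pt_fst] at this; omega
    · intro e; have := congrArg Prod.fst e; rw [pt_fst] at this; omega
  unfold KK Kv
  rw [← alt4_map (rn y2 y3), ← alt4_map (rn y3 y1), ← alt4_map (rn y1 y2), ← alt4_add, ← alt4_add,
    ← alt4_add, ← alt4_zero a2 b2 c2 d2]
  refine alt4_congrM ?_
  intro a' b' c' d' h2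
  rw [← alt4_map (rn y2 y3), ← alt4_map (rn y3 y1), ← alt4_map (rn y1 y2), ← alt4_add, ← alt4_add,
    ← alt4_add, ← alt4_zero a1 b1 c1 d1]
  refine alt4_congrM ?_
  intro a b c d h1
  have eC : (w : Multiset H) + fl (thn 20 a b c d p1 + thn 40 a' b' c' d' p2) = C := by
    rw [fl_add, fl_thn, fl_thn, h1, h2, hCd]
  have eC2 : (w : Multiset H) + fl ([y1, y2, y3] ::ₘ (thn 20 a b c d p1 + thn 40 a' b' c' d' p2))
      = C + ({y1} + {y2} + {y3}) := by
    rw [fl_cons, ← eC]
    have : (([y1, y2, y3] : List H) : Multiset H) = {y1} + {y2} + {y3} := rfl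
    rw [this]; abel
  have key := fh_N hC hJ hX (hR a b c d a' b' c' d' h1 h2) w y1 y2 y3 rfl
    (by unfold Nod; rw [eC2]; exact hN) (by rw [eC2]; exact hl) (by rw [eC]; exact m1)
    (by rw [eC]; exact m2) (by rw [eC]; exact m3)
  rw [w1, w2, w3] at key
  have em : ∀ b c : H, b.1 < 20 → c.1 < 20 →
      (thn 20 a b c d p1 + thn 40 a' b' c' d' p2).map (List.map (rn b c))
      = (thn 20 a b c d p1 + thn 40 a' b' c' d' p2).map (List.map (rn b c)) := fun _ _ _ _ => rfl
  rw [Multiset.map_add, Multiset.map_add, Multiset.map_add] at key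
  rw [thn_map (fun h h1 _ => fix y2 y3 q2 q3 h h1), thn_map (fun h h1 _ => fix y3 y1 q3 q1 h h1),
    thn_map (fun h h1 _ => fix y1 y2 q1 q2 h h1),
    thn_map (fun h h1 _ => fix y2 y3 q2 q3 h (by omega)),
    thn_map (fun h h1 _ => fix y3 y1 q3 q1 h (by omega)),
    thn_map (fun h h1 _ => fix y1 y2 q1 q2 h (by omega))] at key
  simp only [Multiset.add_cons]
  exact key

end CA247
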