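import Pool.Agent.CA247.L2
import Pool.Agent.CA247.Rea

set_option autoImplicit false

namespace CA247

theorem alt3_congrM {f g : H → H → H → ℚ} {a b c : H}
    (h : ∀ a' b' c' : H, ({a'} + {b'} + {c'} : Multiset H) = {a} + {b} + {c} →
      f a' b' c' = g a' b' c') : alt3 f a b c = alt3 g a b c := by
  unfold alt3
  rw [h a b c rfl, h a c b (by abel), h b a c (by abel), h b c a (by abel), h c a b (by abel),
    h c b a (by abel)]

/-- the first network -/
noncomputable def M3 (F : List H → ℚ) : ℚ :=
  EE F (13, false) (15, false) (16, false) (17, false) (14, false)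
    (13, true) (10, false) (11, false) (12, false) (14, true) (15, true) (16, true) (17, true)

/-- the second network -/
noncomputable def M2 (F : List H → ℚ) : ℚ :=
  EE F (15, false) (10, false) (11, false) (13, false) (14, false)
    (13, true) (16, false) (17, false) (12, false) (14, true) (15, true) (16, true) (17, true)

def W0 : Multiset H := {((10, true) : H)} + {((11, true) : H)} + {((12, true) : H)}

theorem w_fix {w : List H} (hw : (w : Multiset H) = W0) {b c : H} (hb : 13 ≤ b.1) (hc : 13 ≤ c.1) :
    w.map (rn b c) = w := by
  have : ∀ k ∈ w, rn b c k = id k := by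
    intro k hk
    have hk' : k ∈ W0 := by rw [← hw]; exact hk
    unfold W0 at hk'
    simp only [Multiset.mem_add, Multiset.mem_singleton] at hk'
    have h1 : k.1 < 13 := by rcases hk' with (rfl | rfl) | rfl <;> norm_num
    unfold rn
    rw [if_neg, if_neg]
    · rfl
    · intro e; have := congrArg Prod.fst e; rw [pt_fst] at this; omega
    · intro e; have := congrArg Prod.fst e; rw [pt_fst] at this; omega
  rw [List.map_congr_left this, List.map_id]

theorem rch3 {w : List H} (hw : (w : Multiset H) = W0) {V : Multiset (List H)}
    (R : Rch ({((15, false) : H)} + {((16, false) : H)} + {((17, false) : H)}) V)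
    (a b c d a' b' c' d' : H)
    (h1 : ({a} + {b} + {c} + {d} : Multiset H) = {(15, false)} + {(16, false)} + {(17, false)} + {(14, false)})
    (h2 : ({a'} + {b'} + {c'} + {d'} : Multiset H) = {(10, false)} + {(11, false)} + {(12, false)} + {(14, true)}) :
    Rch (w : Multiset H) (thn 40 a' b' c' d' (13, true) + (thn 20 a b c d (13, false) + V)) := by
  have e : (w : Multiset H) = pt (10, false) ::ₘ ({((11, true) : H)} + {((12, true) : H)}) := by
    rw [hw]; unfold W0; simp only [← Multiset.singleton_add]; rfl
  rw [e]
  refine thn_rch (l := (10, false)) (L := {((11, false) : H)} + {((12, false) : H)} + {((14, true) : H)}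
    + {((13, true) : H)}) (by norm_num) (by rw [h2]; abel) (by norm_num) ?_
  have e2 : ({((11, false) : H)} + {((12, false) : H)} + {((14, true) : H)}
    + {((13, true) : H)} + ({((11, true) : H)} + {((12, true) : H)}) : Multiset H)
    = pt (13, false) ::ₘ ({((11, false) : H)} + {((12, false) : H)} + {((14, true) : H)}
     + ({((11, true) : H)} + {((12, true) : H)})) := by
    simp only [← Multiset.singleton_add]
    show _ = ({((13, true) : H)} : Multiset H) + _
    abel
  rw [e2]
  refine thn_rch (l := (13, false)) (L := {((15, false) : H)} + {((16, false) : H)}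
    + {((17, false) : H)} + {((14, false) : H)}) (by norm_num) (by rw [h1]; abel) (by norm_num) ?_
  have e3 := R.mono ({((14, false) : H)} + ({((11, false) : H)} + {((12, false) : H)} + {((14, true) : H)}
     + ({((11, true) : H)} + {((12, true) : H)})))
  refine cast (congrArg (fun B => Rch B V) ?_) e3
  abel

theorem rch2 {w : List H} (hw : (w : Multiset H) = W0) {V : Multiset (List H)}
    (R : Rch ({((15, false) : H)} + {((16, false) : H)} + {((17, false) : H)}) V)
    (a b c d a' b' c' d' : H)
    (h1 : ({a} + {b} + {c} + {d} : Multiset H) = {(10, false)} + {(11, false)} + {(13, false)} + {(14, false)})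
    (h2 : ({a'} + {b'} + {c'} + {d'} : Multiset H) = {(16, false)} + {(17, false)} + {(12, false)} + {(14, true)}) :
    Rch (w : Multiset H) (thn 20 a b c d (15, false) + (thn 40 a' b' c' d' (13, true) + V)) := by
  have e : (w : Multiset H) = pt (10, false) ::ₘ ({((11, true) : H)} + {((12, true) : H)}) := by
    rw [hw]; unfold W0; simp only [← Multiset.singleton_add]; rfl
  rw [e]
  refine thn_rch (l := (10, false)) (L := {((11, false) : H)} + {((13, false) : H)} + {((14, false) : H)}
    + {((15, false) : H)}) (by norm_num) (by rw [h1]; abel) (by norm_num) ?_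
  have e2 : ({((11, false) : H)} + {((13, false) : H)} + {((14, false) : H)}
    + {((15, false) : H)} + ({((11, true) : H)} + {((12, true) : H)}) : Multiset H)
    = pt (12, false) ::ₘ ({((11, false) : H)} + {((13, false) : H)} + {((14, false) : H)}
     + {((15, false) : H)} + {((11, true) : H)}) := by
    simp only [← Multiset.singleton_add]
    show _ = ({((12, true) : H)} : Multiset H) + _
    abel
  rw [e2]
  refine thn_rch (l := (12, false)) (L := {((16, false) : H)} + {((17, false) : H)}
    + {((14, true) : H)} + {((13, true) : H)}) (by norm_num) (by rw [h2]; abel) (by norm_num) ?_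
  have e3 := R.mono ({((14, true) : H)} + {((13, true) : H)} + ({((11, false) : H)} + {((13, false) : H)}
     + {((14, false) : H)} + {((11, true) : H)}))
  refine cast (congrArg (fun B => Rch B V) ?_) e3
  abel

theorem M3_N {FC FJ : List H → ℚ} (hC : GoodC FC) (hJ : GoodJ FJ) (hX : Nax FC FJ) {w : List H}
    (hw : (w : Multiset H) = W0) :
    KK FC w (13, false) (15, false) (16, false) (17, false) (14, false)
      (13, true) (10, false) (11, false) (12, false) (14, true) (15, true) (16, true) (17, true)
    + KK FJ w (13, false) (15, false) (0, true) (1, true) (14, false)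
       (13, true) (10, false) (11, false) (12, false) (14, true) (15, true) (0, false) (1, false)
    + KK FJ w (13, false) (1, true) (16, false) (0, true) (14, false)
       (13, true) (10, false) (11, false) (12, false) (14, true) (16, true) (0, false) (1, false)
    + KK FJ w (13, false) (0, true) (1, true) (17, false) (14, false)
       (13, true) (10, false) (11, false) (12, false) (14, true) (17, true) (0, false) (1, false)
    = 0 := by
  refine KK_N hC hJ.good hX (w := w) ?_ (C := _) rfl ?_ ?_ ?_ ?_ ?_ (by norm_num) (by norm_num)
    (by norm_num) (w_fix hw (by norm_num) (by norm_num)) (w_fix hw (by norm_num) (by norm_num))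
    (w_fix hw (by norm_num) (by norm_num))
  · intro a b c d a' b' c' d' h1 h2
    have := rch3 hw (V := 0) (Rch.nil _) a b c d a' b' c' d' h1 h2
    rw [add_zero, add_comm] at this
    exact this
  · rw [hw]; decide +kernel
  · rw [hw]; decide +kernel
  · rw [hw]; decide +kernel
  · rw [hw]; decide +kernel
  · rw [hw]; decide +kernel

theorem M2_N {FC FJ : List H → ℚ} (hC : GoodC FC) (hJ : GoodJ FJ) (hX : Nax FC FJ) {w : List H}
    (hw : (w : Multiset H) = W0) :
    KK FC w (15, false) (10, false) (11, false) (13, false) (14, false)
      (13, true) (16, false) (17, false) (12, false) (14, true) (15, true) (16, true) (17, true)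
    + KK FJ w (15, false) (10, false) (11, false) (13, false) (14, false)
       (13, true) (0, true) (1, true) (12, false) (14, true) (15, true) (0, false) (1, false)
    + KK FJ w (1, true) (10, false) (11, false) (13, false) (14, false)
       (13, true) (16, false) (0, true) (12, false) (14, true) (16, true) (0, false) (1, false)
    + KK FJ w (0, true) (10, false) (11, false) (13, false) (14, false)
       (13, true) (1, true) (17, false) (12, false) (14, true) (17, true) (0, false) (1, false)
    = 0 := by
  refine KK_N hC hJ.good hX (w := w) ?_ (C := _) rfl ?_ ?_ ?_ ?_ ?_ (by norm_num) (by norm_num)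
    (by norm_num) (w_fix hw (by norm_num) (by norm_num)) (w_fix hw (by norm_num) (by norm_num))
    (w_fix hw (by norm_num) (by norm_num))
  · intro a b c d a' b' c' d' h1 h2
    have := rch2 hw (V := 0) (Rch.nil _) a b c d a' b' c' d' h1 h2
    rw [add_zero] at this
    exact this
  · rw [hw]; decide +kernel
  · rw [hw]; decide +kernel
  · rw [hw]; decide +kernel
  · rw [hw]; decide +kernel
  · rw [hw]; decide +kernel

/-- The vanishing theorem. -/
theorem MZ {FC FJ : List H → ℚ} (hC : GoodC FC) (hJ : GoodJ FJ) (hX : Nax FC FJ) :
    M3 FC - 3 * M2 FC = 0 := by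
  have hw : ∀ u v w : H, ({u} + {v} + {w} : Multiset H)
      = {((10, true) : H)} + {((11, true) : H)} + {((12, true) : H)} →
      (([u, v, w] : List H) : Multiset H) = W0 := fun u v w h => h
  have k3 : M3 FC
      + EE FJ (13, false) (15, false) (0, true) (1, true) (14, false)
       (13, true) (10, false) (11, false) (12, false) (14, true) (15, true) (0, false) (1, false)
      + EE FJ (13, false) (1, true) (16, false) (0, true) (14, false)
       (13, true) (10, false) (11, false) (12, false) (14, true) (16, true) (0, false) (1, false)
      + EE FJ (13, false) (0, true) (1, true) (17, false) (14, false)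
       (13, true) (10, false) (11, false) (12, false) (14, true) (17, true) (0, false) (1, false)
      = 0 := by
    unfold M3 EE
    rw [← alt3_add, ← alt3_add, ← alt3_add, ← alt3_zero ((10, true) : H) (11, true) (12, true)]
    refine alt3_congrM ?_
    intro u v w huvw
    exact M3_N hC hJ hX (hw u v w huvw)
  have k2 : M2 FC
      + EE FJ (15, false) (10, false) (11, false) (13, false) (14, false)
       (13, true) (0, true) (1, true) (12, false) (14, true) (15, true) (0, false) (1, false)
      + EE FJ (1, true) (10, false) (11, false) (13, false) (14, false)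
       (13, true) (16, false) (0, true) (12, false) (14, true) (16, true) (0, false) (1, false)
      + EE FJ (0, true) (10, false) (11, false) (13, false) (14, false)
       (13, true) (1, true) (17, false) (12, false) (14, true) (17, true) (0, false) (1, false)
      = 0 := by
    unfold M2 EE
    rw [← alt3_add, ← alt3_add, ← alt3_add, ← alt3_zero ((10, true) : H) (11, true) (12, true)]
    refine alt3_congrM ?_
    intro u v w huvw
    exact M2_N hC hJ hX (hw u v w huvw)
  have k0 := lvl2 hJ
  linarith

end CA247
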