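import Pool.Agent.CA247.Rea

set_option autoImplicit false

namespace CA247

abbrev R := Matrix (Fin 3) (Fin 3) ℚ

/-- the invariant tensor `∑ E_ij ⊗ E_ji - 3 · 1 ⊗ 1`, symmetrised -/
def MM (s : (Fin 3 × Fin 3) ⊕ Bool) (b : Bool) : R :=
  match s with
  | Sum.inl (i, j) => if b then Matrix.single j i 1 else Matrix.single i j 1
  | Sum.inr c => if c = b then 1 else (-3 / 2 : ℚ) • (1 : R)

/-- the tensor `∑ E_ij ⊗ E_ji` -/
def ME (s : Fin 3 × Fin 3) (b : Bool) : R :=
  if b then Matrix.single s.2 s.1 1 else Matrix.single s.1 s.2 1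

def tr (A : R) : ℚ := Matrix.trace A

theorem tr_add (A B : R) : tr (A + B) = tr A + tr B := Matrix.trace_add A B
theorem tr_sub (A B : R) : tr (A - B) = tr A - tr B := Matrix.trace_sub A B
theorem tr_smul (c : ℚ) (A : R) : tr (c • A) = c * tr A := by
  unfold tr; rw [Matrix.trace_smul]; rfl
theorem tr_comm (A B : R) : tr (A * B) = tr (B * A) := Matrix.trace_mul_comm A B
theorem tr_sum {ι : Type} (s : Finset ι) (f : ι → R) : tr (∑ i ∈ s, f i) = ∑ i ∈ s, tr (f i) :=
  Matrix.trace_sum s f
theorem tr_one : tr 1 = 3 := by unfold tr; simp [Matrix.trace_one]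

theorem single_mid (i j : Fin 3) (Q : R) :
    Matrix.single i j (1 : ℚ) * Q * Matrix.single j i (1 : ℚ) = Q j j • Matrix.single i i (1 : ℚ) := by
  ext a b
  simp only [Matrix.mul_apply, Matrix.single_apply, Matrix.smul_apply, smul_eq_mul,
    Fin.sum_univ_three]
  fin_cases i <;> fin_cases j <;> fin_cases a <;> fin_cases b <;> simp

theorem ME_mid (Q : R) (b : Bool) : ∑ s, ME s b * Q * ME s (!b) = tr Q • (1 : R) := by
  have key : ∀ i : Fin 3, ∑ j : Fin 3, Q j j • Matrix.single i i (1 : ℚ) = tr Q • Matrix.single i i (1 : ℚ) := by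
    intro i
    rw [← Finset.sum_smul]; rfl
  have one : ∑ i : Fin 3, Matrix.single i i (1 : ℚ) = (1 : R) := by
    ext a b; fin_cases a <;> fin_cases b <;> simp [Fin.sum_univ_three, Matrix.single_apply]
  cases b
  · rw [Fintype.sum_prod_type]
    simp only [ME, Bool.not_false, if_true, Bool.false_eq_true, if_false]
    simp only [single_mid, key]
    rw [← Finset.smul_sum, one]
  · rw [Fintype.sum_prod_type, Finset.sum_comm]
    simp only [ME, Bool.not_true, if_true, Bool.false_eq_true, if_false]
    simp only [single_mid, key]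
    rw [← Finset.smul_sum, one]

theorem tr_single (P : R) (i j : Fin 3) : tr (P * Matrix.single i j (1 : ℚ)) = P j i := by
  unfold tr
  rw [Matrix.trace_mul_comm]
  simp only [Matrix.trace, Matrix.diag, Matrix.mul_apply, Matrix.single_apply, Fin.sum_univ_three]
  fin_cases i <;> fin_cases j <;> simp

theorem ME_two (P Z : R) (b : Bool) : ∑ s, tr (P * ME s b) * tr (ME s (!b) * Z) = tr (P * Z) := by
  have e : tr (P * Z) = ∑ i : Fin 3, ∑ j : Fin 3, P i j * Z j i := by
    unfold tr; simp only [Matrix.trace, Matrix.diag, Matrix.mul_apply]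
  cases b
  · rw [Fintype.sum_prod_type, Finset.sum_comm, e]
    simp only [ME, Bool.not_false, if_true, Bool.false_eq_true, if_false]
    apply Finset.sum_congr rfl; intro i _
    apply Finset.sum_congr rfl; intro j _
    rw [tr_single, tr_comm, tr_single]
  · rw [Fintype.sum_prod_type, e]
    simp only [ME, Bool.not_true, if_true, Bool.false_eq_true, if_false]
    apply Finset.sum_congr rfl; intro i _
    apply Finset.sum_congr rfl; intro j _
    rw [tr_single, tr_comm, tr_single]

theorem MM_sum {β : Type} [AddCommMonoid β] (F : R → R → β) :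
    ∑ s, F (MM s false) (MM s true) = (∑ s, F (ME s false) (ME s true))
      + (F ((-3 / 2 : ℚ) • 1) 1 + F 1 ((-3 / 2 : ℚ) • 1)) := by
  rw [Fintype.sum_sum_type]
  congr 1
  rw [Fintype.sum_bool]
  simp [MM]

theorem MM_sum' {β : Type} [AddCommMonoid β] (F : R → R → β) (b : Bool) :
    ∑ s, F (MM s b) (MM s (!b)) = (∑ s, F (ME s b) (ME s (!b)))
      + (F ((-3 / 2 : ℚ) • 1) 1 + F 1 ((-3 / 2 : ℚ) • 1)) := by
  cases b
  · exact MM_sum F
  · have := MM_sum (fun A B => F B A)
    simp only [Bool.not_true]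
    rw [this, add_comm (F 1 _)]

theorem MM_mid (Q : R) (b : Bool) : ∑ s, MM s b * Q * MM s (!b) = tr Q • (1 : R) - (3 : ℚ) • Q := by
  rw [MM_sum' (fun A B => A * Q * B) b, ME_mid]
  have : ((-3 / 2 : ℚ) • (1 : R)) * Q * 1 + 1 * Q * ((-3 / 2 : ℚ) • (1 : R)) = - ((3 : ℚ) • Q) := by
    rw [Matrix.smul_mul, Matrix.one_mul, Matrix.mul_one, Matrix.mul_smul, Matrix.mul_one, ← add_smul]
    norm_num
  rw [this]; abel

theorem MM_two (P Z : R) (b : Bool) :
    ∑ s, tr (P * MM s b) * tr (MM s (!b) * Z) = tr (P * Z) - 3 * (tr P * tr Z) := by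
  rw [MM_sum' (fun A B => tr (P * A) * tr (B * Z)) b, ME_two]
  simp only [Matrix.mul_smul, Matrix.mul_one, Matrix.smul_mul, Matrix.one_mul, tr_smul]
  ring

/-! ### iterated contraction -/

def upd (m : H → R) (l : ℕ) (A B : R) : H → R :=
  fun h => if h.1 = l then (if h.2 then B else A) else m h

variable {ι : Type} [Fintype ι]

noncomputable def ev (M : ι → Bool → R) : List ℕ → (H → R) → ((H → R) → ℚ) → ℚ
  | [], m, T => T m
  | l :: L, m, T => ∑ s, ev M L (upd m l (M s false) (M s true)) T

theorem ev_append (M : ι → Bool → R) (L1 L2 : List ℕ) (m : H → R) (T : (H → R) → ℚ) :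
    ev M (L1 ++ L2) m T = ev M L1 m (fun m => ev M L2 m T) := by
  induction L1 generalizing m with
  | nil => rfl
  | cons l L ih =>
    simp only [List.cons_append, ev]
    exact Finset.sum_congr rfl (fun s _ => ih _)

theorem ev_congr (M : ι → Bool → R) (L : List ℕ) (m : H → R) {T T' : (H → R) → ℚ}
    (h : ∀ m, T m = T' m) : ev M L m T = ev M L m T' := by
  have : T = T' := funext h
  rw [this]

theorem ev_add (M : ι → Bool → R) (L : List ℕ) (m : H → R) (T T' : (H → R) → ℚ) :
    ev M L m (fun m => T m + T' m) = ev M L m T + ev M L m T' := by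
  induction L generalizing m with
  | nil => rfl
  | cons l L ih =>
    simp only [ev, ih, Finset.sum_add_distrib]

theorem ev_sub (M : ι → Bool → R) (L : List ℕ) (m : H → R) (T T' : (H → R) → ℚ) :
    ev M L m (fun m => T m - T' m) = ev M L m T - ev M L m T' := by
  induction L generalizing m with
  | nil => rfl
  | cons l L ih =>
    simp only [ev, ih, Finset.sum_sub_distrib]

theorem ev_smul (M : ι → Bool → R) (L : List ℕ) (m : H → R) (c : ℚ) (T : (H → R) → ℚ) :
    ev M L m (fun m => c * T m) = c * ev M L m T := by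
  induction L generalizing m with
  | nil => rfl
  | cons l L ih =>
    simp only [ev, ih, Finset.mul_sum]

theorem ev_dep (M : ι → Bool → R) {T : (H → R) → ℚ} {D : ℕ → Prop}
    (hT : ∀ m m' : H → R, (∀ h : H, D h.1 → m h = m' h) → T m = T m') :
    ∀ (L : List ℕ) (m m' : H → R), (∀ h : H, D h.1 → h.1 ∉ L → m h = m' h) →
      ev M L m T = ev M L m' T := by
  intro L
  induction L with
  | nil => intro m m' h; exact hT m m' (fun k hk => h k hk (by simp))
  | cons l L ih =>
    intro m m' h
    simp only [ev]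
    apply Finset.sum_congr rfl
    intro s _
    apply ih
    intro k hk hkL
    unfold upd
    by_cases hl : k.1 = l
    · rw [if_pos hl, if_pos hl]
    · rw [if_neg hl, if_neg hl]
      exact h k hk (by simp [hl, hkL])

theorem upd_comm (m : H → R) {l l' : ℕ} (h : l ≠ l') (A B A' B' : R) :
    upd (upd m l A B) l' A' B' = upd (upd m l' A' B') l A B := by
  funext k
  unfold upd
  by_cases h1 : k.1 = l
  · by_cases h2 : k.1 = l'
    · exact absurd (h1.symm.trans h2) h
    · simp [h1, h]
  · by_cases h2 : k.1 = l'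
    · simp [h2, Ne.symm h]
    · simp [h1, h2]

theorem upd_same (m : H → R) (l : ℕ) (A B A' B' : R) :
    upd (upd m l A B) l A' B' = upd m l A' B' := by
  funext k
  unfold upd
  by_cases h1 : k.1 = l
  · simp [h1]
  · simp [h1]

theorem ev_perm (M : ι → Bool → R) {L L' : List ℕ} (h : L.Perm L') (m : H → R)
    (T : (H → R) → ℚ) : ev M L m T = ev M L' m T := by
  induction h generalizing m with
  | nil => rfl
  | cons l _ ih => simp only [ev]; exact Finset.sum_congr rfl (fun s _ => ih _)
  | swap l l' L =>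
    simp only [ev]
    rw [Finset.sum_comm]
    by_cases hl : l = l'
    · subst hl
      rw [Finset.sum_comm]
    · apply Finset.sum_congr rfl; intro s _
      apply Finset.sum_congr rfl; intro t _
      rw [upd_comm m (Ne.symm hl)]
  | trans _ _ ih1 ih2 => rw [ih1, ih2]

end CA247
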