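import Pool.Agent.CA247.Sem

set_option autoImplicit false

namespace CA247

abbrev TP := List (ℤ × List (List ℕ))

noncomputable def pr (m : H → R) (u : List ℕ) : R := (u.map (fun n => m (decH n))).prod
noncomputable def wd (m : H → R) (u : List ℕ) : ℚ := tr (pr m u)
noncomputable def sW (m : H → R) (W : List (List ℕ)) : ℚ := (W.map (wd m)).prod
noncomputable def sP (m : H → R) (P : TP) : ℚ := (P.map (fun t => (t.1 : ℚ) * sW m t.2)).sum

theorem pr_append (m : H → R) (u v : List ℕ) : pr m (u ++ v) = pr m u * pr m v := by
  unfold pr; rw [List.map_append, List.prod_append]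
theorem pr_cons (m : H → R) (a : ℕ) (v : List ℕ) : pr m (a :: v) = m (decH a) * pr m v := by
  unfold pr; rw [List.map_cons, List.prod_cons]
theorem pr_nil (m : H → R) : pr m [] = 1 := rfl

theorem sW_cons (m : H → R) (u : List ℕ) (W : List (List ℕ)) : sW m (u :: W) = wd m u * sW m W := by
  unfold sW; rw [List.map_cons, List.prod_cons]
theorem sW_nil (m : H → R) : sW m [] = 1 := rfl
theorem sW_append (m : H → R) (U W : List (List ℕ)) : sW m (U ++ W) = sW m U * sW m W := by
  unfold sW; rw [List.map_append, List.prod_append]

theorem sP_nil (m : H → R) : sP m [] = 0 := rfl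
theorem sP_cons (m : H → R) (t : ℤ × List (List ℕ)) (P : TP) :
    sP m (t :: P) = (t.1 : ℚ) * sW m t.2 + sP m P := by
  unfold sP; rw [List.map_cons, List.sum_cons]
theorem sP_append (m : H → R) (P Q : TP) : sP m (P ++ Q) = sP m P + sP m Q := by
  unfold sP; rw [List.map_append, List.sum_append]

def spl (p : ℕ) : List ℕ → Option (List ℕ × List ℕ)
  | [] => none
  | a :: u =>
    match Nat.beq a p with
    | true => some ([], u)
    | false =>
      match spl p u with
      | some (x, y) => some (a :: x, y)
      | none => none

theorem spl_spec {p : ℕ} : ∀ {u x y : List ℕ}, spl p u = some (x, y) → u = x ++ p :: y := by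
  intro u
  induction u with
  | nil => intro x y h; simp [spl] at h
  | cons a u ih =>
    intro x y h
    unfold spl at h
    cases ha : Nat.beq a p with
    | true =>
      rw [ha] at h
      simp only [Option.some.injEq, Prod.mk.injEq] at h
      rw [← h.1, ← h.2, Nat.eq_of_beq_eq_true ha]; rfl
    | false =>
      rw [ha] at h
      simp only at h
      cases hs : spl p u with
      | none => rw [hs] at h; simp at h
      | some z =>
        obtain ⟨x', y'⟩ := z
        rw [hs] at h
        simp only [Option.some.injEq, Prod.mk.injEq] at h
        rw [← h.1, ← h.2, ih hs]; rfl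

def ext (p : ℕ) : List (List ℕ) → Option (List ℕ × List (List ℕ))
  | [] => none
  | u :: W =>
    match spl p u with
    | some (x, y) => some (y ++ x, W)
    | none =>
      match ext p W with
      | some (v, W') => some (v, u :: W')
      | none => none

theorem ext_spec {p : ℕ} (m : H → R) : ∀ {W : List (List ℕ)} {v : List ℕ} {W' : List (List ℕ)},
    ext p W = some (v, W') → sW m W = tr (m (decH p) * pr m v) * sW m W' := by
  intro W
  induction W with
  | nil => intro v W' h; simp [ext] at h
  | cons u W ih =>
    intro v W' h
    unfold ext at h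
    cases hs : spl p u with
    | some z =>
      obtain ⟨x, y⟩ := z
      rw [hs] at h
      simp only [Option.some.injEq, Prod.mk.injEq] at h
      rw [← h.1, ← h.2, sW_cons]
      congr 1
      unfold wd
      rw [spl_spec hs, pr_append, pr_cons, tr_comm, pr_append, Matrix.mul_assoc]
    | none =>
      rw [hs] at h
      cases he : ext p W with
      | none => rw [he] at h; simp at h
      | some z =>
        obtain ⟨v', W''⟩ := z
        rw [he] at h
        simp only [Option.some.injEq, Prod.mk.injEq] at h
        rw [← h.1, ← h.2, sW_cons, sW_cons, ih he]; ring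

def nol (l : ℕ) (u : List ℕ) : Bool := u.all (fun n => not (Nat.beq (n / 2) l))

theorem nol_pr {l : ℕ} {u : List ℕ} (h : nol l u = true) (m : H → R) (A B : R) :
    pr (upd m l A B) u = pr m u := by
  unfold pr
  congr 1
  apply List.map_congr_left
  intro n hn
  unfold nol at h
  rw [List.all_eq_true] at h
  have := h n hn
  unfold upd
  rw [if_neg]
  intro e
  have e2 : n / 2 = l := e
  rw [e2] at this
  simp at this

theorem nol_sW {l : ℕ} {W : List (List ℕ)} (h : W.all (nol l) = true) (m : H → R) (A B : R) :
    sW (upd m l A B) W = sW m W := by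
  unfold sW
  congr 1
  apply List.map_congr_left
  intro u hu
  rw [List.all_eq_true] at h
  unfold wd
  rw [nol_pr (h u hu)]

def ct (l : ℕ) (W : List (List ℕ)) : Option (List (List ℕ)) :=
  match ext (2 * l) W with
  | none => none
  | some (v, W') =>
    match spl (2 * l + 1) v with
    | some (x, y) => if nol l x && nol l y && W'.all (nol l) then some (x :: y :: W') else none
    | none =>
      match ext (2 * l + 1) W' with
      | none => none
      | some (v', W'') =>
        if nol l v && nol l v' && W''.all (nol l) then some ((v ++ v') :: W'') else none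

theorem upd_f (m : H → R) (l : ℕ) (A B : R) : upd m l A B (decH (2 * l)) = A := by
  unfold upd decH
  have h1 : 2 * l / 2 = l := by omega
  have h2 : 2 * l % 2 = 0 := by omega
  simp [h1, h2]
theorem upd_t (m : H → R) (l : ℕ) (A B : R) : upd m l A B (decH (2 * l + 1)) = B := by
  unfold upd decH
  have h1 : (2 * l + 1) / 2 = l := by omega
  have h2 : (2 * l + 1) % 2 = 1 := by omega
  simp [h1, h2]

theorem ct_spec {l : ℕ} {W W2 : List (List ℕ)} (h : ct l W = some W2) (m : H → R) :
    ∑ s, sW (upd m l (ME s false) (ME s true)) W = sW m W2 := by
  unfold ct at h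
  cases h1 : ext (2 * l) W with
  | none => rw [h1] at h; simp at h
  | some z =>
    obtain ⟨v, W'⟩ := z
    rw [h1] at h
    simp only at h
    have e1 : ∀ s, sW (upd m l (ME s false) (ME s true)) W
        = tr (ME s false * pr (upd m l (ME s false) (ME s true)) v)
          * sW (upd m l (ME s false) (ME s true)) W' := by
      intro s
      rw [ext_spec _ h1, upd_f]
    simp only [e1]
    cases h2 : spl (2 * l + 1) v with
    | some z =>
      obtain ⟨x, y⟩ := z
      rw [h2] at h
      simp only at h
      by_cases hc : (nol l x && nol l y && W'.all (nol l)) = true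
      · rw [if_pos hc] at h
        simp only [Option.some.injEq] at h
        simp only [Bool.and_eq_true] at hc
        obtain ⟨⟨c1, c2⟩, c3⟩ := hc
        rw [← h, sW_cons, sW_cons]
        have e2 : ∀ s, tr (ME s false * pr (upd m l (ME s false) (ME s true)) v)
            * sW (upd m l (ME s false) (ME s true)) W'
            = tr ((ME s false * pr m x * ME s true) * pr m y) * sW m W' := by
          intro s
          rw [spl_spec h2, pr_append, pr_cons, upd_t, nol_pr c1, nol_pr c2, nol_sW c3]
          simp only [Matrix.mul_assoc]
        simp only [e2]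
        rw [← Finset.sum_mul, ← tr_sum, ← Finset.sum_mul]
        have := ME_mid (pr m x) false
        simp only [Bool.not_false] at this
        rw [this, Matrix.smul_mul, Matrix.one_mul, tr_smul]
        unfold wd; ring
      · rw [if_neg hc] at h; simp at h
    | none =>
      rw [h2] at h
      simp only at h
      cases h3 : ext (2 * l + 1) W' with
      | none => rw [h3] at h; simp at h
      | some z =>
        obtain ⟨v', W''⟩ := z
        rw [h3] at h
        simp only at h
        by_cases hc : (nol l v && nol l v' && W''.all (nol l)) = true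
        · rw [if_pos hc] at h
          simp only [Option.some.injEq] at h
          simp only [Bool.and_eq_true] at hc
          obtain ⟨⟨c1, c2⟩, c3⟩ := hc
          rw [← h, sW_cons]
          have e2 : ∀ s, tr (ME s false * pr (upd m l (ME s false) (ME s true)) v)
              * sW (upd m l (ME s false) (ME s true)) W'
              = (tr (pr m v * ME s false) * tr (ME s true * pr m v')) * sW m W'' := by
            intro s
            rw [ext_spec _ h3, upd_t, nol_pr c1, nol_pr c2, nol_sW c3, tr_comm (ME s false)]
            ring
          simp only [e2]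
          rw [← Finset.sum_mul]
          have := ME_two (pr m v) (pr m v') false
          simp only [Bool.not_false] at this
          rw [this]
          unfold wd
          rw [pr_append]
        · rw [if_neg hc] at h; simp at h

def ctP (l : ℕ) : TP → Option TP
  | [] => some []
  | (c, W) :: P =>
    match ct l W with
    | none => none
    | some W' =>
      match ctP l P with
      | none => none
      | some P' => some ((c, W') :: P')

theorem ctP_spec {l : ℕ} (m : H → R) : ∀ {P Q : TP}, ctP l P = some Q →
    ∑ s, sP (upd m l (ME s false) (ME s true)) P = sP m Q := by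
  intro P
  induction P with
  | nil =>
    intro Q h
    simp only [ctP, Option.some.injEq] at h
    rw [← h]; simp [sP_nil]
  | cons t P ih =>
    intro Q h
    obtain ⟨c, W⟩ := t
    unfold ctP at h
    cases h1 : ct l W with
    | none => rw [h1] at h; simp at h
    | some W' =>
      rw [h1] at h
      simp only at h
      cases h2 : ctP l P with
      | none => rw [h2] at h; simp at h
      | some P' =>
        rw [h2] at h
        simp only [Option.some.injEq] at h
        rw [← h, sP_cons]
        simp only [sP_cons]
        rw [Finset.sum_add_distrib, ← Finset.mul_sum, ct_spec h1, ih h2]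

/-- rotate so that the least letter comes first -/
def nw (u : List ℕ) : List ℕ :=
  match u with
  | [] => []
  | a :: v =>
    match spl (v.foldl Nat.min a) u with
    | some (x, y) => (v.foldl Nat.min a) :: (y ++ x)
    | none => u

theorem nw_spec (m : H → R) (u : List ℕ) : wd m (nw u) = wd m u := by
  unfold nw
  cases u with
  | nil => rfl
  | cons a v =>
    simp only
    cases hs : spl (v.foldl Nat.min a) (a :: v) with
    | none => rfl
    | some z =>
      obtain ⟨x, y⟩ := z
      simp only
      unfold wd
      rw [spl_spec hs, pr_cons, pr_append, pr_append, pr_cons, ← Matrix.mul_assoc, tr_comm (pr m x)]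

/-- normalise: drop empty words, rotate, insert in order -/
def nT : List (List ℕ) → ℤ × List (List ℕ)
  | [] => (1, [])
  | u :: W =>
    match nT W with
    | (c, W') => match u with
      | [] => (3 * c, W')
      | a :: v => (c, insN (nw (a :: v)) W')

theorem nT_spec (m : H → R) (W : List (List ℕ)) : sW m W = ((nT W).1 : ℚ) * sW m (nT W).2 := by
  induction W with
  | nil => simp [nT]
  | cons u W ih =>
    rw [sW_cons, ih]
    cases u with
    | nil =>
      show wd m [] * _ = ((3 * (nT W).1 : ℤ) : ℚ) * sW m (nT W).2
      have : wd m [] = 3 := by unfold wd; rw [pr_nil, tr_one]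
      rw [this]; push_cast; ring
    | cons a v =>
      show _ = ((nT W).1 : ℚ) * sW m (insN (nw (a :: v)) (nT W).2)
      have : sW m (insN (nw (a :: v)) (nT W).2) = sW m (nw (a :: v) :: (nT W).2) := by
        unfold sW
        exact ((insN_perm _ _).map _).prod_eq
      rw [this, sW_cons, nw_spec]; ring

def Tr.toP : Tr → TP
  | .nil => []
  | .node _ N c l r => l.toP ++ (if c = 0 then r.toP else (c, N) :: r.toP)

theorem Tr.toP_ev (m : H → R) (t : Tr) : sP m t.toP = t.ev (sW m) := by
  induction t with
  | nil => rfl
  | node k N c l r ihl ihr =>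
    unfold Tr.toP
    rw [sP_append, ihl]
    by_cases hc : c = 0
    · rw [if_pos hc, ihr]; simp [Tr.ev, hc]
    · rw [if_neg hc, sP_cons, ihr]; simp only [Tr.ev]; ring

def colT : Tr → TP → Tr
  | t, [] => t
  | t, (c, W) :: P =>
    match nT W with
    | (d, W') => colT (t.ins (kNet W') W' (c * d)) P

theorem colT_spec (m : H → R) (P : TP) : ∀ t : Tr, (colT t P).ev (sW m) = t.ev (sW m) + sP m P := by
  induction P with
  | nil => intro t; simp [colT, sP_nil]
  | cons x P ih =>
    intro t
    obtain ⟨c, W⟩ := x
    show (colT (t.ins (kNet (nT W).2) (nT W).2 (c * (nT W).1)) P).ev (sW m) = _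
    rw [ih, Tr.ins_ev, sP_cons]
    simp only
    rw [nT_spec m W]; push_cast; ring

def col (P : TP) : TP := (colT Tr.nil P).toP

theorem col_spec (m : H → R) (P : TP) : sP m (col P) = sP m P := by
  unfold col
  rw [Tr.toP_ev, colT_spec]; simp [Tr.ev]

def ctA : List ℕ → TP → Option TP
  | [], P => some P
  | l :: L, P =>
    match ctP l P with
    | none => none
    | some Q => ctA L (col Q)

theorem ctA_spec (m : H → R) : ∀ {L : List ℕ} {P Q : TP}, ctA L P = some Q →
    ev ME L m (fun m => sP m P) = sP m Q := by
  intro L
  induction L with
  | nil =>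
    intro P Q h
    simp only [ctA, Option.some.injEq] at h
    rw [← h]; rfl
  | cons l L ih =>
    intro P Q h
    unfold ctA at h
    cases h1 : ctP l P with
    | none => rw [h1] at h; simp at h
    | some P' =>
      rw [h1] at h
      simp only at h
      have hp : (l :: L).Perm (L ++ [l]) := List.perm_append_comm (l₁ := [l]) (l₂ := L)
      rw [ev_perm ME hp, ev_append, ← ih h]
      apply ev_congr
      intro m
      show ∑ s, sP (upd m l (ME s false) (ME s true)) P = _
      rw [ctP_spec m h1, col_spec]

/-- equality test -/
def eqP (P Q : TP) : Bool := (colT Tr.nil (P ++ Q.map (fun t => (-t.1, t.2)))).allZ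

theorem eqP_spec {P Q : TP} (h : eqP P Q = true) (m : H → R) : sP m P = sP m Q := by
  unfold eqP at h
  have h1 := Tr.ev_allZ (sW m) _ h
  rw [colT_spec, sP_append] at h1
  have h2 : sP m (Q.map (fun t => (-t.1, t.2))) = - sP m Q := by
    induction Q with
    | nil => simp [sP_nil]
    | cons t Q ih =>
      rw [List.map_cons, sP_cons, sP_cons]
      have : sP m (Q.map (fun t => (-t.1, t.2))) = - sP m Q := by
        clear ih h1 h
        induction Q with
        | nil => simp [sP_nil]
        | cons t Q ih => rw [List.map_cons, sP_cons, sP_cons, ih]; push_cast; ring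
      rw [this]; push_cast; ring
  rw [h2] at h1
  simp only [Tr.ev, zero_add] at h1
  linarith

def mulP (P Q : TP) : TP := P.flatMap (fun s => Q.map (fun t => (s.1 * t.1, s.2 ++ t.2)))

theorem mulP_spec (m : H → R) (P Q : TP) : sP m (mulP P Q) = sP m P * sP m Q := by
  unfold mulP
  induction P with
  | nil => simp [sP_nil]
  | cons s P ih =>
    rw [List.flatMap_cons, sP_append, ih, sP_cons]
    have : sP m (Q.map (fun t => (s.1 * t.1, s.2 ++ t.2))) = (s.1 : ℚ) * sW m s.2 * sP m Q := by
      clear ih
      induction Q with
      | nil => simp [sP_nil]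
      | cons t Q ih => rw [List.map_cons, sP_cons, sP_cons, ih, sW_append]; push_cast; ring
    rw [this]; ring

def smP (c : ℤ) (P : TP) : TP := P.map (fun t => (c * t.1, t.2))
theorem smP_spec (m : H → R) (c : ℤ) (P : TP) : sP m (smP c P) = c * sP m P := by
  unfold smP
  induction P with
  | nil => simp [sP_nil]
  | cons t P ih => rw [List.map_cons, sP_cons, sP_cons, ih]; push_cast; ring

/-- expansion of a vertex list -/
def exV : List (List ℕ) → TP
  | [] => [(1, [])]
  | n :: N =>
    match n with
    | [a, b, c] => (exV N).flatMap (fun t => [(t.1, [a, b, c] :: t.2), (-t.1, [a, c, b] :: t.2)])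
    | _ => []

theorem exV_spec (m : H → R) (N : List (List ℕ)) :
    sP m (exV N) = (N.map (fun n => vt (n.map (fun k => m (decH k))))).prod := by
  induction N with
  | nil => simp [exV, sP_cons, sP_nil, sW_nil]
  | cons n N ih =>
    match n with
    | [a, b, c] =>
      rw [List.map_cons, List.prod_cons, ← ih]
      show sP m ((exV N).flatMap (fun t => [(t.1, [a, b, c] :: t.2), (-t.1, [a, c, b] :: t.2)])) = _
      generalize exV N = P
      induction P with
      | nil => simp [sP_nil]
      | cons t P ih2 =>
        rw [List.flatMap_cons, sP_append, ih2, sP_cons, sP_cons, sP_cons, sP_nil, sW_cons, sW_cons]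
        have : vt (([a, b, c] : List ℕ).map (fun k => m (decH k))) = wd m [a, b, c] - wd m [a, c, b] := by
          unfold vt wd
          simp only [List.map_cons, List.map_nil, pr_cons, pr_nil, Matrix.mul_one, Matrix.mul_assoc]
        rw [this]; push_cast; ring
    | [] => simp [exV, sP_nil, vt]
    | [_] => simp [exV, sP_nil, vt]
    | [_, _] => simp [exV, sP_nil, vt]
    | _ :: _ :: _ :: _ :: _ => simp [exV, sP_nil, vt]

end CA247
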