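import Pool.Agent.CA247.Gl

set_option autoImplicit false

namespace CA247

noncomputable def vt (l : List R) : ℚ :=
  match l with
  | [A, B, C] => tr (A * B * C) - tr (A * C * B)
  | _ => 0

theorem vt_rot (A B C : R) : vt [A, B, C] = vt [B, C, A] := by
  unfold vt
  simp only
  have h1 : tr (A * B * C) = tr (B * C * A) := by rw [Matrix.mul_assoc, tr_comm]
  have h2 : tr (A * C * B) = tr (B * A * C) := by rw [tr_comm, ← Matrix.mul_assoc]
  rw [h1, h2]

theorem vt_isRot {r : List H} {a b c : H} (h : IsRot r a b c) (m : H → R) :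
    vt (r.map m) = vt [m a, m b, m c] := by
  rcases h with rfl | rfl | rfl
  · rfl
  · show vt [m c, m a, m b] = _
    rw [vt_rot]
  · show vt [m b, m c, m a] = _
    rw [vt_rot, vt_rot]

noncomputable def PV (V : Multiset (List H)) (m : H → R) : ℚ := (V.map (fun r => vt (r.map m))).prod

theorem PV_zero (m : H → R) : PV 0 m = 1 := by simp [PV]
theorem PV_cons (r : List H) (V : Multiset (List H)) (m : H → R) :
    PV (r ::ₘ V) m = vt (r.map m) * PV V m := by simp [PV]
theorem PV_add (V W : Multiset (List H)) (m : H → R) : PV (V + W) m = PV V m * PV W m := by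
  simp [PV]

noncomputable def TS (w : List H) (V : Multiset (List H)) (m : H → R) : ℚ := TW w m * PV V m

theorem PV_congr {V : Multiset (List H)} {m m' : H → R} (h : ∀ k ∈ fl V, m k = m' k) :
    PV V m = PV V m' := by
  unfold PV
  congr 1
  apply Multiset.map_congr rfl
  intro r hr
  have : r.map m = r.map m' := by
    apply List.map_congr_left
    intro k hk
    exact h k (mem_fl.2 ⟨r, hr, hk⟩)
  rw [this]

theorem TW_congr {w : List H} {m m' : H → R} (h : ∀ k ∈ w, m k = m' k) : TW w m = TW w m' := by
  unfold TW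
  rw [List.map_congr_left h]

theorem TS_step {w : List H} {V' : Multiset (List H)} {r : List H} {h x y : H}
    (hN : Nod w (r ::ₘ V')) (hw : h ∈ w) (hr : IsRot r (pt h) x y) (m : H → R) :
    ∑ s, TS w (r ::ₘ V') (upd m h.1 (MM s false) (MM s true))
      = TS (sub h [x, y] w) V' m - TS (sub h [y, x] w) V' m := by
  obtain ⟨p, q, hpq, hp, hq⟩ := exists_split hN.wn hw
  have hphV : pt h ∈ fl (r ::ₘ V') := by rw [fl_cons, hr.coe]; simp
  have hph : pt h ∉ w := fun e => hN.disj e hphV
  have lp : ∀ k ∈ p, k.1 ≠ h.1 := fun k hk e => by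
    rcases letter_cases e with e | e
    · exact hp (e ▸ hk)
    · exact hph (by rw [hpq, ← e]; simp [hk])
  have lq : ∀ k ∈ q, k.1 ≠ h.1 := fun k hk e => by
    rcases letter_cases e with e | e
    · exact hq (e ▸ hk)
    · exact hph (by rw [hpq, ← e]; simp [hk])
  have hN' := hN
  unfold Nod at hN'
  rw [fl_cons, hr.coe] at hN'
  have nd1 : (({pt h} + {x} + {y} : Multiset H) + fl V').Nodup := (Multiset.nodup_add.1 hN').2.1
  have hx : x.1 ≠ h.1 := fun e => by
    rcases letter_cases e with e | e
    · refine hN.disj hw ?_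
      rw [fl_cons, hr.coe, ← e]; simp
    · rw [e] at nd1
      have h2 := (Multiset.nodup_add.1 nd1).1
      rw [Multiset.nodup_add] at h2
      have h3 := h2.1
      rw [Multiset.nodup_add] at h3
      exact (Multiset.disjoint_left.1 h3.2.2) (show pt h ∈ ({pt h} : Multiset H) from by simp)
        (by simp)
  have hy : y.1 ≠ h.1 := fun e => by
    rcases letter_cases e with e | e
    · refine hN.disj hw ?_
      rw [fl_cons, hr.coe, ← e]; simp
    · rw [e] at nd1
      have h2 := (Multiset.nodup_add.1 nd1).1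
      rw [Multiset.nodup_add] at h2
      exact (Multiset.disjoint_left.1 h2.2.2) (show pt h ∈ ({pt h} + {x} : Multiset H) from by simp)
        (by simp)
  have lV : ∀ k ∈ fl V', k.1 ≠ h.1 := fun k hk e => by
    rcases letter_cases e with e | e
    · refine hN.disj hw ?_
      rw [fl_cons, ← e, Multiset.mem_add]; exact Or.inr hk
    · exact Multiset.disjoint_left.1 (Multiset.nodup_add.1 nd1).2.2 (by simp) (e ▸ hk)
  have e1 : ∀ l, sub h l w = p ++ l ++ q := fun l => by rw [hpq, sub_split hp hq]
  have rest : ∀ A B : R, PV V' (upd m h.1 A B) = PV V' m := fun A B =>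
    PV_congr (fun k hk => by unfold upd; rw [if_neg (lV k hk)])
  have hx' : ∀ A B : R, upd m h.1 A B x = m x := fun A B => by unfold upd; rw [if_neg hx]
  have hy' : ∀ A B : R, upd m h.1 A B y = m y := fun A B => by unfold upd; rw [if_neg hy]
  have key : ∀ s, TS w (r ::ₘ V') (upd m h.1 (MM s false) (MM s true))
      = (tr (((q.map m).prod * (p.map m).prod) * MM s h.2) * tr (MM s (!h.2) * (m x * m y))
        - tr (((q.map m).prod * (p.map m).prod) * MM s h.2) * tr (MM s (!h.2) * (m y * m x))) * PV V' m := by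
    intro s
    unfold TS
    rw [PV_cons, rest, vt_isRot hr, upd_ev', hx', hy']
    have hw' : TW w (upd m h.1 (MM s false) (MM s true))
        = tr (((q.map m).prod * (p.map m).prod) * MM s h.2) := by
      unfold TW
      rw [hpq]
      simp only [List.map_append, List.map_cons, List.prod_append, List.prod_cons, map_upd lp,
        map_upd lq, upd_ev]
      rw [← Matrix.mul_assoc, tr_comm, ← Matrix.mul_assoc]
    rw [hw']
    unfold vt
    simp only [Matrix.mul_assoc]
    ring
  simp only [key]
  rw [← Finset.sum_mul, Finset.sum_sub_distrib, MM_two, MM_two, tr_comm (m x) (m y)]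
  unfold TS
  have t1 : TW (sub h [x, y] w) m = tr ((q.map m).prod * (p.map m).prod * (m x * m y)) := by
    unfold TW; rw [e1]
    simp only [List.map_append, List.map_cons, List.map_nil, List.prod_append, List.prod_cons,
      List.prod_nil, mul_one]
    rw [tr_comm, Matrix.mul_assoc]
  have t2 : TW (sub h [y, x] w) m = tr ((q.map m).prod * (p.map m).prod * (m y * m x)) := by
    unfold TW; rw [e1]
    simp only [List.map_append, List.map_cons, List.map_nil, List.prod_append, List.prod_cons,
      List.prod_nil, mul_one]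
    rw [tr_comm, Matrix.mul_assoc]
  rw [t1, t2]; ring

theorem fh_sem {A : Multiset H} {V : Multiset (List H)} (hR : Rch A V) :
    ∀ (w : List H), (w : Multiset H) = A → Nod w V →
      (∀ h ∈ (w : Multiset H) + fl V, pt h ∈ (w : Multiset H) + fl V) →
      ∀ (L : List ℕ), L.Nodup → (∀ l, l ∈ L ↔ ∃ h ∈ (w : Multiset H) + fl V, h.1 = l) →
      ∀ m : H → R, fh gg w V = ev MM L m (TS w V) := by
  induction hR with
  | nil A =>
    intro w hA hN hcl L hL hL2 m
    rw [fh_zero hN.wn]
    have hc : Clo w := ⟨hN.wn, fun h hh => by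
      have := hcl h (by simp [hh])
      simpa using this⟩
    unfold gg
    rw [if_pos hc]
    have hp : (labsL w).Perm L := by
      have hnd : (labsL w).Nodup := List.nodup_dedup _
      rw [List.perm_ext_iff_of_nodup hnd hL]
      intro l
      rw [mem_labsL, hL2]
      simp
    rw [ev_perm MM hp]
    have e : TS w 0 = TW w := by funext m; unfold TS; rw [PV_zero, mul_one]
    rw [e]
    refine ev_dep MM (D := fun l => l ∈ L) ?_ L _ _ (fun h h1 h2 => absurd h1 h2)
    intro m m' h
    apply TW_congr
    intro k hk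
    exact h k ((hL2 k.1).2 ⟨k, by simp [hk], rfl⟩)
  | @step A A' r V' h x y hp hr hA R ih =>
    intro w hwA hN hcl L hL hL2 m
    have hw : h ∈ w := by rw [← Multiset.mem_coe, hwA, hA]; simp
    rw [fh_res gg_goodC hN hw hp hr rfl]
    have hs : IsStep w (r ::ₘ V') ⟨h, x, y, V'⟩ := ⟨hw, hp, r, hr, rfl⟩
    have nd := step_nod hN hs
    have hcont := step_cont hN hs
    simp only at nd hcont
    have c1 : (sub h [x, y] w : Multiset H) = x ::ₘ y ::ₘ A' := by
      have := coe_sub (l := [x, y]) hN.wn hw
      rw [hwA, hA] at this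
      have e2 : (([x, y] : List H) : Multiset H) = {x} + {y} := rfl
      rw [e2, ← Multiset.singleton_add h A'] at this
      have e3 : ({h} + A' + ({x} + {y}) : Multiset H) = (x ::ₘ y ::ₘ A') + {h} := by
        rw [← Multiset.singleton_add x, ← Multiset.singleton_add y]; abel
      rw [e3] at this
      exact add_right_cancel this
    have c2 : (sub h [y, x] w : Multiset H) = x ::ₘ y ::ₘ A' := by
      rw [← c1]; exact sub_swap_coe (List.Perm.swap x y [])
    have e12 : (sub h [y, x] w : Multiset H) = (sub h [x, y] w : Multiset H) := by rw [c1, c2]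
    set C' := (sub h [x, y] w : Multiset H) + fl V' with hC'
    have hNC : ({h} + {pt h} + C' : Multiset H).Nodup := by
      have := hN; unfold Nod at this; rwa [hcont] at this
    have lab : ∀ k ∈ C', k.1 ≠ h.1 := by
      intro k hk e
      have hd := (Multiset.nodup_add.1 hNC).2.2
      rcases letter_cases e with e | e
      · exact (Multiset.disjoint_left.1 hd) (show k ∈ ({h} + {pt h} : Multiset H) from by rw [e]; simp) hk
      · exact (Multiset.disjoint_left.1 hd) (show k ∈ ({h} + {pt h} : Multiset H) from by rw [e]; simp) hk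
    have hcl' : ∀ k ∈ C', pt k ∈ C' := by
      intro k hk
      have h1 := hcl k (by rw [hcont, Multiset.mem_add]; exact Or.inr hk)
      rw [hcont] at h1
      simp only [Multiset.mem_add, Multiset.mem_singleton] at h1
      rcases h1 with (h1 | h1) | h1
      · exact absurd (by rw [← h1]; rfl) (lab k hk)
      · exact absurd (by rw [pt_inj.1 h1]) (lab k hk)
      · exact h1
    have hmemL : h.1 ∈ L := (hL2 h.1).2 ⟨h, by simp [hw], rfl⟩
    have hL' : (L.erase h.1).Nodup := hL.erase _
    have hL2' : ∀ l, l ∈ L.erase h.1 ↔ ∃ k ∈ C', k.1 = l := by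
      intro l
      rw [hL.mem_erase_iff, hL2]
      constructor
      · rintro ⟨h1, k, hk, rfl⟩
        rw [hcont] at hk
        rw [Multiset.mem_add] at hk
        rcases hk with hk | hk
        · simp only [Multiset.mem_add, Multiset.mem_singleton] at hk
          rcases hk with rfl | rfl
          · exact absurd rfl h1
          · exact absurd (pt_fst h) h1
        · exact ⟨k, hk, rfl⟩
      · rintro ⟨k, hk, rfl⟩
        exact ⟨lab k hk, k, by rw [hcont, Multiset.mem_add]; exact Or.inr hk, rfl⟩
    have I1 := ih (sub h [x, y] w) c1 nd.1 hcl' (L.erase h.1) hL' hL2' m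
    have I2 := ih (sub h [y, x] w) c2 nd.2 (by rw [e12]; exact hcl') (L.erase h.1) hL'
      (by rw [e12]; exact hL2') m
    rw [I1, I2, ← ev_sub]
    rw [ev_perm MM ((List.perm_cons_erase hmemL).trans
      (List.perm_append_comm (l₁ := [h.1]) (l₂ := L.erase h.1))), ev_append]
    apply ev_congr
    intro m
    exact (TS_step hN hw hr m).symm

theorem ev_zero' {ι : Type} [Fintype ι] (M : ι → Bool → R) {T : (H → R) → ℚ} :
    ∀ (L : List ℕ) (m : H → R), (∀ m' : H → R, (∀ h : H, h.1 ∉ L → m' h = m h) → T m' = 0) →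
      ev M L m T = 0 := by
  intro L
  induction L with
  | nil => intro m h; exact h m (fun _ _ => rfl)
  | cons l L ih =>
    intro m h
    simp only [ev]
    apply Finset.sum_eq_zero
    intro s _
    apply ih
    intro m' hm'
    apply h
    intro k hk
    rw [hm' k (fun e => hk (by simp [e]))]
    unfold upd
    rw [if_neg (fun e => hk (by simp [e]))]

theorem ev_ME {T : (H → R) → ℚ} : ∀ (L : List ℕ), L.Nodup →
    (∀ l ∈ L, ∀ m : H → R, (∃ c c' : ℚ, m (l, false) = c • (1 : R) ∧ m (l, true) = c' • (1 : R)) →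
      T m = 0) → ∀ m : H → R, ev MM L m T = ev ME L m T := by
  intro L
  induction L with
  | nil => intro _ _ m; rfl
  | cons l L ih =>
    intro hL hT m
    rw [List.nodup_cons] at hL
    simp only [ev]
    rw [MM_sum (fun A B => ev MM L (upd m l A B) T)]
    have z : ∀ c c' : ℚ, ev MM L (upd m l (c • 1) (c' • 1)) T = 0 := by
      intro c c'
      apply ev_zero'
      intro m' hm'
      apply hT l (by simp)
      refine ⟨c, c', ?_, ?_⟩
      · rw [hm' (l, false) hL.1]; simp [upd]
      · rw [hm' (l, true) hL.1]; simp [upd]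
    have z1 := z (-3 / 2) 1
    have z2 := z 1 (-3 / 2)
    rw [one_smul] at z1 z2
    rw [z1, z2, add_zero, add_zero]
    exact Finset.sum_congr rfl (fun s _ => ih hL.2 (fun l' hl' => hT l' (by simp [hl'])) _)

theorem vt_scal1 (c : ℚ) (B C : R) : vt [c • 1, B, C] = 0 := by
  unfold vt
  simp only [Matrix.smul_mul, Matrix.one_mul, tr_smul]
  rw [tr_comm B C]; ring

theorem vt_scal {r : List H} (hr : r.length = 3) {m : H → R} {k : H} (hk : k ∈ r) {c : ℚ}
    (hc : m k = c • (1 : R)) : vt (r.map m) = 0 := by
  match r, hr with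
  | [a, b, d], _ =>
    simp only [List.mem_cons, List.not_mem_nil, or_false] at hk
    simp only [List.map_cons, List.map_nil]
    rcases hk with rfl | rfl | rfl
    · rw [hc]; exact vt_scal1 c _ _
    · rw [hc, vt_rot]; exact vt_scal1 c _ _
    · rw [hc, vt_rot, vt_rot]; exact vt_scal1 c _ _

theorem TS_scal {w : List H} {V : Multiset (List H)} {l : ℕ} (hV : ∀ r ∈ V, r.length = 3)
    (hl : ∃ k ∈ fl V, k.1 = l) {m : H → R}
    (hm : ∃ c c' : ℚ, m (l, false) = c • (1 : R) ∧ m (l, true) = c' • (1 : R)) : TS w V m = 0 := by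
  obtain ⟨k, hk, rfl⟩ := hl
  obtain ⟨r, hr, hkr⟩ := mem_fl.1 hk
  obtain ⟨W, hW⟩ := Multiset.exists_cons_of_mem hr
  obtain ⟨c, c', h1, h2⟩ := hm
  unfold TS
  rw [hW, PV_cons]
  have : vt (r.map m) = 0 := by
    obtain ⟨k1, k2⟩ := k
    cases k2
    · exact vt_scal (hV r hr) hkr h1
    · exact vt_scal (hV r hr) hkr h2
  rw [this]; ring

end CA247
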