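import Pool.Agent.CA247.Dat3
import Pool.Agent.CA247.MZ

set_option autoImplicit false

namespace CA247

def thC2 (s a b c d p : ℕ) : List (List ℕ) :=
  [[2 * s, 2 * (s + 1), 2 * (s + 2)], [2 * s + 1, a, 2 * (s + 3)], [2 * (s + 3) + 1, b, 2 * (s + 4)],
   [2 * (s + 1) + 1, c, 2 * (s + 5)], [2 * (s + 2) + 1, d, 2 * (s + 6)],
   [2 * (s + 6) + 1, p, 2 * (s + 7)], [2 * (s + 4) + 1, 2 * (s + 5) + 1, 2 * (s + 7) + 1]]

def L8 (s : ℕ) : List ℕ := [s, s + 1, s + 2, s + 3, s + 4, s + 5, s + 6, s + 7]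

noncomputable def Th (s : ℕ) (a b c d p : H) (m : H → R) : ℚ :=
  ev ME (L8 s) m (PV (thn s a b c d p))

noncomputable def Kh (s : ℕ) (p a b c d : H) (m : H → R) : ℚ :=
  alt4 (fun a b c d => Th s a b c d p m) a b c d

theorem decH_e (n : ℕ) : decH (2 * n) = (n, false) := by
  unfold decH
  have h1 : 2 * n / 2 = n := by omega
  have h2 : 2 * n % 2 = 0 := by omega
  rw [h1, h2]; rfl
theorem decH_o (n : ℕ) : decH (2 * n + 1) = (n, true) := by
  unfold decH
  have h1 : (2 * n + 1) / 2 = n := by omega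
  have h2 : (2 * n + 1) % 2 = 1 := by omega
  rw [h1, h2]; rfl

theorem PV_coe (N : List (List H)) (m : H → R) :
    PV (N : Multiset (List H)) m = (N.map (fun r => vt (r.map m))).prod := by
  unfold PV; rw [Multiset.map_coe, Multiset.prod_coe]

theorem PV_thn (s a b c d p : ℕ) (m : H → R) :
    PV (thn s (decH a) (decH b) (decH c) (decH d) (decH p)) m = sP m (exV (thC2 s a b c d p)) := by
  rw [exV_spec]
  unfold thn thC2
  rw [PV_coe]
  simp only [List.map_cons, List.map_nil, decH_e, decH_o]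

def sub5 (a b c d p n : ℕ) : ℕ :=
  match Nat.beq n 200 with
  | true => a
  | false =>
    match Nat.beq n 202 with
    | true => b
    | false =>
      match Nat.beq n 204 with
      | true => c
      | false =>
        match Nat.beq n 206 with
        | true => d
        | false => p

def sbP (σ : ℕ → ℕ) (P : TP) : TP := P.map (fun t => (t.1, t.2.map (List.map σ)))

def l5 : List ℕ := [200, 202, 204, 206, 208]

def ltP (P : TP) : Bool := P.all (fun t => t.2.all (fun u => u.all (fun n => l5.contains n)))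

theorem sb_spec {P : TP} (h : ltP P = true) {σ : ℕ → ℕ} {m m' : H → R}
    (hm : ∀ n ∈ l5, m (decH (σ n)) = m' (decH n)) : sP m (sbP σ P) = sP m' P := by
  induction P with
  | nil => rfl
  | cons t P ih =>
    unfold ltP at h
    rw [List.all_cons, Bool.and_eq_true] at h
    have h1 : sP m (sbP σ P) = sP m' P := ih h.2
    show sP m ((t.1, t.2.map (List.map σ)) :: sbP σ P) = _
    rw [sP_cons, sP_cons, h1]
    congr 2
    have h2 := h.1
    simp only
    unfold sW
    rw [List.map_map]
    congr 1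
    apply List.map_congr_left
    intro u hu
    simp only [Function.comp]
    unfold wd pr
    rw [List.map_map]
    congr 2
    apply List.map_congr_left
    intro n hn
    simp only [Function.comp]
    apply hm
    rw [List.all_eq_true] at h2
    have h3 := h2 u hu
    rw [List.all_eq_true] at h3
    have h4 := h3 n hn
    simpa using h4

def mm (m : H → R) (a b c d p : H) : H → R := fun h =>
  if h = (100, false) then m a else if h = (101, false) then m b else
    if h = (102, false) then m c else if h = (103, false) then m d else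
      if h = (104, false) then m p else m h

theorem ev_rel {ι : Type} [Fintype ι] (M : ι → Bool → R) {T T' : (H → R) → ℚ} :
    ∀ (L : List ℕ) (m m' : H → R),
      (∀ m1 m1' : H → R, (∀ h : H, h.1 ∈ L → m1 h = m1' h) → (∀ h : H, h.1 ∉ L → m1 h = m h) →
        (∀ h : H, h.1 ∉ L → m1' h = m' h) → T m1 = T' m1') → ev M L m T = ev M L m' T' := by
  intro L
  induction L with
  | nil => intro m m' h; exact h m m' (fun h hh => by simp at hh) (fun _ _ => rfl) (fun _ _ => rfl)
  | cons l L ih =>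
    intro m m' h
    simp only [ev]
    apply Finset.sum_congr rfl
    intro s _
    apply ih
    intro m1 m1' h1 h2 h3
    apply h
    · intro k hk
      by_cases hkL : k.1 ∈ L
      · exact h1 k hkL
      · have hkl : k.1 = l := by
          rcases List.mem_cons.1 hk with e | e
          · exact e
          · exact absurd e hkL
        rw [h2 k hkL, h3 k hkL]
        unfold upd
        rw [if_pos hkl, if_pos hkl]
    · intro k hk
      rw [h2 k (fun e => hk (by simp [e]))]
      unfold upd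
      rw [if_neg (fun e => hk (by simp [e]))]
    · intro k hk
      rw [h3 k (fun e => hk (by simp [e]))]
      unfold upd
      rw [if_neg (fun e => hk (by simp [e]))]

theorem Th_gen {s : ℕ} (hs : s + 7 < 100) {a b c d p : H} (ha : a.1 ∉ L8 s) (hb : b.1 ∉ L8 s)
    (hc : c.1 ∉ L8 s) (hd : d.1 ∉ L8 s) (hp : p.1 ∉ L8 s) (m : H → R) :
    Th s a b c d p m
      = Th s (100, false) (101, false) (102, false) (103, false) (104, false) (mm m a b c d p) := by
  unfold Th
  apply ev_rel
  intro m1 m1' h1 h2 h3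
  have i : ∀ (k : ℕ) (e : Bool), k ∈ L8 s → m1 (k, e) = m1' (k, e) := fun k e hk => h1 (k, e) hk
  have n : ∀ k : ℕ, 100 ≤ k → k ∉ L8 s := by
    intro k hk h
    unfold L8 at h
    simp only [List.mem_cons, List.not_mem_nil, or_false] at h
    omega
  have ea : m1 a = m1' (100, false) := by
    rw [h2 a ha, h3 _ (n 100 (by norm_num))]; simp [mm]
  have eb : m1 b = m1' (101, false) := by
    rw [h2 b hb, h3 _ (n 101 (by norm_num))]; simp [mm]
  have ec : m1 c = m1' (102, false) := by
    rw [h2 c hc, h3 _ (n 102 (by norm_num))]; simp [mm]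
  have ed : m1 d = m1' (103, false) := by
    rw [h2 d hd, h3 _ (n 103 (by norm_num))]; simp [mm]
  have ep : m1 p = m1' (104, false) := by
    rw [h2 p hp, h3 _ (n 104 (by norm_num))]; simp [mm]
  unfold thn
  rw [PV_coe, PV_coe]
  simp only [List.map_cons, List.map_nil, ea, eb, ec, ed, ep]
  rw [i s false (by simp [L8]), i s true (by simp [L8]), i (s + 1) false (by simp [L8]),
    i (s + 1) true (by simp [L8]), i (s + 2) false (by simp [L8]), i (s + 2) true (by simp [L8]),
    i (s + 3) false (by simp [L8]), i (s + 3) true (by simp [L8]), i (s + 4) false (by simp [L8]),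
    i (s + 4) true (by simp [L8]), i (s + 5) false (by simp [L8]), i (s + 5) true (by simp [L8]),
    i (s + 6) false (by simp [L8]), i (s + 6) true (by simp [L8]), i (s + 7) false (by simp [L8]),
    i (s + 7) true (by simp [L8])]

def chkT (s : ℕ) : Bool :=
  match ctA (L8 s) (exV (thC2 s 200 202 204 206 208)) with
  | none => false
  | some Q => eqP Q thg

theorem Th_thg {s : ℕ} (h : chkT s = true) (m : H → R) :
    Th s (100, false) (101, false) (102, false) (103, false) (104, false) m = sP m thg := by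
  unfold chkT at h
  cases hq : ctA (L8 s) (exV (thC2 s 200 202 204 206 208)) with
  | none => rw [hq] at h; simp at h
  | some Q =>
    rw [hq] at h
    rw [← eqP_spec h m, ← ctA_spec m hq]
    unfold Th
    apply ev_congr
    intro m
    exact PV_thn s 200 202 204 206 208 m

def kAg : TP :=
  sbP (sub5 200 202 204 206 208) thg ++ (smP (-1) (sbP (sub5 200 202 206 204 208) thg) ++ (smP
  (-1) (sbP (sub5 200 204 202 206 208) thg) ++ (sbP (sub5 200 204 206 202 208) thg ++ (sbP (sub5
  200 206 202 204 208) thg ++ (smP (-1) (sbP (sub5 200 206 204 202 208) thg) ++ (smP (-1) (sbP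
  (sub5 202 200 204 206 208) thg) ++ (sbP (sub5 202 200 206 204 208) thg ++ (sbP (sub5 202 204
  200 206 208) thg ++ (smP (-1) (sbP (sub5 202 204 206 200 208) thg) ++ (smP (-1) (sbP (sub5 202
  206 200 204 208) thg) ++ (sbP (sub5 202 206 204 200 208) thg ++ (sbP (sub5 204 200 202 206 208)
  thg ++ (smP (-1) (sbP (sub5 204 200 206 202 208) thg) ++ (smP (-1) (sbP (sub5 204 202 200 206
  208) thg) ++ (sbP (sub5 204 202 206 200 208) thg ++ (sbP (sub5 204 206 200 202 208) thg ++ (smP
  (-1) (sbP (sub5 204 206 202 200 208) thg) ++ (smP (-1) (sbP (sub5 206 200 202 204 208) thg) ++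
  (sbP (sub5 206 200 204 202 208) thg ++ (sbP (sub5 206 202 200 204 208) thg ++ (smP (-1) (sbP
  (sub5 206 202 204 200 208) thg) ++ (smP (-1) (sbP (sub5 206 204 200 202 208) thg) ++ (sbP (sub5
  206 204 202 200 208) thg)))))))))))))))))))))))

theorem lt_thg : ltP thg = true := by decide +kernel
theorem lt_kpg : ltP kpg = true := by decide +kernel
theorem kAg_eq : eqP kAg kpg = true := by decide +kernel
theorem chkT20 : chkT 20 = true := by decide +kernel
theorem chkT40 : chkT 40 = true := by decide +kernel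

theorem mm_perm (m : H → R) (a b c d p : H) {x y z t : H} (i j k l : ℕ)
    (hx : mm m a b c d p (decH i) = m x) (hy : mm m a b c d p (decH j) = m y)
    (hz : mm m a b c d p (decH k) = m z) (ht : mm m a b c d p (decH l) = m t) :
    sP (mm m x y z t p) thg = sP (mm m a b c d p) (sbP (sub5 i j k l 208) thg) := by
  symm
  refine sb_spec lt_thg ?_
  intro n hn
  unfold l5 at hn
  simp only [List.mem_cons, List.not_mem_nil, or_false] at hn
  rcases hn with rfl | rfl | rfl | rfl | rfl
  · exact hx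
  · exact hy
  · exact hz
  · exact ht
  · have e : sub5 i j k l 208 208 = 208 := rfl
    rw [e]
    show mm m a b c d p (104, false) = mm m x y z t p (104, false)
    simp [mm]

theorem Kh_gen {s : ℕ} (hs : s + 7 < 100) (hT : chkT s = true) {a b c d p : H}
    (ha : a.1 ∉ L8 s) (hb : b.1 ∉ L8 s)
    (hc : c.1 ∉ L8 s) (hd : d.1 ∉ L8 s) (hp : p.1 ∉ L8 s) (m : H → R) :
    Kh s p a b c d m = sP (mm m a b c d p) kpg := by
  have t : ∀ x y z t : H, x.1 ∉ L8 s → y.1 ∉ L8 s → z.1 ∉ L8 s → t.1 ∉ L8 s →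
      Th s x y z t p m = sP (mm m x y z t p) thg := by
    intro x y z t hx hy hz ht
    rw [Th_gen hs hx hy hz ht hp, Th_thg hT]
  have e0 : mm m a b c d p (decH 200) = m a := rfl
  have e1 : mm m a b c d p (decH 202) = m b := rfl
  have e2 : mm m a b c d p (decH 204) = m c := rfl
  have e3 : mm m a b c d p (decH 206) = m d := rfl
  rw [← eqP_spec kAg_eq]
  unfold Kh alt4 kAg
  simp only [sP_append, smP_spec]
  rw [t a b c d ha hb hc hd,
    t a b d c ha hb hd hc,
    t a c b d ha hc hb hd,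
    t a c d b ha hc hd hb,
    t a d b c ha hd hb hc,
    t a d c b ha hd hc hb,
    t b a c d hb ha hc hd,
    t b a d c hb ha hd hc,
    t b c a d hb hc ha hd,
    t b c d a hb hc hd ha,
    t b d a c hb hd ha hc,
    t b d c a hb hd hc ha,
    t c a b d hc ha hb hd,
    t c a d b hc ha hd hb,
    t c b a d hc hb ha hd,
    t c b d a hc hb hd ha,
    t c d a b hc hd ha hb,
    t c d b a hc hd hb ha,
    t d a b c hd ha hb hc,
    t d a c b hd ha hc hb,
    t d b a c hd hb ha hc,
    t d b c a hd hb hc ha,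
    t d c a b hd hc ha hb,
    t d c b a hd hc hb ha]
  rw [mm_perm m a b c d p 200 202 204 206 e0 e1 e2 e3,
    mm_perm m a b c d p 200 202 206 204 e0 e1 e3 e2,
    mm_perm m a b c d p 200 204 202 206 e0 e2 e1 e3,
    mm_perm m a b c d p 200 204 206 202 e0 e2 e3 e1,
    mm_perm m a b c d p 200 206 202 204 e0 e3 e1 e2,
    mm_perm m a b c d p 200 206 204 202 e0 e3 e2 e1,
    mm_perm m a b c d p 202 200 204 206 e1 e0 e2 e3,
    mm_perm m a b c d p 202 200 206 204 e1 e0 e3 e2,
    mm_perm m a b c d p 202 204 200 206 e1 e2 e0 e3,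
    mm_perm m a b c d p 202 204 206 200 e1 e2 e3 e0,
    mm_perm m a b c d p 202 206 200 204 e1 e3 e0 e2,
    mm_perm m a b c d p 202 206 204 200 e1 e3 e2 e0,
    mm_perm m a b c d p 204 200 202 206 e2 e0 e1 e3,
    mm_perm m a b c d p 204 200 206 202 e2 e0 e3 e1,
    mm_perm m a b c d p 204 202 200 206 e2 e1 e0 e3,
    mm_perm m a b c d p 204 202 206 200 e2 e1 e3 e0,
    mm_perm m a b c d p 204 206 200 202 e2 e3 e0 e1,
    mm_perm m a b c d p 204 206 202 200 e2 e3 e1 e0,
    mm_perm m a b c d p 206 200 202 204 e3 e0 e1 e2,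
    mm_perm m a b c d p 206 200 204 202 e3 e0 e2 e1,
    mm_perm m a b c d p 206 202 200 204 e3 e1 e0 e2,
    mm_perm m a b c d p 206 202 204 200 e3 e1 e2 e0,
    mm_perm m a b c d p 206 204 200 202 e3 e2 e0 e1,
    mm_perm m a b c d p 206 204 202 200 e3 e2 e1 e0]
  push_cast
  ring

theorem Kh_val {s : ℕ} (hs : s + 7 < 100) (hT : chkT s = true) {a b c d p : ℕ}
    (ha : (decH a).1 ∉ L8 s) (hb : (decH b).1 ∉ L8 s)
    (hc : (decH c).1 ∉ L8 s) (hd : (decH d).1 ∉ L8 s) (hp : (decH p).1 ∉ L8 s) (m : H → R) :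
    Kh s (decH p) (decH a) (decH b) (decH c) (decH d) m = sP m (sbP (sub5 a b c d p) kpg) := by
  rw [Kh_gen hs hT ha hb hc hd hp]
  symm
  refine sb_spec lt_kpg ?_
  intro n hn
  unfold l5 at hn
  simp only [List.mem_cons, List.not_mem_nil, or_false] at hn
  rcases hn with rfl | rfl | rfl | rfl | rfl <;> rfl

theorem ev_mul_indep {ι : Type} [Fintype ι] (M : ι → Bool → R) {X : (H → R) → ℚ}
    (T : (H → R) → ℚ) : ∀ (L : List ℕ) (m : H → R),
      (∀ m m' : H → R, (∀ h : H, h.1 ∉ L → m h = m' h) → X m = X m') →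
      ev M L m (fun m => X m * T m) = X m * ev M L m T := by
  intro L
  induction L with
  | nil => intro m _; rfl
  | cons l L ih =>
    intro m hX
    simp only [ev]
    rw [Finset.mul_sum]
    apply Finset.sum_congr rfl
    intro s _
    rw [ih _ (fun m m' h => hX m m' (fun k hk => h k (fun e => hk (by simp [e]))))]
    congr 1
    apply hX
    intro k hk
    unfold upd
    rw [if_neg (fun e => hk (by simp [e]))]

theorem ev_alt4 {α : Type} {ι : Type} [Fintype ι] (M : ι → Bool → R) (L : List ℕ) (m : H → R)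
    (G : α → α → α → α → (H → R) → ℚ) (a b c d : α) :
    ev M L m (fun m => alt4 (fun a b c d => G a b c d m) a b c d)
      = alt4 (fun a b c d => ev M L m (G a b c d)) a b c d := by
  unfold alt4
  simp only [ev_add, ev_sub]

theorem ev_alt3 {α : Type} {ι : Type} [Fintype ι] (M : ι → Bool → R) (L : List ℕ) (m : H → R)
    (G : α → α → α → (H → R) → ℚ) (a b c : α) :
    ev M L m (fun m => alt3 (fun a b c => G a b c m) a b c)
      = alt3 (fun a b c => ev M L m (G a b c)) a b c := by
  unfold alt3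
  simp only [ev_add, ev_sub]

theorem len_thn (s : ℕ) (a b c d p : H) : ∀ r ∈ thn s a b c d p, r.length = 3 := by
  intro r hr
  unfold thn at hr
  simp only [Multiset.mem_coe, List.mem_cons, List.not_mem_nil, or_false] at hr
  rcases hr with rfl | rfl | rfl | rfl | rfl | rfl | rfl <;> rfl

theorem fh_val {w : List H} {p1 p2 y1 y2 y3 : H} {S1 S2 C : Multiset H} {Lo : List ℕ}
    {a b c d a' b' c' d' : H}
    (h1 : ({a} + {b} + {c} + {d} : Multiset H) = S1) (h2 : ({a'} + {b'} + {c'} + {d'} : Multiset H) = S2)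
    (hR : Rch (w : Multiset H) (thn 20 a b c d p1 + ([y1, y2, y3] ::ₘ thn 40 a' b' c' d' p2)))
    (hC : C = (S1 + {p1} + intl 20) + ({y1} + {y2} + {y3} + (S2 + {p2} + intl 40)))
    (hN : ((w : Multiset H) + C).Nodup) (hcl : ∀ h ∈ (w : Multiset H) + C, pt h ∈ (w : Multiset H) + C)
    (hLn : (Lo ++ (L8 20 ++ L8 40)).Nodup) (hL1' : ∀ l ∈ Lo ++ (L8 20 ++ L8 40), l ∈ C.map Prod.fst)
    (hL2 : ∀ h ∈ (w : Multiset H) + C, h.1 ∈ Lo ++ (L8 20 ++ L8 40))
    (k1 : ∀ h ∈ (w : Multiset H) + (S1 + {p1}) + ({y1} + {y2} + {y3}) + (S2 + {p2}), h.1 < 20) :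
    fh gg w (thn 20 a b c d p1 + ([y1, y2, y3] ::ₘ thn 40 a' b' c' d' p2))
      = ev ME Lo (fun _ => 1) (fun m => TW w m * (vt [m y1, m y2, m y3] *
        (Th 20 a b c d p1 m * Th 40 a' b' c' d' p2 m))) := by
  have hL1 : ∀ l ∈ Lo ++ (L8 20 ++ L8 40), ∃ h ∈ C, h.1 = l := fun l hl =>
    Multiset.mem_map.1 (hL1' l hl)
  set V := thn 20 a b c d p1 + ([y1, y2, y3] ::ₘ thn 40 a' b' c' d' p2) with hV
  have eV : fl V = C := by
    rw [hV, fl_add, fl_cons, fl_thn, fl_thn, h1, h2, hC]
    rfl
  have hnod : Nod w V := by unfold Nod; rw [eV]; exact hN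
  rw [fh_sem hR w rfl hnod (by rw [eV]; exact hcl) (Lo ++ (L8 20 ++ L8 40)) hLn
    (by
      intro l
      rw [eV]
      constructor
      · intro hl
        obtain ⟨h, hh, e⟩ := hL1 l hl
        exact ⟨h, Multiset.mem_add.2 (Or.inr hh), e⟩
      · rintro ⟨h, hh, rfl⟩
        exact hL2 h hh) (fun _ => 1)]
  have hlen : ∀ r ∈ V, r.length = 3 := by
    intro r hr
    rw [hV, Multiset.mem_add, Multiset.mem_cons] at hr
    rcases hr with hr | rfl | hr
    · exact len_thn _ _ _ _ _ _ r hr
    · rfl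
    · exact len_thn _ _ _ _ _ _ r hr
  rw [ev_ME _ hLn (fun l hl m hm => TS_scal hlen (by rw [eV]; exact hL1 l hl) hm)]
  rw [ev_append]
  apply ev_congr
  intro m
  rw [ev_append]
  have l20 : ∀ n, n ∈ L8 20 ↔ 20 ≤ n ∧ n < 28 := by
    intro n; unfold L8; simp only [List.mem_cons, List.not_mem_nil, or_false]; omega
  have l40 : ∀ n, n ∈ L8 40 ↔ 40 ≤ n ∧ n < 48 := by
    intro n; unfold L8; simp only [List.mem_cons, List.not_mem_nil, or_false]; omega
  have wl : ∀ h ∈ w, h.1 < 20 := fun h hh => k1 h (by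
    simp only [Multiset.mem_add, Multiset.mem_coe]; tauto)
  have sl1 : ∀ h ∈ S1 + {p1}, h.1 < 20 := fun h hh => k1 h (by
    simp only [Multiset.mem_add] at hh ⊢; tauto)
  have sly : ∀ h ∈ ({y1} + {y2} + {y3} : Multiset H), h.1 < 20 := fun h hh => k1 h (by
    simp only [Multiset.mem_add] at hh ⊢; tauto)
  have sl2 : ∀ h ∈ S2 + {p2}, h.1 < 20 := fun h hh => k1 h (by
    simp only [Multiset.mem_add] at hh ⊢; tauto)
  have int20 : ∀ h ∈ intl 20, 20 ≤ h.1 ∧ h.1 < 28 := by decide
  have int40 : ∀ h ∈ intl 40, 40 ≤ h.1 ∧ h.1 < 48 := by decide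
  have y1l := sly y1 (by simp)
  have y2l := sly y2 (by simp)
  have y3l := sly y3 (by simp)
  have c20 : ∀ h ∈ fl (thn 20 a b c d p1), h.1 < 20 ∨ (20 ≤ h.1 ∧ h.1 < 28) := by
    intro h hh
    rw [fl_thn, h1, Multiset.mem_add] at hh
    rcases hh with hh | hh
    · exact Or.inl (sl1 h hh)
    · exact Or.inr (int20 h hh)
  have c40 : ∀ h ∈ fl (thn 40 a' b' c' d' p2), h.1 < 20 ∨ (40 ≤ h.1 ∧ h.1 < 48) := by
    intro h hh
    rw [fl_thn, h2, Multiset.mem_add] at hh
    rcases hh with hh | hh
    · exact Or.inl (sl2 h hh)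
    · exact Or.inr (int40 h hh)
  have i40 : ∀ m m' : H → R, (∀ h : H, h.1 ∉ L8 40 → m h = m' h) →
      (TW w m * vt [m y1, m y2, m y3]) * PV (thn 20 a b c d p1) m
        = (TW w m' * vt [m' y1, m' y2, m' y3]) * PV (thn 20 a b c d p1) m' := by
    intro m m' hm
    have q : ∀ h : H, h.1 < 20 → m h = m' h := fun h hh => hm h (by rw [l40]; omega)
    rw [TW_congr (fun k hk => q k (wl k hk)), q y1 y1l, q y2 y2l, q y3 y3l,
      PV_congr (fun k hk => hm k (by
        rw [l40]
        rcases c20 k hk with h | h <;> omega))]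
  have i20 : ∀ m m' : H → R, (∀ h : H, h.1 ∉ L8 20 → m h = m' h) →
      (TW w m * vt [m y1, m y2, m y3]) * Th 40 a' b' c' d' p2 m
        = (TW w m' * vt [m' y1, m' y2, m' y3]) * Th 40 a' b' c' d' p2 m' := by
    intro m m' hm
    have q : ∀ h : H, h.1 < 20 → m h = m' h := fun h hh => hm h (by rw [l20]; omega)
    have e3 : Th 40 a' b' c' d' p2 m = Th 40 a' b' c' d' p2 m' := by
      unfold Th
      refine ev_dep ME (D := fun n => n < 20 ∨ (40 ≤ n ∧ n < 48)) ?_ _ _ _ ?_
      · intro m1 m2 h12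
        exact PV_congr (fun k hk => h12 k (c40 k hk))
      · intro h hh hn
        apply hm
        rw [l20]; omega
    rw [TW_congr (fun k hk => q k (wl k hk)), q y1 y1l, q y2 y2l, q y3 y3l, e3]
  have e1 : TS w V = fun m => ((TW w m * vt [m y1, m y2, m y3]) * PV (thn 20 a b c d p1) m)
        * PV (thn 40 a' b' c' d' p2) m := by
    funext m
    unfold TS
    rw [hV, PV_add, PV_cons]
    simp only [List.map_cons, List.map_nil]
    ring
  have step1 : ∀ m : H → R, ev ME (L8 40) m (TS w V)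
      = ((TW w m * vt [m y1, m y2, m y3]) * Th 40 a' b' c' d' p2 m) * PV (thn 20 a b c d p1) m := by
    intro m
    rw [e1]
    refine (ev_mul_indep ME (X := fun m => (TW w m * vt [m y1, m y2, m y3])
      * PV (thn 20 a b c d p1) m) (PV (thn 40 a' b' c' d' p2)) (L8 40) m i40).trans ?_
    show _ = ((TW w m * vt [m y1, m y2, m y3]) * ev ME (L8 40) m (PV (thn 40 a' b' c' d' p2)))
      * PV (thn 20 a b c d p1) m
    generalize ev ME (L8 40) m (PV (thn 40 a' b' c' d' p2)) = Z
    ring
  refine (ev_congr ME (L8 20) m step1).trans ?_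
  refine (ev_mul_indep ME (X := fun m => (TW w m * vt [m y1, m y2, m y3])
      * Th 40 a' b' c' d' p2 m) (PV (thn 20 a b c d p1)) (L8 20) m i20).trans ?_
  show ((TW w m * vt [m y1, m y2, m y3]) * Th 40 a' b' c' d' p2 m) * Th 20 a b c d p1 m = _
  ring

end CA247
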