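import Pool.Agent.CA247.Val

set_option autoImplicit false

namespace CA247

theorem alt_fact (X Y : ℚ) (f g : H → H → H → H → ℚ) (a1 b1 c1 d1 a2 b2 c2 d2 : H) :
    alt4 (fun a' b' c' d' => alt4 (fun a b c d => X * (Y * (f a b c d * g a' b' c' d')))
      a1 b1 c1 d1) a2 b2 c2 d2 = X * (Y * (alt4 f a1 b1 c1 d1 * alt4 g a2 b2 c2 d2)) := by
  have : ∀ a' b' c' d' : H, alt4 (fun a b c d => X * (Y * (f a b c d * g a' b' c' d'))) a1 b1 c1 d1
      = (X * Y * alt4 f a1 b1 c1 d1) * g a' b' c' d' := by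
    intro a' b' c' d'
    unfold alt4; ring
  simp only [this]
  rw [alt4_smul]; ring

theorem KK_val {w : List H} {p1 a1 b1 c1 d1 p2 a2 b2 c2 d2 y1 y2 y3 : H} {C : Multiset H}
    {Lo : List ℕ}
    (hR : ∀ a b c d a' b' c' d' : H, ({a} + {b} + {c} + {d} : Multiset H) = {a1} + {b1} + {c1} + {d1} →
      ({a'} + {b'} + {c'} + {d'} : Multiset H) = {a2} + {b2} + {c2} + {d2} →
      Rch (w : Multiset H) (thn 20 a b c d p1 + ([y1, y2, y3] ::ₘ thn 40 a' b' c' d' p2)))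
    (hC : C = (({a1} + {b1} + {c1} + {d1}) + {p1} + intl 20)
      + ({y1} + {y2} + {y3} + (({a2} + {b2} + {c2} + {d2}) + {p2} + intl 40)))
    (hN : ((w : Multiset H) + C).Nodup) (hcl : ∀ h ∈ (w : Multiset H) + C, pt h ∈ (w : Multiset H) + C)
    (hLn : (Lo ++ (L8 20 ++ L8 40)).Nodup) (hL1 : ∀ l ∈ Lo ++ (L8 20 ++ L8 40), l ∈ C.map Prod.fst)
    (hL2 : ∀ h ∈ (w : Multiset H) + C, h.1 ∈ Lo ++ (L8 20 ++ L8 40))
    (k1 : ∀ h ∈ (w : Multiset H) + (({a1} + {b1} + {c1} + {d1}) + {p1}) + ({y1} + {y2} + {y3})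
      + (({a2} + {b2} + {c2} + {d2}) + {p2}), h.1 < 20) :
    KK gg w p1 a1 b1 c1 d1 p2 a2 b2 c2 d2 y1 y2 y3
      = ev ME Lo (fun _ => 1) (fun m => TW w m * (vt [m y1, m y2, m y3] *
        (Kh 20 p1 a1 b1 c1 d1 m * Kh 40 p2 a2 b2 c2 d2 m))) := by
  have e1 : KK gg w p1 a1 b1 c1 d1 p2 a2 b2 c2 d2 y1 y2 y3
      = alt4 (fun a' b' c' d' => alt4 (fun a b c d => ev ME Lo (fun _ => 1) (fun m => TW w m *
        (vt [m y1, m y2, m y3] * (Th 20 a b c d p1 m * Th 40 a' b' c' d' p2 m)))) a1 b1 c1 d1)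
        a2 b2 c2 d2 := by
    unfold KK Kv
    refine alt4_congrM ?_
    intro a' b' c' d' h2
    refine alt4_congrM ?_
    intro a b c d h1
    exact fh_val h1 h2 (hR a b c d a' b' c' d' h1 h2) hC hN hcl hLn hL1 hL2 k1
  rw [e1]
  have e2 : ∀ a' b' c' d' : H, alt4 (fun a b c d => ev ME Lo (fun _ => 1) (fun m => TW w m *
        (vt [m y1, m y2, m y3] * (Th 20 a b c d p1 m * Th 40 a' b' c' d' p2 m)))) a1 b1 c1 d1
      = ev ME Lo (fun _ => 1) (fun m => alt4 (fun a b c d => TW w m *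
        (vt [m y1, m y2, m y3] * (Th 20 a b c d p1 m * Th 40 a' b' c' d' p2 m))) a1 b1 c1 d1) :=
    fun a' b' c' d' => (ev_alt4 ME Lo _ _ _ _ _ _).symm
  simp only [e2]
  refine (ev_alt4 ME Lo (fun _ => 1) (fun a' b' c' d' m => alt4 (fun a b c d => TW w m *
        (vt [m y1, m y2, m y3] * (Th 20 a b c d p1 m * Th 40 a' b' c' d' p2 m))) a1 b1 c1 d1)
        a2 b2 c2 d2).symm.trans ?_
  apply ev_congr
  intro m
  exact alt_fact (TW w m) (vt [m y1, m y2, m y3]) (fun a b c d => Th 20 a b c d p1 m)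
    (fun a b c d => Th 40 a b c d p2 m) a1 b1 c1 d1 a2 b2 c2 d2

end CA247
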